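import Mathlib

set_option autoImplicit false
open Set Filter Topology
open scoped Manifold ContDiff

namespace Pool.Agent.Helper874.Odd

/-- points `(x, y, p, r)` of four-space -/
abbrev V : Type := ℝ × ℝ × ℝ × ℝ

/-- smooth, decreasing, `bet 0 = 1`, `bet d = 0` iff `1/16 ≤ d`, convex on `[0,∞)` -/
noncomputable def bet (d : ℝ) : ℝ := expNegInvGlue (1 / 16 - d) * Real.exp 16

/-- inverse of `bet : [0,1/16] → [0,1]` -/
noncomputable def iot (y : ℝ) : ℝ := if y = 0 then 1 / 16 else 1 / 16 - 1 / (16 - Real.log y)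

/-- the neck profile: `bet (qf P) = 1 - bet P` for `P > 0` -/
noncomputable def qf (P : ℝ) : ℝ := 1 / 16 - 1 / (16 - Real.log (1 - bet P))

/-- smooth odd increasing function, `-1` for `t ≤ -1/16` and `1` for `1/16 ≤ t` -/
noncomputable def gg (t : ℝ) : ℝ := 2 * Real.smoothTransition ((t + 1 / 16) * 8) - 1

/-- smooth even convex function, equal to `|t|` for `1/16 ≤ |t|` -/
noncomputable def mm (t : ℝ) : ℝ := 1 / 16 - ∫ u in t..(1 / 16 : ℝ), gg u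

/-- smooth even, zero iff `|x| ≤ 15/16`, one iff `|x| = 1` -/
noncomputable def alp (x : ℝ) : ℝ := bet (1 - x) + bet (1 + x)

/-- `1` on the blue sides `p = 1`, `r = 1`, `p + r = -1` of the hexagon -/
noncomputable def Bf (p r : ℝ) : ℝ := bet (1 - p) + bet (1 - r) + bet (1 + p + r)

/-- `1` on the red sides `p = -1`, `r = -1`, `p + r = 1` of the hexagon -/
noncomputable def Rf (p r : ℝ) : ℝ := bet (1 + p) + bet (1 + r) + bet (1 - p - r)

noncomputable def G1 (v : V) : ℝ := alp v.1 + Bf v.2.2.1 v.2.2.2 - 1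
noncomputable def G2 (v : V) : ℝ := alp v.2.1 + Rf v.2.2.1 v.2.2.2 - 1

/-- the tight surface of genus two (square times hexagon) -/
def M0 : Set V := {v | G1 v = 0 ∧ G2 v = 0}

noncomputable def kA (v : V) : ℝ := mm (v.1 + 1 / 4) + mm v.2.1
noncomputable def kB (v : V) : ℝ := mm (v.1 - 1 / 4) + mm v.2.1
noncomputable def PsA (v : V) : ℝ := alp v.2.2.1 + bet (kA v - 1 / 2) - 1
noncomputable def PsB (v : V) : ℝ := alp v.2.2.2 + bet (kB v - 1 / 2) - 1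

/-- the tube A, in the three-space `r = 0` -/
def SA : Set V := {v | v.2.2.2 = 0 ∧ kA v ≤ 9 / 16 ∧ PsA v = 0}
/-- the tube B, in the three-space `p = 0` -/
def SB : Set V := {v | v.2.2.1 = 0 ∧ kB v ≤ 9 / 16 ∧ PsB v = 0}

/-- two open discs of `M0` replaced by the tube A -/
def DiA : Set V := {v | v.2.2.2 = 0 ∧ |v.2.2.1| = 1 ∧ kA v < 9 / 16}
/-- two open discs of `M0` replaced by the tube B -/
def DiB : Set V := {v | v.2.2.1 = 0 ∧ |v.2.2.2| = 1 ∧ kB v < 9 / 16}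

noncomputable def X1 (v : V) : ℝ := v.1 + v.2.1 - 1 / 4
noncomputable def X2 (v : V) : ℝ := v.2.1 - v.1 - 1 / 4
noncomputable def nz (v : V) : ℝ := Real.sqrt (X2 v ^ 2 + v.2.2.1 ^ 2)
noncomputable def nw (v : V) : ℝ := Real.sqrt (X1 v ^ 2 + v.2.2.2 ^ 2)

/-- open disc of the tube A around the first crossing point -/
def DA : Set V := {v | X1 v = 0 ∧ v.2.2.2 = 0 ∧ nz v < 1 / 16}
/-- open disc of the tube B around the first crossing point -/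
def DB : Set V := {v | X2 v = 0 ∧ v.2.2.1 = 0 ∧ nw v < 1 / 16}

/-- the neck resolving the first crossing point: `z w ≥ 0` where `z = X2 + i p`, `w = X1 + i r` -/
def SC : Set V := {v | ∃ P Q t : ℝ, 0 ≤ P ∧ 0 ≤ Q ∧ P ≤ 1 / 16 ∧ Q ≤ 1 / 16 ∧ bet P + bet Q = 1 ∧
  X2 v = P * Real.cos t ∧ v.2.2.1 = P * Real.sin t ∧ X1 v = Q * Real.cos t ∧
  v.2.2.2 = -(Q * Real.sin t)}

/-- the label separating the two sheets at the second crossing point `(0,-1/4,0,0)` -/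
noncomputable def lab (v : V) : ℝ := expNegInvGlue (-v.2.1) * expNegInvGlue (1 / 2 - v.2.2.1 ^ 2)

/-- the surface -/
def MM : Set (V × ℝ) := {m | (m.2 = 0 ∧ (m.1 ∈ M0 \ (DiA ∪ DiB) ∨ m.1 ∈ SB \ DB ∨ m.1 ∈ SC)) ∨
  (m.2 = lab m.1 ∧ m.1 ∈ SA \ DA)}

/-- linear functionals on four-space -/
def hh (l v : V) : ℝ := l.1 * v.1 + l.2.1 * v.2.1 + l.2.2.1 * v.2.2.1 + l.2.2.2 * v.2.2.2

/-- all closed superlevel sets of `hh l` on `S` are connected -/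
def Conn (S : Set V) (l : V) : Prop := ∀ c : ℝ, IsPreconnected {v | v ∈ S ∧ c ≤ hh l v}

/-- one can go from `a` to `b` inside `S` without going below the level of `a` -/
def Up (S : Set V) (l a b : V) : Prop :=
  ∃ T : Set V, T ⊆ S ∧ IsPreconnected T ∧ a ∈ T ∧ b ∈ T ∧ ∀ v ∈ T, hh l a ≤ hh l v

/-- the five kinds of local models -/
inductive Kd | Z | A | B | C | D

def Cb : Set V := {v | nz v ≤ 1 / 16 ∧ nw v ≤ 1 / 16}
def Abig : Set V := {v | v.2.2.2 = 0 ∧ |v.2.2.1| ≤ 1 ∧ kA v ≤ 9 / 16}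
def Bbig : Set V := {v | v.2.2.1 = 0 ∧ |v.2.2.2| ≤ 1 ∧ kB v ≤ 9 / 16}

/-- the domains of the local models -/
def Wk : Kd → Set (V × ℝ)
  | .Z => {m | m.1 ∉ Cb ∧ m.1 ∉ Abig ∧ m.1 ∉ Bbig}
  | .A => {m | kA m.1 < 5 / 8 ∧ |m.1.2.2.2| < 1 / 2 ∧ m.1 ∉ Cb ∧ ¬ (m.2 = 0 ∧ m.1 ∈ SB)}
  | .B => {m | kB m.1 < 5 / 8 ∧ |m.1.2.2.1| < 1 / 2 ∧ m.1 ∉ Cb ∧ ¬ (m.2 = lab m.1 ∧ m.1 ∈ SA)}
  | .C => {m | 0 < nz m.1 ∧ nz m.1 < 1 / 8 ∧ nw m.1 < 1 / 8}
  | .D => {m | 0 < nw m.1 ∧ nz m.1 < 1 / 8 ∧ nw m.1 < 1 / 8}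

/-- first defining function of the local models -/
noncomputable def F1 : Kd → V → ℝ
  | .Z => G1
  | .A => PsA
  | .B => PsB
  | .C => fun v => v.2.2.2 + qf (nz v) * v.2.2.1 / nz v
  | .D => fun v => v.2.2.1 + qf (nw v) * v.2.2.2 / nw v

/-- second defining function of the local models -/
noncomputable def F2 : Kd → V → ℝ
  | .Z => G2
  | .A => fun v => v.2.2.2
  | .B => fun v => v.2.2.1
  | .C => fun v => X1 v - qf (nz v) * X2 v / nz v
  | .D => fun v => X2 v - qf (nw v) * X1 v / nw v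

/-- the height of the sheet over the local models -/
noncomputable def bk : Kd → V → ℝ
  | .Z => fun _ => 0
  | .A => lab
  | .B => fun _ => 0
  | .C => fun _ => 0
  | .D => fun _ => 0

/-- the wedge product of two linear functionals -/
def Wedge (f g : V →L[ℝ] ℝ) (a c : V) : ℝ := f a * g c - f c * g a

/-- the hexagon -/
def Hex : Set (ℝ × ℝ) := {q | |q.1| ≤ 1 ∧ |q.2| ≤ 1 ∧ |q.1 + q.2| ≤ 1}
/-- the upper sheet in the `x` direction -/
noncomputable def xp (q : ℝ × ℝ) : ℝ := 1 - iot (1 - Bf q.1 q.2)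
/-- the upper sheet in the `y` direction -/
noncomputable def yp (q : ℝ × ℝ) : ℝ := 1 - iot (1 - Rf q.1 q.2)

/-- the cross-section curves of the tubes -/
def Gam (s : ℝ) : Set (ℝ × ℝ) := {w | mm w.1 + mm w.2 = s}

/-- the contraction of the volume form with `f ∧ g`: the coordinates of `f ∧ g` paired with the
complementary minors of `(a, c)` -/
noncomputable def Vol (f g : V →L[ℝ] ℝ) (a c : V) : ℝ :=
  Wedge f g (1, 0, 0, 0) (0, 1, 0, 0) * (a.2.2.1 * c.2.2.2 - a.2.2.2 * c.2.2.1)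
  - Wedge f g (1, 0, 0, 0) (0, 0, 1, 0) * (a.2.1 * c.2.2.2 - a.2.2.2 * c.2.1)
  + Wedge f g (1, 0, 0, 0) (0, 0, 0, 1) * (a.2.1 * c.2.2.1 - a.2.2.1 * c.2.1)
  + Wedge f g (0, 1, 0, 0) (0, 0, 1, 0) * (a.1 * c.2.2.2 - a.2.2.2 * c.1)
  - Wedge f g (0, 1, 0, 0) (0, 0, 0, 1) * (a.1 * c.2.2.1 - a.2.2.1 * c.1)
  + Wedge f g (0, 0, 1, 0) (0, 0, 0, 1) * (a.1 * c.2.1 - a.2.1 * c.1)

/-- the linear isomorphism with Euclidean four-space -/
noncomputable def toE : V →L[ℝ] EuclideanSpace ℝ (Fin 4) :=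
  (EuclideanSpace.equiv (Fin 4) ℝ).symm.toContinuousLinearMap.comp
    (ContinuousLinearMap.pi ![ContinuousLinearMap.fst ℝ ℝ (ℝ × ℝ × ℝ),
      (ContinuousLinearMap.fst ℝ ℝ (ℝ × ℝ)).comp (ContinuousLinearMap.snd ℝ ℝ (ℝ × ℝ × ℝ)),
      (ContinuousLinearMap.fst ℝ ℝ ℝ).comp ((ContinuousLinearMap.snd ℝ ℝ (ℝ × ℝ)).comp
        (ContinuousLinearMap.snd ℝ ℝ (ℝ × ℝ × ℝ))),
      (ContinuousLinearMap.snd ℝ ℝ ℝ).comp ((ContinuousLinearMap.snd ℝ ℝ (ℝ × ℝ)).comp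
        (ContinuousLinearMap.snd ℝ ℝ (ℝ × ℝ × ℝ)))])

end Pool.Agent.Helper874.Odd
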