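import Pool.Agent.Helper874.Odd.Base

set_option autoImplicit false
open Set Filter Topology
open scoped Manifold ContDiff

namespace Pool.Agent.Helper874.Odd

theorem bet_glue_pos {x : ℝ} (h : 0 < x) : expNegInvGlue x = Real.exp (-x⁻¹) := by
  unfold expNegInvGlue
  rw [if_neg (not_le.2 h)]

theorem bet_contDiff : ContDiff ℝ ∞ bet := by
  unfold bet
  exact ((expNegInvGlue.contDiff).comp (contDiff_const.sub contDiff_id)).mul contDiff_const
theorem bet_zero : bet 0 = 1 := by
  unfold bet
  rw [bet_glue_pos (by norm_num), ← Real.exp_add]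
  norm_num
theorem bet_nonneg (d : ℝ) : 0 ≤ bet d := by
  unfold bet
  exact mul_nonneg (expNegInvGlue.nonneg _) (Real.exp_pos _).le
theorem bet_eq_zero {d : ℝ} (h : 1 / 16 ≤ d) : bet d = 0 := by
  unfold bet
  rw [expNegInvGlue.zero_of_nonpos (by linarith), zero_mul]
theorem bet_pos {d : ℝ} (h : d < 1 / 16) : 0 < bet d := by
  unfold bet
  exact mul_pos (expNegInvGlue.pos_of_pos (by linarith)) (Real.exp_pos _)
theorem bet_strictAntiOn : StrictAntiOn bet (Iic (1 / 16)) := by
  intro a ha b hb hab
  simp only [mem_Iic] at ha hb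
  rcases eq_or_lt_of_le hb with h | h
  · rw [bet_eq_zero h.ge]
    exact bet_pos (by linarith)
  · unfold bet
    rw [bet_glue_pos (by linarith), bet_glue_pos (by linarith)]
    apply mul_lt_mul_of_pos_right _ (Real.exp_pos _)
    apply Real.exp_lt_exp.2
    apply neg_lt_neg
    rw [inv_lt_inv₀ (by linarith) (by linarith)]
    linarith
theorem bet_antitone : Antitone bet := by
  intro a b hab
  rcases le_or_gt (1 / 16) b with h | h
  · rw [bet_eq_zero h]
    exact bet_nonneg a
  · exact bet_strictAntiOn.antitoneOn (by simp only [mem_Iic]; linarith)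
      (by simp only [mem_Iic]; linarith) hab



end Pool.Agent.Helper874.Odd
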