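import Pool.Agent.Helper874.Odd.Base
import Pool.Agent.Helper874.Odd.Jbet1

set_option autoImplicit false
open Set Filter Topology
open scoped Manifold ContDiff

namespace Pool.Agent.Helper874.Odd

theorem hasDeriv_24234 {d : ℝ} (h : d < 1 / 16) :
    HasDerivAt bet (-((1 / 16 - d)⁻¹ ^ 2 * Real.exp (-(1 / 16 - d)⁻¹)) * Real.exp 16) d := by
  have hx : (1 / 16 - d) ≠ 0 := by
    intro h0
    linarith
  have h1 : HasDerivAt (fun d : ℝ => 1 / 16 - d) (-1) d := by
    exact (hasDerivAt_id d).const_sub (1 / 16)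
  have h2 := ((h1.fun_inv hx).fun_neg.exp).mul_const (Real.exp 16)
  have h3 : bet =ᶠ[𝓝 d] fun d => Real.exp (-(1 / 16 - d)⁻¹) * Real.exp 16 := by
    filter_upwards [Iio_mem_nhds h] with t ht
    unfold bet
    rw [expNegInvGlue, if_neg]
    have : t < 1 / 16 := ht
    linarith
  refine (h2.congr_of_eventuallyEq h3).congr_deriv ?_
  field_simp

theorem gmono_24234 (u v : ℝ) (hu : 2 ≤ u) (huv : u ≤ v) :
    v ^ 2 * Real.exp (-v) ≤ u ^ 2 * Real.exp (-u) := by
  have hu0 : 0 < u := by linarith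
  have h1 : v ≤ u * Real.exp ((v - u) / u) := by
    have h2 := Real.add_one_le_exp ((v - u) / u)
    have h3 : v = u * ((v - u) / u + 1) := by
      field_simp
      ring
    calc v = u * ((v - u) / u + 1) := h3
      _ ≤ _ := mul_le_mul_of_nonneg_left h2 hu0.le
  have h4 : v ^ 2 ≤ u ^ 2 * Real.exp (v - u) := by
    have h5 : v ^ 2 ≤ (u * Real.exp ((v - u) / u)) ^ 2 :=
      pow_le_pow_left₀ (by linarith) h1 2
    refine h5.trans ?_
    rw [mul_pow, ← Real.exp_nat_mul]
    refine mul_le_mul_of_nonneg_left (Real.exp_le_exp.2 ?_) (by positivity)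
    rw [mul_div_assoc', div_le_iff₀ hu0]
    push_cast
    nlinarith
  calc v ^ 2 * Real.exp (-v) ≤ u ^ 2 * Real.exp (v - u) * Real.exp (-v) :=
        mul_le_mul_of_nonneg_right h4 (Real.exp_nonneg _)
    _ = u ^ 2 * Real.exp (-u) := by
        rw [mul_assoc, ← Real.exp_add]
        congr 2
        ring

theorem bet_deriv_neg_24234 {d : ℝ} (h : d < 1 / 16) : deriv bet d < 0 := by
  rw [(hasDeriv_24234 h).deriv]
  have hx : 0 < (1 / 16 - d)⁻¹ := inv_pos.2 (by linarith)
  have h1 := Real.exp_pos (-(1 / 16 - d)⁻¹)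
  have h2 := Real.exp_pos 16
  have h3 : 0 < (1 / 16 - d)⁻¹ ^ 2 * Real.exp (-(1 / 16 - d)⁻¹) := by positivity
  nlinarith

theorem bet_deriv_zero_24234 {d : ℝ} (h : 1 / 16 ≤ d) : deriv bet d = 0 := by
  apply IsLocalMin.deriv_eq_zero
  refine Eventually.of_forall fun x => ?_
  rw [bet_eq_zero h]
  exact bet_nonneg x

theorem bet_convexOn : ConvexOn ℝ (Ici 0) bet := by
  refine MonotoneOn.convexOn_of_deriv (convex_Ici 0) bet_contDiff.continuous.continuousOn
    (bet_contDiff.differentiable (by simp)).differentiableOn ?_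
  rw [interior_Ici]
  intro a ha b hb hab
  rw [mem_Ioi] at ha hb
  rcases lt_or_ge b (1 / 16) with h | h
  · have ha' : a < 1 / 16 := by linarith
    rw [(hasDeriv_24234 h).deriv, (hasDeriv_24234 ha').deriv]
    refine mul_le_mul_of_nonneg_right ?_ (Real.exp_nonneg _)
    rw [neg_le_neg_iff]
    apply gmono_24234
    · rw [le_inv_comm₀ (by norm_num) (by linarith)]
      linarith
    · rw [inv_le_inv₀ (by linarith) (by linarith)]
      linarith
  · rw [bet_deriv_zero_24234 h]
    rcases lt_or_ge a (1 / 16) with h' | h'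
    · exact (bet_deriv_neg_24234 h').le
    · rw [bet_deriv_zero_24234 h']

theorem bet_deriv_neg {d : ℝ} (h : d < 1 / 16) : deriv bet d < 0 := bet_deriv_neg_24234 h

theorem bet_deriv_zero {d : ℝ} (h : 1 / 16 ≤ d) : deriv bet d = 0 := bet_deriv_zero_24234 h


end Pool.Agent.Helper874.Odd
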