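import Pool.Agent.Helper874.Odd.Base
import Pool.Agent.Helper874.Odd.Jbet1
import Pool.Agent.Helper874.Odd.Jbet2

set_option autoImplicit false
open Set Filter Topology
open scoped Manifold ContDiff

namespace Pool.Agent.Helper874.Odd

theorem alp_contDiff : ContDiff ℝ ∞ alp := by
  have h1 : ContDiff ℝ ∞ (fun x : ℝ => bet (1 - x)) :=
    bet_contDiff.comp (contDiff_const.sub contDiff_id)
  have h2 : ContDiff ℝ ∞ (fun x : ℝ => bet (1 + x)) :=
    bet_contDiff.comp (contDiff_const.add contDiff_id)
  exact h1.add h2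

theorem alp_neg (x : ℝ) : alp (-x) = alp x := by
  unfold alp
  rw [sub_neg_eq_add, ← sub_eq_add_neg, add_comm]

theorem alp_nonneg (x : ℝ) : 0 ≤ alp x :=
  add_nonneg (bet_nonneg _) (bet_nonneg _)

theorem alp_of_nonneg {x : ℝ} (h : 0 ≤ x) : alp x = bet (1 - x) := by
  unfold alp
  rw [bet_eq_zero (d := 1 + x) (by linarith), add_zero]

theorem alp_abs_aux (x : ℝ) : alp x = bet (1 - |x|) := by
  rcases le_total 0 x with h | h
  · rw [abs_of_nonneg h, alp_of_nonneg h]
  · rw [abs_of_nonpos h, ← alp_neg x, alp_of_nonneg (by linarith)]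

theorem alp_eq_zero_iff {x : ℝ} : alp x = 0 ↔ |x| ≤ 15 / 16 := by
  rw [alp_abs_aux]
  constructor
  · intro h
    by_contra hc
    push Not at hc
    have := bet_pos (d := 1 - |x|) (by linarith)
    linarith
  · intro h
    exact bet_eq_zero (by linarith)

theorem alp_le_one_iff {x : ℝ} : alp x ≤ 1 ↔ |x| ≤ 1 := by
  rw [alp_abs_aux]
  constructor
  · intro h
    by_contra hc
    push Not at hc
    have h1 : bet 0 < bet (1 - |x|) :=
      bet_strictAntiOn (by simp only [mem_Iic]; linarith) (by simp only [mem_Iic]; norm_num)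
        (by linarith)
    rw [bet_zero] at h1
    linarith
  · intro h
    have h1 : bet (1 - |x|) ≤ bet 0 := bet_antitone (by linarith)
    rwa [bet_zero] at h1

theorem alp_eq_one_iff {x : ℝ} : alp x = 1 ↔ |x| = 1 := by
  constructor
  · intro h
    have h1 : |x| ≤ 1 := alp_le_one_iff.1 h.le
    rcases h1.lt_or_eq with h2 | h2
    · exfalso
      rw [alp_abs_aux] at h
      rcases le_or_gt (1 - |x|) (1 / 16) with h3 | h3
      · have h4 : bet (1 - |x|) < bet 0 :=
          bet_strictAntiOn (by simp only [mem_Iic]; norm_num) (by simp only [mem_Iic]; exact h3)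
            (by linarith)
        rw [bet_zero] at h4
        linarith
      · rw [bet_eq_zero h3.le] at h
        norm_num at h
    · exact h2
  · intro h
    rw [alp_abs_aux, h, sub_self, bet_zero]

theorem alp_deriv_aux (x : ℝ) : deriv alp x = -deriv bet (1 - x) + deriv bet (1 + x) := by
  have hd : Differentiable ℝ bet := bet_contDiff.differentiable (by simp)
  have h1 : HasDerivAt (fun x : ℝ => bet (1 - x)) (deriv bet (1 - x) * (-1)) x := by
    have ha : HasDerivAt (fun x : ℝ => 1 - x) (-1) x := by
      simpa using (hasDerivAt_id x).const_sub 1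
    exact (hd (1 - x)).hasDerivAt.comp x ha
  have h2 : HasDerivAt (fun x : ℝ => bet (1 + x)) (deriv bet (1 + x) * 1) x := by
    have ha : HasDerivAt (fun x : ℝ => 1 + x) 1 x := by
      simpa using (hasDerivAt_id x).const_add 1
    exact (hd (1 + x)).hasDerivAt.comp x ha
  have h3 : HasDerivAt alp (deriv bet (1 - x) * (-1) + deriv bet (1 + x) * 1) x := h1.add h2
  rw [h3.deriv]
  ring

theorem alp_deriv_pos {x : ℝ} (h : 15 / 16 < x) : 0 < deriv alp x := by
  rw [alp_deriv_aux, bet_deriv_zero (d := 1 + x) (by linarith)]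
  have := bet_deriv_neg (d := 1 - x) (by linarith)
  linarith

theorem alp_deriv_neg {x : ℝ} (h : x < - (15 / 16)) : deriv alp x < 0 := by
  rw [alp_deriv_aux, bet_deriv_zero (d := 1 - x) (by linarith)]
  have := bet_deriv_neg (d := 1 + x) (by linarith)
  linarith

theorem alp_deriv_zero {x : ℝ} (h : |x| ≤ 15 / 16) : deriv alp x = 0 := by
  have h1 := abs_le.1 h
  rw [alp_deriv_aux, bet_deriv_zero (d := 1 - x) (by linarith [h1.2]),
    bet_deriv_zero (d := 1 + x) (by linarith [h1.1])]
  ring

theorem alp_convexOn : ConvexOn ℝ (Icc (-1) 1) alp := by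
  have h1 : ConvexOn ℝ (Icc (-1 : ℝ) 1) (fun x : ℝ => bet (1 - x)) := by
    refine ⟨convex_Icc _ _, ?_⟩
    intro x hx y hy a b ha hb hab
    have h := bet_convexOn.2 (x := 1 - x) (by simp only [mem_Ici]; linarith [hx.2])
      (y := 1 - y) (by simp only [mem_Ici]; linarith [hy.2]) ha hb hab
    have he : a • (1 - x) + b • (1 - y) = 1 - (a • x + b • y) := by
      simp only [smul_eq_mul]
      have hb' : b = 1 - a := by linarith
      subst hb'
      ring
    rw [he] at h
    exact h
  have h2 : ConvexOn ℝ (Icc (-1 : ℝ) 1) (fun x : ℝ => bet (1 + x)) := by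
    refine ⟨convex_Icc _ _, ?_⟩
    intro x hx y hy a b ha hb hab
    have h := bet_convexOn.2 (x := 1 + x) (by simp only [mem_Ici]; linarith [hx.1])
      (y := 1 + y) (by simp only [mem_Ici]; linarith [hy.1]) ha hb hab
    have he : a • (1 + x) + b • (1 + y) = 1 + (a • x + b • y) := by
      simp only [smul_eq_mul]
      have hb' : b = 1 - a := by linarith
      subst hb'
      ring
    rw [he] at h
    exact h
  exact h1.add h2


end Pool.Agent.Helper874.Odd
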