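import Pool.Agent.Helper874.Odd.Base

set_option autoImplicit false
open Set Filter Topology
open scoped Manifold ContDiff

namespace Pool.Agent.Helper874.Odd

theorem hh_continuous (l : V) : Continuous (hh l) := by
  unfold hh
  fun_prop
theorem Up.refl {S : Set V} {l a : V} (h : a ∈ S) : Up S l a a :=
  ⟨{a}, by simpa using h, isPreconnected_singleton, rfl, rfl, fun v hv => by
    rw [mem_singleton_iff.1 hv]⟩
theorem Up.le {S : Set V} {l a b : V} (h : Up S l a b) : hh l a ≤ hh l b := by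
  obtain ⟨T, -, -, -, hb, h⟩ := h
  exact h b hb
theorem Up.mem {S : Set V} {l a b : V} (h : Up S l a b) : a ∈ S ∧ b ∈ S := by
  obtain ⟨T, hT, -, ha, hb, -⟩ := h
  exact ⟨hT ha, hT hb⟩
theorem Up.trans {S : Set V} {l a b c : V} (h1 : Up S l a b) (h2 : Up S l b c) : Up S l a c := by
  have hab := h1.le
  obtain ⟨T, hT, hTc, ha, hb, hT'⟩ := h1
  obtain ⟨T2, hT2, hT2c, hb2, hc2, hT2'⟩ := h2
  refine ⟨T ∪ T2, union_subset hT hT2, hTc.union b hb hb2 hT2c, Or.inl ha, Or.inr hc2, ?_⟩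
  rintro v (hv | hv)
  · exact hT' v hv
  · exact hab.trans (hT2' v hv)
theorem Up.mono {S S' : Set V} {l a b : V} (h : S ⊆ S') (h1 : Up S l a b) : Up S' l a b := by
  obtain ⟨T, hT, r⟩ := h1
  exact ⟨T, hT.trans h, r⟩
/-- a path, parametrised by an order-connected set of reals -/
theorem Up.of_path {S : Set V} {l : V} (I : Set ℝ) (hI : I.OrdConnected) (g : ℝ → V) (hg : ContinuousOn g I)
    {s t : ℝ} (hs : s ∈ I) (ht : t ∈ I) (h : ∀ u ∈ I, g u ∈ S ∧ hh l (g s) ≤ hh l (g u)) :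
    Up S l (g s) (g t) := by
  refine ⟨g '' I, ?_, ?_, mem_image_of_mem g hs, mem_image_of_mem g ht, ?_⟩
  · rintro _ ⟨u, hu, rfl⟩
    exact (h u hu).1
  · exact (isPreconnected_iff_ordConnected.2 hI).image g hg
  · rintro _ ⟨u, hu, rfl⟩
    exact (h u hu).2
theorem conn_of_up {S : Set V} {l : V} (top : V) (h : ∀ a ∈ S, Up S l a top) : Conn S l := by
  intro c
  apply isPreconnected_of_forall top
  rintro y ⟨hy, hcy⟩
  obtain ⟨T, hT, hTc, ha, hb, hT'⟩ := h y hy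
  exact ⟨T, fun v hv => ⟨hT hv, hcy.trans (hT' v hv)⟩, hb, ha, hTc⟩
theorem conn_union {S R : Set V} {l : V} (hS : Conn S l) (hR : ∀ a ∈ R, ∃ b ∈ S, Up (S ∪ R) l a b) :
    Conn (S ∪ R) l := by
  intro c
  have key : ∀ x, x ∈ {v | v ∈ S ∪ R ∧ c ≤ hh l v} → ∃ T : Set V, ∃ b : V,
      T ⊆ {v | v ∈ S ∪ R ∧ c ≤ hh l v} ∧ IsPreconnected T ∧ x ∈ T ∧ b ∈ T ∧
      b ∈ {v | v ∈ S ∧ c ≤ hh l v} := by
    rintro x ⟨hx, hcx⟩
    have hup : ∃ b ∈ S, Up (S ∪ R) l x b := by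
      rcases hx with hx | hx
      · exact ⟨x, hx, Up.refl (Or.inl hx)⟩
      · exact hR x hx
    obtain ⟨b, hb, T, hT, hTc, ha, hbT, hT'⟩ := hup
    exact ⟨T, b, fun v hv => ⟨hT hv, hcx.trans (hT' v hv)⟩, hTc, ha, hbT, hb,
      hcx.trans (hT' b hbT)⟩
  have hsub : {v | v ∈ S ∧ c ≤ hh l v} ⊆ {v | v ∈ S ∪ R ∧ c ≤ hh l v} :=
    fun v hv => ⟨Or.inl hv.1, hv.2⟩
  apply isPreconnected_of_forall_pair
  intro x hx y hy
  obtain ⟨T, b, hT, hTc, hxT, hbT, hbS⟩ := key x hx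
  obtain ⟨T2, b2, hT2, hT2c, hyT2, hbT2, hbS2⟩ := key y hy
  refine ⟨T ∪ {v | v ∈ S ∧ c ≤ hh l v} ∪ T2, union_subset (union_subset hT hsub) hT2,
    Or.inl (Or.inl hxT), Or.inr hyT2, ?_⟩
  exact (hTc.union b hbT hbS (hS c)).union b2 (Or.inr hbS2) hbT2 hT2c


end Pool.Agent.Helper874.Odd
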