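import Pool.Agent.Helper874.Odd.Base
import Pool.Agent.Helper874.Odd.Jup1

set_option autoImplicit false
open Set Filter Topology
open scoped Manifold ContDiff

namespace Pool.Agent.Helper874.Odd


theorem circ_polar (x y : ℝ) : ∃ t : ℝ, x = Real.sqrt (x ^ 2 + y ^ 2) * Real.cos t ∧
    y = Real.sqrt (x ^ 2 + y ^ 2) * Real.sin t := by
  have hn : ‖(⟨x, y⟩ : ℂ)‖ = Real.sqrt (x ^ 2 + y ^ 2) := by
    rw [Complex.norm_def, Complex.normSq_mk]
    congr 1
    ring
  refine ⟨Complex.arg ⟨x, y⟩, ?_, ?_⟩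
  · rw [← hn, Complex.norm_mul_cos_arg]
  · rw [← hn, Complex.norm_mul_sin_arg]

theorem circ_hh (l a e f : V) (ρ s c : ℝ) :
    hh l (a + (ρ * c) • e + (ρ * s) • f) = hh l a + ρ * (hh l e * c + hh l f * s) := by
  unfold hh
  simp only [Prod.fst_add, Prod.snd_add, Prod.smul_fst, Prod.smul_snd, smul_eq_mul]
  ring

theorem circ_shift (t t0 : ℝ) : ∃ t' : ℝ, |t' - t0| ≤ Real.pi ∧ Real.cos t' = Real.cos t ∧
    Real.sin t' = Real.sin t := by
  have hpi := Real.pi_pos
  refine ⟨t - round ((t - t0) / (2 * Real.pi)) * (2 * Real.pi), ?_,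
    Real.cos_sub_int_mul_two_pi _ _, Real.sin_sub_int_mul_two_pi _ _⟩
  have h := abs_sub_round ((t - t0) / (2 * Real.pi))
  have e : t - round ((t - t0) / (2 * Real.pi)) * (2 * Real.pi) - t0 =
      ((t - t0) / (2 * Real.pi) - round ((t - t0) / (2 * Real.pi))) * (2 * Real.pi) := by
    field_simp
    ring
  rw [e, abs_mul, abs_of_pos (by positivity : (0 : ℝ) < 2 * Real.pi)]
  nlinarith

theorem circ_cos_le (t0 t u : ℝ) (h1 : |t - t0| ≤ Real.pi) (h2 : |u - t0| ≤ |t - t0|) :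
    Real.cos (t - t0) ≤ Real.cos (u - t0) := by
  rw [← Real.cos_abs (t - t0), ← Real.cos_abs (u - t0)]
  exact Real.cos_le_cos_of_nonneg_of_le_pi (abs_nonneg _) h1 h2

/-- circles in planes are tight -/
theorem circ_conn (l a e f : V) (ρ : ℝ) (hρ : 0 ≤ ρ) :
    Conn {v | ∃ t : ℝ, v = a + (ρ * Real.cos t) • e + (ρ * Real.sin t) • f} l := by
  obtain ⟨t0, hα, hβ⟩ := circ_polar (hh l e) (hh l f)
  obtain ⟨K, hK⟩ : ∃ K : ℝ, K = Real.sqrt (hh l e ^ 2 + hh l f ^ 2) := ⟨_, rfl⟩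
  rw [← hK] at hα hβ
  have hK0 : 0 ≤ K := by
    rw [hK]
    exact Real.sqrt_nonneg _
  obtain ⟨g, hg⟩ : ∃ g : ℝ → V, g = fun t => a + (ρ * Real.cos t) • e + (ρ * Real.sin t) • f :=
    ⟨_, rfl⟩
  have hgc : Continuous g := by
    rw [hg]
    fun_prop
  have hgh : ∀ t, hh l (g t) = hh l a + ρ * (K * Real.cos (t - t0)) := by
    intro t
    rw [hg]
    show hh l (a + (ρ * Real.cos t) • e + (ρ * Real.sin t) • f) = _
    rw [circ_hh, Real.cos_sub]
    congr 2
    calc hh l e * Real.cos t + hh l f * Real.sin t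
        = (K * Real.cos t0) * Real.cos t + (K * Real.sin t0) * Real.sin t := by rw [← hα, ← hβ]
      _ = _ := by ring
  apply conn_of_up (g t0)
  rintro v ⟨t, rfl⟩
  obtain ⟨t', h1, h2, h3⟩ := circ_shift t t0
  have hv : a + (ρ * Real.cos t) • e + (ρ * Real.sin t) • f = g t' := by
    rw [hg]
    show _ = a + (ρ * Real.cos t') • e + (ρ * Real.sin t') • f
    rw [h2, h3]
  rw [hv]
  apply Up.of_path (uIcc t' t0) ordConnected_uIcc g hgc.continuousOn left_mem_uIcc right_mem_uIcc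
  intro u hu
  refine ⟨⟨u, by rw [hg]⟩, ?_⟩
  rw [hgh, hgh]
  have h4 : |u - t0| ≤ |t' - t0| := by
    rw [mem_uIcc] at hu
    rcases hu with ⟨ha, hb⟩ | ⟨ha, hb⟩
    · rw [abs_of_nonpos (by linarith), abs_of_nonpos (by linarith)]
      linarith
    · rw [abs_of_nonneg (by linarith), abs_of_nonneg (by linarith)]
      linarith
  have h5 := circ_cos_le t0 t' u h1 h4
  have h6 : K * Real.cos (t' - t0) ≤ K * Real.cos (u - t0) := mul_le_mul_of_nonneg_left h5 hK0
  have h7 := mul_le_mul_of_nonneg_left h6 hρ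
  linarith
theorem circ_A (l : V) : Conn {v | X1 v = 0 ∧ v.2.2.2 = 0 ∧ nz v = 1 / 16} l := by
  have hset : {v : V | X1 v = 0 ∧ v.2.2.2 = 0 ∧ nz v = 1 / 16} =
      {v : V | ∃ t : ℝ, v = ((0, 1 / 4, 0, 0) : V) + ((1 / 16) * Real.cos t) •
        ((-1 / 2, 1 / 2, 0, 0) : V) + ((1 / 16) * Real.sin t) • ((0, 0, 1, 0) : V)} := by
    ext ⟨x, y, p, r⟩
    constructor
    · rintro ⟨h1, h2, h3⟩
      obtain ⟨t, ht1, ht2⟩ := circ_polar (X2 (x, y, p, r)) p
      have h4 : Real.sqrt (X2 (x, y, p, r) ^ 2 + p ^ 2) = 1 / 16 := h3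
      rw [h4] at ht1 ht2
      refine ⟨t, ?_⟩
      have e1 : x + y - 1 / 4 = 0 := h1
      have e2 : r = 0 := h2
      have e3 : y - x - 1 / 4 = 1 / 16 * Real.cos t := ht1
      simp only [Prod.mk_add_mk, Prod.smul_mk, smul_eq_mul, Prod.mk.injEq]
      refine ⟨by linarith, by linarith, by linarith, by linarith⟩
    · rintro ⟨t, ht⟩
      simp only [Prod.mk_add_mk, Prod.smul_mk, smul_eq_mul, Prod.mk.injEq] at ht
      obtain ⟨h1, h2, h3, h4⟩ := ht
      refine ⟨?_, ?_, ?_⟩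
      · show x + y - 1 / 4 = 0
        linarith
      · show r = 0
        linarith
      · show Real.sqrt ((y - x - 1 / 4) ^ 2 + p ^ 2) = 1 / 16
        have e : (y - x - 1 / 4) ^ 2 + p ^ 2 = (1 / 16) ^ 2 := by
          have e1 : y - x - 1 / 4 = 1 / 16 * Real.cos t := by linarith
          have e2 : p = 1 / 16 * Real.sin t := by linarith
          rw [e1, e2]
          have := Real.sin_sq_add_cos_sq t
          linear_combination (1 / 256) * this
        rw [e]
        exact Real.sqrt_sq (by norm_num)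
  rw [hset]
  exact circ_conn l _ _ _ (1 / 16) (by norm_num)
theorem circ_B (l : V) : Conn {v | X2 v = 0 ∧ v.2.2.1 = 0 ∧ nw v = 1 / 16} l := by
  have hset : {v : V | X2 v = 0 ∧ v.2.2.1 = 0 ∧ nw v = 1 / 16} =
      {v : V | ∃ t : ℝ, v = ((0, 1 / 4, 0, 0) : V) + ((1 / 16) * Real.cos t) •
        ((1 / 2, 1 / 2, 0, 0) : V) + ((1 / 16) * Real.sin t) • ((0, 0, 0, 1) : V)} := by
    ext ⟨x, y, p, r⟩
    constructor
    · rintro ⟨h1, h2, h3⟩
      obtain ⟨t, ht1, ht2⟩ := circ_polar (X1 (x, y, p, r)) r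
      have h4 : Real.sqrt (X1 (x, y, p, r) ^ 2 + r ^ 2) = 1 / 16 := h3
      rw [h4] at ht1 ht2
      refine ⟨t, ?_⟩
      have e1 : y - x - 1 / 4 = 0 := h1
      have e2 : p = 0 := h2
      have e3 : x + y - 1 / 4 = 1 / 16 * Real.cos t := ht1
      simp only [Prod.mk_add_mk, Prod.smul_mk, smul_eq_mul, Prod.mk.injEq]
      refine ⟨by linarith, by linarith, by linarith, by linarith⟩
    · rintro ⟨t, ht⟩
      simp only [Prod.mk_add_mk, Prod.smul_mk, smul_eq_mul, Prod.mk.injEq] at ht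
      obtain ⟨h1, h2, h3, h4⟩ := ht
      refine ⟨?_, ?_, ?_⟩
      · show y - x - 1 / 4 = 0
        linarith
      · show p = 0
        linarith
      · show Real.sqrt ((x + y - 1 / 4) ^ 2 + r ^ 2) = 1 / 16
        have e : (x + y - 1 / 4) ^ 2 + r ^ 2 = (1 / 16) ^ 2 := by
          have e1 : x + y - 1 / 4 = 1 / 16 * Real.cos t := by linarith
          have e2 : r = 1 / 16 * Real.sin t := by linarith
          rw [e1, e2]
          have := Real.sin_sq_add_cos_sq t
          linear_combination (1 / 256) * this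
        rw [e]
        exact Real.sqrt_sq (by norm_num)
  rw [hset]
  exact circ_conn l _ _ _ (1 / 16) (by norm_num)


end Pool.Agent.Helper874.Odd
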