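import Pool.Agent.Helper874.Odd.Base

set_option autoImplicit false
open Set Filter Topology
open scoped Manifold ContDiff

namespace Pool.Agent.Helper874.Odd

theorem auxe_lt {a b : ℝ} (hab : a < b) (hb : 0 < b) : expNegInvGlue a < expNegInvGlue b := by
  rcases le_or_gt a 0 with ha | ha
  · rw [expNegInvGlue.zero_of_nonpos ha]
    exact expNegInvGlue.pos_of_pos hb
  · unfold expNegInvGlue
    rw [if_neg (not_le.mpr ha), if_neg (not_le.mpr hb), Real.exp_lt_exp]
    have := inv_strictAnti₀ ha hab
    linarith

theorem auxst_add (x : ℝ) : Real.smoothTransition x + Real.smoothTransition (1 - x) = 1 := by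
  unfold Real.smoothTransition
  have h := (Real.smoothTransition.pos_denom x).ne'
  have e : 1 - (1 - x) = x := by ring
  rw [e, add_comm (expNegInvGlue (1 - x)) (expNegInvGlue x), ← add_div, div_self h]

theorem auxst_lt {x : ℝ} (hx : 1 / 2 < x) : Real.smoothTransition (1 - x) < Real.smoothTransition x := by
  unfold Real.smoothTransition
  have h := Real.smoothTransition.pos_denom x
  have e : 1 - (1 - x) = x := by ring
  rw [e, add_comm (expNegInvGlue (1 - x)) (expNegInvGlue x)]
  exact div_lt_div_of_pos_right (auxe_lt (by linarith) (by linarith)) h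

theorem gg_contDiff : ContDiff ℝ ∞ gg := by
  unfold gg
  have h1 : ContDiff ℝ ∞ (fun t : ℝ => (t + 1 / 16) * 8) := by fun_prop
  have h2 : ContDiff ℝ ∞ (fun t : ℝ => Real.smoothTransition ((t + 1 / 16) * 8)) :=
    (Real.smoothTransition.contDiff (n := ⊤)).comp h1
  exact (contDiff_const.mul h2).sub contDiff_const
theorem gg_neg (t : ℝ) : gg (-t) = - gg t := by
  unfold gg
  have h := auxst_add ((t + 1 / 16) * 8)
  have e : 1 - (t + 1 / 16) * 8 = (-t + 1 / 16) * 8 := by ring
  rw [e] at h
  linarith
theorem gg_pos {t : ℝ} (h : 0 < t) : 0 < gg t := by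
  unfold gg
  have h1 := auxst_add ((t + 1 / 16) * 8)
  have h2 := auxst_lt (x := (t + 1 / 16) * 8) (by linarith)
  linarith
theorem gg_one {t : ℝ} (h : 1 / 16 ≤ t) : gg t = 1 := by
  unfold gg
  rw [Real.smoothTransition.one_of_one_le (by linarith)]
  norm_num
theorem gg_mono : Monotone gg := by
  intro s t hst
  unfold gg
  have := Real.smoothTransition.monotone (show (s + 1 / 16) * 8 ≤ (t + 1 / 16) * 8 by linarith)
  linarith
theorem gg_abs_le (t : ℝ) : |gg t| ≤ 1 := by
  unfold gg
  have h1 := Real.smoothTransition.nonneg ((t + 1 / 16) * 8)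
  have h2 := Real.smoothTransition.le_one ((t + 1 / 16) * 8)
  rw [abs_le]
  constructor <;> linarith


end Pool.Agent.Helper874.Odd
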