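import Pool.Agent.Helper874.Odd.Base
import Pool.Agent.Helper874.Odd.Jmm1

set_option autoImplicit false
open Set Filter Topology
open scoped Manifold ContDiff

namespace Pool.Agent.Helper874.Odd

theorem mm_hasDeriv (t : ℝ) : HasDerivAt mm (gg t) t := by
  have hc : Continuous gg := gg_contDiff.continuous
  have h := intervalIntegral.integral_hasDerivAt_left (a := t) (b := 1 / 16)
    (hc.intervalIntegrable _ _) hc.stronglyMeasurable.stronglyMeasurableAtFilter hc.continuousAt
  have h2 := h.const_sub (1 / 16)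
  rw [neg_neg] at h2
  exact h2
theorem mm_deriv_fun : deriv mm = gg := funext fun t => (mm_hasDeriv t).deriv
theorem mm_diff : Differentiable ℝ mm := fun t => (mm_hasDeriv t).differentiableAt
theorem mm_contDiff : ContDiff ℝ ∞ mm := by
  rw [contDiff_infty_iff_deriv]
  refine ⟨mm_diff, ?_⟩
  rw [mm_deriv_fun]
  exact gg_contDiff
theorem mm_deriv (t : ℝ) : deriv mm t = gg t := (mm_hasDeriv t).deriv
theorem mm_neg (t : ℝ) : mm (-t) = mm t := by
  have hd : ∀ x, HasDerivAt (fun u => mm (-u) - mm u) 0 x := by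
    intro x
    have h1 : HasDerivAt (fun u => mm (-u)) (gg (-x) * (-1)) x :=
      (mm_hasDeriv (-x)).comp x (hasDerivAt_neg x)
    have h2 := h1.sub (mm_hasDeriv x)
    have h3 : gg (-x) * (-1) - gg x = 0 := by rw [gg_neg]; ring
    rw [h3] at h2
    exact h2
  have hc := is_const_of_deriv_eq_zero (f := fun u => mm (-u) - mm u)
    (fun x => (hd x).differentiableAt) (fun x => (hd x).deriv) t 0
  simp only [neg_zero, sub_self] at hc
  linarith
theorem mm_one : mm (1 / 16) = 1 / 16 := by
  unfold mm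
  rw [intervalIntegral.integral_same, sub_zero]
theorem mm_eq_self {t : ℝ} (h : 1 / 16 ≤ t) : mm t = t := by
  unfold mm
  have h1 : ∫ u in t..(1 / 16 : ℝ), gg u = ∫ u in t..(1 / 16 : ℝ), (1 : ℝ) := by
    apply intervalIntegral.integral_congr
    intro x hx
    rw [uIcc_of_ge h] at hx
    exact gg_one hx.1
  rw [h1, intervalIntegral.integral_const, smul_eq_mul]
  ring
theorem mm_abs (t : ℝ) : mm |t| = mm t := by
  rcases abs_cases t with ⟨h, _⟩ | ⟨h, _⟩
  · rw [h]
  · rw [h, mm_neg]
theorem mm_eq_abs {t : ℝ} (h : 1 / 16 ≤ |t|) : mm t = |t| := by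
  rw [← mm_abs]
  exact mm_eq_self h
theorem mm_convexOn : ConvexOn ℝ univ mm := by
  refine Monotone.convexOn_univ_of_deriv mm_diff ?_
  rw [mm_deriv_fun]
  exact gg_mono
theorem mm_strictMonoOn : StrictMonoOn mm (Ici 0) := by
  refine strictMonoOn_of_deriv_pos (convex_Ici 0) mm_diff.continuous.continuousOn ?_
  intro x hx
  rw [interior_Ici] at hx
  rw [mm_deriv]
  exact gg_pos hx
theorem mm_lip (s t : ℝ) : |mm s - mm t| ≤ |s - t| := by
  have h := Convex.norm_image_sub_le_of_norm_deriv_le (f := mm) (C := 1) (s := univ) (x := t)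
    (y := s) (fun x _ => mm_diff x) (fun x _ => by
      rw [mm_deriv, Real.norm_eq_abs]; exact gg_abs_le x) convex_univ (mem_univ _) (mem_univ _)
  rw [Real.norm_eq_abs, Real.norm_eq_abs, one_mul] at h
  exact h
theorem abs_le_mm (t : ℝ) : |t| ≤ mm t := by
  rcases le_total (1 / 16) |t| with h | h
  · exact le_of_eq (mm_eq_abs h).symm
  · rw [← mm_abs t]
    have h1 := mm_lip (1 / 16) |t|
    rw [mm_one, abs_of_nonneg (sub_nonneg.mpr h)] at h1
    have h2 := le_trans (le_abs_self _) h1
    linarith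
theorem mm_le {t : ℝ} (h : |t| ≤ 1 / 16) : mm t ≤ 1 / 16 := by
  rw [← mm_abs t]
  have h1 := mm_strictMonoOn.monotoneOn (a := |t|) (b := 1 / 16) (abs_nonneg t)
    (by norm_num : (0:ℝ) ≤ 1 / 16) h
  rw [mm_one] at h1
  exact h1
theorem mm_zero_pos : 0 < mm 0 := by
  have h0 : 0 ≤ mm 0 := by
    have := abs_le_mm 0
    rwa [abs_zero] at this
  refine lt_of_le_of_ne h0 ?_
  intro he
  have hd : HasDerivAt (fun u => mm u - u) (gg 0 - 1) 0 := (mm_hasDeriv 0).sub (hasDerivAt_id 0)
  have hmin : IsLocalMin (fun u => mm u - u) 0 := by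
    refine Filter.Eventually.of_forall ?_
    intro u
    have h1 := abs_le_mm u
    have h2 := le_abs_self u
    simp only
    rw [← he]
    linarith
  have h1 := hmin.deriv_eq_zero
  rw [hd.deriv] at h1
  have h2 := gg_neg 0
  rw [neg_zero] at h2
  linarith


end Pool.Agent.Helper874.Odd
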