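import Pool.Agent.Helper874.Odd.Base
import Pool.Agent.Helper874.Odd.Jmm1
import Pool.Agent.Helper874.Odd.Jmm2

set_option autoImplicit false
open Set Filter Topology
open scoped Manifold ContDiff

namespace Pool.Agent.Helper874.Odd

/-- reachability inside a cross-section curve without going down -/
def RchGam (s la mu : ℝ) (w u : ℝ × ℝ) : Prop := ∃ T ⊆ Gam s, IsPreconnected T ∧ w ∈ T ∧ u ∈ T ∧
  ∀ v ∈ T, la * w.1 + mu * w.2 ≤ la * v.1 + mu * v.2

theorem RchGam.trans {s la mu : ℝ} {w u v : ℝ × ℝ} (h1 : RchGam s la mu w u)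
    (h2 : RchGam s la mu u v) : RchGam s la mu w v := by
  obtain ⟨T1, hT1, hc1, hw, hu, hF1⟩ := h1
  obtain ⟨T2, hT2, hc2, hu2, hv, hF2⟩ := h2
  refine ⟨T1 ∪ T2, union_subset hT1 hT2, IsPreconnected.union u hu hu2 hc1 hc2, Or.inl hw,
    Or.inr hv, ?_⟩
  rintro z (hz | hz)
  · exact hF1 z hz
  · exact (hF1 u hu).trans (hF2 z hz)

theorem RchGam_arc {s la mu : ℝ} (γ : ℝ → ℝ × ℝ) (hγ : Continuous γ) (a b : ℝ)
    (h : ∀ t ∈ uIcc a b, γ t ∈ Gam s)
    (hF : ∀ t ∈ uIcc a b, la * (γ a).1 + mu * (γ a).2 ≤ la * (γ t).1 + mu * (γ t).2) :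
    RchGam s la mu (γ a) (γ b) := by
  refine ⟨γ '' uIcc a b, ?_, isPreconnected_uIcc.image γ hγ.continuousOn,
    ⟨a, left_mem_uIcc, rfl⟩, ⟨b, right_mem_uIcc, rfl⟩, ?_⟩
  · rintro _ ⟨t, ht, rfl⟩
    exact h t ht
  · rintro _ ⟨t, ht, rfl⟩
    exact hF t ht

theorem mm_cont_aux : Continuous mm := mm_contDiff.continuous

theorem mm_le_sub {s x : ℝ} (hs : 1 / 4 ≤ s) (hx : |x| ≤ s - 1 / 16) : mm x ≤ s - 1 / 16 := by
  rcases le_total (1 / 16) |x| with h | h
  · rw [mm_eq_abs h]; exact hx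
  · have := mm_le h
    linarith

theorem mm_compl {s x : ℝ} (hs : 1 / 4 ≤ s) (hx : |x| ≤ s - 1 / 16) : mm (s - mm x) = s - mm x := by
  have h1 := mm_le_sub hs hx
  have h2 : |s - mm x| = s - mm x := abs_of_nonneg (by linarith)
  rw [mm_eq_abs (by rw [h2]; linarith), h2]

theorem mem_top {s x : ℝ} (hs : 1 / 4 ≤ s) (hx : |x| ≤ s - 1 / 16) : (x, s - mm x) ∈ Gam s := by
  show mm x + mm (s - mm x) = s
  rw [mm_compl hs hx]; ring

theorem mem_bot {s x : ℝ} (hs : 1 / 4 ≤ s) (hx : |x| ≤ s - 1 / 16) : (x, -(s - mm x)) ∈ Gam s := by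
  show mm x + mm (-(s - mm x)) = s
  rw [mm_neg, mm_compl hs hx]; ring

theorem mem_right {s y : ℝ} (hs : 1 / 4 ≤ s) (hy : |y| ≤ s - 1 / 16) : (s - mm y, y) ∈ Gam s := by
  show mm (s - mm y) + mm y = s
  rw [mm_compl hs hy]; ring

theorem mem_left {s y : ℝ} (hs : 1 / 4 ≤ s) (hy : |y| ≤ s - 1 / 16) : (-(s - mm y), y) ∈ Gam s := by
  show mm (-(s - mm y)) + mm y = s
  rw [mm_neg, mm_compl hs hy]; ring

theorem abs_le_uIcc {a b t M : ℝ} (ha : |a| ≤ M) (hb : |b| ≤ M) (ht : t ∈ uIcc a b) : |t| ≤ M := by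
  rw [abs_le] at ha hb ⊢
  rcases mem_uIcc.1 ht with h | h
  · constructor <;> linarith [h.1, h.2, ha.1, ha.2, hb.1, hb.2]
  · constructor <;> linarith [h.1, h.2, ha.1, ha.2, hb.1, hb.2]

theorem Gam_arcs {s : ℝ} (hs : 1 / 4 ≤ s) {w : ℝ × ℝ} (hw : w ∈ Gam s) :
    (|w.1| ≤ s - 1 / 16 ∧ (w.2 = s - mm w.1 ∨ w.2 = -(s - mm w.1))) ∨
    (|w.2| ≤ s - 1 / 16 ∧ (w.1 = s - mm w.2 ∨ w.1 = -(s - mm w.2))) := by
  have hw' : mm w.1 + mm w.2 = s := hw
  rcases le_total (1 / 16) |w.2| with h | h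
  · left
    have h1 := mm_eq_abs h
    have h2 := abs_le_mm w.1
    refine ⟨by linarith, ?_⟩
    rcases abs_cases w.2 with h3 | h3
    · left; linarith [h3.1]
    · right; linarith [h3.1]
  · right
    have h1 := mm_le h
    have h4 : 1 / 16 ≤ |w.1| := by
      by_contra hcon
      push Not at hcon
      have := mm_le hcon.le
      linarith
    have h5 := mm_eq_abs h4
    refine ⟨by linarith, ?_⟩
    rcases abs_cases w.1 with h3 | h3
    · left; linarith [h3.1]
    · right; linarith [h3.1]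

/-- on a cross-section curve, when `la ≤ mu`, every point can be moved up to a point of the top arc
whose first coordinate does not depend on the curve -/
theorem Gam_up {la mu : ℝ} (hla : 0 ≤ la) (hmu : la ≤ mu) : ∃ xs ∈ Icc (-(1 / 16) : ℝ) (1 / 16),
    ∀ s : ℝ, 1 / 4 ≤ s → ∀ w ∈ Gam s, ∃ T ⊆ Gam s, IsPreconnected T ∧ w ∈ T ∧ (xs, s - mm xs) ∈ T ∧
      ∀ u ∈ T, la * w.1 + mu * w.2 ≤ la * u.1 + mu * u.2 := by
  have hmu0 : 0 ≤ mu := hla.trans hmu
  obtain ⟨g, hg⟩ : ∃ g : ℝ → ℝ, ∀ x, g x = la * x - mu * mm x := ⟨_, fun _ => rfl⟩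
  have hgc : Continuous g := by
    rw [show g = fun x => la * x - mu * mm x from funext hg]
    exact (continuous_const.mul continuous_id).sub (continuous_const.mul mm_cont_aux)
  obtain ⟨xs, hxs, hmax⟩ := isCompact_Icc.exists_isMaxOn
    (nonempty_Icc.2 (by norm_num : (-(1 / 16) : ℝ) ≤ 1 / 16)) hgc.continuousOn
  have hmax' : ∀ x ∈ Icc (-(1 / 16) : ℝ) (1 / 16), g x ≤ g xs := fun x hx => hmax hx
  have hglob : ∀ x, g x ≤ g xs := by
    intro x
    rcases le_total |x| (1 / 16) with h | h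
    · exact hmax' x (abs_le.1 h)
    · rcases abs_cases x with h3 | h3
      · refine le_trans ?_ (hmax' (1 / 16) (right_mem_Icc.2 (by norm_num)))
        have e1 : mm (1 / 16) = 1 / 16 := by
          rw [mm_eq_abs (by rw [abs_of_pos (by norm_num)]), abs_of_pos (by norm_num)]
        rw [hg, hg, mm_eq_abs h, e1]
        rw [h3.1] at h ⊢
        nlinarith
      · refine le_trans ?_ (hmax' (-(1 / 16)) (left_mem_Icc.2 (by norm_num)))
        have e1 : mm (-(1 / 16)) = 1 / 16 := by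
          rw [mm_neg, mm_eq_abs (by rw [abs_of_pos (by norm_num)]), abs_of_pos (by norm_num)]
        rw [hg, hg, mm_eq_abs h, e1]
        rw [h3.1] at h ⊢
        nlinarith
  have hgconc : ConcaveOn ℝ univ g := by
    refine ⟨convex_univ, fun x _ y _ a b ha hb hab => ?_⟩
    have h1 := mm_convexOn.2 (mem_univ x) (mem_univ y) ha hb hab
    simp only [smul_eq_mul] at h1 ⊢
    rw [hg, hg, hg]
    nlinarith [mul_le_mul_of_nonneg_left h1 hmu0]
  have hgseg : ∀ x, ∀ t ∈ uIcc x xs, g x ≤ g t := by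
    intro x t ht
    rw [← segment_eq_uIcc] at ht
    have h1 := hgconc.ge_on_segment (mem_univ x) (mem_univ xs) ht
    rwa [min_eq_left (hglob x)] at h1
  have hxs1 : |xs| ≤ 1 / 16 := abs_le.2 hxs
  have e1 : mm (1 / 16) = 1 / 16 := by
    rw [mm_eq_abs (by rw [abs_of_pos (by norm_num)]), abs_of_pos (by norm_num)]
  have e2 : mm (-(1 / 16)) = 1 / 16 := by rw [mm_neg, e1]
  refine ⟨xs, hxs, fun s hs w hw => ?_⟩
  change RchGam s la mu w (xs, s - mm xs)
  have hxss : |xs| ≤ s - 1 / 16 := by linarith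
  -- top arc
  have htop : ∀ x, |x| ≤ s - 1 / 16 → RchGam s la mu (x, s - mm x) (xs, s - mm xs) := by
    intro x hx
    refine RchGam_arc (fun x => (x, s - mm x))
      (continuous_id.prodMk (continuous_const.sub mm_cont_aux)) x xs ?_ ?_
    · intro t ht
      exact mem_top hs (abs_le_uIcc hx hxss ht)
    · intro t ht
      have := hgseg x t ht
      rw [hg, hg] at this
      simp only
      linarith
  have hms : mm (s - 1 / 16) = s - 1 / 16 := by
    rw [mm_eq_abs (by rw [abs_of_pos (by linarith)]; linarith), abs_of_pos (by linarith)]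
  have hms' : mm (-(s - 1 / 16)) = s - 1 / 16 := by rw [mm_neg, hms]
  have habs1 : |s - 1 / 16| ≤ s - 1 / 16 := by rw [abs_of_pos (by linarith)]
  have habs2 : |-(s - 1 / 16)| ≤ s - 1 / 16 := by rw [abs_neg]; exact habs1
  have habs3 : |(1 / 16 : ℝ)| ≤ s - 1 / 16 := by rw [abs_of_pos (by norm_num)]; linarith
  have habs4 : |(-(1 / 16) : ℝ)| ≤ s - 1 / 16 := by rw [abs_neg]; exact habs3
  have hleft : ∀ y, |y| ≤ s - 1 / 16 → RchGam s la mu (-(s - mm y), y) (xs, s - mm xs) := by
    intro y hy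
    have h1 : RchGam s la mu (-(s - mm y), y) (-(s - mm (s - 1 / 16)), s - 1 / 16) := by
      refine RchGam_arc (fun y => (-(s - mm y), y))
        ((continuous_const.sub mm_cont_aux).neg.prodMk continuous_id) y (s - 1 / 16) ?_ ?_
      · intro t ht
        exact mem_left hs (abs_le_uIcc hy habs1 ht)
      · intro t ht
        rw [uIcc_of_le ((le_abs_self y).trans hy)] at ht
        have h2 := (abs_le.1 (mm_lip t y)).1
        rw [abs_of_nonneg (sub_nonneg.2 ht.1)] at h2
        simp only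
        nlinarith [ht.1, mul_le_mul_of_nonneg_left h2 hla,
          mul_nonneg (sub_nonneg.2 hmu) (sub_nonneg.2 ht.1)]
    have h3 := htop (-(1 / 16)) habs4
    rw [e2] at h3
    rw [hms, show -(s - (s - 1 / 16)) = -(1 / 16) by ring] at h1
    exact h1.trans h3
  have hright : ∀ y, |y| ≤ s - 1 / 16 → RchGam s la mu (s - mm y, y) (xs, s - mm xs) := by
    intro y hy
    have h1 : RchGam s la mu (s - mm y, y) (s - mm (s - 1 / 16), s - 1 / 16) := by
      refine RchGam_arc (fun y => (s - mm y, y))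
        ((continuous_const.sub mm_cont_aux).prodMk continuous_id) y (s - 1 / 16) ?_ ?_
      · intro t ht
        exact mem_right hs (abs_le_uIcc hy habs1 ht)
      · intro t ht
        rw [uIcc_of_le ((le_abs_self y).trans hy)] at ht
        have h2 := (abs_le.1 (mm_lip t y)).2
        rw [abs_of_nonneg (sub_nonneg.2 ht.1)] at h2
        simp only
        nlinarith [ht.1, mul_le_mul_of_nonneg_left h2 hla,
          mul_nonneg (sub_nonneg.2 hmu) (sub_nonneg.2 ht.1)]
    have h3 := htop (1 / 16) habs3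
    rw [e1] at h3
    rw [hms, show s - (s - 1 / 16) = 1 / 16 by ring] at h1
    exact h1.trans h3
  have hbot : ∀ x, |x| ≤ s - 1 / 16 → RchGam s la mu (x, -(s - mm x)) (xs, s - mm xs) := by
    intro x hx
    obtain ⟨k, hk⟩ : ∃ k : ℝ → ℝ, ∀ x, k x = la * x + mu * mm x := ⟨_, fun _ => rfl⟩
    have hkconv : ConvexOn ℝ univ k := by
      refine ⟨convex_univ, fun x _ y _ a b ha hb hab => ?_⟩
      have h1 := mm_convexOn.2 (mem_univ x) (mem_univ y) ha hb hab
      simp only [smul_eq_mul] at h1 ⊢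
      rw [hk, hk, hk]
      nlinarith [mul_le_mul_of_nonneg_left h1 hmu0]
    have hdich : (∀ t, x ≤ t → k x ≤ k t) ∨ (∀ t, t ≤ x → k x ≤ k t) := by
      by_contra hcon
      push Not at hcon
      obtain ⟨⟨t1, h1, h2⟩, ⟨t2, h3, h4⟩⟩ := hcon
      have h5 : x ∈ segment ℝ t2 t1 := by
        rw [segment_eq_Icc (h3.trans h1)]; exact ⟨h3, h1⟩
      have h6 := hkconv.le_on_segment (mem_univ t2) (mem_univ t1) h5
      rcases le_max_iff.1 h6 with h7 | h7 <;> linarith
    rcases hdich with hd | hd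
    · have h1 : RchGam s la mu (x, -(s - mm x)) (s - 1 / 16, -(s - mm (s - 1 / 16))) := by
        refine RchGam_arc (fun x => (x, -(s - mm x)))
          (continuous_id.prodMk (continuous_const.sub mm_cont_aux).neg) x (s - 1 / 16) ?_ ?_
        · intro t ht
          exact mem_bot hs (abs_le_uIcc hx habs1 ht)
        · intro t ht
          rw [uIcc_of_le ((le_abs_self x).trans hx)] at ht
          have := hd t ht.1
          rw [hk, hk] at this
          simp only
          linarith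
      have h3 := hright (-(1 / 16)) habs4
      rw [e2] at h3
      rw [hms, show -(s - (s - 1 / 16)) = -(1 / 16) by ring] at h1
      exact h1.trans h3
    · have h1 : RchGam s la mu (x, -(s - mm x)) (-(s - 1 / 16), -(s - mm (-(s - 1 / 16)))) := by
        refine RchGam_arc (fun x => (x, -(s - mm x)))
          (continuous_id.prodMk (continuous_const.sub mm_cont_aux).neg) x (-(s - 1 / 16)) ?_ ?_
        · intro t ht
          exact mem_bot hs (abs_le_uIcc hx habs2 ht)
        · intro t ht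
          rw [uIcc_of_ge (by linarith [(abs_le.1 hx).1])] at ht
          have := hd t ht.2
          rw [hk, hk] at this
          simp only
          linarith
      have h3 := hleft (-(1 / 16)) habs4
      rw [e2] at h3
      rw [hms', show -(s - (s - 1 / 16)) = -(1 / 16) by ring] at h1
      exact h1.trans h3
  obtain ⟨w1, w2⟩ := w
  rcases Gam_arcs hs hw with ⟨h1, h2 | h2⟩ | ⟨h1, h2 | h2⟩
  · simp only at h1 h2
    rw [h2]; exact htop w1 h1
  · simp only at h1 h2
    rw [h2]; exact hbot w1 h1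
  · simp only at h1 h2
    rw [h2]; exact hright w2 h1
  · simp only at h1 h2
    rw [h2]; exact hleft w2 h1


end Pool.Agent.Helper874.Odd
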