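import Pool.Agent.Helper874.Odd.Base
import Pool.Agent.Helper874.Odd.Jmm1
import Pool.Agent.Helper874.Odd.Jmm2
import Pool.Agent.Helper874.Odd.Jcur1

set_option autoImplicit false
open Set Filter Topology
open scoped Manifold ContDiff

namespace Pool.Agent.Helper874.Odd

/-- the conclusion of `Gam_up'` -/
def GamUp (la mu : ℝ) : Prop :=
  ∃ e : ℝ → ℝ × ℝ, (∃ A B C D : ℝ, ∀ s, e s = (A * s + B, C * s + D)) ∧
    (∀ s, 1 / 4 ≤ s → e s ∈ Gam s) ∧ 0 ≤ la * (e 1).1 + mu * (e 1).2 - (la * (e 0).1 + mu * (e 0).2) ∧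
    ∀ s : ℝ, 1 / 4 ≤ s → ∀ w ∈ Gam s, ∃ T ⊆ Gam s, IsPreconnected T ∧ w ∈ T ∧ e s ∈ T ∧
      ∀ u ∈ T, la * w.1 + mu * w.2 ≤ la * u.1 + mu * u.2

theorem GamUp_sym {la mu la' mu' : ℝ} (h : GamUp la mu) (φ : ℝ × ℝ → ℝ × ℝ) (hφ : Continuous φ)
    (hφφ : ∀ w, φ (φ w) = w) (hG : ∀ s, ∀ w ∈ Gam s, φ w ∈ Gam s)
    (hf : ∀ w, la' * (φ w).1 + mu' * (φ w).2 = la * w.1 + mu * w.2)
    (ha : ∀ A B C D : ℝ, ∃ A' B' C' D' : ℝ, ∀ s,
      φ (A * s + B, C * s + D) = (A' * s + B', C' * s + D')) : GamUp la' mu' := by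
  obtain ⟨e, ⟨A, B, C, D, he⟩, h1, h2, h3⟩ := h
  obtain ⟨A', B', C', D', h4⟩ := ha A B C D
  refine ⟨fun s => φ (e s), ⟨A', B', C', D', fun s => ?_⟩, fun s hs => hG s _ (h1 s hs), ?_, ?_⟩
  · beta_reduce
    rw [he, h4]
  · beta_reduce
    rw [hf, hf]
    exact h2
  · intro s hs w hw
    obtain ⟨T, hT, hTc, hwT, heT, hu⟩ := h3 s hs (φ w) (hG s w hw)
    refine ⟨φ '' T, ?_, hTc.image φ hφ.continuousOn, ⟨φ w, hwT, hφφ w⟩, ⟨e s, heT, rfl⟩, ?_⟩
    · rintro _ ⟨v, hv, rfl⟩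
      exact hG s v (hT hv)
    · rintro _ ⟨v, hv, rfl⟩
      rw [hf]
      have := hu v hv
      have h5 := hf (φ w)
      rw [hφφ] at h5
      rw [h5]
      exact this

theorem GamUp_negx {la mu : ℝ} (h : GamUp la mu) : GamUp (-la) mu := by
  apply GamUp_sym h (fun w => (-w.1, w.2)) (by fun_prop) (fun w => by simp)
  · intro s w hw
    show mm (-w.1) + mm w.2 = s
    rw [mm_neg]
    exact hw
  · intro w
    ring
  · intro A B C D
    refine ⟨-A, -B, C, D, fun s => Prod.ext ?_ rfl⟩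
    show -(A * s + B) = -A * s + -B
    ring

theorem GamUp_swap {la mu : ℝ} (h : GamUp la mu) : GamUp mu la := by
  apply GamUp_sym h (fun w => (w.2, w.1)) (by fun_prop) (fun w => by simp)
  · intro s w hw
    show mm w.2 + mm w.1 = s
    rw [add_comm]
    exact hw
  · intro w
    ring
  · intro A B C D
    exact ⟨C, D, A, B, fun s => rfl⟩

theorem GamUp_base {la mu : ℝ} (hla : 0 ≤ la) (hmu : la ≤ mu) : GamUp la mu := by
  obtain ⟨xs, hxs, h⟩ := Gam_up hla hmu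
  have hm : mm xs ≤ 1 / 16 := mm_le (abs_le.2 hxs)
  refine ⟨fun s => (xs, s - mm xs), ⟨0, xs, 1, -mm xs, fun s => ?_⟩, ?_, ?_, ?_⟩
  · simp only [Prod.mk.injEq]
    constructor <;> ring
  · intro s hs
    show mm xs + mm (s - mm xs) = s
    have h0 : 1 / 16 ≤ s - mm xs := by linarith
    rw [mm_eq_abs (h0.trans (le_abs_self _)), abs_of_nonneg (by linarith)]
    ring
  · beta_reduce
    have : la * xs + mu * (1 - mm xs) - (la * xs + mu * (0 - mm xs)) = mu := by ring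
    rw [this]
    linarith
  · intro s hs w hw
    exact h s hs w hw

theorem GamUp_nonneg {la mu : ℝ} (hla : 0 ≤ la) (hmu : 0 ≤ mu) : GamUp la mu := by
  rcases le_total la mu with h | h
  · exact GamUp_base hla h
  · exact GamUp_swap (GamUp_base hmu h)

theorem GamUp_nonneg' {la mu : ℝ} (hmu : 0 ≤ mu) : GamUp la mu := by
  rcases le_total 0 la with h | h
  · exact GamUp_nonneg h hmu
  · have := GamUp_negx (GamUp_nonneg (la := -la) (mu := mu) (by linarith) hmu)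
    rwa [neg_neg] at this

theorem GamUp_all (la mu : ℝ) : GamUp la mu := by
  rcases le_total 0 mu with h | h
  · exact GamUp_nonneg' h
  · have := GamUp_swap (GamUp_negx (GamUp_swap (GamUp_nonneg' (la := la) (mu := -mu) (by linarith))))
    rwa [neg_neg] at this

/-- superlevel sets of linear functions on the cross-section curves are connected -/
theorem Gam_conn {s : ℝ} (hs : 1 / 4 ≤ s) (la mu c : ℝ) :
    IsPreconnected {w : ℝ × ℝ | w ∈ Gam s ∧ c ≤ la * w.1 + mu * w.2} := by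
  obtain ⟨e, -, -, -, h⟩ := GamUp_all la mu
  apply isPreconnected_of_forall (e s)
  intro w hw
  obtain ⟨T, hT, hTc, hwT, heT, hu⟩ := h s hs w hw.1
  exact ⟨T, fun u hu' => ⟨hT hu', hw.2.trans (hu u hu')⟩, heT, hwT, hTc⟩

/-- the general form of `Gam_up` for nonnegative coefficients -/
theorem Gam_up' (la mu : ℝ) : ∃ e : ℝ → ℝ × ℝ, (∃ A B C D : ℝ, ∀ s, e s = (A * s + B, C * s + D)) ∧
    (∀ s, 1 / 4 ≤ s → e s ∈ Gam s) ∧ 0 ≤ la * (e 1).1 + mu * (e 1).2 - (la * (e 0).1 + mu * (e 0).2) ∧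
    ∀ s : ℝ, 1 / 4 ≤ s → ∀ w ∈ Gam s, ∃ T ⊆ Gam s, IsPreconnected T ∧ w ∈ T ∧ e s ∈ T ∧
      ∀ u ∈ T, la * w.1 + mu * w.2 ≤ la * u.1 + mu * u.2 := GamUp_all la mu


end Pool.Agent.Helper874.Odd
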