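import Pool.Agent.Helper874.Odd.Base

set_option autoImplicit false
open Set Filter Topology
open scoped Manifold ContDiff

namespace Pool.Agent.Helper874.Odd

/-- removing a flat disc keeps the superlevel sets connected -/
theorem conn_diff {S D bd : Set V} {l : V} (hS : Conn S l) (hbd : bd ⊆ S \ D) (hc : Conn bd l)
    (hmax : ∀ a ∈ D, ∃ b ∈ bd, hh l a ≤ hh l b) (hcl : closure D ⊆ D ∪ bd)
    (hop : ∃ O : Set V, IsOpen O ∧ S ∩ O = D) : Conn (S \ D) l := by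
  intro c
  obtain ⟨O, hO, hSO⟩ := hop
  have key : ∀ u v : Set V, IsOpen u → IsOpen v →
      {w | w ∈ S \ D ∧ c ≤ hh l w} ⊆ u ∪ v →
      ({w | w ∈ S \ D ∧ c ≤ hh l w} ∩ u).Nonempty →
      ({w | w ∈ S \ D ∧ c ≤ hh l w} ∩ v).Nonempty →
      (∀ w, w ∈ S \ D → c ≤ hh l w → w ∈ u → w ∉ v) →
      (∀ w ∈ bd, c ≤ hh l w → w ∈ u) → False := by
    intro u v hu hv hcov ⟨x, hxW, hxu⟩ ⟨y, hyW, hyv⟩ hemp hbu
    obtain ⟨w, hwU, hw1, hwv, hwD⟩ := hS c (u ∪ O) (v ∩ (closure D)ᶜ) (hu.union hO)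
      (hv.inter isClosed_closure.isOpen_compl) (by
        rintro w ⟨hwS, hwc⟩
        by_cases hwD : w ∈ D
        · rw [← hSO] at hwD
          exact Or.inl (Or.inr hwD.2)
        · rcases hcov ⟨⟨hwS, hwD⟩, hwc⟩ with h | h
          · exact Or.inl (Or.inl h)
          · by_cases hwcl : w ∈ closure D
            · rcases hcl hwcl with h' | h'
              · exact absurd h' hwD
              · exact Or.inl (Or.inl (hbu w h' hwc))
            · exact Or.inr ⟨h, hwcl⟩)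
      ⟨x, ⟨hxW.1.1, hxW.2⟩, Or.inl hxu⟩
      ⟨y, ⟨hyW.1.1, hyW.2⟩, hyv, fun hycl => by
        rcases hcl hycl with h' | h'
        · exact hyW.1.2 h'
        · exact hemp y hyW.1 hyW.2 (hbu y h' hyW.2) hyv⟩
    have hwnD : w ∉ D := fun h => hwD (subset_closure h)
    rcases hw1 with h | h
    · exact hemp w ⟨hwU.1, hwnD⟩ hwU.2 h hwv
    · exact hwnD (hSO ▸ ⟨hwU.1, h⟩)
  intro u v hu hv hcov hnu hnv
  by_contra hne
  have hemp : ∀ w, w ∈ S \ D → c ≤ hh l w → w ∈ u → w ∉ v := by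
    intro w hw hwc hwu hwv
    exact hne ⟨w, ⟨hw, hwc⟩, hwu, hwv⟩
  have hb := isPreconnected_iff_subset_of_disjoint.1 (hc c) u v hu hv
    (fun w hw => hcov ⟨hbd hw.1, hw.2⟩) (by
      rw [Set.eq_empty_iff_forall_notMem]
      rintro w ⟨⟨hw, hwc⟩, hwu, hwv⟩
      exact hemp w (hbd hw) hwc hwu hwv)
  rcases hb with h | h
  · exact key u v hu hv hcov hnu hnv hemp (fun w hw hwc => h ⟨hw, hwc⟩)
  · exact key v u hv hu (by rwa [Set.union_comm]) hnv hnu
      (fun w hw hwc hwv hwu => hemp w hw hwc hwu hwv) (fun w hw hwc => h ⟨hw, hwc⟩)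


end Pool.Agent.Helper874.Odd
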