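import Pool.Agent.Helper874.Odd.Base
import Pool.Agent.Helper874.Odd.Jbet1
import Pool.Agent.Helper874.Odd.Jmm1
import Pool.Agent.Helper874.Odd.Jmm2
import Pool.Agent.Helper874.Odd.Jalp1
import Pool.Agent.Helper874.Odd.Jup1
import Pool.Agent.Helper874.Odd.Jup2
import Pool.Agent.Helper874.Odd.Jcur1
import Pool.Agent.Helper874.Odd.Jcur2

set_option autoImplicit false
open Set Filter Topology
open scoped Manifold ContDiff

namespace Pool.Agent.Helper874.Odd

theorem h170_bet_one {d : ℝ} (h : bet d = 1) : d = 0 := by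
  rcases lt_trichotomy d 0 with h1 | h1 | h1
  · have h2 := bet_strictAntiOn (show d ∈ Iic (1 / 16 : ℝ) by simp only [mem_Iic]; linarith)
      (show (0 : ℝ) ∈ Iic (1 / 16 : ℝ) by simp only [mem_Iic]; norm_num) h1
    rw [bet_zero] at h2
    linarith
  · exact h1
  · rcases le_or_gt (1 / 16) d with h3 | h3
    · rw [bet_eq_zero h3] at h
      norm_num at h
    · have h2 := bet_strictAntiOn (show (0 : ℝ) ∈ Iic (1 / 16 : ℝ) by simp only [mem_Iic]; norm_num)
        (show d ∈ Iic (1 / 16 : ℝ) by simp only [mem_Iic]; linarith) h1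
      rw [bet_zero] at h2
      linarith

theorem h170_bet_le {d : ℝ} (h : bet d ≤ 1) : 0 ≤ d := by
  by_contra h1
  push Not at h1
  have h2 := bet_strictAntiOn (show d ∈ Iic (1 / 16 : ℝ) by simp only [mem_Iic]; linarith)
      (show (0 : ℝ) ∈ Iic (1 / 16 : ℝ) by simp only [mem_Iic]; norm_num) h1
  rw [bet_zero] at h2
  linarith

theorem h170_three {a b c : ℝ} (h : bet a + bet b + bet c = 1)
    (hab : ¬ (a < 1 / 16 ∧ b < 1 / 16)) (hac : ¬ (a < 1 / 16 ∧ c < 1 / 16))
    (hbc : ¬ (b < 1 / 16 ∧ c < 1 / 16)) : a = 0 ∨ b = 0 ∨ c = 0 := by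
  rcases lt_or_ge a (1 / 16) with ha | ha
  · have hb : 1 / 16 ≤ b := by
      by_contra hb; push Not at hb; exact hab ⟨ha, hb⟩
    have hc : 1 / 16 ≤ c := by
      by_contra hc; push Not at hc; exact hac ⟨ha, hc⟩
    rw [bet_eq_zero hb, bet_eq_zero hc] at h
    left
    apply h170_bet_one
    linarith
  · rw [bet_eq_zero ha] at h
    rcases lt_or_ge b (1 / 16) with hb | hb
    · have hc : 1 / 16 ≤ c := by
        by_contra hc; push Not at hc; exact hbc ⟨hb, hc⟩
      rw [bet_eq_zero hc] at h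
      right; left
      apply h170_bet_one
      linarith
    · rw [bet_eq_zero hb] at h
      right; right
      apply h170_bet_one
      linarith

/-- basic facts on the flat discs of `M0` -/
theorem abs_lt_of_kA {v : V} (h : kA v < 5 / 8) : |v.1| < 15 / 16 ∧ |v.2.1| < 15 / 16 := by
  unfold kA at h
  have h1 := abs_le_mm (v.1 + 1 / 4)
  have h2 := abs_le_mm v.2.1
  have h3 := abs_nonneg (v.1 + 1 / 4)
  have h4 := abs_nonneg v.2.1
  have h5 : |v.1 + 1 / 4| < 5 / 8 := by linarith
  have h6 : |v.2.1| < 5 / 8 := by linarith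
  rw [abs_lt] at h5 h6
  constructor <;> rw [abs_lt] <;> constructor <;> linarith [h5.1, h5.2, h6.1, h6.2]

theorem abs_lt_of_kB {v : V} (h : kB v < 5 / 8) : |v.1| < 15 / 16 ∧ |v.2.1| < 15 / 16 := by
  unfold kB at h
  have h1 := abs_le_mm (v.1 - 1 / 4)
  have h2 := abs_le_mm v.2.1
  have h3 := abs_nonneg (v.1 - 1 / 4)
  have h4 := abs_nonneg v.2.1
  have h5 : |v.1 - 1 / 4| < 5 / 8 := by linarith
  have h6 : |v.2.1| < 5 / 8 := by linarith
  rw [abs_lt] at h5 h6
  constructor <;> rw [abs_lt] <;> constructor <;> linarith [h5.1, h5.2, h6.1, h6.2]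

theorem h170_BR (p r : ℝ) : (Bf p r = 1 ∧ Rf p r = 1) ↔
    ((p, r) : ℝ × ℝ) ∈ ({(1, 0), (0, 1), (-1, 1), (-1, 0), (0, -1), (1, -1)} : Set (ℝ × ℝ)) := by
  simp only [mem_insert_iff, mem_singleton_iff, Prod.mk.injEq]
  constructor
  · rintro ⟨h1, h2⟩
    unfold Bf at h1
    unfold Rf at h2
    have b1 := bet_nonneg (1 - p)
    have b2 := bet_nonneg (1 - r)
    have b3 := bet_nonneg (1 + p + r)
    have b4 := bet_nonneg (1 + p)
    have b5 := bet_nonneg (1 + r)
    have b6 := bet_nonneg (1 - p - r)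
    have c1 := h170_bet_le (d := 1 - p) (by linarith)
    have c2 := h170_bet_le (d := 1 - r) (by linarith)
    have c3 := h170_bet_le (d := 1 + p + r) (by linarith)
    have c4 := h170_bet_le (d := 1 + p) (by linarith)
    have c5 := h170_bet_le (d := 1 + r) (by linarith)
    have c6 := h170_bet_le (d := 1 - p - r) (by linarith)
    have e1 := h170_three h1 (by rintro ⟨ha, hb⟩; linarith) (by rintro ⟨ha, hb⟩; linarith)
      (by rintro ⟨ha, hb⟩; linarith)
    have e2 := h170_three h2 (by rintro ⟨ha, hb⟩; linarith) (by rintro ⟨ha, hb⟩; linarith)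
      (by rintro ⟨ha, hb⟩; linarith)
    rcases e1 with e1 | e1 | e1 <;> rcases e2 with e2 | e2 | e2
    · exfalso; linarith
    · right; right; right; right; right
      constructor <;> linarith
    · left
      constructor <;> linarith
    · right; right; left
      constructor <;> linarith
    · exfalso; linarith
    · right; left
      constructor <;> linarith
    · right; right; right; left
      constructor <;> linarith
    · right; right; right; right; left
      constructor <;> linarith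
    · exfalso; linarith
  · have z : ∀ d : ℝ, 1 / 16 ≤ d → bet d = 0 := fun d h => bet_eq_zero h
    have o : ∀ d : ℝ, d = 0 → bet d = 1 := fun d h => by rw [h, bet_zero]
    rintro (⟨rfl, rfl⟩ | ⟨rfl, rfl⟩ | ⟨rfl, rfl⟩ | ⟨rfl, rfl⟩ | ⟨rfl, rfl⟩ | ⟨rfl, rfl⟩)
    · constructor
      · unfold Bf
        rw [o _ (by norm_num), z (1 - 0) (by norm_num), z (1 + 1 + 0) (by norm_num)]
        norm_num
      · unfold Rf
        rw [z (1 + 1) (by norm_num), z (1 + 0) (by norm_num), o (1 - 1 - 0) (by norm_num)]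
        norm_num
    · constructor
      · unfold Bf
        rw [z (1 - 0) (by norm_num), o (1 - 1) (by norm_num), z (1 + 0 + 1) (by norm_num)]
        norm_num
      · unfold Rf
        rw [z (1 + 0) (by norm_num), z (1 + 1) (by norm_num), o (1 - 0 - 1) (by norm_num)]
        norm_num
    · constructor
      · unfold Bf
        rw [z (1 - -1) (by norm_num), o (1 - 1) (by norm_num), z (1 + -1 + 1) (by norm_num)]
        norm_num
      · unfold Rf
        rw [o (1 + -1) (by norm_num), z (1 + 1) (by norm_num), z (1 - -1 - 1) (by norm_num)]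
        norm_num
    · constructor
      · unfold Bf
        rw [z (1 - -1) (by norm_num), z (1 - 0) (by norm_num), o (1 + -1 + 0) (by norm_num)]
        norm_num
      · unfold Rf
        rw [o (1 + -1) (by norm_num), z (1 + 0) (by norm_num), z (1 - -1 - 0) (by norm_num)]
        norm_num
    · constructor
      · unfold Bf
        rw [z (1 - 0) (by norm_num), z (1 - -1) (by norm_num), o (1 + 0 + -1) (by norm_num)]
        norm_num
      · unfold Rf
        rw [z (1 + 0) (by norm_num), o (1 + -1) (by norm_num), z (1 - 0 - -1) (by norm_num)]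
        norm_num
    · constructor
      · unfold Bf
        rw [o (1 - 1) (by norm_num), z (1 - -1) (by norm_num), z (1 + 1 + -1) (by norm_num)]
        norm_num
      · unfold Rf
        rw [z (1 + 1) (by norm_num), o (1 + -1) (by norm_num), z (1 - 1 - -1) (by norm_num)]
        norm_num

/-- where both `|x|, |y| < 15/16`, the surface `M0` consists of the six squares over the vertices -/
theorem M0_flat {v : V} (hx : |v.1| < 15 / 16) (hy : |v.2.1| < 15 / 16) :
    v ∈ M0 ↔ v.2.2 ∈ ({(1, 0), (0, 1), (-1, 1), (-1, 0), (0, -1), (1, -1)} : Set (ℝ × ℝ)) := by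
  have h1 : alp v.1 = 0 := alp_eq_zero_iff.2 hx.le
  have h2 : alp v.2.1 = 0 := alp_eq_zero_iff.2 hy.le
  have h3 : v ∈ M0 ↔ (Bf v.2.2.1 v.2.2.2 = 1 ∧ Rf v.2.2.1 v.2.2.2 = 1) := by
    unfold M0 G1 G2
    simp only [mem_setOf_eq]
    rw [h1, h2]
    constructor
    · rintro ⟨a, b⟩
      constructor <;> linarith
    · rintro ⟨a, b⟩
      constructor <;> linarith
  rw [h3, h170_BR]

theorem DiA_subset : DiA ⊆ M0 := by
  rintro v ⟨hr, hp, hk⟩
  obtain ⟨h1, h2⟩ := abs_lt_of_kA (v := v) (by linarith)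
  rw [M0_flat h1 h2]
  have e : v.2.2 = (v.2.2.1, v.2.2.2) := rfl
  rw [e, hr]
  rcases (abs_eq zero_le_one).1 hp with h | h
  · rw [h]; simp
  · rw [h]; simp

theorem DiB_subset : DiB ⊆ M0 := by
  rintro v ⟨hr, hp, hk⟩
  obtain ⟨h1, h2⟩ := abs_lt_of_kB (v := v) (by linarith)
  rw [M0_flat h1 h2]
  have e : v.2.2 = (v.2.2.1, v.2.2.2) := rfl
  rw [e, hr]
  rcases (abs_eq zero_le_one).1 hp with h | h
  · rw [h]; simp
  · rw [h]; simp

theorem DiA_DiB : Disjoint DiA DiB := by
  rw [Set.disjoint_left]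
  rintro v ⟨hr, hp, hk⟩ ⟨hr', hp', hk'⟩
  rw [hr', abs_zero] at hp
  exact zero_ne_one hp


end Pool.Agent.Helper874.Odd
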