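import Pool.Agent.Helper874.Odd.Base
import Pool.Agent.Helper874.Odd.Jbet1

set_option autoImplicit false
open Set Filter Topology
open scoped Manifold ContDiff

namespace Pool.Agent.Helper874.Odd

theorem iot_zero : iot 0 = 1 / 16 := by
  unfold iot
  rw [if_pos rfl]

theorem iot_one : iot 1 = 0 := by
  unfold iot
  rw [if_neg one_ne_zero, Real.log_one]
  norm_num

theorem iot_mem {y : ℝ} (hy : y ∈ Icc (0 : ℝ) 1) : iot y ∈ Icc (0 : ℝ) (1 / 16) := by
  unfold iot
  by_cases h : y = 0
  · rw [if_pos h]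
    constructor <;> norm_num
  · rw [if_neg h]
    have hlog : Real.log y ≤ 0 := Real.log_nonpos hy.1 hy.2
    have h16 : 16 ≤ 16 - Real.log y := by linarith
    have h1 : 1 / (16 - Real.log y) ≤ 1 / 16 := one_div_le_one_div_of_le (by norm_num) h16
    have h2 : 0 < 1 / (16 - Real.log y) := by positivity
    constructor <;> linarith

theorem bet_iot {y : ℝ} (hy : y ∈ Icc (0 : ℝ) 1) : bet (iot y) = y := by
  by_cases h : y = 0
  · subst h
    rw [iot_zero, bet_eq_zero le_rfl]
  · have hpos : 0 < y := lt_of_le_of_ne hy.1 (Ne.symm h)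
    have hlog : Real.log y ≤ 0 := Real.log_nonpos hy.1 hy.2
    have h16 : 0 < 16 - Real.log y := by linarith
    unfold bet iot
    rw [if_neg h]
    have e : 1 / 16 - (1 / 16 - 1 / (16 - Real.log y)) = 1 / (16 - Real.log y) := by ring
    rw [e]
    have hp : ¬ (1 / (16 - Real.log y) ≤ 0) := by
      rw [not_le]; positivity
    unfold expNegInvGlue
    rw [if_neg hp, one_div, inv_inv, ← Real.exp_add]
    have e2 : -(16 - Real.log y) + 16 = Real.log y := by ring
    rw [e2, Real.exp_log hpos]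

theorem iot_bet {d : ℝ} (hd : d ∈ Icc (0 : ℝ) (1 / 16)) : iot (bet d) = d := by
  have hb : bet d ∈ Icc (0 : ℝ) 1 := by
    refine ⟨bet_nonneg d, ?_⟩
    rw [← bet_zero]
    exact bet_antitone hd.1
  exact bet_strictAntiOn.injOn (iot_mem hb).2 hd.2 (bet_iot hb)

theorem iot_antitoneOn : AntitoneOn iot (Icc 0 1) := by
  intro y hy y' hy' hyy
  by_contra hcon
  push Not at hcon
  have h := bet_strictAntiOn (iot_mem hy).2 (iot_mem hy').2 hcon
  rw [bet_iot hy, bet_iot hy'] at h
  linarith


end Pool.Agent.Helper874.Odd
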