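import Pool.Agent.Helper874.Odd.Base
import Pool.Agent.Helper874.Odd.Jbet1
import Pool.Agent.Helper874.Odd.Jbet2
import Pool.Agent.Helper874.Odd.Jiot1

set_option autoImplicit false
open Set Filter Topology
open scoped Manifold ContDiff

namespace Pool.Agent.Helper874.Odd

theorem iot_continuousOn_bet_mem {d : ℝ} (hd : d ∈ Icc (0 : ℝ) (1 / 16)) :
    bet d ∈ Icc (0 : ℝ) 1 := by
  refine ⟨bet_nonneg d, ?_⟩
  rw [← bet_zero]
  exact bet_antitone hd.1

theorem iot_continuousOn : ContinuousOn iot (Icc 0 1) := by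
  intro y hy
  rcases eq_or_lt_of_le hy.1 with h | h
  · rw [← h]
    unfold ContinuousWithinAt
    rw [iot_zero]
    refine tendsto_order.2 ⟨fun a ha => ?_, fun a ha => ?_⟩
    · obtain ⟨d, hd⟩ : ∃ d, d = (max a 0 + 1 / 16) / 2 := ⟨_, rfl⟩
      have hm : max a 0 < 1 / 16 := max_lt ha (by norm_num)
      have hd1 : max a 0 < d := by rw [hd]; linarith
      have hd2 : d < 1 / 16 := by rw [hd]; linarith
      have had : a < d := lt_of_le_of_lt (le_max_left _ _) hd1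
      have h0d : 0 < d := lt_of_le_of_lt (le_max_right _ _) hd1
      have hdm : d ∈ Icc (0 : ℝ) (1 / 16) := ⟨h0d.le, hd2.le⟩
      have hev1 : ∀ᶠ z in 𝓝[Icc (0 : ℝ) 1] 0, z < bet d :=
        nhdsWithin_le_nhds (Iio_mem_nhds (bet_pos hd2))
      have hev2 : ∀ᶠ z in 𝓝[Icc (0 : ℝ) 1] 0, z ∈ Icc (0 : ℝ) 1 := self_mem_nhdsWithin
      filter_upwards [hev1, hev2] with z hz1 hz2
      have h3 := iot_antitoneOn hz2 (iot_continuousOn_bet_mem hdm) hz1.le
      rw [iot_bet hdm] at h3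
      exact lt_of_lt_of_le had h3
    · have hev2 : ∀ᶠ z in 𝓝[Icc (0 : ℝ) 1] 0, z ∈ Icc (0 : ℝ) 1 := self_mem_nhdsWithin
      filter_upwards [hev2] with z hz
      exact lt_of_le_of_lt (iot_mem hz).2 ha
  · have hlog : Real.log y ≤ 0 := Real.log_nonpos hy.1 hy.2
    have h1 : ContinuousAt (fun z : ℝ => 1 / 16 - 1 / (16 - Real.log z)) y := by
      refine continuousAt_const.sub (continuousAt_const.div
        (continuousAt_const.sub (Real.continuousAt_log h.ne')) ?_)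
      linarith
    have h2 : (fun z : ℝ => 1 / 16 - 1 / (16 - Real.log z)) =ᶠ[𝓝 y] iot := by
      filter_upwards [isOpen_ne.mem_nhds h.ne'] with z hz
      unfold iot
      rw [if_neg hz]
    exact (h1.congr h2).continuousWithinAt

theorem iot_convexOn : ConvexOn ℝ (Icc 0 1) iot := by
  refine ⟨convex_Icc 0 1, fun y1 h1 y2 h2 a b ha hb hab => ?_⟩
  have m1 := iot_mem h1
  have m2 := iot_mem h2
  have hdm : a • iot y1 + b • iot y2 ∈ Icc (0 : ℝ) (1 / 16) :=
    convex_Icc (0 : ℝ) (1 / 16) m1 m2 ha hb hab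
  have hym : a • y1 + b • y2 ∈ Icc (0 : ℝ) 1 := convex_Icc (0 : ℝ) 1 h1 h2 ha hb hab
  have h3 := bet_convexOn.2 (mem_Ici.2 m1.1) (mem_Ici.2 m2.1) ha hb hab
  rw [bet_iot h1, bet_iot h2] at h3
  have h4 := iot_antitoneOn (iot_continuousOn_bet_mem hdm) hym h3
  rwa [iot_bet hdm] at h4


end Pool.Agent.Helper874.Odd
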