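import Pool.Agent.Helper874.Odd.Base
import Pool.Agent.Helper874.Odd.Jbet1
import Pool.Agent.Helper874.Odd.Jbet2
import Pool.Agent.Helper874.Odd.Jiot1
import Pool.Agent.Helper874.Odd.Jiot2

set_option autoImplicit false
open Set Filter Topology
open scoped Manifold ContDiff

namespace Pool.Agent.Helper874.Odd

theorem hex_cv {a b u v : ℝ} (ha : 0 ≤ a) (hb : 0 ≤ b) (hab : a + b = 1) (hu : |u| ≤ 1)
    (hv : |v| ≤ 1) : |a * u + b * v| ≤ 1 := by
  have h1 := abs_add_le (a * u) (b * v)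
  rw [abs_mul, abs_mul, abs_of_nonneg ha, abs_of_nonneg hb] at h1
  have h2 := mul_le_mul_of_nonneg_left hu ha
  have h3 := mul_le_mul_of_nonneg_left hv hb
  linarith

theorem Hex_convex : Convex ℝ Hex := by
  intro x hx y hy a b ha hb hab
  refine ⟨?_, ?_, ?_⟩
  · simp only [Prod.fst_add, Prod.smul_fst, smul_eq_mul]
    exact hex_cv ha hb hab hx.1 hy.1
  · simp only [Prod.snd_add, Prod.smul_snd, smul_eq_mul]
    exact hex_cv ha hb hab hx.2.1 hy.2.1
  · simp only [Prod.fst_add, Prod.smul_fst, Prod.snd_add, Prod.smul_snd, smul_eq_mul]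
    have e : a * x.1 + b * y.1 + (a * x.2 + b * y.2) = a * (x.1 + x.2) + b * (y.1 + y.2) := by ring
    rw [e]
    exact hex_cv ha hb hab hx.2.2 hy.2.2

theorem Hex_compact : IsCompact Hex := by
  refine IsCompact.of_isClosed_subset
    ((isCompact_Icc (a := (-1 : ℝ)) (b := 1)).prod (isCompact_Icc (a := (-1 : ℝ)) (b := 1))) ?_ ?_
  · have h1 : IsClosed {q : ℝ × ℝ | |q.1| ≤ 1} := isClosed_le (by fun_prop) continuous_const
    have h2 : IsClosed {q : ℝ × ℝ | |q.2| ≤ 1} := isClosed_le (by fun_prop) continuous_const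
    have h3 : IsClosed {q : ℝ × ℝ | |q.1 + q.2| ≤ 1} := isClosed_le (by fun_prop) continuous_const
    exact h1.inter (h2.inter h3)
  · intro q hq
    exact ⟨abs_le.mp hq.1, abs_le.mp hq.2.1⟩

theorem Hex_neg {q : ℝ × ℝ} (h : q ∈ Hex) : -q ∈ Hex := by
  refine ⟨?_, ?_, ?_⟩
  · rw [Prod.fst_neg, abs_neg]; exact h.1
  · rw [Prod.snd_neg, abs_neg]; exact h.2.1
  · rw [Prod.fst_neg, Prod.snd_neg, ← neg_add, abs_neg]; exact h.2.2

theorem hex_bet_le {d : ℝ} (h : 0 ≤ d) : bet d ≤ 1 := by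
  have := bet_antitone h
  rwa [bet_zero] at this

theorem hex_args {q : ℝ × ℝ} (h : q ∈ Hex) : 0 ≤ 1 - q.1 ∧ 0 ≤ 1 - q.2 ∧ 0 ≤ 1 + q.1 + q.2 := by
  have h1 := abs_le.mp h.1
  have h2 := abs_le.mp h.2.1
  have h3 := abs_le.mp h.2.2
  refine ⟨?_, ?_, ?_⟩ <;> linarith

theorem Bf_mem {q : ℝ × ℝ} (h : q ∈ Hex) : Bf q.1 q.2 ∈ Icc (0 : ℝ) 1 := by
  obtain ⟨a1, a2, a3⟩ := hex_args h
  have h1 := abs_le.mp h.1
  have h2 := abs_le.mp h.2.1
  have h3 := abs_le.mp h.2.2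
  have b1 := bet_nonneg (1 - q.1)
  have b2 := bet_nonneg (1 - q.2)
  have b3 := bet_nonneg (1 + q.1 + q.2)
  have c1 := hex_bet_le a1
  have c2 := hex_bet_le a2
  have c3 := hex_bet_le a3
  unfold Bf
  refine ⟨by linarith, ?_⟩
  by_cases k1 : 1 / 16 ≤ 1 - q.1
  · by_cases k2 : 1 / 16 ≤ 1 - q.2
    · rw [bet_eq_zero k1, bet_eq_zero k2]; linarith
    · by_cases k3 : 1 / 16 ≤ 1 + q.1 + q.2
      · rw [bet_eq_zero k1, bet_eq_zero k3]; linarith
      · push Not at k2 k3; exfalso; linarith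
  · push Not at k1
    have k2 : 1 / 16 ≤ 1 - q.2 := by
      by_contra k2
      push Not at k2
      linarith
    have k3 : 1 / 16 ≤ 1 + q.1 + q.2 := by
      by_contra k3
      push Not at k3
      linarith
    rw [bet_eq_zero k2, bet_eq_zero k3]; linarith

theorem Bf_neg (p r : ℝ) : Bf (-p) (-r) = Rf p r := by
  unfold Bf Rf
  have e1 : 1 - -p = 1 + p := by ring
  have e2 : 1 - -r = 1 + r := by ring
  have e3 : 1 + -p + -r = 1 - p - r := by ring
  rw [e1, e2, e3]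

theorem Rf_neg (p r : ℝ) : Rf (-p) (-r) = Bf p r := by
  rw [← Bf_neg, neg_neg, neg_neg]

theorem Rf_mem {q : ℝ × ℝ} (h : q ∈ Hex) : Rf q.1 q.2 ∈ Icc (0 : ℝ) 1 := by
  rw [← Bf_neg]
  exact Bf_mem (Hex_neg h)

theorem xp_neg (q : ℝ × ℝ) : xp (-q) = yp q := by
  unfold xp yp
  rw [Prod.fst_neg, Prod.snd_neg, Bf_neg]

theorem xp_mem {q : ℝ × ℝ} (h : q ∈ Hex) : xp q ∈ Icc (15 / 16 : ℝ) 1 := by
  have h1 := Bf_mem h
  have h2 := iot_mem (y := 1 - Bf q.1 q.2) ⟨by linarith [h1.2], by linarith [h1.1]⟩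
  unfold xp
  exact ⟨by linarith [h2.2], by linarith [h2.1]⟩

theorem yp_mem {q : ℝ × ℝ} (h : q ∈ Hex) : yp q ∈ Icc (15 / 16 : ℝ) 1 := by
  rw [← xp_neg]
  exact xp_mem (Hex_neg h)

theorem xp_continuousOn : ContinuousOn xp Hex := by
  have hb : Continuous bet := bet_contDiff.continuous
  have hB : Continuous (fun q : ℝ × ℝ => 1 - Bf q.1 q.2) := by
    unfold Bf
    refine continuous_const.sub (((hb.comp ?_).add (hb.comp ?_)).add (hb.comp ?_)) <;> fun_prop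
  unfold xp
  refine continuousOn_const.sub (iot_continuousOn.comp hB.continuousOn ?_)
  intro q hq
  have h1 := Bf_mem hq
  exact ⟨by linarith [h1.2], by linarith [h1.1]⟩

theorem yp_continuousOn : ContinuousOn yp Hex := by
  have e : yp = fun q => xp (-q) := by funext q; exact (xp_neg q).symm
  rw [e]
  exact xp_continuousOn.comp continuous_neg.continuousOn (fun q hq => Hex_neg hq)

theorem Bf_conv {x y : ℝ × ℝ} (hx : x ∈ Hex) (hy : y ∈ Hex) {a b : ℝ} (ha : 0 ≤ a) (hb : 0 ≤ b)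
    (hab : a + b = 1) :
    Bf (a * x.1 + b * y.1) (a * x.2 + b * y.2) ≤ a * Bf x.1 x.2 + b * Bf y.1 y.2 := by
  obtain ⟨a1, a2, a3⟩ := hex_args hx
  obtain ⟨b1, b2, b3⟩ := hex_args hy
  have c1 := bet_convexOn.2 a1 b1 ha hb hab
  have c2 := bet_convexOn.2 a2 b2 ha hb hab
  have c3 := bet_convexOn.2 a3 b3 ha hb hab
  simp only [smul_eq_mul] at c1 c2 c3
  have e1 : a * (1 - x.1) + b * (1 - y.1) = 1 - (a * x.1 + b * y.1) := by
    linear_combination hab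
  have e2 : a * (1 - x.2) + b * (1 - y.2) = 1 - (a * x.2 + b * y.2) := by
    linear_combination hab
  have e3 : a * (1 + x.1 + x.2) + b * (1 + y.1 + y.2) =
      1 + (a * x.1 + b * y.1) + (a * x.2 + b * y.2) := by
    linear_combination hab
  rw [e1] at c1
  rw [e2] at c2
  rw [e3] at c3
  unfold Bf
  linarith

theorem xp_concaveOn : ConcaveOn ℝ Hex xp := by
  refine ⟨Hex_convex, ?_⟩
  intro x hx y hy a b ha hb hab
  have h1 := Bf_mem hx
  have h2 := Bf_mem hy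
  have hxy : a • x + b • y ∈ Hex := Hex_convex hx hy ha hb hab
  have h3 := Bf_mem hxy
  have h4 := Bf_conv hx hy ha hb hab
  simp only [Prod.fst_add, Prod.smul_fst, Prod.snd_add, Prod.smul_snd, smul_eq_mul] at h3
  unfold xp
  simp only [Prod.fst_add, Prod.smul_fst, Prod.snd_add, Prod.smul_snd, smul_eq_mul]
  have m1 : 1 - Bf x.1 x.2 ∈ Icc (0 : ℝ) 1 := ⟨by linarith [h1.2], by linarith [h1.1]⟩
  have m2 : 1 - Bf y.1 y.2 ∈ Icc (0 : ℝ) 1 := ⟨by linarith [h2.2], by linarith [h2.1]⟩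
  have m3 : 1 - Bf (a * x.1 + b * y.1) (a * x.2 + b * y.2) ∈ Icc (0 : ℝ) 1 :=
    ⟨by linarith [h3.2], by linarith [h3.1]⟩
  have c := iot_convexOn.2 m1 m2 ha hb hab
  have m4 : a • (1 - Bf x.1 x.2) + b • (1 - Bf y.1 y.2) ∈ Icc (0 : ℝ) 1 :=
    (convex_Icc (0 : ℝ) 1) m1 m2 ha hb hab
  have h5 : a • (1 - Bf x.1 x.2) + b • (1 - Bf y.1 y.2) ≤
      1 - Bf (a * x.1 + b * y.1) (a * x.2 + b * y.2) := by
    simp only [smul_eq_mul]
    have : a * (1 - Bf x.1 x.2) + b * (1 - Bf y.1 y.2) =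
        (a + b) - (a * Bf x.1 x.2 + b * Bf y.1 y.2) := by ring
    rw [this, hab]
    linarith
  have h6 := iot_antitoneOn m4 m3 h5
  simp only [smul_eq_mul] at c h6
  have e : a * (1 - iot (1 - Bf x.1 x.2)) + b * (1 - iot (1 - Bf y.1 y.2)) =
      (a + b) - (a * iot (1 - Bf x.1 x.2) + b * iot (1 - Bf y.1 y.2)) := by ring
  rw [e, hab]
  linarith

theorem yp_concaveOn : ConcaveOn ℝ Hex yp := by
  refine ⟨Hex_convex, ?_⟩
  intro x hx y hy a b ha hb hab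
  have h := xp_concaveOn.2 (Hex_neg hx) (Hex_neg hy) ha hb hab
  rw [xp_neg, xp_neg] at h
  have e : a • -x + b • -y = -(a • x + b • y) := by
    rw [smul_neg, smul_neg, neg_add]
  rw [e, xp_neg] at h
  exact h


end Pool.Agent.Helper874.Odd
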