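import Pool.Agent.Helper874.Odd.Base
import Pool.Agent.Helper874.Odd.Jbet1
import Pool.Agent.Helper874.Odd.Jbet2
import Pool.Agent.Helper874.Odd.Jiot1
import Pool.Agent.Helper874.Odd.Jalp1
import Pool.Agent.Helper874.Odd.Jhex1

set_option autoImplicit false
open Set Filter Topology
open scoped Manifold ContDiff

namespace Pool.Agent.Helper874.Odd

theorem M0_iff_arg {d : ℝ} (h : bet d ≤ 1) : 0 ≤ d := by
  by_contra hd
  push Not at hd
  have h1 := bet_strictAntiOn (mem_Iic.2 (by linarith : d ≤ 1 / 16))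
    (mem_Iic.2 (by norm_num : (0 : ℝ) ≤ 1 / 16)) hd
  rw [bet_zero] at h1
  linarith

theorem M0_iff_coord {x b : ℝ} (hb : b ∈ Icc (0 : ℝ) 1) :
    alp x + b - 1 = 0 ↔ (x = 1 - iot (1 - b) ∨ x = - (1 - iot (1 - b)) ∨
      (b = 1 ∧ |x| ≤ 15 / 16)) := by
  have hb' : 1 - b ∈ Icc (0 : ℝ) 1 := ⟨by linarith [hb.2], by linarith [hb.1]⟩
  have hi := iot_mem hb'
  have key : alp (1 - iot (1 - b)) = 1 - b := by
    rw [alp_of_nonneg (by linarith [hi.2]), sub_sub_cancel, bet_iot hb']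
  constructor
  · intro h
    have h1 : alp x = 1 - b := by linarith
    by_cases hx : |x| ≤ 15 / 16
    · right; right
      have h2 := alp_eq_zero_iff.2 hx
      exact ⟨by linarith, hx⟩
    · push Not at hx
      have hx1 : |x| ≤ 1 := alp_le_one_iff.1 (by linarith [hb.1])
      have h2 : alp |x| = alp x := by
        rcases abs_choice x with h3 | h3
        · rw [h3]
        · rw [h3, alp_neg]
      rw [alp_of_nonneg (abs_nonneg x), h1] at h2
      have h3 := iot_bet (d := 1 - |x|) ⟨by linarith, by linarith⟩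
      rw [h2] at h3
      have h4 : |x| = 1 - iot (1 - b) := by linarith
      rcases abs_choice x with h5 | h5
      · left; rw [← h4, h5]
      · right; left; rw [← h4, h5, neg_neg]
  · rintro (h | h | ⟨h1, h2⟩)
    · rw [h, key]; ring
    · rw [h, alp_neg, key]; ring
    · rw [alp_eq_zero_iff.2 h2, h1]; ring

/-- description of the surface `M0` -/
theorem M0_iff {v : V} : v ∈ M0 ↔ v.2.2 ∈ Hex ∧
    (v.1 = xp v.2.2 ∨ v.1 = - xp v.2.2 ∨ (Bf v.2.2.1 v.2.2.2 = 1 ∧ |v.1| ≤ 15 / 16)) ∧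
    (v.2.1 = yp v.2.2 ∨ v.2.1 = - yp v.2.2 ∨ (Rf v.2.2.1 v.2.2.2 = 1 ∧ |v.2.1| ≤ 15 / 16)) := by
  constructor
  · rintro ⟨h1, h2⟩
    have hHex : v.2.2 ∈ Hex := by
      unfold G1 Bf at h1
      unfold G2 Rf at h2
      have a1 := alp_nonneg v.1
      have a2 := alp_nonneg v.2.1
      have b1 := bet_nonneg (1 - v.2.2.1)
      have b2 := bet_nonneg (1 - v.2.2.2)
      have b3 := bet_nonneg (1 + v.2.2.1 + v.2.2.2)
      have b4 := bet_nonneg (1 + v.2.2.1)
      have b5 := bet_nonneg (1 + v.2.2.2)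
      have b6 := bet_nonneg (1 - v.2.2.1 - v.2.2.2)
      have c1 := M0_iff_arg (d := 1 - v.2.2.1) (by linarith)
      have c2 := M0_iff_arg (d := 1 - v.2.2.2) (by linarith)
      have c3 := M0_iff_arg (d := 1 + v.2.2.1 + v.2.2.2) (by linarith)
      have c4 := M0_iff_arg (d := 1 + v.2.2.1) (by linarith)
      have c5 := M0_iff_arg (d := 1 + v.2.2.2) (by linarith)
      have c6 := M0_iff_arg (d := 1 - v.2.2.1 - v.2.2.2) (by linarith)
      exact ⟨abs_le.2 ⟨by linarith, by linarith⟩, abs_le.2 ⟨by linarith, by linarith⟩,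
        abs_le.2 ⟨by linarith, by linarith⟩⟩
    exact ⟨hHex, (M0_iff_coord (Bf_mem hHex)).1 h1, (M0_iff_coord (Rf_mem hHex)).1 h2⟩
  · rintro ⟨hHex, h1, h2⟩
    exact ⟨(M0_iff_coord (Bf_mem hHex)).2 h1, (M0_iff_coord (Rf_mem hHex)).2 h2⟩

theorem xp_of_Bf_one {q : ℝ × ℝ} (h : Bf q.1 q.2 = 1) : xp q = 15 / 16 := by
  unfold xp
  rw [h, sub_self, iot_zero]
  norm_num

theorem yp_of_Rf_one {q : ℝ × ℝ} (h : Rf q.1 q.2 = 1) : yp q = 15 / 16 := by
  unfold yp
  rw [h, sub_self, iot_zero]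
  norm_num


end Pool.Agent.Helper874.Odd
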