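import Pool.Agent.Helper874.Odd.Base
import Pool.Agent.Helper874.Odd.Jbet1
import Pool.Agent.Helper874.Odd.Jbet2
import Pool.Agent.Helper874.Odd.Jiot1
import Pool.Agent.Helper874.Odd.Jiot2
import Pool.Agent.Helper874.Odd.Jhex1

set_option autoImplicit false
open Set Filter Topology
open scoped Manifold ContDiff

namespace Pool.Agent.Helper874.Odd

/-- a convex function on an interval is nondecreasing in one of the two directions -/
theorem convex_dir {f : ℝ → ℝ} {a b x : ℝ} (hx : x ∈ Icc a b) (hf : ConvexOn ℝ (Icc a b) f) :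
    (∀ u ∈ Icc x b, f x ≤ f u) ∨ (∀ u ∈ Icc a x, f x ≤ f u) := by
  by_cases h : ∀ u ∈ Icc x b, f x ≤ f u
  · exact Or.inl h
  · right
    push Not at h
    obtain ⟨v, hv, hvx⟩ := h
    intro u hu
    by_contra hlt
    push Not at hlt
    have h1 : f x ≤ max (f u) (f v) :=
      hf.le_max_of_mem_Icc ⟨hu.1, hu.2.trans hx.2⟩ ⟨hx.1.trans hv.1, hv.2⟩ ⟨hu.2, hv.1⟩
    exact absurd h1 (not_le.2 (max_lt hlt hvx))

/-- reachability -/
def hex_path_Reach (φ : ℝ × ℝ → ℝ) (q0 q1 : ℝ × ℝ) : Prop :=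
  ∃ T : Set (ℝ × ℝ), T ⊆ Hex ∧ IsPreconnected T ∧ q0 ∈ T ∧ q1 ∈ T ∧
    ∀ q ∈ T, Rf q.1 q.2 = Rf q0.1 q0.2 ∧ φ q0 ≤ φ q

theorem hex_path_trans {φ : ℝ × ℝ → ℝ} {q0 q1 q2 : ℝ × ℝ} (h1 : hex_path_Reach φ q0 q1)
    (h2 : hex_path_Reach φ q1 q2) : hex_path_Reach φ q0 q2 := by
  obtain ⟨T, hT, hTc, h0T, h1T, hTp⟩ := h1
  obtain ⟨S, hS, hSc, h1S, h2S, hSp⟩ := h2
  refine ⟨T ∪ S, union_subset hT hS, IsPreconnected.union q1 h1T h1S hTc hSc, Or.inl h0T,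
    Or.inr h2S, ?_⟩
  rintro q (hq | hq)
  · exact hTp q hq
  · exact ⟨(hSp q hq).1.trans (hTp q1 h1T).1, (hTp q1 h1T).2.trans (hSp q hq).2⟩

theorem hex_path_seg {φ : ℝ × ℝ → ℝ} (hφ : ConvexOn ℝ Hex φ) {q0 d : ℝ × ℝ} {s t : ℝ}
    (hs : s ≤ 0) (ht : 0 ≤ t)
    (hH : ∀ u ∈ Icc s t, q0 + u • d ∈ Hex)
    (hR : ∀ u ∈ Icc s t, Rf (q0 + u • d).1 (q0 + u • d).2 = Rf q0.1 q0.2) :
    hex_path_Reach φ q0 (q0 + t • d) ∨ hex_path_Reach φ q0 (q0 + s • d) := by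
  have hc : Continuous fun u : ℝ => q0 + u • d := by fun_prop
  have hconv : ConvexOn ℝ (Icc s t) (fun u => φ (q0 + u • d)) := by
    refine ⟨convex_Icc _ _, fun x hx y hy a b ha hb hab => ?_⟩
    have h := hφ.2 (hH x hx) (hH y hy) ha hb hab
    have e : a • (q0 + x • d) + b • (q0 + y • d) = q0 + (a • x + b • y) • d := by
      have : q0 = (a + b) • q0 := by rw [hab, one_smul]
      conv_rhs => rw [this]
      simp only [smul_eq_mul]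
      module
    rw [e] at h
    exact h
  have h0 : q0 + (0:ℝ) • d = q0 := by simp
  rcases convex_dir (x := 0) ⟨hs, ht⟩ hconv with h | h
  · left
    refine ⟨(fun u : ℝ => q0 + u • d) '' Icc 0 t, ?_, isPreconnected_Icc.image _ hc.continuousOn,
      ⟨0, ⟨le_rfl, ht⟩, h0⟩, ⟨t, ⟨ht, le_rfl⟩, rfl⟩, ?_⟩
    · rintro _ ⟨u, hu, rfl⟩
      exact hH u ⟨hs.trans hu.1, hu.2⟩
    · rintro _ ⟨u, hu, rfl⟩
      refine ⟨hR u ⟨hs.trans hu.1, hu.2⟩, ?_⟩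
      have := h u hu
      simpa [h0] using this
  · right
    refine ⟨(fun u : ℝ => q0 + u • d) '' Icc s 0, ?_, isPreconnected_Icc.image _ hc.continuousOn,
      ⟨0, ⟨hs, le_rfl⟩, h0⟩, ⟨s, ⟨le_rfl, hs⟩, rfl⟩, ?_⟩
    · rintro _ ⟨u, hu, rfl⟩
      exact hH u ⟨hu.1, hu.2.trans ht⟩
    · rintro _ ⟨u, hu, rfl⟩
      refine ⟨hR u ⟨hu.1, hu.2.trans ht⟩, ?_⟩
      have := h u hu
      simpa [h0] using this

/-- STEP 2 near the side `a = 1` -/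
theorem hex_path_s2a {φ : ℝ × ℝ → ℝ} (hφ : ConvexOn ℝ Hex φ) {q0 : ℝ × ℝ} (h0 : q0 ∈ Hex)
    (ha : 15 / 16 ≤ q0.1 + q0.2) : ∃ q1, hex_path_Reach φ q0 q1 ∧ Bf q1.1 q1.2 = 1 := by
  obtain ⟨p, r⟩ := q0
  simp only [Hex, mem_ofPred_eq, abs_le] at h0
  simp only at ha h0
  obtain ⟨⟨hp1, hp2⟩, ⟨hr1, hr2⟩, ⟨ha1, ha2⟩⟩ := h0
  have hseg := hex_path_seg hφ (q0 := (p, r)) (d := (1, -1)) (s := r - 1) (t := 1 - p)
    (by linarith) (by linarith)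
    (by
      rintro u ⟨hu1, hu2⟩
      simp only [Hex, mem_ofPred_eq, abs_le, Prod.smul_mk, Prod.mk_add_mk, smul_eq_mul]
      refine ⟨⟨?_, ?_⟩, ⟨?_, ?_⟩, ⟨?_, ?_⟩⟩ <;> linarith)
    (by
      rintro u ⟨hu1, hu2⟩
      simp only [Rf, Prod.smul_mk, Prod.mk_add_mk, smul_eq_mul]
      rw [bet_eq_zero (d := 1 + (p + u * 1)) (by linarith),
        bet_eq_zero (d := 1 + (r + u * -1)) (by linarith),
        bet_eq_zero (d := 1 + p) (by linarith), bet_eq_zero (d := 1 + r) (by linarith)]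
      congr 2; ring)
  rcases hseg with h | h
  · refine ⟨_, h, ?_⟩
    simp only [Bf, Prod.smul_mk, Prod.mk_add_mk, smul_eq_mul]
    rw [bet_eq_zero (d := 1 - (r + (1 - p) * -1)) (by linarith),
      bet_eq_zero (d := 1 + (p + (1 - p) * 1) + (r + (1 - p) * -1)) (by linarith)]
    have : 1 - (p + (1 - p) * 1) = 0 := by ring
    rw [this, bet_zero]; norm_num
  · refine ⟨_, h, ?_⟩
    simp only [Bf, Prod.smul_mk, Prod.mk_add_mk, smul_eq_mul]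
    rw [bet_eq_zero (d := 1 - (p + (r - 1) * 1)) (by linarith),
      bet_eq_zero (d := 1 + (p + (r - 1) * 1) + (r + (r - 1) * -1)) (by linarith)]
    have : 1 - (r + (r - 1) * -1) = 0 := by ring
    rw [this, bet_zero]; norm_num

/-- transport by a linear symmetry -/
theorem hex_path_sym {φ : ℝ × ℝ → ℝ} (τ : ℝ × ℝ → ℝ × ℝ) (hτ : Continuous τ)
    (hH : ∀ q ∈ Hex, τ q ∈ Hex) (hR : ∀ q, Rf (τ q).1 (τ q).2 = Rf q.1 q.2) {q0 q1 : ℝ × ℝ}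
    (h : hex_path_Reach (fun q => φ (τ q)) q0 q1) : hex_path_Reach φ (τ q0) (τ q1) := by
  obtain ⟨T, hT, hTc, h0T, h1T, hTp⟩ := h
  refine ⟨τ '' T, ?_, hTc.image _ hτ.continuousOn, ⟨_, h0T, rfl⟩, ⟨_, h1T, rfl⟩, ?_⟩
  · rintro _ ⟨q, hq, rfl⟩
    exact hH q (hT hq)
  · rintro _ ⟨q, hq, rfl⟩
    refine ⟨?_, (hTp q hq).2⟩
    rw [hR, hR]; exact (hTp q hq).1

/-- swapping `a` and `b` -/
def hex_path_tau (q : ℝ × ℝ) : ℝ × ℝ := (-(q.1 + q.2), q.2)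
/-- swapping `b` and `c` -/
def hex_path_sig (q : ℝ × ℝ) : ℝ × ℝ := (q.2, q.1)

theorem hex_path_conv (τ : ℝ × ℝ → ℝ × ℝ)
    (hl : ∀ (a b : ℝ) (x y : ℝ × ℝ), τ (a • x + b • y) = a • τ x + b • τ y)
    (hH : ∀ q ∈ Hex, τ q ∈ Hex) {φ : ℝ × ℝ → ℝ}
    (hφ : ConvexOn ℝ Hex φ) : ConvexOn ℝ Hex (fun q => φ (τ q)) := by
  refine ⟨hφ.1, fun x hx y hy a b ha hb hab => ?_⟩
  have := hφ.2 (hH x hx) (hH y hy) ha hb hab
  simpa [hl] using this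

theorem hex_path_tauH (q : ℝ × ℝ) (h : q ∈ Hex) : hex_path_tau q ∈ Hex := by
  simp only [Hex, mem_ofPred_eq, hex_path_tau, abs_le] at h ⊢
  obtain ⟨⟨h1, h2⟩, ⟨h3, h4⟩, ⟨h5, h6⟩⟩ := h
  refine ⟨⟨?_, ?_⟩, ⟨?_, ?_⟩, ⟨?_, ?_⟩⟩ <;> linarith

theorem hex_path_sigH (q : ℝ × ℝ) (h : q ∈ Hex) : hex_path_sig q ∈ Hex := by
  simp only [Hex, mem_ofPred_eq, hex_path_sig, abs_le] at h ⊢
  obtain ⟨⟨h1, h2⟩, ⟨h3, h4⟩, ⟨h5, h6⟩⟩ := h
  refine ⟨⟨?_, ?_⟩, ⟨?_, ?_⟩, ⟨?_, ?_⟩⟩ <;> linarith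

theorem hex_path_tauR (q : ℝ × ℝ) : Rf (hex_path_tau q).1 (hex_path_tau q).2 = Rf q.1 q.2 := by
  simp only [Rf, hex_path_tau]
  have e1 : 1 + -(q.1 + q.2) = 1 - q.1 - q.2 := by ring
  have e2 : 1 - -(q.1 + q.2) - q.2 = 1 + q.1 := by ring
  rw [e1, e2]; ring

theorem hex_path_tauB (q : ℝ × ℝ) : Bf (hex_path_tau q).1 (hex_path_tau q).2 = Bf q.1 q.2 := by
  simp only [Bf, hex_path_tau]
  have e1 : 1 - -(q.1 + q.2) = 1 + q.1 + q.2 := by ring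
  have e2 : 1 + -(q.1 + q.2) + q.2 = 1 - q.1 := by ring
  rw [e1, e2]; ring

theorem hex_path_sigR (q : ℝ × ℝ) : Rf (hex_path_sig q).1 (hex_path_sig q).2 = Rf q.1 q.2 := by
  simp only [Rf, hex_path_sig]
  have e1 : 1 - q.2 - q.1 = 1 - q.1 - q.2 := by ring
  rw [e1]; ring

theorem hex_path_sigB (q : ℝ × ℝ) : Bf (hex_path_sig q).1 (hex_path_sig q).2 = Bf q.1 q.2 := by
  simp only [Bf, hex_path_sig]
  have e1 : 1 + q.2 + q.1 = 1 + q.1 + q.2 := by ring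
  rw [e1]; ring

theorem hex_path_s2b {φ : ℝ × ℝ → ℝ} (hφ : ConvexOn ℝ Hex φ) {q0 : ℝ × ℝ} (h0 : q0 ∈ Hex)
    (hb : 15 / 16 ≤ -q0.1) : ∃ q1, hex_path_Reach φ q0 q1 ∧ Bf q1.1 q1.2 = 1 := by
  have hc : ConvexOn ℝ Hex (fun q => φ (hex_path_tau q)) :=
    hex_path_conv _ (by
      intro a b x y
      ext <;> simp [hex_path_tau]; ring) hex_path_tauH hφ
  obtain ⟨q1, h1, h2⟩ := hex_path_s2a hc (hex_path_tauH q0 h0)
    (by simp only [hex_path_tau]; linarith)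
  have h3 := hex_path_sym hex_path_tau (by unfold hex_path_tau; fun_prop) hex_path_tauH
    hex_path_tauR h1
  have e : hex_path_tau (hex_path_tau q0) = q0 := by
    ext <;> simp [hex_path_tau]
  rw [e] at h3
  exact ⟨_, h3, by rw [hex_path_tauB]; exact h2⟩

theorem hex_path_s2c {φ : ℝ × ℝ → ℝ} (hφ : ConvexOn ℝ Hex φ) {q0 : ℝ × ℝ} (h0 : q0 ∈ Hex)
    (hb : 15 / 16 ≤ -q0.2) : ∃ q1, hex_path_Reach φ q0 q1 ∧ Bf q1.1 q1.2 = 1 := by
  have hc : ConvexOn ℝ Hex (fun q => φ (hex_path_sig q)) :=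
    hex_path_conv _ (by
      intro a b x y
      ext <;> simp [hex_path_sig]) hex_path_sigH hφ
  obtain ⟨q1, h1, h2⟩ := hex_path_s2b hc (hex_path_sigH q0 h0)
    (by simp only [hex_path_sig]; linarith)
  have h3 := hex_path_sym hex_path_sig (by unfold hex_path_sig; fun_prop) hex_path_sigH
    hex_path_sigR h1
  have e : hex_path_sig (hex_path_sig q0) = q0 := by
    ext <;> simp [hex_path_sig]
  rw [e] at h3
  exact ⟨_, h3, by rw [hex_path_sigB]; exact h2⟩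

theorem hex_path_all {φ : ℝ × ℝ → ℝ} (hφ : ConvexOn ℝ Hex φ) {q0 : ℝ × ℝ} (h0 : q0 ∈ Hex) :
    ∃ q1, hex_path_Reach φ q0 q1 ∧ Bf q1.1 q1.2 = 1 := by
  rcases le_or_gt (15 / 16) (q0.1 + q0.2) with hA | hA
  · exact hex_path_s2a hφ h0 hA
  rcases le_or_gt (15 / 16) (-q0.1) with hB | hB
  · exact hex_path_s2b hφ h0 hB
  rcases le_or_gt (15 / 16) (-q0.2) with hC | hC
  · exact hex_path_s2c hφ h0 hC
  obtain ⟨p, r⟩ := q0
  have h0' := h0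
  simp only [Hex, mem_ofPred_eq, abs_le] at h0'
  simp only at hA hB hC h0'
  obtain ⟨⟨hp1, hp2⟩, ⟨hr1, hr2⟩, ⟨ha1, ha2⟩⟩ := h0'
  -- b = -p - u, c = -r + u
  have key : ∀ u : ℝ, u ≤ 1 - p → u ≤ 15 / 16 + r → -(15 / 16) - p ≤ u → r - 1 ≤ u →
      (p, r) + u • ((1:ℝ), (-1:ℝ)) ∈ Hex ∧
      Rf ((p, r) + u • ((1:ℝ), (-1:ℝ))).1 ((p, r) + u • ((1:ℝ), (-1:ℝ))).2 = Rf p r := by
    intro u h1 h2 h3 h4
    constructor
    · simp only [Hex, mem_ofPred_eq, abs_le, Prod.smul_mk, Prod.mk_add_mk, smul_eq_mul]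
      refine ⟨⟨?_, ?_⟩, ⟨?_, ?_⟩, ⟨?_, ?_⟩⟩ <;> linarith
    · simp only [Rf, Prod.smul_mk, Prod.mk_add_mk, smul_eq_mul]
      rw [bet_eq_zero (d := 1 + (p + u * 1)) (by linarith),
        bet_eq_zero (d := 1 + (r + u * -1)) (by linarith),
        bet_eq_zero (d := 1 + p) (by linarith), bet_eq_zero (d := 1 + r) (by linarith)]
      congr 2; ring
  set t : ℝ := min (1 - p) (15 / 16 + r) with ht
  set s : ℝ := max (-(15 / 16) - p) (r - 1) with hs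
  have ht1 : t ≤ 1 - p := min_le_left _ _
  have ht2 : t ≤ 15 / 16 + r := min_le_right _ _
  have hs1 : -(15 / 16) - p ≤ s := le_max_left _ _
  have hs2 : r - 1 ≤ s := le_max_right _ _
  have ht0 : 0 ≤ t := le_min (by linarith) (by linarith)
  have hs0 : s ≤ 0 := max_le (by linarith) (by linarith)
  have hseg := hex_path_seg hφ (q0 := (p, r)) (d := (1, -1)) (s := s) (t := t) hs0 ht0
    (fun u hu => (key u (hu.2.trans ht1) (hu.2.trans ht2) (hs1.trans hu.1) (hs2.trans hu.1)).1)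
    (fun u hu => (key u (hu.2.trans ht1) (hu.2.trans ht2) (hs1.trans hu.1) (hs2.trans hu.1)).2)
  rcases hseg with h | h
  · have hmem := (key t ht1 ht2 (by linarith) (by linarith)).1
    rcases min_choice (1 - p) (15 / 16 + r) with hm | hm
    · rw [← ht] at hm
      refine ⟨_, h, ?_⟩
      simp only [Bf, Prod.smul_mk, Prod.mk_add_mk, smul_eq_mul]
      rw [bet_eq_zero (d := 1 - (r + t * -1)) (by linarith),
        bet_eq_zero (d := 1 + (p + t * 1) + (r + t * -1)) (by linarith)]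
      have : 1 - (p + t * 1) = 0 := by rw [hm]; ring
      rw [this, bet_zero]; norm_num
    · rw [← ht] at hm
      obtain ⟨q1, h1, h2⟩ := hex_path_s2c hφ hmem (by
        simp only [Prod.smul_mk, Prod.mk_add_mk, smul_eq_mul]; linarith)
      exact ⟨q1, hex_path_trans h h1, h2⟩
  · have hmem := (key s (by linarith) (by linarith) hs1 hs2).1
    rcases max_choice (-(15 / 16) - p) (r - 1) with hm | hm
    · rw [← hs] at hm
      obtain ⟨q1, h1, h2⟩ := hex_path_s2b hφ hmem (by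
        simp only [Prod.smul_mk, Prod.mk_add_mk, smul_eq_mul]; linarith)
      exact ⟨q1, hex_path_trans h h1, h2⟩
    · rw [← hs] at hm
      refine ⟨_, h, ?_⟩
      simp only [Bf, Prod.smul_mk, Prod.mk_add_mk, smul_eq_mul]
      rw [bet_eq_zero (d := 1 - (p + s * 1)) (by linarith),
        bet_eq_zero (d := 1 + (p + s * 1) + (r + s * -1)) (by linarith)]
      have : 1 - (r + s * -1) = 0 := by rw [hm]; ring
      rw [this, bet_zero]; norm_num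

/-- main path lemma: in the hexagon one can go to a blue side without changing `Rf` and without
decreasing `- la * xp q + c1 q.1 + c2 q.2` -/
theorem hex_path {q0 : ℝ × ℝ} (h0 : q0 ∈ Hex) (la c1 c2 : ℝ) (hla : 0 ≤ la) :
    ∃ (T : Set (ℝ × ℝ)) (q1 : ℝ × ℝ), T ⊆ Hex ∧ IsPreconnected T ∧ q0 ∈ T ∧ q1 ∈ T ∧
      Bf q1.1 q1.2 = 1 ∧ ∀ q ∈ T, Rf q.1 q.2 = Rf q0.1 q0.2 ∧
        - la * xp q0 + c1 * q0.1 + c2 * q0.2 ≤ - la * xp q + c1 * q.1 + c2 * q.2 := by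
  have hφ : ConvexOn ℝ Hex (fun q : ℝ × ℝ => - la * xp q + c1 * q.1 + c2 * q.2) := by
    refine ⟨Hex_convex, fun x hx y hy a b ha hb hab => ?_⟩
    have h := mul_le_mul_of_nonneg_left (xp_concaveOn.2 hx hy ha hb hab) hla
    simp only [smul_eq_mul, Prod.smul_fst, Prod.smul_snd, Prod.fst_add, Prod.snd_add] at h ⊢
    linarith
  obtain ⟨q1, ⟨T, h1, h2, h3, h4, h5⟩, h6⟩ := hex_path_all hφ h0
  exact ⟨T, q1, h1, h2, h3, h4, h6, h5⟩


end Pool.Agent.Helper874.Odd
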