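import Pool.Agent.Helper874.Odd.Base
import Pool.Agent.Helper874.Odd.Jbet1
import Pool.Agent.Helper874.Odd.Jiot1
import Pool.Agent.Helper874.Odd.Jiot2
import Pool.Agent.Helper874.Odd.Jalp1
import Pool.Agent.Helper874.Odd.Jhex1
import Pool.Agent.Helper874.Odd.Jup1
import Pool.Agent.Helper874.Odd.Jm0a
import Pool.Agent.Helper874.Odd.Jm0b

set_option autoImplicit false
open Set Filter Topology
open scoped Manifold ContDiff

namespace Pool.Agent.Helper874.Odd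


theorem m0_up_x_seg {l : V} (hl1 : 0 ≤ l.1) {x y : ℝ} {q : ℝ × ℝ} (hq : q ∈ Hex)
    (hB : Bf q.1 q.2 = 1) (hx : |x| ≤ 15 / 16)
    (hy : y = yp q ∨ y = - yp q ∨ (Rf q.1 q.2 = 1 ∧ |y| ≤ 15 / 16)) :
    Up M0 l (x, y, q) (15 / 16, y, q) := by
  obtain ⟨hx1, hx2⟩ := abs_le.1 hx
  have := Up.of_path (S := M0) (l := l) (Icc x (15 / 16)) ordConnected_Icc
    (fun u => ((u, y, q) : V)) (by fun_prop) (s := x) (t := 15 / 16) ⟨le_refl _, hx2⟩
    ⟨hx2, le_refl _⟩ (by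
      intro u hu
      refine ⟨?_, ?_⟩
      · rw [M0_iff]
        exact ⟨hq, Or.inr (Or.inr ⟨hB, abs_le.2 ⟨by linarith [hu.1], hu.2⟩⟩), hy⟩
      · unfold hh
        have := mul_le_mul_of_nonneg_left hu.1 hl1
        simp only
        linarith)
  exact this

/-- from any point of `M0` one can go up to the sheet `x = xp` keeping the kind of `y` -/
theorem m0_up_x {l v : V} (hl1 : 0 ≤ l.1) (hv : v ∈ M0) :
    ∃ w ∈ M0, w.1 = xp w.2.2 ∧ w.2.1 = v.2.1 ∧ Rf w.2.2.1 w.2.2.2 = Rf v.2.2.1 v.2.2.2 ∧ Up M0 l v w := by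
  obtain ⟨hq, hx, hy⟩ := M0_iff.1 hv
  rcases hx with hx | hx | ⟨hB, hx⟩
  · exact ⟨v, hv, hx, rfl, rfl, Up.refl hv⟩
  · obtain ⟨T, q1, hTH, hTc, hq0, hq1, hB1, hT⟩ := hex_path hq l.1 l.2.2.1 l.2.2.2 hl1
    have hyq : ∀ q ∈ T, (v.2.1 = yp q ∨ v.2.1 = - yp q ∨ (Rf q.1 q.2 = 1 ∧ |v.2.1| ≤ 15 / 16)) := by
      intro q hqT
      have hR := (hT q hqT).1
      have hyp : yp q = yp v.2.2 := by unfold yp; rw [hR]
      rw [hyp, hR]
      exact hy
    have hup1 : Up M0 l v (- xp q1, v.2.1, q1) := by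
      refine ⟨(fun q : ℝ × ℝ => ((- xp q, v.2.1, q) : V)) '' T, ?_, ?_, ?_, ?_, ?_⟩
      · rintro _ ⟨q, hqT, rfl⟩
        rw [M0_iff]
        exact ⟨hTH hqT, Or.inr (Or.inl rfl), hyq q hqT⟩
      · apply hTc.image
        have h1 : ContinuousOn xp T := xp_continuousOn.mono hTH
        exact (h1.neg).prodMk (continuousOn_const.prodMk continuousOn_id)
      · exact ⟨v.2.2, hq0, Prod.ext hx.symm rfl⟩
      · exact ⟨q1, hq1, rfl⟩
      · rintro _ ⟨q, hqT, rfl⟩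
        have := (hT q hqT).2
        unfold hh
        simp only
        rw [hx]
        linarith
    have hx1 : xp q1 = 15 / 16 := xp_of_Bf_one hB1
    rw [hx1] at hup1
    have hup2 := m0_up_x_seg (l := l) hl1 (x := -(15 / 16)) (y := v.2.1) (hTH hq1) hB1
      (by rw [abs_neg, abs_of_pos (by norm_num)]) (hyq q1 hq1)
    have hup := hup1.trans hup2
    exact ⟨_, hup.mem.2, hx1.symm, rfl, (hT q1 hq1).1, hup⟩
  · have hup := m0_up_x_seg (l := l) hl1 (x := v.1) (y := v.2.1) (q := v.2.2) hq hB hx hy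
    exact ⟨(15 / 16, v.2.1, v.2.2), hup.mem.2, (xp_of_Bf_one hB).symm, rfl, rfl, hup⟩



end Pool.Agent.Helper874.Odd
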