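import Pool.Agent.Helper874.Odd.Base
import Pool.Agent.Helper874.Odd.Jbet1
import Pool.Agent.Helper874.Odd.Jiot1
import Pool.Agent.Helper874.Odd.Jiot2
import Pool.Agent.Helper874.Odd.Jalp1
import Pool.Agent.Helper874.Odd.Jhex1
import Pool.Agent.Helper874.Odd.Jup1
import Pool.Agent.Helper874.Odd.Jm0a
import Pool.Agent.Helper874.Odd.Jm0b
import Pool.Agent.Helper874.Odd.Jm0c

set_option autoImplicit false
open Set Filter Topology
open scoped Manifold ContDiff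

namespace Pool.Agent.Helper874.Odd


/-- the symmetry exchanging the two factors -/
def sy (v : V) : V := (v.2.1, v.1, -v.2.2.1, -v.2.2.2)

theorem sy_sy (v : V) : sy (sy v) = v := by
  obtain ⟨x, y, p, r⟩ := v
  simp [sy]

theorem sy_continuous : Continuous sy := by
  unfold sy
  fun_prop

theorem sy_hh (l v : V) : hh l (sy v) = hh (sy l) v := by
  unfold hh sy
  simp only
  ring

theorem sy_M0 {v : V} (hv : v ∈ M0) : sy v ∈ M0 := by
  obtain ⟨h1, h2⟩ := hv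
  refine ⟨?_, ?_⟩
  · unfold G1 sy
    simp only [Bf_neg]
    exact h2
  · unfold G2 sy
    simp only [Rf_neg]
    exact h1

theorem up_sy {l a b : V} (h : Up M0 (sy l) a b) : Up M0 l (sy a) (sy b) := by
  obtain ⟨T, hT, hc, ha, hb, hle⟩ := h
  refine ⟨sy '' T, ?_, hc.image _ sy_continuous.continuousOn, ⟨a, ha, rfl⟩, ⟨b, hb, rfl⟩, ?_⟩
  · rintro _ ⟨v, hv, rfl⟩
    exact sy_M0 (hT hv)
  · rintro _ ⟨v, hv, rfl⟩
    rw [sy_hh, sy_hh]
    exact hle v hv

/-- change of the sign of `x` -/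
def sgx (v : V) : V := (-v.1, v.2.1, v.2.2.1, v.2.2.2)
/-- change of the sign of `y` -/
def sgy (v : V) : V := (v.1, -v.2.1, v.2.2.1, v.2.2.2)

theorem conn_tr (σ : V → V) (hσ : Continuous σ) (hinv : ∀ v, σ (σ v) = v)
    (hM : ∀ v ∈ M0, σ v ∈ M0) (l : V) (hl : ∀ v, hh l (σ v) = hh (σ l) v)
    (h : Conn M0 (σ l)) : Conn M0 l := by
  intro c
  have e : {v | v ∈ M0 ∧ c ≤ hh l v} = σ '' {v | v ∈ M0 ∧ c ≤ hh (σ l) v} := by
    ext v
    constructor
    · rintro ⟨h1, h2⟩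
      refine ⟨σ v, ⟨hM v h1, ?_⟩, hinv v⟩
      rw [← hl, hinv]
      exact h2
    · rintro ⟨w, ⟨h1, h2⟩, rfl⟩
      refine ⟨hM w h1, ?_⟩
      rw [hl]
      exact h2
  rw [e]
  exact (h c).image _ hσ.continuousOn

theorem sgx_M0 (v : V) (hv : v ∈ M0) : sgx v ∈ M0 := by
  obtain ⟨h1, h2⟩ := hv
  refine ⟨?_, ?_⟩
  · unfold G1 sgx
    simp only [alp_neg]
    exact h1
  · exact h2

theorem sgy_M0 (v : V) (hv : v ∈ M0) : sgy v ∈ M0 := by
  obtain ⟨h1, h2⟩ := hv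
  refine ⟨?_, ?_⟩
  · exact h1
  · unfold G2 sgy
    simp only [alp_neg]
    exact h2

/-- from any point of `M0` one can go up to the sheet `y = yp` keeping `x`, and staying on `x = xp` -/
theorem m0_up_y {l v : V} (hl2 : 0 ≤ l.2.1) (hv : v ∈ M0) (hx : v.1 = xp v.2.2) :
    ∃ w ∈ M0, w.1 = xp w.2.2 ∧ w.2.1 = yp w.2.2 ∧ Up M0 l v w := by
  obtain ⟨w, hw, h1, h2, h3, h4⟩ := m0_up_x (l := sy l) (v := sy v) hl2 (sy_M0 hv)
  refine ⟨sy w, sy_M0 hw, ?_, ?_, ?_⟩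
  · have hB : Bf (sy w).2.2.1 (sy w).2.2.2 = Bf v.2.2.1 v.2.2.2 := by
      show Bf (-w.2.2.1) (-w.2.2.2) = _
      rw [Bf_neg, h3]
      show Rf (-v.2.2.1) (-v.2.2.2) = _
      rw [Rf_neg]
    have h5 : (sy w).1 = v.1 := h2
    rw [h5, hx]
    unfold xp
    rw [hB]
  · have h5 : (sy w).2.1 = w.1 := rfl
    rw [h5, h1, ← xp_neg]
    congr 1
    show w.2.2 = -((-w.2.2.1, -w.2.2.2) : ℝ × ℝ)
    ext <;> simp
  · have := up_sy h4
    rwa [sy_sy] at this
/-- on the top sheet one can go to the highest point -/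
theorem m0_top (l : V) (hl1 : 0 ≤ l.1) (hl2 : 0 ≤ l.2.1) :
    ∃ top : V, ∀ v ∈ M0, v.1 = xp v.2.2 → v.2.1 = yp v.2.2 → Up M0 l v top := by
  let Φ : ℝ × ℝ → ℝ := fun q => l.1 * xp q + l.2.1 * yp q + (l.2.2.1 * q.1 + l.2.2.2 * q.2)
  have hlin : ConcaveOn ℝ Hex (fun q : ℝ × ℝ => l.2.2.1 * q.1 + l.2.2.2 * q.2) := by
    refine ⟨Hex_convex, fun x _ y _ a b _ _ _ => le_of_eq ?_⟩
    simp only [smul_eq_mul, Prod.fst_add, Prod.snd_add, Prod.smul_fst, Prod.smul_snd]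
    ring
  have hconc : ConcaveOn ℝ Hex Φ := by
    have h1 := xp_concaveOn.smul hl1
    have h2 := yp_concaveOn.smul hl2
    have h3 := (h1.add h2).add hlin
    exact h3
  have hcont : ContinuousOn Φ Hex := by
    have h1 : ContinuousOn (fun q => l.1 * xp q) Hex := continuousOn_const.mul xp_continuousOn
    have h2 : ContinuousOn (fun q => l.2.1 * yp q) Hex := continuousOn_const.mul yp_continuousOn
    have h3 : ContinuousOn (fun q : ℝ × ℝ => l.2.2.1 * q.1 + l.2.2.2 * q.2) Hex := by fun_prop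
    exact (h1.add h2).add h3
  have hne : Hex.Nonempty := ⟨(0, 0), by unfold Hex; simp⟩
  obtain ⟨qs, hqs, hmax⟩ := Hex_compact.exists_isMaxOn hne hcont
  refine ⟨(xp qs, yp qs, qs), fun v hv hx hy => ?_⟩
  have hq : v.2.2 ∈ Hex := (M0_iff.1 hv).1
  have hseg : segment ℝ v.2.2 qs ⊆ Hex := Hex_convex.segment_subset hq hqs
  refine ⟨(fun q : ℝ × ℝ => ((xp q, yp q, q) : V)) '' segment ℝ v.2.2 qs, ?_, ?_, ?_, ?_, ?_⟩
  · rintro _ ⟨q, hq', rfl⟩
    rw [M0_iff]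
    exact ⟨hseg hq', Or.inl rfl, Or.inl rfl⟩
  · refine (convex_segment v.2.2 qs).isPreconnected.image _ ?_
    exact (xp_continuousOn.mono hseg).prodMk ((yp_continuousOn.mono hseg).prodMk continuousOn_id)
  · refine ⟨v.2.2, left_mem_segment _ _ _, ?_⟩
    show ((xp v.2.2, yp v.2.2, v.2.2) : V) = v
    rw [← hx, ← hy]
  · exact ⟨qs, right_mem_segment _ _ _, rfl⟩
  · rintro _ ⟨q, hq', rfl⟩
    have h1 : hh l v = Φ v.2.2 := by
      show l.1 * v.1 + l.2.1 * v.2.1 + l.2.2.1 * v.2.2.1 + l.2.2.2 * v.2.2.2 = _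
      rw [hx, hy]
      show _ = l.1 * xp v.2.2 + l.2.1 * yp v.2.2 + (l.2.2.1 * v.2.2.1 + l.2.2.2 * v.2.2.2)
      ring
    have h2 : hh l ((xp q, yp q, q) : V) = Φ q := by
      show l.1 * xp q + l.2.1 * yp q + l.2.2.1 * q.1 + l.2.2.2 * q.2 = _
      show _ = l.1 * xp q + l.2.1 * yp q + (l.2.2.1 * q.1 + l.2.2.2 * q.2)
      ring
    rw [h1, h2]
    have h3 := hconc.ge_on_segment hq hqs hq'
    rw [min_eq_left (hmax hq)] at h3
    exact h3
/-- the surface of genus two is tight -/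
theorem conn_M0 (l : V) : Conn M0 l := by
  have base : ∀ l : V, 0 ≤ l.1 → 0 ≤ l.2.1 → Conn M0 l := by
    intro l h1 h2
    obtain ⟨top, htop⟩ := m0_top l h1 h2
    refine conn_of_up top fun a ha => ?_
    obtain ⟨w1, hw1, e1, _, _, u1⟩ := m0_up_x (l := l) h1 ha
    obtain ⟨w2, hw2, e2, e3, u2⟩ := m0_up_y (l := l) h2 hw1 e1
    exact (u1.trans u2).trans (htop w2 hw2 e2 e3)
  have hsx : ∀ l : V, Conn M0 (sgx l) → Conn M0 l := by
    intro l h
    refine conn_tr sgx (by unfold sgx; fun_prop) (fun v => by simp [sgx]) sgx_M0 l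
      (fun v => ?_) h
    unfold hh sgx
    simp only
    ring
  have hsy : ∀ l : V, Conn M0 (sgy l) → Conn M0 l := by
    intro l h
    refine conn_tr sgy (by unfold sgy; fun_prop) (fun v => by simp [sgy]) sgy_M0 l
      (fun v => ?_) h
    unfold hh sgy
    simp only
    ring
  rcases le_total 0 l.1 with h1 | h1 <;> rcases le_total 0 l.2.1 with h2 | h2
  · exact base l h1 h2
  · exact hsy l (base _ h1 (neg_nonneg.2 h2))
  · exact hsx l (base _ (neg_nonneg.2 h1) h2)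
  · exact hsx l (hsy _ (base _ (neg_nonneg.2 h1) (neg_nonneg.2 h2)))


end Pool.Agent.Helper874.Odd
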