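import Pool.Agent.Helper874.Odd.Base
import Pool.Agent.Helper874.Odd.Jbet1
import Pool.Agent.Helper874.Odd.Jmm1
import Pool.Agent.Helper874.Odd.Jmm2
import Pool.Agent.Helper874.Odd.Jalp1
import Pool.Agent.Helper874.Odd.Jup1
import Pool.Agent.Helper874.Odd.Jup2
import Pool.Agent.Helper874.Odd.Jcur1
import Pool.Agent.Helper874.Odd.Jcur2
import Pool.Agent.Helper874.Odd.JdiscA
import Pool.Agent.Helper874.Odd.Jm0d

set_option autoImplicit false
open Set Filter Topology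
open scoped Manifold ContDiff

namespace Pool.Agent.Helper874.Odd

theorem discB_gen {S : Set V} {l : V} (hS : Conn S l) (hSM : S ⊆ M0) (k : V → ℝ) (s : ℝ)
    (hk : ∀ v, k v = mm (v.1 + s) + mm v.2.1)
    (habs : ∀ v, k v < 5 / 8 → |v.1| < 15 / 16 ∧ |v.2.1| < 15 / 16) (e : ℝ × ℝ)
    (hvert : ∀ w : ℝ × ℝ,
      w ∈ ({(1, 0), (0, 1), (-1, 1), (-1, 0), (0, -1), (1, -1)} : Set (ℝ × ℝ)) →
      |w.1 - e.1| < 1 / 2 → |w.2 - e.2| < 1 / 2 → w = e)
    (hin : ∀ v : V, v.2.2 = e → k v < 5 / 8 → v ∈ S) :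
    Conn (S \ {v | v.2.2 = e ∧ k v < 9 / 16}) l := by
  have hmm : Continuous mm := mm_contDiff.continuous
  have hkc : Continuous k := by
    have : k = fun v => mm (v.1 + s) + mm v.2.1 := funext hk
    rw [this]
    fun_prop
  apply conn_diff (bd := {v | v.2.2 = e ∧ k v = 9 / 16}) hS
  · rintro v ⟨h1, h2⟩
    refine ⟨hin v h1 (by rw [h2]; norm_num), ?_⟩
    rintro ⟨-, h3⟩
    rw [h2] at h3
    exact lt_irrefl _ h3
  · intro c
    have himg : {v : V | v ∈ {v : V | v.2.2 = e ∧ k v = 9 / 16} ∧ c ≤ hh l v} =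
        (fun w : ℝ × ℝ => ((w.1 - s, w.2, e.1, e.2) : V)) ''
          {w : ℝ × ℝ | w ∈ Gam (9 / 16) ∧
            c - (-(l.1 * s) + l.2.2.1 * e.1 + l.2.2.2 * e.2) ≤ l.1 * w.1 + l.2.1 * w.2} := by
      ext v
      constructor
      · rintro ⟨⟨h1, h2⟩, h3⟩
        refine ⟨(v.1 + s, v.2.1), ⟨?_, ?_⟩, ?_⟩
        · show mm (v.1 + s) + mm v.2.1 = 9 / 16
          rw [← hk, h2]
        · unfold hh at h3
          rw [← h1]
          show c - (-(l.1 * s) + l.2.2.1 * v.2.2.1 + l.2.2.2 * v.2.2.2) ≤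
            l.1 * (v.1 + s) + l.2.1 * v.2.1
          linarith
        · show ((v.1 + s - s, v.2.1, e.1, e.2) : V) = v
          rw [← h1, add_sub_cancel_right]
      · rintro ⟨w, ⟨h1, h2⟩, rfl⟩
        refine ⟨⟨rfl, ?_⟩, ?_⟩
        · rw [hk]
          show mm (w.1 - s + s) + mm w.2 = 9 / 16
          rw [sub_add_cancel]
          exact h1
        · unfold hh
          show c ≤ l.1 * (w.1 - s) + l.2.1 * w.2 + l.2.2.1 * e.1 + l.2.2.2 * e.2
          linarith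
    rw [himg]
    apply (Gam_conn (by norm_num) l.1 l.2.1 _).image
    apply Continuous.continuousOn
    fun_prop
  · rintro a ⟨h1, h2⟩
    obtain ⟨σ, hσ, hσl⟩ : ∃ σ : ℝ, (σ = 1 ∨ σ = -1) ∧ 0 ≤ l.1 * σ := by
      rcases le_total 0 l.1 with h | h
      · exact ⟨1, Or.inl rfl, by linarith⟩
      · exact ⟨-1, Or.inr rfl, by linarith⟩
    have hfc : Continuous (fun t : ℝ => k (a.1 + σ * t, a.2.1, a.2.2)) :=
      hkc.comp (by fun_prop)
    have hT : (0 : ℝ) ≤ |a.1 + s| + 1 := by positivity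
    have hf0 : k (a.1 + σ * 0, a.2.1, a.2.2) ≤ 9 / 16 := by
      rw [mul_zero, add_zero]
      exact h2.le
    have hf1 : 9 / 16 ≤ k (a.1 + σ * (|a.1 + s| + 1), a.2.1, a.2.2) := by
      rw [hk]
      show 9 / 16 ≤ mm (a.1 + σ * (|a.1 + s| + 1) + s) + mm a.2.1
      have g1 := abs_le_mm (a.1 + σ * (|a.1 + s| + 1) + s)
      have g2 := abs_le_mm a.2.1
      have g3 := abs_nonneg a.2.1
      have g4 : 1 ≤ |a.1 + σ * (|a.1 + s| + 1) + s| := by
        rcases hσ with rfl | rfl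
        · have := neg_abs_le (a.1 + s)
          refine le_trans ?_ (le_abs_self _)
          linarith
        · have := le_abs_self (a.1 + s)
          refine le_trans ?_ (neg_le_abs _)
          linarith
      linarith
    obtain ⟨t, ht, hkt⟩ := intermediate_value_Icc hT hfc.continuousOn ⟨hf0, hf1⟩
    refine ⟨(a.1 + σ * t, a.2.1, a.2.2), ⟨h1, hkt⟩, ?_⟩
    unfold hh
    show l.1 * a.1 + l.2.1 * a.2.1 + l.2.2.1 * a.2.2.1 + l.2.2.2 * a.2.2.2 ≤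
      l.1 * (a.1 + σ * t) + l.2.1 * a.2.1 + l.2.2.1 * a.2.2.1 + l.2.2.2 * a.2.2.2
    have := mul_nonneg hσl ht.1
    linarith
  · have hcl : IsClosed {v : V | v.2.2 = e ∧ k v ≤ 9 / 16} := by
      apply IsClosed.inter
      · exact isClosed_eq (by fun_prop) continuous_const
      · exact isClosed_le hkc continuous_const
    have hsub : {v : V | v.2.2 = e ∧ k v < 9 / 16} ⊆ {v : V | v.2.2 = e ∧ k v ≤ 9 / 16} :=
      fun v hv => ⟨hv.1, hv.2.le⟩
    intro v hv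
    obtain ⟨g1, g2⟩ := closure_minimal hsub hcl hv
    rcases lt_or_eq_of_le g2 with g | g
    · exact Or.inl ⟨g1, g⟩
    · exact Or.inr ⟨g1, g⟩
  · refine ⟨{v : V | k v < 9 / 16} ∩ ({v : V | |v.2.2.1 - e.1| < 1 / 2} ∩
      {v : V | |v.2.2.2 - e.2| < 1 / 2}), ?_, ?_⟩
    · apply IsOpen.inter (isOpen_lt hkc continuous_const)
      apply IsOpen.inter
      · exact isOpen_lt (by fun_prop) continuous_const
      · exact isOpen_lt (by fun_prop) continuous_const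
    · ext v
      constructor
      · rintro ⟨h1, h2, h3, h4⟩
        have h5 : k v < 5 / 8 := lt_trans h2 (by norm_num)
        obtain ⟨b1, b2⟩ := habs v h5
        have h6 := (M0_flat b1 b2).1 (hSM h1)
        exact ⟨hvert _ h6 h3 h4, h2⟩
      · rintro ⟨h1, h2⟩
        refine ⟨hin v h1 (lt_trans h2 (by norm_num)), h2, ?_, ?_⟩
        · show |v.2.2.1 - e.1| < 1 / 2
          rw [h1]; simp
        · show |v.2.2.2 - e.2| < 1 / 2
          rw [h1]; simp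

/-- `M0` without the four discs is tight -/
theorem conn_M0' (l : V) : Conn (M0 \ (DiA ∪ DiB)) l := by
  have hkA : ∀ v, kA v = mm (v.1 + 1 / 4) + mm v.2.1 := fun v => rfl
  have hkB : ∀ v, kB v = mm (v.1 + -(1 / 4)) + mm v.2.1 := fun v => by
    unfold kB
    rw [sub_eq_add_neg]
  have c1 := discB_gen (conn_M0 l) (Subset.refl _) kA (1 / 4) hkA (fun v h => abs_lt_of_kA h) (1, 0)
    (by
      rintro ⟨w1, w2⟩ hw h1 h2
      simp only [mem_insert_iff, mem_singleton_iff, Prod.mk.injEq] at hw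
      rcases hw with ⟨rfl, rfl⟩ | ⟨rfl, rfl⟩ | ⟨rfl, rfl⟩ | ⟨rfl, rfl⟩ | ⟨rfl, rfl⟩ | ⟨rfl, rfl⟩ <;>
        first | rfl | (exfalso; norm_num [abs_lt] at h1; done) | (exfalso; norm_num [abs_lt] at h2; done))
    (by
      intro v h1 h2
      obtain ⟨b1, b2⟩ := abs_lt_of_kA h2
      rw [M0_flat b1 b2, h1]
      simp)
  have c2 := discB_gen c1 sdiff_subset kA (1 / 4) hkA (fun v h => abs_lt_of_kA h) (-1, 0)
    (by
      rintro ⟨w1, w2⟩ hw h1 h2
      simp only [mem_insert_iff, mem_singleton_iff, Prod.mk.injEq] at hw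
      rcases hw with ⟨rfl, rfl⟩ | ⟨rfl, rfl⟩ | ⟨rfl, rfl⟩ | ⟨rfl, rfl⟩ | ⟨rfl, rfl⟩ | ⟨rfl, rfl⟩ <;>
        first | rfl | (exfalso; norm_num [abs_lt] at h1; done) | (exfalso; norm_num [abs_lt] at h2; done))
    (by
      intro v h1 h2
      obtain ⟨b1, b2⟩ := abs_lt_of_kA h2
      refine ⟨by rw [M0_flat b1 b2, h1]; simp, ?_⟩
      rintro ⟨h3, -⟩
      rw [h1] at h3
      norm_num at h3)
  have c3 := discB_gen c2 (sdiff_subset.trans sdiff_subset) kB (-(1 / 4)) hkB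
    (fun v h => abs_lt_of_kB h) (0, 1)
    (by
      rintro ⟨w1, w2⟩ hw h1 h2
      simp only [mem_insert_iff, mem_singleton_iff, Prod.mk.injEq] at hw
      rcases hw with ⟨rfl, rfl⟩ | ⟨rfl, rfl⟩ | ⟨rfl, rfl⟩ | ⟨rfl, rfl⟩ | ⟨rfl, rfl⟩ | ⟨rfl, rfl⟩ <;>
        first | rfl | (exfalso; norm_num [abs_lt] at h1; done) | (exfalso; norm_num [abs_lt] at h2; done))
    (by
      intro v h1 h2
      obtain ⟨b1, b2⟩ := abs_lt_of_kB h2
      refine ⟨⟨by rw [M0_flat b1 b2, h1]; simp, ?_⟩, ?_⟩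
      · rintro ⟨h3, -⟩
        rw [h1] at h3
        norm_num at h3
      · rintro ⟨h3, -⟩
        rw [h1] at h3
        norm_num at h3)
  have c4 := discB_gen c3 (sdiff_subset.trans (sdiff_subset.trans sdiff_subset)) kB (-(1 / 4)) hkB
    (fun v h => abs_lt_of_kB h) (0, -1)
    (by
      rintro ⟨w1, w2⟩ hw h1 h2
      simp only [mem_insert_iff, mem_singleton_iff, Prod.mk.injEq] at hw
      rcases hw with ⟨rfl, rfl⟩ | ⟨rfl, rfl⟩ | ⟨rfl, rfl⟩ | ⟨rfl, rfl⟩ | ⟨rfl, rfl⟩ | ⟨rfl, rfl⟩ <;>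
        first | rfl | (exfalso; norm_num [abs_lt] at h1; done) | (exfalso; norm_num [abs_lt] at h2; done))
    (by
      intro v h1 h2
      obtain ⟨b1, b2⟩ := abs_lt_of_kB h2
      refine ⟨⟨⟨by rw [M0_flat b1 b2, h1]; simp, ?_⟩, ?_⟩, ?_⟩
      · rintro ⟨h3, -⟩
        rw [h1] at h3
        norm_num at h3
      · rintro ⟨h3, -⟩
        rw [h1] at h3
        norm_num at h3
      · rintro ⟨h3, -⟩
        rw [h1] at h3
        norm_num at h3)
  have heq : M0 \ (DiA ∪ DiB) = (((M0 \ {v : V | v.2.2 = ((1 : ℝ), (0 : ℝ)) ∧ kA v < 9 / 16}) \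
      {v : V | v.2.2 = ((-1 : ℝ), (0 : ℝ)) ∧ kA v < 9 / 16}) \
      {v : V | v.2.2 = ((0 : ℝ), (1 : ℝ)) ∧ kB v < 9 / 16}) \
      {v : V | v.2.2 = ((0 : ℝ), (-1 : ℝ)) ∧ kB v < 9 / 16} := by
    have eA : ∀ v : V, v ∈ DiA ↔ (v.2.2 = ((1 : ℝ), (0 : ℝ)) ∧ kA v < 9 / 16) ∨
        (v.2.2 = ((-1 : ℝ), (0 : ℝ)) ∧ kA v < 9 / 16) := by
      rintro ⟨x, y, p, r⟩
      show (r = 0 ∧ |p| = 1 ∧ _) ↔ _
      simp only [Prod.mk.injEq]
      constructor
      · rintro ⟨h1, h2, h3⟩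
        rcases (abs_eq (by norm_num)).1 h2 with h | h
        · exact Or.inl ⟨⟨h, h1⟩, h3⟩
        · exact Or.inr ⟨⟨h, h1⟩, h3⟩
      · rintro (⟨⟨h1, h2⟩, h3⟩ | ⟨⟨h1, h2⟩, h3⟩)
        · exact ⟨h2, by rw [h1]; norm_num, h3⟩
        · exact ⟨h2, by rw [h1]; norm_num, h3⟩
    have eB : ∀ v : V, v ∈ DiB ↔ (v.2.2 = ((0 : ℝ), (1 : ℝ)) ∧ kB v < 9 / 16) ∨
        (v.2.2 = ((0 : ℝ), (-1 : ℝ)) ∧ kB v < 9 / 16) := by
      rintro ⟨x, y, p, r⟩
      show (p = 0 ∧ |r| = 1 ∧ _) ↔ _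
      simp only [Prod.mk.injEq]
      constructor
      · rintro ⟨h1, h2, h3⟩
        rcases (abs_eq (by norm_num)).1 h2 with h | h
        · exact Or.inl ⟨⟨h1, h⟩, h3⟩
        · exact Or.inr ⟨⟨h1, h⟩, h3⟩
      · rintro (⟨⟨h1, h2⟩, h3⟩ | ⟨⟨h1, h2⟩, h3⟩)
        · exact ⟨h1, by rw [h2]; norm_num, h3⟩
        · exact ⟨h1, by rw [h2]; norm_num, h3⟩
    ext v
    simp only [Set.mem_sdiff, mem_union, eA, eB, mem_ofPred_eq]
    tauto
  rw [heq]
  exact c4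


end Pool.Agent.Helper874.Odd
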