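import Pool.Agent.Helper874.Odd.Base
import Pool.Agent.Helper874.Odd.Jbet1
import Pool.Agent.Helper874.Odd.Jmm1
import Pool.Agent.Helper874.Odd.Jmm2
import Pool.Agent.Helper874.Odd.Jalp1
import Pool.Agent.Helper874.Odd.JdiscA

set_option autoImplicit false
open Set Filter Topology
open scoped Manifold ContDiff

namespace Pool.Agent.Helper874.Odd

theorem bet_eq_one258 {d : ℝ} (h : d ≤ 1 / 16) (h1 : bet d = 1) : d = 0 :=
  bet_strictAntiOn.injOn (show d ∈ Iic (1 / 16 : ℝ) from h)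
    (show (0 : ℝ) ∈ Iic (1 / 16 : ℝ) by norm_num) (by rw [h1, bet_zero])

theorem mm_of_pos258 {t : ℝ} (h : 1 / 16 ≤ t) : mm t = t := by
  rw [mm_eq_abs (h.trans (le_abs_self t)), abs_of_nonneg (by linarith)]

/-- near the first crossing point -/
theorem near_facts {v : V} (hz : nz v < 1 / 8) (hw : nw v < 1 / 8) :
    |X1 v| < 1 / 8 ∧ |X2 v| < 1 / 8 ∧ |v.2.2.1| < 1 / 8 ∧ |v.2.2.2| < 1 / 8 ∧ |v.1| < 1 / 8 ∧
    1 / 8 < v.2.1 ∧ v.2.1 < 3 / 8 ∧ kA v = X1 v + 1 / 2 ∧ kB v = X2 v + 1 / 2 ∧ alp v.2.2.1 = 0 ∧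
    alp v.2.2.2 = 0 ∧ lab v = 0 ∧ v ∉ M0 ∧ (v ∈ SA ↔ X1 v = 0 ∧ v.2.2.2 = 0) ∧
    (v ∈ SB ↔ X2 v = 0 ∧ v.2.2.1 = 0) := by
  have a1 : |X1 v| < 1 / 8 :=
    (Real.abs_le_sqrt (by nlinarith [sq_nonneg v.2.2.2] :
      X1 v ^ 2 ≤ X1 v ^ 2 + v.2.2.2 ^ 2)).trans_lt hw
  have a2 : |X2 v| < 1 / 8 :=
    (Real.abs_le_sqrt (by nlinarith [sq_nonneg v.2.2.1] :
      X2 v ^ 2 ≤ X2 v ^ 2 + v.2.2.1 ^ 2)).trans_lt hz
  have a3 : |v.2.2.1| < 1 / 8 :=
    (Real.abs_le_sqrt (by nlinarith [sq_nonneg (X2 v)] :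
      v.2.2.1 ^ 2 ≤ X2 v ^ 2 + v.2.2.1 ^ 2)).trans_lt hz
  have a4 : |v.2.2.2| < 1 / 8 :=
    (Real.abs_le_sqrt (by nlinarith [sq_nonneg (X1 v)] :
      v.2.2.2 ^ 2 ≤ X1 v ^ 2 + v.2.2.2 ^ 2)).trans_lt hw
  have b1 := abs_lt.mp a1
  have b2 := abs_lt.mp a2
  have hX1 : X1 v = v.1 + v.2.1 - 1 / 4 := rfl
  have hX2 : X2 v = v.2.1 - v.1 - 1 / 4 := rfl
  rw [hX1] at b1
  rw [hX2] at b2
  have a5 : |v.1| < 1 / 8 := by
    rw [abs_lt]
    constructor <;> linarith [b1.1, b1.2, b2.1, b2.2]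
  have b5 := abs_lt.mp a5
  have a6 : 1 / 8 < v.2.1 := by linarith [b1.1, b2.1]
  have a7 : v.2.1 < 3 / 8 := by linarith [b1.2, b2.2]
  have m1 : mm (v.1 + 1 / 4) = v.1 + 1 / 4 := mm_of_pos258 (by linarith [b5.1])
  have m2 : mm v.2.1 = v.2.1 := mm_of_pos258 (by linarith)
  have m3 : mm (v.1 - 1 / 4) = 1 / 4 - v.1 := by
    rw [← mm_neg, neg_sub]
    exact mm_of_pos258 (by linarith [b5.2])
  have a8 : kA v = X1 v + 1 / 2 := by
    unfold kA
    rw [m1, m2, hX1]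
    ring
  have a9 : kB v = X2 v + 1 / 2 := by
    unfold kB
    rw [m3, m2, hX2]
    ring
  have a10 : alp v.2.2.1 = 0 := alp_eq_zero_iff.mpr (by linarith)
  have a11 : alp v.2.2.2 = 0 := alp_eq_zero_iff.mpr (by linarith)
  have a12 : lab v = 0 := by
    unfold lab
    rw [expNegInvGlue.zero_of_nonpos (by linarith : -v.2.1 ≤ 0), zero_mul]
  have a13 : v ∉ M0 := by
    rw [M0_flat (by linarith) (by rw [abs_lt]; constructor <;> linarith)]
    intro hmem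
    have b3 := abs_lt.mp a3
    have b4 := abs_lt.mp a4
    simp only [mem_insert_iff, mem_singleton_iff, Prod.ext_iff] at hmem
    rcases hmem with h | h | h | h | h | h <;> obtain ⟨h1, h2⟩ := h <;>
      linarith [b3.1, b3.2, b4.1, b4.2]
  refine ⟨a1, a2, a3, a4, a5, a6, a7, a8, a9, a10, a11, a12, a13, ?_, ?_⟩
  · constructor
    · rintro ⟨h1, h2, h3⟩
      refine ⟨?_, h1⟩
      unfold PsA at h3
      rw [a10, a8] at h3
      rw [a8] at h2
      refine bet_eq_one258 (by linarith) ?_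
      rw [show X1 v + 1 / 2 - 1 / 2 = X1 v by ring] at h3
      linarith
    · rintro ⟨h1, h2⟩
      refine ⟨h2, ?_, ?_⟩
      · rw [a8, h1]; norm_num
      · unfold PsA
        rw [a10, a8, h1, show (0 : ℝ) + 1 / 2 - 1 / 2 = 0 by ring, bet_zero]
        norm_num
  · constructor
    · rintro ⟨h1, h2, h3⟩
      refine ⟨?_, h1⟩
      unfold PsB at h3
      rw [a11, a9] at h3
      rw [a9] at h2
      refine bet_eq_one258 (by linarith) ?_
      rw [show X2 v + 1 / 2 - 1 / 2 = X2 v by ring] at h3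
      linarith
    · rintro ⟨h1, h2⟩
      refine ⟨h2, ?_, ?_⟩
      · rw [a9, h1]; norm_num
      · unfold PsB
        rw [a11, a9, h1, show (0 : ℝ) + 1 / 2 - 1 / 2 = 0 by ring, bet_zero]
        norm_num

theorem mm_abs258 (t : ℝ) : mm |t| = mm t := by
  rcases le_total 0 t with h | h
  · rw [abs_of_nonneg h]
  · rw [abs_of_nonpos h, mm_neg]

/-- the intersection of the two tubes -/
theorem SA_SB {v : V} (hA : v ∈ SA) (hB : v ∈ SB) : v = (0, 1 / 4, 0, 0) ∨ v = (0, -(1 / 4), 0, 0) := by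
  obtain ⟨hr, hkA, hPA⟩ := hA
  obtain ⟨hp, hkB, hPB⟩ := hB
  have h0 : alp 0 = 0 := alp_eq_zero_iff.mpr (by norm_num)
  unfold PsA at hPA
  unfold PsB at hPB
  rw [hp, h0] at hPA
  rw [hr, h0] at hPB
  have e1 : kA v - 1 / 2 = 0 := bet_eq_one258 (by linarith) (by linarith)
  have e2 : kB v - 1 / 2 = 0 := bet_eq_one258 (by linarith) (by linarith)
  unfold kA at e1
  unfold kB at e2
  have e3 : mm |v.1 + 1 / 4| = mm |v.1 - 1 / 4| := by
    rw [mm_abs258, mm_abs258]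
    linarith
  have e4 : |v.1 + 1 / 4| = |v.1 - 1 / 4| :=
    mm_strictMonoOn.injOn (mem_Ici.mpr (abs_nonneg _)) (mem_Ici.mpr (abs_nonneg _)) e3
  have hx : v.1 = 0 := by
    rcases abs_eq_abs.mp e4 with h | h
    · linarith
    · linarith
  have m1 : mm (v.1 + 1 / 4) = 1 / 4 := by
    rw [hx, zero_add]
    exact mm_of_pos258 (by norm_num)
  have m2 : mm v.2.1 = 1 / 4 := by linarith
  have hy : |v.2.1| = 1 / 4 := by
    by_cases hc : |v.2.1| ≤ 1 / 16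
    · have := mm_le hc
      linarith
    · rw [← mm_eq_abs (not_le.mp hc).le]
      exact m2
  rcases (abs_eq (by norm_num : (0 : ℝ) ≤ 1 / 4)).mp hy with h | h
  · left
    exact Prod.ext hx (Prod.ext h (Prod.ext hp hr))
  · right
    exact Prod.ext hx (Prod.ext h (Prod.ext hp hr))

theorem SA_facts {v : V} (hA : v ∈ SA) : |v.2.2.1| ≤ 1 ∧ 1 / 2 ≤ kA v ∧ (v ∈ M0 → kA v = 9 / 16 ∧ |v.2.2.1| = 1) := by
  obtain ⟨hr, hkA, hPA⟩ := hA
  unfold PsA at hPA
  have hb := bet_nonneg (kA v - 1 / 2)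
  have ha := alp_nonneg v.2.2.1
  refine ⟨alp_le_one_iff.mp (by linarith), ?_, ?_⟩
  · by_contra hc
    have h1 : bet 0 < bet (kA v - 1 / 2) :=
      bet_strictAntiOn (show kA v - 1 / 2 ∈ Iic (1 / 16 : ℝ) by
        show kA v - 1 / 2 ≤ 1 / 16
        linarith) (show (0 : ℝ) ∈ Iic (1 / 16 : ℝ) by norm_num) (by linarith)
    rw [bet_zero] at h1
    linarith
  · intro hM
    obtain ⟨hx, hy⟩ := abs_lt_of_kA (show kA v < 5 / 8 by linarith)
    rw [M0_flat hx hy] at hM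
    simp only [mem_insert_iff, mem_singleton_iff, Prod.ext_iff] at hM
    have hp : |v.2.2.1| = 1 := by
      rcases hM with h | h | h | h | h | h <;> obtain ⟨h1, h2⟩ := h <;>
        first
          | (rw [h1]; norm_num; done)
          | (exfalso; rw [hr] at h2; norm_num at h2)
    refine ⟨?_, hp⟩
    have h1 := alp_eq_one_iff.mpr hp
    rw [h1] at hPA
    by_contra hne
    have : kA v - 1 / 2 < 1 / 16 := by
      rcases lt_or_eq_of_le hkA with h | h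
      · linarith
      · exact absurd h hne
    have := bet_pos this
    linarith

theorem SB_facts {v : V} (hB : v ∈ SB) : |v.2.2.2| ≤ 1 ∧ 1 / 2 ≤ kB v ∧ (v ∈ M0 → kB v = 9 / 16 ∧ |v.2.2.2| = 1) := by
  obtain ⟨hr, hkA, hPA⟩ := hB
  unfold PsB at hPA
  have hb := bet_nonneg (kB v - 1 / 2)
  have ha := alp_nonneg v.2.2.2
  refine ⟨alp_le_one_iff.mp (by linarith), ?_, ?_⟩
  · by_contra hc
    have h1 : bet 0 < bet (kB v - 1 / 2) :=
      bet_strictAntiOn (show kB v - 1 / 2 ∈ Iic (1 / 16 : ℝ) by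
        show kB v - 1 / 2 ≤ 1 / 16
        linarith) (show (0 : ℝ) ∈ Iic (1 / 16 : ℝ) by norm_num) (by linarith)
    rw [bet_zero] at h1
    linarith
  · intro hM
    obtain ⟨hx, hy⟩ := abs_lt_of_kB (show kB v < 5 / 8 by linarith)
    rw [M0_flat hx hy] at hM
    simp only [mem_insert_iff, mem_singleton_iff, Prod.ext_iff] at hM
    have hp : |v.2.2.2| = 1 := by
      rcases hM with h | h | h | h | h | h <;> obtain ⟨h1, h2⟩ := h <;>
        first
          | (rw [h2]; norm_num; done)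
          | (exfalso; rw [hr] at h1; norm_num at h1)
    refine ⟨?_, hp⟩
    have h1 := alp_eq_one_iff.mpr hp
    rw [h1] at hPA
    by_contra hne
    have : kB v - 1 / 2 < 1 / 16 := by
      rcases lt_or_eq_of_le hkA with h | h
      · linarith
      · exact absurd h hne
    have := bet_pos this
    linarith

theorem DA_facts {v : V} (h : v ∈ DA) : v ∈ SA ∧ v ∈ Cb ∧ nw v = 0 := by
  obtain ⟨h1, h2, h3⟩ := h
  have hnw : nw v = 0 := by
    unfold nw
    rw [h1, h2]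
    simp
  have hn := near_facts (v := v) (by linarith) (by rw [hnw]; norm_num)
  obtain ⟨-, -, -, -, -, -, -, -, -, -, -, -, -, h4, -⟩ := hn
  exact ⟨h4.mpr ⟨h1, h2⟩, ⟨h3.le, by rw [hnw]; norm_num⟩, hnw⟩

theorem DB_facts {v : V} (h : v ∈ DB) : v ∈ SB ∧ v ∈ Cb ∧ nz v = 0 := by
  obtain ⟨h1, h2, h3⟩ := h
  have hnz : nz v = 0 := by
    unfold nz
    rw [h1, h2]
    simp
  have hn := near_facts (v := v) (by rw [hnz]; norm_num) (by linarith)
  obtain ⟨-, -, -, -, -, -, -, -, -, -, -, -, -, -, h4⟩ := hn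
  exact ⟨h4.mpr ⟨h1, h2⟩, ⟨by rw [hnz]; norm_num, h3.le⟩, hnz⟩

theorem SC_facts {v : V} (h : v ∈ SC) : v ∈ Cb ∧ ¬ (nz v = 0 ∧ nw v = 0) := by
  obtain ⟨P, Q, t, hP, hQ, hP', hQ', hb, e1, e2, e3, e4⟩ := h
  have hz : nz v = P := by
    unfold nz
    rw [e1, e2]
    have : (P * Real.cos t) ^ 2 + (P * Real.sin t) ^ 2 = P ^ 2 := by
      have := Real.sin_sq_add_cos_sq t
      linear_combination P ^ 2 * this
    rw [this, Real.sqrt_sq hP]
  have hw : nw v = Q := by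
    unfold nw
    rw [e3, e4]
    have : (Q * Real.cos t) ^ 2 + (-(Q * Real.sin t)) ^ 2 = Q ^ 2 := by
      have := Real.sin_sq_add_cos_sq t
      linear_combination Q ^ 2 * this
    rw [this, Real.sqrt_sq hQ]
  refine ⟨⟨by rw [hz]; exact hP', by rw [hw]; exact hQ'⟩, ?_⟩
  rintro ⟨h1, h2⟩
  rw [hz] at h1
  rw [hw] at h2
  rw [h1, h2, bet_zero] at hb
  norm_num at hb

theorem lab_pt : lab ((0, -(1 / 4), 0, 0) : V) ≠ 0 := by
  unfold lab
  apply mul_ne_zero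
  · exact (expNegInvGlue.pos_of_pos (by norm_num)).ne'
  · exact (expNegInvGlue.pos_of_pos (by norm_num)).ne'


end Pool.Agent.Helper874.Odd
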