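import Pool.Agent.Helper874.Odd.Base
import Pool.Agent.Helper874.Odd.Jbet1
import Pool.Agent.Helper874.Odd.Jiot1
import Pool.Agent.Helper874.Odd.Jiot2
import Pool.Agent.Helper874.Odd.Jmm1
import Pool.Agent.Helper874.Odd.Jmm2
import Pool.Agent.Helper874.Odd.Jalp1
import Pool.Agent.Helper874.Odd.Jup1
import Pool.Agent.Helper874.Odd.Jcur1
import Pool.Agent.Helper874.Odd.Jcur2
import Pool.Agent.Helper874.Odd.Jm0b

set_option autoImplicit false
open Set Filter Topology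
open scoped Manifold ContDiff

namespace Pool.Agent.Helper874.Odd

noncomputable def tuSf (p : ℝ) : ℝ := 1 / 2 + iot (1 - alp p)

theorem tu_mem {p : ℝ} (hp : p ∈ Icc (-1 : ℝ) 1) : 1 - alp p ∈ Icc (0 : ℝ) 1 := by
  have h1 : alp p ≤ 1 := alp_le_one_iff.2 (abs_le.2 hp)
  have h2 := alp_nonneg p
  constructor <;> linarith

theorem tu_fwd {s p : ℝ} (hs : s ≤ 9 / 16) (h : alp p + bet (s - 1 / 2) - 1 = 0) :
    p ∈ Icc (-1 : ℝ) 1 ∧ s = tuSf p := by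
  have h1 : alp p ≤ 1 := by
    have := bet_nonneg (s - 1 / 2)
    linarith
  have hp : p ∈ Icc (-1 : ℝ) 1 := abs_le.1 (alp_le_one_iff.1 h1)
  have h2 : 0 ≤ s - 1 / 2 := by
    by_contra hcon
    push Not at hcon
    have h3 : bet 0 < bet (s - 1 / 2) :=
      bet_strictAntiOn (by rw [mem_Iic]; linarith) (by rw [mem_Iic]; norm_num) hcon
    rw [bet_zero] at h3
    have := alp_nonneg p
    linarith
  refine ⟨hp, ?_⟩
  unfold tuSf
  have h4 : 1 - alp p = bet (s - 1 / 2) := by linarith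
  rw [h4, iot_bet ⟨h2, by linarith⟩]
  ring

theorem tu_range {p : ℝ} (hp : p ∈ Icc (-1 : ℝ) 1) : 1 / 2 ≤ tuSf p ∧ tuSf p ≤ 9 / 16 ∧
    alp p + bet (tuSf p - 1 / 2) - 1 = 0 := by
  have h1 := iot_mem (tu_mem hp)
  unfold tuSf
  refine ⟨by linarith [h1.1], by linarith [h1.2], ?_⟩
  have : 1 / 2 + iot (1 - alp p) - 1 / 2 = iot (1 - alp p) := by ring
  rw [this, bet_iot (tu_mem hp)]
  ring

theorem tu_one {p : ℝ} (hp : |p| = 1) : tuSf p = 9 / 16 := by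
  unfold tuSf
  rw [alp_eq_one_iff.2 hp, sub_self, iot_zero]
  norm_num

theorem tu_cont : ContinuousOn tuSf (Icc (-1 : ℝ) 1) := by
  have h1 : ContinuousOn (fun p : ℝ => 1 - alp p) (Icc (-1 : ℝ) 1) :=
    (continuous_const.sub alp_contDiff.continuous).continuousOn
  exact continuousOn_const.add (iot_continuousOn.comp h1 fun p hp => tu_mem hp)

theorem tu_convex : ConvexOn ℝ (Icc (-1 : ℝ) 1) tuSf := by
  refine ⟨convex_Icc _ _, ?_⟩
  intro x hx y hy a b ha hb hab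
  have hxy : a • x + b • y ∈ Icc (-1 : ℝ) 1 := convex_Icc _ _ hx hy ha hb hab
  have h1 := alp_convexOn.2 hx hy ha hb hab
  have h2 := iot_convexOn.2 (tu_mem hx) (tu_mem hy) ha hb hab
  have h3 : a • (1 - alp x) + b • (1 - alp y) ∈ Icc (0 : ℝ) 1 :=
    convex_Icc _ _ (tu_mem hx) (tu_mem hy) ha hb hab
  have h4 : a • (1 - alp x) + b • (1 - alp y) ≤ 1 - alp (a • x + b • y) := by
    simp only [smul_eq_mul] at h1 ⊢
    nlinarith
  have h5 := iot_antitoneOn h3 (tu_mem hxy) h4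
  unfold tuSf
  simp only [smul_eq_mul] at h2 h5 ⊢
  have h6 : a * (1 / 2 + iot (1 - alp x)) + b * (1 / 2 + iot (1 - alp y)) =
      (a + b) * (1 / 2) + (a * iot (1 - alp x) + b * iot (1 - alp y)) := by ring
  rw [h6, hab]
  linarith

theorem tu_memSA {w : ℝ × ℝ} {p : ℝ} (hp : p ∈ Icc (-1 : ℝ) 1) (hw : w ∈ Gam (tuSf p)) :
    ((w.1 - 1 / 4, w.2, p, 0) : V) ∈ SA ∧ kA ((w.1 - 1 / 4, w.2, p, 0) : V) = tuSf p := by
  have hk : kA ((w.1 - 1 / 4, w.2, p, 0) : V) = tuSf p := by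
    have h : mm w.1 + mm w.2 = tuSf p := hw
    have e : kA ((w.1 - 1 / 4, w.2, p, 0) : V) = mm (w.1 - 1 / 4 + 1 / 4) + mm w.2 := rfl
    rw [e, sub_add_cancel, h]
  obtain ⟨_, h2, h3⟩ := tu_range hp
  refine ⟨⟨rfl, by rw [hk]; exact h2, ?_⟩, hk⟩
  have e : PsA ((w.1 - 1 / 4, w.2, p, 0) : V) =
      alp p + bet (kA ((w.1 - 1 / 4, w.2, p, 0) : V) - 1 / 2) - 1 := rfl
  rw [e, hk]
  exact h3

theorem tu_hh (l : V) (w : ℝ × ℝ) (p : ℝ) : hh l ((w.1 - 1 / 4, w.2, p, 0) : V) =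
    (l.1 * w.1 + l.2.1 * w.2) + (l.2.2.1 * p - l.1 / 4) := by
  have e : hh l ((w.1 - 1 / 4, w.2, p, 0) : V) =
    l.1 * (w.1 - 1 / 4) + l.2.1 * w.2 + l.2.2.1 * p + l.2.2.2 * 0 := rfl
  rw [e]
  ring

/-- every point of the tube A can be moved up to one of its two boundary circles -/
theorem tubeA_up {l v : V} (hv : v ∈ SA) :
    ∃ w ∈ SA, |w.2.2.1| = 1 ∧ kA w = 9 / 16 ∧ Up SA l v w := by
  obtain ⟨x, y, p, r⟩ := v
  obtain ⟨hr, hk, hP⟩ := hv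
  have hr' : r = 0 := hr
  subst hr'
  have hk' : mm (x + 1 / 4) + mm y ≤ 9 / 16 := hk
  have hP' : alp p + bet (mm (x + 1 / 4) + mm y - 1 / 2) - 1 = 0 := hP
  obtain ⟨hp, hs⟩ := tu_fwd hk' hP'
  obtain ⟨e, ⟨A, B, C, D, he⟩, heG, hinc, hup⟩ := Gam_up' l.1 l.2.1
  have hkk : 0 ≤ l.1 * A + l.2.1 * C := by
    have : l.1 * (e 1).1 + l.2.1 * (e 1).2 - (l.1 * (e 0).1 + l.2.1 * (e 0).2) =
        l.1 * A + l.2.1 * C := by
      rw [he 1, he 0]
      ring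
    rw [this] at hinc
    exact hinc
  have hs4 : ∀ q ∈ Icc (-1 : ℝ) 1, 1 / 4 ≤ tuSf q := fun q hq => by
    have := (tu_range hq).1
    linarith
  -- step 1
  have hw : ((x + 1 / 4, y) : ℝ × ℝ) ∈ Gam (tuSf p) := hs
  obtain ⟨T, hTG, hTc, hwT, heT, hTu⟩ := hup (tuSf p) (hs4 p hp) _ hw
  set g : ℝ → V := fun q => ((e (tuSf q)).1 - 1 / 4, (e (tuSf q)).2, q, 0) with hg
  have hgS : ∀ q ∈ Icc (-1 : ℝ) 1, g q ∈ SA ∧ kA (g q) = tuSf q := fun q hq =>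
    tu_memSA hq (heG _ (hs4 q hq))
  have h1 : Up SA l (x, y, p, 0) (g p) := by
    refine ⟨(fun w : ℝ × ℝ => ((w.1 - 1 / 4, w.2, p, 0) : V)) '' T, ?_, ?_, ?_, ?_, ?_⟩
    · rintro _ ⟨w, hwT', rfl⟩
      exact (tu_memSA hp (hTG hwT')).1
    · exact hTc.image _ (by fun_prop)
    · refine ⟨(x + 1 / 4, y), hwT, ?_⟩
      simp
    · exact ⟨e (tuSf p), heT, rfl⟩
    · rintro _ ⟨w, hwT', rfl⟩
      have e1 := tu_hh l w p
      have e2 := tu_hh l (x + 1 / 4, y) p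
      have e3 := hTu w hwT'
      simp only [add_sub_cancel_right] at e2
      simp only [] at e1 e3 ⊢
      linarith
  -- step 2
  have hhg : ∀ q, hh l (g q) = (l.1 * A + l.2.1 * C) * tuSf q + l.2.2.1 * q +
      (l.1 * B + l.2.1 * D - l.1 / 4) := by
    intro q
    have e1 := tu_hh l (e (tuSf q)) q
    have e2 : hh l (g q) = hh l (((e (tuSf q)).1 - 1 / 4, (e (tuSf q)).2, q, 0) : V) := rfl
    rw [e2, e1, he (tuSf q)]
    ring
  have hconv : ConvexOn ℝ (Icc (-1 : ℝ) 1) (fun q => hh l (g q)) := by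
    refine ⟨convex_Icc _ _, ?_⟩
    intro q hq q' hq' a b ha hb hab
    have h2 := mul_le_mul_of_nonneg_left (tu_convex.2 hq hq' ha hb hab) hkk
    simp only [hhg, smul_eq_mul] at h2 ⊢
    have h3 : a * ((l.1 * A + l.2.1 * C) * tuSf q + l.2.2.1 * q +
        (l.1 * B + l.2.1 * D - l.1 / 4)) + b * ((l.1 * A + l.2.1 * C) * tuSf q' + l.2.2.1 * q' +
        (l.1 * B + l.2.1 * D - l.1 / 4)) =
        (l.1 * A + l.2.1 * C) * (a * tuSf q + b * tuSf q') + l.2.2.1 * (a * q + b * q') +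
        (a + b) * (l.1 * B + l.2.1 * D - l.1 / 4) := by ring
    rw [h3, hab]
    linarith
  have hgc : ContinuousOn g (Icc (-1 : ℝ) 1) := by
    have hg' : g = fun q => ((A * tuSf q + B - 1 / 4, C * tuSf q + D, q, 0) : V) := by
      funext q
      simp only [hg, he]
    rw [hg']
    have := tu_cont
    fun_prop
  rcases convex_dir hp hconv with hdir | hdir
  · refine ⟨g 1, (hgS 1 (by constructor <;> norm_num)).1, ?_, ?_, ?_⟩
    · simp [hg]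
    · rw [(hgS 1 (by constructor <;> norm_num)).2, tu_one (by norm_num)]
    · refine h1.trans (Up.of_path (Icc p 1) ordConnected_Icc g
        (hgc.mono (Icc_subset_Icc_left hp.1)) ⟨le_rfl, hp.2⟩ ⟨hp.2, le_rfl⟩ ?_)
      intro u hu
      exact ⟨(hgS u ⟨hp.1.trans hu.1, hu.2⟩).1, hdir u hu⟩
  · refine ⟨g (-1), (hgS (-1) (by constructor <;> norm_num)).1, ?_, ?_, ?_⟩
    · simp [hg]
    · rw [(hgS (-1) (by constructor <;> norm_num)).2, tu_one (by norm_num)]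
    · refine h1.trans (Up.of_path (Icc (-1) p) ordConnected_Icc g
        (hgc.mono (Icc_subset_Icc_right hp.2)) ⟨hp.1, le_rfl⟩ ⟨le_rfl, hp.1⟩ ?_)
      intro u hu
      exact ⟨(hgS u ⟨hu.1, hu.2.trans hp.2⟩).1, hdir u hu⟩

theorem tu_SB_iff (x y p r : ℝ) : ((x + 1 / 2, y, r, p) : V) ∈ SB ↔ ((x, y, p, r) : V) ∈ SA := by
  have e : x + 1 / 2 - 1 / 4 = x + 1 / 4 := by ring
  have ek : kB ((x + 1 / 2, y, r, p) : V) = kA ((x, y, p, r) : V) := by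
    unfold kA kB
    simp only [e]
  have eP : PsB ((x + 1 / 2, y, r, p) : V) = PsA ((x, y, p, r) : V) := by
    unfold PsA PsB
    rw [ek]
  unfold SA SB
  simp only [mem_setOf_eq, ek, eP]

theorem tu_hhB (l : V) (v : V) : hh l ((v.1 + 1 / 2, v.2.1, v.2.2.2, v.2.2.1) : V) =
    hh ((l.1, l.2.1, l.2.2.2, l.2.2.1) : V) v + l.1 / 2 := by
  unfold hh
  simp only []
  ring

/-- every point of the tube B can be moved up to one of its two boundary circles -/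
theorem tubeB_up {l v : V} (hv : v ∈ SB) :
    ∃ w ∈ SB, |w.2.2.2| = 1 ∧ kB w = 9 / 16 ∧ Up SB l v w := by
  obtain ⟨x, y, p, r⟩ := v
  have hv' : ((x - 1 / 2, y, r, p) : V) ∈ SA := by
    rw [← tu_SB_iff]
    rw [sub_add_cancel]
    exact hv
  obtain ⟨w, hwS, hw1, hwk, T, hTS, hTc, hvT, hwT, hT⟩ :=
    tubeA_up (l := ((l.1, l.2.1, l.2.2.2, l.2.2.1) : V)) hv'
  refine ⟨((w.1 + 1 / 2, w.2.1, w.2.2.2, w.2.2.1) : V), ?_, hw1, ?_, ?_⟩
  · exact (tu_SB_iff w.1 w.2.1 w.2.2.1 w.2.2.2).2 hwS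
  · have e : w.1 + 1 / 2 - 1 / 4 = w.1 + 1 / 4 := by ring
    unfold kB
    simp only [e]
    exact hwk
  · refine ⟨(fun u : V => ((u.1 + 1 / 2, u.2.1, u.2.2.2, u.2.2.1) : V)) '' T, ?_, ?_, ?_, ?_, ?_⟩
    · rintro _ ⟨u, hu, rfl⟩
      exact (tu_SB_iff u.1 u.2.1 u.2.2.1 u.2.2.2).2 (hTS hu)
    · exact hTc.image _ (by fun_prop)
    · refine ⟨_, hvT, ?_⟩
      simp
    · exact ⟨w, hwT, rfl⟩
    · rintro _ ⟨u, hu, rfl⟩
      have e1 := tu_hhB l u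
      have e2 := tu_hhB l ((x - 1 / 2, y, r, p) : V)
      have e3 := hT u hu
      simp only [sub_add_cancel] at e2
      simp only [] at e1 ⊢
      linarith


end Pool.Agent.Helper874.Odd
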