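import Pool.Agent.Helper874.Odd.Base
import Pool.Agent.Helper874.Odd.Jbet1
import Pool.Agent.Helper874.Odd.Jmm1
import Pool.Agent.Helper874.Odd.Jmm2
import Pool.Agent.Helper874.Odd.Jalp1
import Pool.Agent.Helper874.Odd.Jup1
import Pool.Agent.Helper874.Odd.Jup2
import Pool.Agent.Helper874.Odd.Jtube1
import Pool.Agent.Helper874.Odd.Jcirc1
import Pool.Agent.Helper874.Odd.JdiscA
import Pool.Agent.Helper874.Odd.JdiscB
import Pool.Agent.Helper874.Odd.Jopn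
import Pool.Agent.Helper874.Odd.Jmod1

set_option autoImplicit false
open Set Filter Topology
open scoped Manifold ContDiff

namespace Pool.Agent.Helper874.Odd

theorem conn_SA'_nz : Continuous nz := by
  unfold nz X2
  fun_prop

theorem conn_SA'_nw : Continuous nw := by
  unfold nw X1
  fun_prop

theorem conn_SA'_X1 : Continuous X1 := by
  unfold X1
  fun_prop

theorem conn_SA'_X2 : Continuous X2 := by
  unfold X2
  fun_prop

theorem conn_SA'_pick (l p ρ : ℝ) (h : |p| ≤ ρ) : ∃ p' : ℝ, p' ^ 2 = ρ ^ 2 ∧ l * p ≤ l * p' := by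
  rcases le_total 0 l with hl | hl
  · exact ⟨ρ, rfl, mul_le_mul_of_nonneg_left (abs_le.1 h).2 hl⟩
  · refine ⟨-ρ, by ring, ?_⟩
    exact mul_le_mul_of_nonpos_left (abs_le.1 h).1 hl

theorem conn_SA'_sq {x y : ℝ} (h : Real.sqrt (x ^ 2 + y ^ 2) < 1 / 16) :
    |y| ≤ Real.sqrt (1 / 256 - x ^ 2) ∧ 0 ≤ 1 / 256 - x ^ 2 := by
  rw [Real.sqrt_lt' (by norm_num)] at h
  refine ⟨Real.abs_le_sqrt ?_, ?_⟩
  · linarith
  · nlinarith [sq_nonneg y]

theorem conn_SA'_sq2 {x y : ℝ} (h : y ^ 2 = 1 / 256 - x ^ 2) :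
    Real.sqrt (x ^ 2 + y ^ 2) = 1 / 16 := by
  rw [h, Real.sqrt_eq_iff_mul_self_eq (by linarith) (by norm_num)]
  ring

theorem conn_SA'_bdA {w : V} (h : w ∈ SA) (h1 : |w.2.2.1| = 1) (h2 : kA w = 9 / 16) :
    w ∈ M0 \ (DiA ∪ DiB) := by
  obtain ⟨r0, -, -⟩ := h
  obtain ⟨e1, e2⟩ := abs_lt_of_kA (v := w) (by rw [h2]; norm_num)
  refine ⟨?_, ?_⟩
  · rw [M0_flat e1 e2]
    have h3 : w.2.2 = (w.2.2.1, w.2.2.2) := rfl
    rw [h3, r0]
    rcases (abs_eq zero_le_one).1 h1 with h4 | h4 <;> rw [h4] <;> simp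
  · rintro (h3 | h3)
    · exact absurd h3.2.2 (by rw [h2]; exact lt_irrefl _)
    · have := h3.2.1
      rw [r0, abs_zero] at this
      exact zero_ne_one this

theorem conn_SB'_bdB {w : V} (h : w ∈ SB) (h1 : |w.2.2.2| = 1) (h2 : kB w = 9 / 16) :
    w ∈ M0 \ (DiA ∪ DiB) := by
  obtain ⟨r0, -, -⟩ := h
  obtain ⟨e1, e2⟩ := abs_lt_of_kB (v := w) (by rw [h2]; norm_num)
  refine ⟨?_, ?_⟩
  · rw [M0_flat e1 e2]
    have h3 : w.2.2 = (w.2.2.1, w.2.2.2) := rfl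
    rw [h3, r0]
    rcases (abs_eq zero_le_one).1 h1 with h4 | h4 <;> rw [h4] <;> simp
  · rintro (h3 | h3)
    · have := h3.2.1
      rw [r0, abs_zero] at this
      exact zero_ne_one this
    · exact absurd h3.2.2 (by rw [h2]; exact lt_irrefl _)

/-- `M0` without discs, plus a tube, minus the disc of the crossing: tight -/
theorem conn_SA' (l : V) : Conn ((M0 \ (DiA ∪ DiB) ∪ SA) \ DA) l := by
  have hS : Conn (M0 \ (DiA ∪ DiB) ∪ SA) l := conn_union (conn_M0' l) (fun a ha => by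
    obtain ⟨w, hw, h1, h2, hup⟩ := tubeA_up (l := l) ha
    exact ⟨w, conn_SA'_bdA hw h1 h2, hup.mono subset_union_right⟩)
  have hnw : ∀ v : V, X1 v = 0 → v.2.2.2 = 0 → nw v = 0 := by
    intro v h1 h2
    unfold nw
    rw [h1, h2]
    norm_num
  refine conn_diff (bd := {v | X1 v = 0 ∧ v.2.2.2 = 0 ∧ nz v = 1 / 16}) hS ?_ (circ_A l) ?_ ?_ ?_
  · rintro v ⟨h1, h2, h3⟩
    have hn := hnw v h1 h2
    obtain ⟨-, -, -, -, -, -, -, -, -, -, -, -, -, hSA, -⟩ := near_facts (v := v)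
      (by rw [h3]; norm_num) (by rw [hn]; norm_num)
    refine ⟨Or.inr (hSA.2 ⟨h1, h2⟩), fun h4 => ?_⟩
    have := h4.2.2
    rw [h3] at this
    exact lt_irrefl _ this
  · rintro a ⟨h1, h2, h3⟩
    unfold nz at h3
    obtain ⟨h4, h5⟩ := conn_SA'_sq h3
    obtain ⟨p', hp1, hp2⟩ := conn_SA'_pick l.2.2.1 a.2.2.1 _ h4
    rw [Real.sq_sqrt h5] at hp1
    refine ⟨(a.1, a.2.1, p', a.2.2.2), ⟨h1, h2, ?_⟩, ?_⟩
    · exact conn_SA'_sq2 hp1
    · change l.1 * a.1 + l.2.1 * a.2.1 + l.2.2.1 * a.2.2.1 + l.2.2.2 * a.2.2.2 ≤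
        l.1 * a.1 + l.2.1 * a.2.1 + l.2.2.1 * p' + l.2.2.2 * a.2.2.2
      linarith
  · have hcl : closure DA ⊆ {v : V | X1 v = 0 ∧ v.2.2.2 = 0 ∧ nz v ≤ 1 / 16} := by
      refine closure_minimal (fun v hv => ⟨hv.1, hv.2.1, hv.2.2.le⟩) ?_
      refine (isClosed_eq conn_SA'_X1 continuous_const).inter
        ((isClosed_eq (by fun_prop) continuous_const).inter
          (isClosed_le conn_SA'_nz continuous_const))
    intro v hv
    obtain ⟨h1, h2, h3⟩ := hcl hv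
    rcases lt_or_eq_of_le h3 with h4 | h4
    · exact Or.inl ⟨h1, h2, h4⟩
    · exact Or.inr ⟨h1, h2, h4⟩
  · refine ⟨{v | nz v < 1 / 16} ∩ {v | nw v < 1 / 16},
      (isOpen_lt conn_SA'_nz continuous_const).inter (isOpen_lt conn_SA'_nw continuous_const), ?_⟩
    ext v
    constructor
    · rintro ⟨hv, hz, hw⟩
      have hz' : nz v < 1 / 16 := hz
      have hw' : nw v < 1 / 16 := hw
      obtain ⟨-, -, -, -, -, -, -, -, -, -, -, -, hM, hSA, -⟩ := near_facts (v := v)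
        (by linarith) (by linarith)
      rcases hv with hv | hv
      · exact absurd hv.1 hM
      · obtain ⟨h1, h2⟩ := hSA.1 hv
        exact ⟨h1, h2, hz'⟩
    · rintro ⟨h1, h2, h3⟩
      have hn := hnw v h1 h2
      obtain ⟨-, -, -, -, -, -, -, -, -, -, -, -, -, hSA, -⟩ := near_facts (v := v)
        (by linarith) (by rw [hn]; norm_num)
      refine ⟨Or.inr (hSA.2 ⟨h1, h2⟩), h3, ?_⟩
      change nw v < 1 / 16
      rw [hn]
      norm_num

theorem conn_SB' (l : V) : Conn ((M0 \ (DiA ∪ DiB) ∪ SB) \ DB) l := by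
  have hS : Conn (M0 \ (DiA ∪ DiB) ∪ SB) l := conn_union (conn_M0' l) (fun a ha => by
    obtain ⟨w, hw, h1, h2, hup⟩ := tubeB_up (l := l) ha
    exact ⟨w, conn_SB'_bdB hw h1 h2, hup.mono subset_union_right⟩)
  have hnz : ∀ v : V, X2 v = 0 → v.2.2.1 = 0 → nz v = 0 := by
    intro v h1 h2
    unfold nz
    rw [h1, h2]
    norm_num
  refine conn_diff (bd := {v | X2 v = 0 ∧ v.2.2.1 = 0 ∧ nw v = 1 / 16}) hS ?_ (circ_B l) ?_ ?_ ?_
  · rintro v ⟨h1, h2, h3⟩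
    have hn := hnz v h1 h2
    obtain ⟨-, -, -, -, -, -, -, -, -, -, -, -, -, -, hSB⟩ := near_facts (v := v)
      (by rw [hn]; norm_num) (by rw [h3]; norm_num)
    refine ⟨Or.inr (hSB.2 ⟨h1, h2⟩), fun h4 => ?_⟩
    have := h4.2.2
    rw [h3] at this
    exact lt_irrefl _ this
  · rintro a ⟨h1, h2, h3⟩
    unfold nw at h3
    obtain ⟨h4, h5⟩ := conn_SA'_sq h3
    obtain ⟨p', hp1, hp2⟩ := conn_SA'_pick l.2.2.2 a.2.2.2 _ h4
    rw [Real.sq_sqrt h5] at hp1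
    refine ⟨(a.1, a.2.1, a.2.2.1, p'), ⟨h1, h2, ?_⟩, ?_⟩
    · exact conn_SA'_sq2 hp1
    · change l.1 * a.1 + l.2.1 * a.2.1 + l.2.2.1 * a.2.2.1 + l.2.2.2 * a.2.2.2 ≤
        l.1 * a.1 + l.2.1 * a.2.1 + l.2.2.1 * a.2.2.1 + l.2.2.2 * p'
      linarith
  · have hcl : closure DB ⊆ {v : V | X2 v = 0 ∧ v.2.2.1 = 0 ∧ nw v ≤ 1 / 16} := by
      refine closure_minimal (fun v hv => ⟨hv.1, hv.2.1, hv.2.2.le⟩) ?_
      refine (isClosed_eq conn_SA'_X2 continuous_const).inter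
        ((isClosed_eq (by fun_prop) continuous_const).inter
          (isClosed_le conn_SA'_nw continuous_const))
    intro v hv
    obtain ⟨h1, h2, h3⟩ := hcl hv
    rcases lt_or_eq_of_le h3 with h4 | h4
    · exact Or.inl ⟨h1, h2, h4⟩
    · exact Or.inr ⟨h1, h2, h4⟩
  · refine ⟨{v | nz v < 1 / 16} ∩ {v | nw v < 1 / 16},
      (isOpen_lt conn_SA'_nz continuous_const).inter (isOpen_lt conn_SA'_nw continuous_const), ?_⟩
    ext v
    constructor
    · rintro ⟨hv, hz, hw⟩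
      have hz' : nz v < 1 / 16 := hz
      have hw' : nw v < 1 / 16 := hw
      obtain ⟨-, -, -, -, -, -, -, -, -, -, -, -, hM, -, hSB⟩ := near_facts (v := v)
        (by linarith) (by linarith)
      rcases hv with hv | hv
      · exact absurd hv.1 hM
      · obtain ⟨h1, h2⟩ := hSB.1 hv
        exact ⟨h1, h2, hw'⟩
    · rintro ⟨h1, h2, h3⟩
      have hn := hnz v h1 h2
      obtain ⟨-, -, -, -, -, -, -, -, -, -, -, -, -, -, hSB⟩ := near_facts (v := v)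
        (by rw [hn]; norm_num) (by linarith)
      refine ⟨Or.inr (hSB.2 ⟨h1, h2⟩), ?_, h3⟩
      change nz v < 1 / 16
      rw [hn]
      norm_num

/-- the boundary circles of the tubes lie on `M0` -/
theorem bdA_mem {w : V} (h : w ∈ SA) (h1 : |w.2.2.1| = 1) (h2 : kA w = 9 / 16) : w ∈ M0 \ (DiA ∪ DiB) :=
  conn_SA'_bdA h h1 h2
theorem bdB_mem {w : V} (h : w ∈ SB) (h1 : |w.2.2.2| = 1) (h2 : kB w = 9 / 16) : w ∈ M0 \ (DiA ∪ DiB) :=
  conn_SB'_bdB h h1 h2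


end Pool.Agent.Helper874.Odd
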