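import Pool.Agent.Helper874.Odd.Base
import Pool.Agent.Helper874.Odd.Jbet1
import Pool.Agent.Helper874.Odd.Jmm1
import Pool.Agent.Helper874.Odd.Jmm2
import Pool.Agent.Helper874.Odd.Jalp1

set_option autoImplicit false
open Set Filter Topology
open scoped Manifold ContDiff

namespace Pool.Agent.Helper874.Odd

private theorem bd (d : ℝ) : HasDerivAt bet (deriv bet d) d :=
  ((bet_contDiff.differentiable (by simp)) d).hasDerivAt
private theorem ad (d : ℝ) : HasDerivAt alp (deriv alp d) d :=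
  ((alp_contDiff.differentiable (by simp)) d).hasDerivAt
private theorem md (d : ℝ) : HasDerivAt mm (deriv mm d) d :=
  ((mm_contDiff.differentiable (by simp)) d).hasDerivAt

private theorem hx (v : V) : HasFDerivAt (fun v : V => v.1) (ContinuousLinearMap.fst ℝ ℝ (ℝ × ℝ × ℝ)) v :=
  hasFDerivAt_fst
private theorem hy (v : V) : HasFDerivAt (fun v : V => v.2.1)
    ((ContinuousLinearMap.fst ℝ ℝ (ℝ × ℝ)).comp (ContinuousLinearMap.snd ℝ ℝ (ℝ × ℝ × ℝ))) v :=
  ContinuousLinearMap.hasFDerivAt ((ContinuousLinearMap.fst ℝ ℝ (ℝ × ℝ)).comp (ContinuousLinearMap.snd ℝ ℝ (ℝ × ℝ × ℝ)))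
private theorem hp (v : V) : HasFDerivAt (fun v : V => v.2.2.1)
    ((ContinuousLinearMap.fst ℝ ℝ ℝ).comp ((ContinuousLinearMap.snd ℝ ℝ (ℝ × ℝ)).comp
        (ContinuousLinearMap.snd ℝ ℝ (ℝ × ℝ × ℝ)))) v :=
  ContinuousLinearMap.hasFDerivAt ((ContinuousLinearMap.fst ℝ ℝ ℝ).comp ((ContinuousLinearMap.snd ℝ ℝ (ℝ × ℝ)).comp
        (ContinuousLinearMap.snd ℝ ℝ (ℝ × ℝ × ℝ))))
private theorem hr (v : V) : HasFDerivAt (fun v : V => v.2.2.2)
    ((ContinuousLinearMap.snd ℝ ℝ ℝ).comp ((ContinuousLinearMap.snd ℝ ℝ (ℝ × ℝ)).comp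
        (ContinuousLinearMap.snd ℝ ℝ (ℝ × ℝ × ℝ)))) v :=
  ContinuousLinearMap.hasFDerivAt ((ContinuousLinearMap.snd ℝ ℝ ℝ).comp ((ContinuousLinearMap.snd ℝ ℝ (ℝ × ℝ)).comp
        (ContinuousLinearMap.snd ℝ ℝ (ℝ × ℝ × ℝ))))

theorem fderiv_p (v a : V) : fderiv ℝ (fun v : V => v.2.2.1) v a = a.2.2.1 := by
  rw [(hp v).fderiv]; rfl
theorem fderiv_r (v a : V) : fderiv ℝ (fun v : V => v.2.2.2) v a = a.2.2.2 := by
  rw [(hr v).fderiv]; rfl

theorem fderiv_G1 (v a : V) : fderiv ℝ G1 v a = deriv alp v.1 * a.1 +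
    (- deriv bet (1 - v.2.2.1) + deriv bet (1 + v.2.2.1 + v.2.2.2)) * a.2.2.1 +
    (- deriv bet (1 - v.2.2.2) + deriv bet (1 + v.2.2.1 + v.2.2.2)) * a.2.2.2 := by
  have h1 := (ad v.1).comp_hasFDerivAt v (hx v)
  have h2 := (bd (1 - v.2.2.1)).comp_hasFDerivAt v ((hp v).const_sub 1)
  have h3 := (bd (1 - v.2.2.2)).comp_hasFDerivAt v ((hr v).const_sub 1)
  have h4 := (bd (1 + v.2.2.1 + v.2.2.2)).comp_hasFDerivAt v (((hp v).const_add 1).add (hr v))
  have h : HasFDerivAt G1 _ v := (h1.add ((h2.add h3).add h4)).sub_const 1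
  rw [h.fderiv]
  simp
  ring

theorem fderiv_G2 (v a : V) : fderiv ℝ G2 v a = deriv alp v.2.1 * a.2.1 +
    (deriv bet (1 + v.2.2.1) - deriv bet (1 - v.2.2.1 - v.2.2.2)) * a.2.2.1 +
    (deriv bet (1 + v.2.2.2) - deriv bet (1 - v.2.2.1 - v.2.2.2)) * a.2.2.2 := by
  have h1 := (ad v.2.1).comp_hasFDerivAt v (hy v)
  have h2 := (bd (1 + v.2.2.1)).comp_hasFDerivAt v ((hp v).const_add 1)
  have h3 := (bd (1 + v.2.2.2)).comp_hasFDerivAt v ((hr v).const_add 1)
  have h4 := (bd (1 - v.2.2.1 - v.2.2.2)).comp_hasFDerivAt v (((hp v).const_sub 1).sub (hr v))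
  have h : HasFDerivAt G2 _ v := (h1.add ((h2.add h3).add h4)).sub_const 1
  rw [h.fderiv]
  simp
  ring

theorem fderiv_PsA (v a : V) : fderiv ℝ PsA v a = deriv alp v.2.2.1 * a.2.2.1 +
    deriv bet (kA v - 1 / 2) * (deriv mm (v.1 + 1 / 4) * a.1 + deriv mm v.2.1 * a.2.1) := by
  have h1 := (ad v.2.2.1).comp_hasFDerivAt v (hp v)
  have k1 : HasFDerivAt kA _ v :=
    (HasDerivAt.comp_hasFDerivAt (h₂ := mm) v (md (v.1 + 1/4)) ((hx v).add_const (1/4))).add
      (HasDerivAt.comp_hasFDerivAt (h₂ := mm) v (md v.2.1) (hy v))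
  have h2 := HasDerivAt.comp_hasFDerivAt (h₂ := bet) (f := fun v => kA v - 1/2) v
    (bd (kA v - 1/2)) (k1.sub_const (1/2))
  have h : HasFDerivAt PsA _ v := (h1.add h2).sub_const 1
  rw [h.fderiv]
  simp
  ring
theorem fderiv_PsB (v a : V) : fderiv ℝ PsB v a = deriv alp v.2.2.2 * a.2.2.2 +
    deriv bet (kB v - 1 / 2) * (deriv mm (v.1 - 1 / 4) * a.1 + deriv mm v.2.1 * a.2.1) := by
  have h1 := (ad v.2.2.2).comp_hasFDerivAt v (hr v)
  have k1 : HasFDerivAt kB _ v :=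
    (HasDerivAt.comp_hasFDerivAt (h₂ := mm) v (md (v.1 - 1/4)) ((hx v).sub_const (1/4))).add
      (HasDerivAt.comp_hasFDerivAt (h₂ := mm) v (md v.2.1) (hy v))
  have h2 := HasDerivAt.comp_hasFDerivAt (h₂ := bet) (f := fun v => kB v - 1/2) v
    (bd (kB v - 1/2)) (k1.sub_const (1/2))
  have h : HasFDerivAt PsB _ v := (h1.add h2).sub_const 1
  rw [h.fderiv]
  simp
  ring

private theorem cx : ContDiff ℝ ∞ (fun v : V => v.1) := contDiff_fst
private theorem cy : ContDiff ℝ ∞ (fun v : V => v.2.1) := contDiff_fst.comp contDiff_snd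
private theorem cp : ContDiff ℝ ∞ (fun v : V => v.2.2.1) := contDiff_fst.comp (contDiff_snd.comp contDiff_snd)
private theorem cr : ContDiff ℝ ∞ (fun v : V => v.2.2.2) := contDiff_snd.comp (contDiff_snd.comp contDiff_snd)

theorem G1_contDiff : ContDiff ℝ ∞ G1 :=
  ((alp_contDiff.comp cx).add (((bet_contDiff.comp (contDiff_const.sub cp)).add
    (bet_contDiff.comp (contDiff_const.sub cr))).add
    (bet_contDiff.comp ((contDiff_const.add cp).add cr)))).sub contDiff_const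
theorem G2_contDiff : ContDiff ℝ ∞ G2 :=
  ((alp_contDiff.comp cy).add (((bet_contDiff.comp (contDiff_const.add cp)).add
    (bet_contDiff.comp (contDiff_const.add cr))).add
    (bet_contDiff.comp ((contDiff_const.sub cp).sub cr)))).sub contDiff_const
private theorem ckA : ContDiff ℝ ∞ kA :=
  (mm_contDiff.comp (cx.add contDiff_const)).add (mm_contDiff.comp cy)
private theorem ckB : ContDiff ℝ ∞ kB :=
  (mm_contDiff.comp (cx.sub contDiff_const)).add (mm_contDiff.comp cy)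
theorem PsA_contDiff : ContDiff ℝ ∞ PsA :=
  ((alp_contDiff.comp cp).add (bet_contDiff.comp (ckA.sub contDiff_const))).sub contDiff_const
theorem PsB_contDiff : ContDiff ℝ ∞ PsB :=
  ((alp_contDiff.comp cr).add (bet_contDiff.comp (ckB.sub contDiff_const))).sub contDiff_const
theorem lab_contDiff : ContDiff ℝ ∞ lab :=
  (expNegInvGlue.contDiff.comp cy.neg).mul
    (expNegInvGlue.contDiff.comp (contDiff_const.sub (cp.pow 2)))

end Pool.Agent.Helper874.Odd
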