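import Pool.Agent.Helper874.Odd.Base
import Pool.Agent.Helper874.Odd.Jbet1
import Pool.Agent.Helper874.Odd.Jmm1
import Pool.Agent.Helper874.Odd.Jmm2
import Pool.Agent.Helper874.Odd.Jalp1
import Pool.Agent.Helper874.Odd.Jder1

set_option autoImplicit false
open Set Filter Topology
open scoped Manifold ContDiff

namespace Pool.Agent.Helper874.Odd

theorem bet_cont' : Continuous bet := bet_contDiff.continuous
theorem mm_cont' : Continuous mm := mm_contDiff.continuous
theorem alp_cont' : Continuous alp := alp_contDiff.continuous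

theorem SC_compact : IsCompact SC := by
  have hT : IsCompact ((Icc (0:ℝ) (1/16) ×ˢ Icc (0:ℝ) (1/16) ×ˢ Icc (0:ℝ) (2 * Real.pi)) ∩
      {q : ℝ × ℝ × ℝ | bet q.1 + bet q.2.1 = 1}) := by
    refine IsCompact.inter_right (isCompact_Icc.prod (isCompact_Icc.prod isCompact_Icc)) ?_
    refine isClosed_eq ?_ continuous_const
    exact (bet_cont'.comp continuous_fst).add (bet_cont'.comp (continuous_fst.comp continuous_snd))
  let φ : ℝ × ℝ × ℝ → V := fun q =>
    ((q.2.1 * Real.cos q.2.2 - q.1 * Real.cos q.2.2) / 2,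
      (q.2.1 * Real.cos q.2.2 + q.1 * Real.cos q.2.2) / 2 + 1 / 4,
      q.1 * Real.sin q.2.2, -(q.2.1 * Real.sin q.2.2))
  have hφ : Continuous φ := by
    show Continuous fun q : ℝ × ℝ × ℝ =>
      (((q.2.1 * Real.cos q.2.2 - q.1 * Real.cos q.2.2) / 2,
      (q.2.1 * Real.cos q.2.2 + q.1 * Real.cos q.2.2) / 2 + 1 / 4,
      q.1 * Real.sin q.2.2, -(q.2.1 * Real.sin q.2.2)) : V)
    fun_prop
  have heq : SC = φ '' ((Icc (0:ℝ) (1/16) ×ˢ Icc (0:ℝ) (1/16) ×ˢ Icc (0:ℝ) (2 * Real.pi)) ∩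
      {q : ℝ × ℝ × ℝ | bet q.1 + bet q.2.1 = 1}) := by
    ext v
    constructor
    · rintro ⟨P, Q, t, hP0, hQ0, hP1, hQ1, hb, h1, h2, h3, h4⟩
      have hpi : (0:ℝ) < 2 * Real.pi := Real.two_pi_pos
      have hc : Real.cos (toIcoMod hpi 0 t) = Real.cos t := by
        rw [← self_sub_toIcoDiv_zsmul hpi 0 t]
        exact Real.cos_periodic.sub_zsmul_eq _
      have hs : Real.sin (toIcoMod hpi 0 t) = Real.sin t := by
        rw [← self_sub_toIcoDiv_zsmul hpi 0 t]
        exact Real.sin_periodic.sub_zsmul_eq _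
      have hmem := toIcoMod_mem_Ico' hpi t
      refine ⟨(P, Q, toIcoMod hpi 0 t), ⟨⟨⟨hP0, hP1⟩, ⟨hQ0, hQ1⟩, hmem.1, hmem.2.le⟩, hb⟩, ?_⟩
      show ((Q * Real.cos (toIcoMod hpi 0 t) - P * Real.cos (toIcoMod hpi 0 t)) / 2,
        (Q * Real.cos (toIcoMod hpi 0 t) + P * Real.cos (toIcoMod hpi 0 t)) / 2 + 1 / 4,
        P * Real.sin (toIcoMod hpi 0 t), -(Q * Real.sin (toIcoMod hpi 0 t))) = v
      rw [hc, hs]
      unfold X2 at h1
      unfold X1 at h3
      refine Prod.ext ?_ (Prod.ext ?_ (Prod.ext ?_ ?_))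
      · show (Q * Real.cos t - P * Real.cos t) / 2 = v.1
        linarith
      · show (Q * Real.cos t + P * Real.cos t) / 2 + 1 / 4 = v.2.1
        linarith
      · exact h2.symm
      · exact h4.symm
    · rintro ⟨⟨P, Q, t⟩, ⟨⟨⟨hP0, hP1⟩, ⟨hQ0, hQ1⟩, _⟩, hb⟩, rfl⟩
      refine ⟨P, Q, t, hP0, hQ0, hP1, hQ1, hb, ?_, rfl, ?_, rfl⟩
      · show ((Q * Real.cos t + P * Real.cos t) / 2 + 1 / 4) -
          ((Q * Real.cos t - P * Real.cos t) / 2) - 1 / 4 = P * Real.cos t
        ring
      · show ((Q * Real.cos t - P * Real.cos t) / 2) +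
          ((Q * Real.cos t + P * Real.cos t) / 2 + 1 / 4) - 1 / 4 = Q * Real.cos t
        ring
  rw [heq]
  exact hT.image hφ

theorem box_compact' : IsCompact (Icc (-1:ℝ) 1 ×ˢ Icc (-1:ℝ) 1 ×ˢ Icc (-1:ℝ) 1 ×ˢ Icc (-1:ℝ) 1 :
    Set V) :=
  isCompact_Icc.prod (isCompact_Icc.prod (isCompact_Icc.prod isCompact_Icc))

theorem kA_cont' : Continuous kA := by
  unfold kA
  exact (mm_cont'.comp (by fun_prop)).add (mm_cont'.comp (by fun_prop))
theorem kB_cont' : Continuous kB := by
  unfold kB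
  exact (mm_cont'.comp (by fun_prop)).add (mm_cont'.comp (by fun_prop))
theorem PsA_cont' : Continuous PsA := PsA_contDiff.continuous
theorem PsB_cont' : Continuous PsB := PsB_contDiff.continuous

theorem SA_closed' : IsClosed SA := by
  have h1 : IsClosed {v : V | v.2.2.2 = 0} := isClosed_eq (by fun_prop) continuous_const
  have h2 : IsClosed {v : V | kA v ≤ 9 / 16} := isClosed_le kA_cont' continuous_const
  have h3 : IsClosed {v : V | PsA v = 0} := isClosed_eq PsA_cont' continuous_const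
  exact h1.inter (h2.inter h3)

theorem SB_closed' : IsClosed SB := by
  have h1 : IsClosed {v : V | v.2.2.1 = 0} := isClosed_eq (by fun_prop) continuous_const
  have h2 : IsClosed {v : V | kB v ≤ 9 / 16} := isClosed_le kB_cont' continuous_const
  have h3 : IsClosed {v : V | PsB v = 0} := isClosed_eq PsB_cont' continuous_const
  exact h1.inter (h2.inter h3)

theorem SA_compact : IsCompact SA := by
  refine box_compact'.of_isClosed_subset SA_closed' ?_
  rintro ⟨x, y, p, r⟩ ⟨h1, h2, h3⟩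
  simp only [kA, PsA] at h1 h2 h3
  have a1 := abs_le_mm (x + 1 / 4)
  have a2 := abs_le_mm y
  have a3 := abs_nonneg (x + 1 / 4)
  have a4 := abs_nonneg y
  have b1 : |x + 1 / 4| ≤ 9 / 16 := by linarith
  have b2 : |y| ≤ 9 / 16 := by linarith
  have c1 := bet_nonneg (mm (x + 1 / 4) + mm y - 1 / 2)
  have b3 : |p| ≤ 1 := alp_le_one_iff.1 (by linarith)
  rw [abs_le] at b1 b2 b3
  refine ⟨⟨?_, ?_⟩, ⟨?_, ?_⟩, ⟨?_, ?_⟩, ?_, ?_⟩ <;> simp only [] <;> linarith

theorem SB_compact : IsCompact SB := by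
  refine box_compact'.of_isClosed_subset SB_closed' ?_
  rintro ⟨x, y, p, r⟩ ⟨h1, h2, h3⟩
  simp only [kB, PsB] at h1 h2 h3
  have a1 := abs_le_mm (x - 1 / 4)
  have a2 := abs_le_mm y
  have a3 := abs_nonneg (x - 1 / 4)
  have a4 := abs_nonneg y
  have b1 : |x - 1 / 4| ≤ 9 / 16 := by linarith
  have b2 : |y| ≤ 9 / 16 := by linarith
  have c1 := bet_nonneg (mm (x - 1 / 4) + mm y - 1 / 2)
  have b3 : |r| ≤ 1 := alp_le_one_iff.1 (by linarith)
  rw [abs_le] at b1 b2 b3
  refine ⟨⟨?_, ?_⟩, ⟨?_, ?_⟩, ⟨?_, ?_⟩, ?_, ?_⟩ <;> simp only [] <;> linarith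

theorem bet_le_one' {d : ℝ} (h : bet d ≤ 1) : 0 ≤ d := by
  by_contra hd
  push Not at hd
  have h1 := bet_strictAntiOn (show d ∈ Iic (1/16:ℝ) from by simp only [mem_Iic]; linarith)
    (show (0:ℝ) ∈ Iic (1/16:ℝ) from by simp only [mem_Iic]; norm_num) hd
  rw [bet_zero] at h1
  linarith

theorem M0_compact : IsCompact M0 := by
  have hc : IsClosed M0 := by
    have h1 : IsClosed {v : V | G1 v = 0} := isClosed_eq G1_contDiff.continuous continuous_const
    have h2 : IsClosed {v : V | G2 v = 0} := isClosed_eq G2_contDiff.continuous continuous_const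
    exact h1.inter h2
  refine box_compact'.of_isClosed_subset hc ?_
  rintro ⟨x, y, p, r⟩ ⟨h1, h2⟩
  simp only [G1, G2, Bf, Rf] at h1 h2
  have a1 := alp_nonneg x
  have a2 := alp_nonneg y
  have c1 := bet_nonneg (1 - p)
  have c2 := bet_nonneg (1 - r)
  have c3 := bet_nonneg (1 + p + r)
  have c4 := bet_nonneg (1 + p)
  have c5 := bet_nonneg (1 + r)
  have c6 := bet_nonneg (1 - p - r)
  have b1 : |x| ≤ 1 := alp_le_one_iff.1 (by linarith)
  have b2 : |y| ≤ 1 := alp_le_one_iff.1 (by linarith)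
  have d1 := bet_le_one' (d := 1 - p) (by linarith)
  have d2 := bet_le_one' (d := 1 - r) (by linarith)
  have d3 := bet_le_one' (d := 1 + p) (by linarith)
  have d4 := bet_le_one' (d := 1 + r) (by linarith)
  rw [abs_le] at b1 b2
  refine ⟨⟨?_, ?_⟩, ⟨?_, ?_⟩, ⟨?_, ?_⟩, ?_, ?_⟩ <;> simp only [] <;> linarith

theorem nz_cont' : Continuous nz := by
  unfold nz X2
  fun_prop

theorem nw_cont' : Continuous nw := by
  unfold nw X1
  fun_prop

theorem Cb_closed' : IsClosed Cb :=
  (isClosed_le nz_cont' continuous_const).inter (isClosed_le nw_cont' continuous_const)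

theorem Abig_closed' : IsClosed Abig := by
  have h1 : IsClosed {v : V | v.2.2.2 = 0} := isClosed_eq (by fun_prop) continuous_const
  have h2 : IsClosed {v : V | |v.2.2.1| ≤ 1} := isClosed_le (by fun_prop) continuous_const
  have h3 : IsClosed {v : V | kA v ≤ 9 / 16} := isClosed_le kA_cont' continuous_const
  exact h1.inter (h2.inter h3)

theorem Bbig_closed' : IsClosed Bbig := by
  have h1 : IsClosed {v : V | v.2.2.1 = 0} := isClosed_eq (by fun_prop) continuous_const
  have h2 : IsClosed {v : V | |v.2.2.2| ≤ 1} := isClosed_le (by fun_prop) continuous_const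
  have h3 : IsClosed {v : V | kB v ≤ 9 / 16} := isClosed_le kB_cont' continuous_const
  exact h1.inter (h2.inter h3)

theorem Wk_open (k : Kd) : IsOpen (Wk k) := by
  cases k with
  | Z =>
    have h1 : IsOpen {m : V × ℝ | m.1 ∉ Cb} := Cb_closed'.isOpen_compl.preimage continuous_fst
    have h2 : IsOpen {m : V × ℝ | m.1 ∉ Abig} := Abig_closed'.isOpen_compl.preimage continuous_fst
    have h3 : IsOpen {m : V × ℝ | m.1 ∉ Bbig} := Bbig_closed'.isOpen_compl.preimage continuous_fst
    exact h1.inter (h2.inter h3)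
  | A =>
    have h1 : IsOpen {m : V × ℝ | kA m.1 < 5 / 8} :=
      isOpen_lt (kA_cont'.comp continuous_fst) continuous_const
    have h2 : IsOpen {m : V × ℝ | |m.1.2.2.2| < 1 / 2} := isOpen_lt (by fun_prop) continuous_const
    have h3 : IsOpen {m : V × ℝ | m.1 ∉ Cb} := Cb_closed'.isOpen_compl.preimage continuous_fst
    have h4 : IsClosed {m : V × ℝ | m.2 = 0 ∧ m.1 ∈ SB} :=
      (isClosed_eq continuous_snd continuous_const).inter (SB_closed'.preimage continuous_fst)
    exact h1.inter (h2.inter (h3.inter h4.isOpen_compl))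
  | B =>
    have h1 : IsOpen {m : V × ℝ | kB m.1 < 5 / 8} :=
      isOpen_lt (kB_cont'.comp continuous_fst) continuous_const
    have h2 : IsOpen {m : V × ℝ | |m.1.2.2.1| < 1 / 2} := isOpen_lt (by fun_prop) continuous_const
    have h3 : IsOpen {m : V × ℝ | m.1 ∉ Cb} := Cb_closed'.isOpen_compl.preimage continuous_fst
    have h4 : IsClosed {m : V × ℝ | m.2 = lab m.1 ∧ m.1 ∈ SA} :=
      (isClosed_eq continuous_snd (lab_contDiff.continuous.comp continuous_fst)).inter
        (SA_closed'.preimage continuous_fst)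
    exact h1.inter (h2.inter (h3.inter h4.isOpen_compl))
  | C =>
    have h1 : IsOpen {m : V × ℝ | 0 < nz m.1} :=
      isOpen_lt continuous_const (nz_cont'.comp continuous_fst)
    have h2 : IsOpen {m : V × ℝ | nz m.1 < 1 / 8} :=
      isOpen_lt (nz_cont'.comp continuous_fst) continuous_const
    have h3 : IsOpen {m : V × ℝ | nw m.1 < 1 / 8} :=
      isOpen_lt (nw_cont'.comp continuous_fst) continuous_const
    exact h1.inter (h2.inter h3)
  | D =>
    have h1 : IsOpen {m : V × ℝ | 0 < nw m.1} :=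
      isOpen_lt continuous_const (nw_cont'.comp continuous_fst)
    have h2 : IsOpen {m : V × ℝ | nz m.1 < 1 / 8} :=
      isOpen_lt (nz_cont'.comp continuous_fst) continuous_const
    have h3 : IsOpen {m : V × ℝ | nw m.1 < 1 / 8} :=
      isOpen_lt (nw_cont'.comp continuous_fst) continuous_const
    exact h1.inter (h2.inter h3)


end Pool.Agent.Helper874.Odd
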