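import Pool.Agent.Helper874.Odd.Base
import Pool.Agent.Helper874.Odd.Jbet1
import Pool.Agent.Helper874.Odd.Jmm1
import Pool.Agent.Helper874.Odd.Jmm2
import Pool.Agent.Helper874.Odd.Jalp1
import Pool.Agent.Helper874.Odd.Jder1
import Pool.Agent.Helper874.Odd.Jopn
import Pool.Agent.Helper874.Odd.JdiscA
import Pool.Agent.Helper874.Odd.Jmod1

set_option autoImplicit false
open Set Filter Topology
open scoped Manifold ContDiff

namespace Pool.Agent.Helper874.Odd

theorem cpt_cont_kA : Continuous kA := by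
  have h := mm_contDiff.continuous
  unfold kA
  fun_prop

theorem cpt_cont_kB : Continuous kB := by
  have h := mm_contDiff.continuous
  unfold kB
  fun_prop

theorem cpt_cont_nz : Continuous nz := by
  unfold nz X2
  fun_prop

theorem cpt_cont_nw : Continuous nw := by
  unfold nw X1
  fun_prop

theorem cpt_M0 : IsCompact (M0 \ (DiA ∪ DiB)) := by
  have h1 : M0 \ (DiA ∪ DiB) = M0 ∩ ({v | 9 / 16 ≤ kA v} ∪ {v | 1 / 2 ≤ |v.2.2.2|}) ∩
      ({v | 9 / 16 ≤ kB v} ∪ {v | 1 / 2 ≤ |v.2.2.1|}) := by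
    ext v
    constructor
    · rintro ⟨hv, hn⟩
      have hnA : v ∉ DiA := fun h => hn (Or.inl h)
      have hnB : v ∉ DiB := fun h => hn (Or.inr h)
      refine ⟨⟨hv, ?_⟩, ?_⟩
      · by_contra hcon
        rw [mem_union, not_or] at hcon
        have hk : kA v < 9 / 16 := not_le.mp hcon.1
        have hr : |v.2.2.2| < 1 / 2 := not_le.mp hcon.2
        have h2 := abs_lt_of_kA (v := v) (by linarith)
        have h3 := (M0_flat h2.1 h2.2).mp hv
        apply hnA
        have h5 := abs_lt.mp hr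
        have h4 : v.2.2.2 = 0 ∧ |v.2.2.1| = 1 := by
          simp only [mem_insert_iff, mem_singleton_iff, Prod.ext_iff] at h3
          rcases h3 with h3 | h3 | h3 | h3 | h3 | h3
          · exact ⟨h3.2, by rw [h3.1]; norm_num⟩
          · rw [h3.2] at h5; norm_num at h5
          · rw [h3.2] at h5; norm_num at h5
          · exact ⟨h3.2, by rw [h3.1]; norm_num⟩
          · rw [h3.2] at h5; norm_num at h5
          · rw [h3.2] at h5; norm_num at h5
        exact ⟨h4.1, h4.2, hk⟩
      · by_contra hcon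
        rw [mem_union, not_or] at hcon
        have hk : kB v < 9 / 16 := not_le.mp hcon.1
        have hr : |v.2.2.1| < 1 / 2 := not_le.mp hcon.2
        have h2 := abs_lt_of_kB (v := v) (by linarith)
        have h3 := (M0_flat h2.1 h2.2).mp hv
        apply hnB
        have h5 := abs_lt.mp hr
        have h4 : v.2.2.1 = 0 ∧ |v.2.2.2| = 1 := by
          simp only [mem_insert_iff, mem_singleton_iff, Prod.ext_iff] at h3
          rcases h3 with h3 | h3 | h3 | h3 | h3 | h3
          · rw [h3.1] at h5; norm_num at h5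
          · exact ⟨h3.1, by rw [h3.2]; norm_num⟩
          · rw [h3.1] at h5; norm_num at h5
          · rw [h3.1] at h5; norm_num at h5
          · exact ⟨h3.1, by rw [h3.2]; norm_num⟩
          · rw [h3.1] at h5; norm_num at h5
        exact ⟨h4.1, h4.2, hk⟩
    · rintro ⟨⟨hv, hA⟩, hB⟩
      refine ⟨hv, ?_⟩
      rintro (h | h)
      · obtain ⟨h2, h3, h4⟩ := h
        rcases hA with hA | hA
        · exact absurd (show 9 / 16 ≤ kA v from hA) (not_le.mpr h4)
        · have h5 : 1 / 2 ≤ |v.2.2.2| := hA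
          rw [h2, abs_zero] at h5
          norm_num at h5
      · obtain ⟨h2, h3, h4⟩ := h
        rcases hB with hB | hB
        · exact absurd (show 9 / 16 ≤ kB v from hB) (not_le.mpr h4)
        · have h5 : 1 / 2 ≤ |v.2.2.1| := hB
          rw [h2, abs_zero] at h5
          norm_num at h5
  rw [h1]
  have hp : Continuous fun v : V => |v.2.2.1| := by fun_prop
  have hr : Continuous fun v : V => |v.2.2.2| := by fun_prop
  refine (M0_compact.inter_right ?_).inter_right ?_
  · exact (isClosed_le continuous_const cpt_cont_kA).union (isClosed_le continuous_const hr)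
  · exact (isClosed_le continuous_const cpt_cont_kB).union (isClosed_le continuous_const hp)

theorem cpt_near_closed : IsClosed ({v : V | 1 / 16 ≤ nz v} ∪ {v : V | 1 / 16 ≤ nw v}) :=
  (isClosed_le continuous_const cpt_cont_nz).union (isClosed_le continuous_const cpt_cont_nw)

theorem cpt_SA : IsCompact (SA \ DA) := by
  have h1 : SA \ DA = SA ∩ ({v : V | 1 / 16 ≤ nz v} ∪ {v : V | 1 / 16 ≤ nw v}) := by
    ext v
    constructor
    · rintro ⟨hv, hn⟩
      refine ⟨hv, ?_⟩
      by_contra hcon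
      rw [mem_union, not_or] at hcon
      have hz : nz v < 1 / 16 := not_le.mp hcon.1
      have hw : nw v < 1 / 16 := not_le.mp hcon.2
      have h2 := near_facts (v := v) (by linarith) (by linarith)
      obtain ⟨-, -, -, -, -, -, -, -, -, -, -, -, -, h3, -⟩ := h2
      have h4 := h3.mp hv
      exact hn ⟨h4.1, h4.2, hz⟩
    · rintro ⟨hv, hn⟩
      refine ⟨hv, fun hd => ?_⟩
      have h2 := (DA_facts hd).2.2
      rcases hn with h3 | h3
      · have h4 : 1 / 16 ≤ nz v := h3
        linarith [hd.2.2]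
      · have h4 : 1 / 16 ≤ nw v := h3
        rw [h2] at h4
        norm_num at h4
  rw [h1]
  exact SA_compact.inter_right cpt_near_closed

theorem cpt_SB : IsCompact (SB \ DB) := by
  have h1 : SB \ DB = SB ∩ ({v : V | 1 / 16 ≤ nz v} ∪ {v : V | 1 / 16 ≤ nw v}) := by
    ext v
    constructor
    · rintro ⟨hv, hn⟩
      refine ⟨hv, ?_⟩
      by_contra hcon
      rw [mem_union, not_or] at hcon
      have hz : nz v < 1 / 16 := not_le.mp hcon.1
      have hw : nw v < 1 / 16 := not_le.mp hcon.2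
      have h2 := near_facts (v := v) (by linarith) (by linarith)
      obtain ⟨-, -, -, -, -, -, -, -, -, -, -, -, -, -, h3⟩ := h2
      have h4 := h3.mp hv
      exact hn ⟨h4.1, h4.2, hw⟩
    · rintro ⟨hv, hn⟩
      refine ⟨hv, fun hd => ?_⟩
      have h2 := (DB_facts hd).2.2
      rcases hn with h3 | h3
      · have h4 : 1 / 16 ≤ nz v := h3
        rw [h2] at h4
        norm_num at h4
      · have h4 : 1 / 16 ≤ nw v := h3
        linarith [hd.2.2]
  rw [h1]
  exact SB_compact.inter_right cpt_near_closed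

theorem MM_compact : IsCompact MM := by
  have h0 : Continuous fun v : V => ((v, (0:ℝ)) : V × ℝ) := by fun_prop
  have hl : Continuous fun v : V => ((v, lab v) : V × ℝ) :=
    continuous_id.prodMk lab_contDiff.continuous
  have h1 : MM = (fun v : V => ((v, (0:ℝ)) : V × ℝ)) '' (M0 \ (DiA ∪ DiB)) ∪
      (fun v : V => ((v, (0:ℝ)) : V × ℝ)) '' (SB \ DB) ∪
      (fun v : V => ((v, (0:ℝ)) : V × ℝ)) '' SC ∪
      (fun v : V => ((v, lab v) : V × ℝ)) '' (SA \ DA) := by
    ext ⟨v, t⟩
    constructor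
    · rintro (⟨ht, h | h | h⟩ | ⟨ht, h⟩)
      · have ht' : t = 0 := ht
        exact Or.inl (Or.inl (Or.inl ⟨v, h, by rw [ht']⟩))
      · have ht' : t = 0 := ht
        exact Or.inl (Or.inl (Or.inr ⟨v, h, by rw [ht']⟩))
      · have ht' : t = 0 := ht
        exact Or.inl (Or.inr ⟨v, h, by rw [ht']⟩)
      · have ht' : t = lab v := ht
        exact Or.inr ⟨v, h, by rw [ht']⟩
    · rintro (((⟨w, hw, he⟩ | ⟨w, hw, he⟩) | ⟨w, hw, he⟩) | ⟨w, hw, he⟩)
      · obtain ⟨rfl, rfl⟩ := Prod.ext_iff.mp he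
        exact Or.inl ⟨rfl, Or.inl hw⟩
      · obtain ⟨rfl, rfl⟩ := Prod.ext_iff.mp he
        exact Or.inl ⟨rfl, Or.inr (Or.inl hw)⟩
      · obtain ⟨rfl, rfl⟩ := Prod.ext_iff.mp he
        exact Or.inl ⟨rfl, Or.inr (Or.inr hw)⟩
      · obtain ⟨rfl, rfl⟩ := Prod.ext_iff.mp he
        exact Or.inr ⟨rfl, hw⟩
  rw [h1]
  exact (((cpt_M0.image h0).union (cpt_SB.image h0)).union (SC_compact.image h0)).union
    (cpt_SA.image hl)

theorem cpt_corner (x y : ℝ) (hx : |x| = 1) (hy : |y| = 1) :
    (((x, y, 0, 0) : V), (0:ℝ)) ∈ MM := by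
  refine Or.inl ⟨rfl, Or.inl ⟨⟨?_, ?_⟩, ?_⟩⟩
  · show alp x + Bf 0 0 - 1 = 0
    have h1 : Bf 0 0 = 0 := by
      unfold Bf
      rw [bet_eq_zero (by norm_num), bet_eq_zero (by norm_num)]
      norm_num
    rw [alp_eq_one_iff.mpr hx, h1]
    norm_num
  · show alp y + Rf 0 0 - 1 = 0
    have h1 : Rf 0 0 = 0 := by
      unfold Rf
      rw [bet_eq_zero (by norm_num), bet_eq_zero (by norm_num)]
      norm_num
    rw [alp_eq_one_iff.mpr hy, h1]
    norm_num
  · rintro (⟨-, h, -⟩ | ⟨-, h, -⟩)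
    · have h' : |(0:ℝ)| = 1 := h
      norm_num at h'
    · have h' : |(0:ℝ)| = 1 := h
      norm_num at h'

theorem cpt_vertex (p r : ℝ) (hB : Bf p r = 1) (hR : Rf p r = 1) :
    (((15 / 16, 15 / 16, p, r) : V), (0:ℝ)) ∈ MM := by
  have ha : alp (15 / 16) = 0 := alp_eq_zero_iff.mpr (by rw [abs_of_pos] <;> norm_num)
  refine Or.inl ⟨rfl, Or.inl ⟨⟨?_, ?_⟩, ?_⟩⟩
  · show alp (15 / 16) + Bf p r - 1 = 0
    rw [ha, hB]; norm_num
  · show alp (15 / 16) + Rf p r - 1 = 0
    rw [ha, hR]; norm_num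
  · rintro (⟨-, -, h⟩ | ⟨-, -, h⟩)
    · have h' : mm (15 / 16 + 1 / 4) + mm (15 / 16) < 9 / 16 := h
      have h1 := abs_le_mm (15 / 16 + 1 / 4)
      have h2 := abs_le_mm (15 / 16)
      have h3 := le_abs_self (15 / 16 + 1 / 4 : ℝ)
      have h4 := le_abs_self (15 / 16 : ℝ)
      linarith
    · have h' : mm (15 / 16 - 1 / 4) + mm (15 / 16) < 9 / 16 := h
      have h1 := abs_le_mm (15 / 16 - 1 / 4)
      have h2 := abs_le_mm (15 / 16)
      have h3 := le_abs_self (15 / 16 - 1 / 4 : ℝ)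
      have h4 := le_abs_self (15 / 16 : ℝ)
      linarith

theorem MM_nonempty : MM.Nonempty := ⟨_, cpt_corner 1 1 (by norm_num) (by norm_num)⟩

/-- the image is not contained in a hyperplane -/
theorem MM_substantial (l : V) (c : ℝ) (h : ∀ m ∈ MM, hh l m.1 = c) : l = 0 := by
  have h1 := h _ (cpt_corner 1 1 (by norm_num) (by norm_num))
  have h2 := h _ (cpt_corner 1 (-1) (by norm_num) (by norm_num))
  have h3 := h _ (cpt_corner (-1) 1 (by norm_num) (by norm_num))
  have h4 := h _ (cpt_corner (-1) (-1) (by norm_num) (by norm_num))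
  have h5 := h _ (cpt_vertex 1 0
    (by unfold Bf
        rw [show (1:ℝ) - 1 = 0 by norm_num, bet_zero, bet_eq_zero (d := 1 - 0) (by norm_num),
          bet_eq_zero (d := 1 + 1 + 0) (by norm_num)]
        norm_num)
    (by unfold Rf
        rw [show (1:ℝ) - 1 - 0 = 0 by norm_num, bet_zero, bet_eq_zero (d := 1 + 1) (by norm_num),
          bet_eq_zero (d := 1 + 0) (by norm_num)]
        norm_num))
  have h6 := h _ (cpt_vertex 0 1
    (by unfold Bf
        rw [show (1:ℝ) - 1 = 0 by norm_num, bet_zero, bet_eq_zero (d := 1 - 0) (by norm_num),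
          bet_eq_zero (d := 1 + 0 + 1) (by norm_num)]
        norm_num)
    (by unfold Rf
        rw [show (1:ℝ) - 0 - 1 = 0 by norm_num, bet_zero, bet_eq_zero (d := 1 + 1) (by norm_num),
          bet_eq_zero (d := 1 + 0) (by norm_num)]
        norm_num))
  obtain ⟨l1, l2, l3, l4⟩ := l
  simp only [hh] at h1 h2 h3 h4 h5 h6
  have e1 : l1 = 0 := by linarith
  have e2 : l2 = 0 := by linarith
  have e3 : l3 = 0 := by linarith
  have e4 : l4 = 0 := by linarith
  rw [e1, e2, e3, e4]
  rfl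


end Pool.Agent.Helper874.Odd
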