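import Pool.Agent.Helper874.Odd.Base
import Pool.Agent.Helper874.Odd.Jbet1
import Pool.Agent.Helper874.Odd.Jmm1
import Pool.Agent.Helper874.Odd.Jmm2
import Pool.Agent.Helper874.Odd.Jalp1
import Pool.Agent.Helper874.Odd.JdiscA
import Pool.Agent.Helper874.Odd.Jmod1

set_option autoImplicit false
open Set Filter Topology
open scoped Manifold ContDiff

namespace Pool.Agent.Helper874.Odd

theorem kA_pt_aux : kA ((0, -(1 / 4), 0, 0) : V) = 1 / 2 := by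
  have h1 : mm ((0 : ℝ) + 1 / 4) = 1 / 4 := by
    rw [mm_eq_abs (by rw [zero_add, abs_of_pos (by norm_num)]; norm_num), zero_add,
      abs_of_pos (by norm_num)]
  have h2 : mm (-(1 / 4 : ℝ)) = 1 / 4 := by
    rw [mm_neg, mm_eq_abs (by rw [abs_of_pos (by norm_num)]; norm_num), abs_of_pos (by norm_num)]
  show mm ((0 : ℝ) + 1 / 4) + mm (-(1 / 4 : ℝ)) = 1 / 2
  rw [h1, h2]; norm_num

theorem kB_pt_aux : kB ((0, -(1 / 4), 0, 0) : V) = 1 / 2 := by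
  have h2 : mm (-(1 / 4 : ℝ)) = 1 / 4 := by
    rw [mm_neg, mm_eq_abs (by rw [abs_of_pos (by norm_num)]; norm_num), abs_of_pos (by norm_num)]
  show mm ((0 : ℝ) - 1 / 4) + mm (-(1 / 4 : ℝ)) = 1 / 2
  rw [zero_sub, h2]; norm_num

theorem alp_zero_aux : alp 0 = 0 := alp_eq_zero_iff.mpr (by rw [abs_zero]; norm_num)

theorem SA_pt_aux : ((0, -(1 / 4), 0, 0) : V) ∈ SA := by
  refine ⟨rfl, ?_, ?_⟩
  · rw [kA_pt_aux]; norm_num
  · show alp (0 : ℝ) + bet (kA ((0, -(1 / 4), 0, 0) : V) - 1 / 2) - 1 = 0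
    rw [kA_pt_aux, alp_zero_aux, sub_self, bet_zero]; norm_num

theorem SB_pt_aux : ((0, -(1 / 4), 0, 0) : V) ∈ SB := by
  refine ⟨rfl, ?_, ?_⟩
  · rw [kB_pt_aux]; norm_num
  · show alp (0 : ℝ) + bet (kB ((0, -(1 / 4), 0, 0) : V) - 1 / 2) - 1 = 0
    rw [kB_pt_aux, alp_zero_aux, sub_self, bet_zero]; norm_num

theorem X1_pt_aux : X1 ((0, -(1 / 4), 0, 0) : V) = -(1 / 2) := by
  show (0 : ℝ) + (-(1 / 4)) - 1 / 4 = -(1 / 2)
  norm_num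

theorem X2_pt_aux : X2 ((0, -(1 / 4), 0, 0) : V) = -(1 / 2) := by
  show (-(1 / 4) : ℝ) - 0 - 1 / 4 = -(1 / 2)
  norm_num

theorem nDA_pt_aux : ((0, -(1 / 4), 0, 0) : V) ∉ DA := by
  rintro ⟨h, -, -⟩
  rw [X1_pt_aux] at h
  norm_num at h

theorem nDB_pt_aux : ((0, -(1 / 4), 0, 0) : V) ∉ DB := by
  rintro ⟨h, -, -⟩
  rw [X2_pt_aux] at h
  norm_num at h

theorem nCb_pt_aux : ((0, -(1 / 4), 0, 0) : V) ∉ Cb := by
  rintro ⟨h, -⟩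
  have h2 : nz ((0, -(1 / 4), 0, 0) : V) = 1 / 2 := by
    show Real.sqrt (X2 ((0, -(1 / 4), 0, 0) : V) ^ 2 + (0 : ℝ) ^ 2) = 1 / 2
    rw [X2_pt_aux, show ((-(1 / 2) : ℝ)) ^ 2 + (0 : ℝ) ^ 2 = (1 / 2) ^ 2 by norm_num,
      Real.sqrt_sq (by norm_num)]
  rw [h2] at h
  norm_num at h

theorem double_aux {v : V} (h : v ∈ M0 \ (DiA ∪ DiB) ∨ v ∈ SB \ DB ∨ v ∈ SC) (hA : v ∈ SA \ DA)
    (hl : lab v ≠ 0) : v = (0, -(1 / 4), 0, 0) := by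
  rcases h with h | h | h
  · exfalso
    have h1 := ((SA_facts hA.1).2.2 h.1).2
    apply hl
    have h2 : v.2.2.1 ^ 2 = 1 := by rw [← sq_abs, h1]; norm_num
    unfold lab
    rw [h2, expNegInvGlue.zero_of_nonpos (x := 1 / 2 - 1) (by norm_num), mul_zero]
  · rcases SA_SB hA.1 h.1 with h1 | h1
    · exfalso
      apply hl
      rw [h1]
      show expNegInvGlue (-(1 / 4 : ℝ)) * expNegInvGlue (1 / 2 - (0 : ℝ) ^ 2) = 0
      rw [expNegInvGlue.zero_of_nonpos (x := -(1 / 4 : ℝ)) (by norm_num), zero_mul]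
    · exact h1
  · exfalso
    have h1 := (SC_facts h).1
    have h2 : nz v < 1 / 8 := lt_of_le_of_lt h1.1 (by norm_num)
    have h3 : nw v < 1 / 8 := lt_of_le_of_lt h1.2 (by norm_num)
    obtain ⟨-, -, -, -, -, -, -, -, -, -, -, hl0, -⟩ := near_facts h2 h3
    exact hl hl0

/-- the point of self-intersection -/
theorem MM_double {v : V} {s t : ℝ} (hs : (v, s) ∈ MM) (ht : (v, t) ∈ MM) (hst : s ≠ t) :
    v = (0, -(1 / 4), 0, 0) ∧ ((s = 0 ∧ t = lab v) ∨ (s = lab v ∧ t = 0)) := by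
  rcases hs with ⟨hs0, hsv⟩ | ⟨hs0, hsv⟩ <;> rcases ht with ⟨ht0, htv⟩ | ⟨ht0, htv⟩
  · exact absurd (hs0.trans ht0.symm) hst
  · have hs0' : s = 0 := hs0
    have ht0' : t = lab v := ht0
    exact ⟨double_aux hsv htv (fun h => hst (by rw [hs0', ht0', h])), Or.inl ⟨hs0', ht0'⟩⟩
  · have hs0' : s = lab v := hs0
    have ht0' : t = 0 := ht0
    exact ⟨double_aux htv hsv (fun h => hst (by rw [hs0', ht0', h])), Or.inr ⟨hs0', ht0'⟩⟩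
  · exact absurd (hs0.trans ht0.symm) hst
theorem MM_pt0 : (((0, -(1 / 4), 0, 0), 0) : V × ℝ) ∈ MM :=
  Or.inl ⟨rfl, Or.inr (Or.inl ⟨SB_pt_aux, nDB_pt_aux⟩)⟩
theorem MM_pt1 : (((0, -(1 / 4), 0, 0), lab (0, -(1 / 4), 0, 0)) : V × ℝ) ∈ MM :=
  Or.inr ⟨rfl, SA_pt_aux, nDA_pt_aux⟩
theorem pt0_B : (((0, -(1 / 4), 0, 0), 0) : V × ℝ) ∈ Wk .B := by
  refine ⟨?_, ?_, nCb_pt_aux, ?_⟩
  · show kB ((0, -(1 / 4), 0, 0) : V) < 5 / 8
    rw [kB_pt_aux]; norm_num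
  · show |(0 : ℝ)| < 1 / 2
    rw [abs_zero]; norm_num
  · rintro ⟨h, -⟩
    exact lab_pt h.symm
theorem pt1_A : (((0, -(1 / 4), 0, 0), lab (0, -(1 / 4), 0, 0)) : V × ℝ) ∈ Wk .A := by
  refine ⟨?_, ?_, nCb_pt_aux, ?_⟩
  · show kA ((0, -(1 / 4), 0, 0) : V) < 5 / 8
    rw [kA_pt_aux]; norm_num
  · show |(0 : ℝ)| < 1 / 2
    rw [abs_zero]; norm_num
  · rintro ⟨h, -⟩
    exact lab_pt h


end Pool.Agent.Helper874.Odd
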