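import Pool.Agent.Helper874.Odd.Base
import Pool.Agent.Helper874.Odd.Jbet1
import Pool.Agent.Helper874.Odd.Jbet2

set_option autoImplicit false
open Set Filter Topology
open scoped Manifold ContDiff

namespace Pool.Agent.Helper874.Odd

theorem qf_aux {P : ℝ} (hP : 0 < P) : bet P < 1 := by
  rcases le_or_gt P (1 / 16) with h | h
  · have := bet_strictAntiOn (show (0 : ℝ) ∈ Iic (1 / 16 : ℝ) by simp) (show P ∈ Iic (1 / 16 : ℝ) from h) hP
    rwa [bet_zero] at this
  · rw [bet_eq_zero h.le]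
    exact one_pos

theorem qf_aux2 {P : ℝ} (hP : 0 < P) : (16 : ℝ) ≤ 16 - Real.log (1 - bet P) := by
  have h1 := qf_aux hP
  have h2 := bet_nonneg P
  have h3 := Real.log_nonpos (show 0 ≤ 1 - bet P by linarith) (by linarith)
  linarith

theorem qf_contDiffAt {P : ℝ} (hP : 0 < P) : ContDiffAt ℝ ∞ qf P := by
  have h1 := qf_aux hP
  have h2 := qf_aux2 hP
  unfold qf
  have hb : ContDiffAt ℝ ∞ bet P := bet_contDiff.contDiffAt
  have hl : ContDiffAt ℝ ∞ (fun P => Real.log (1 - bet P)) P :=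
    (contDiffAt_const.sub hb).log (by linarith)
  exact contDiffAt_const.sub (contDiffAt_const.div (contDiffAt_const.sub hl) (by linarith))
theorem bet_qf {P : ℝ} (hP : 0 < P) : bet (qf P) = 1 - bet P := by
  have h1 := qf_aux hP
  have h2 := qf_aux2 hP
  have e : (1 / 16 : ℝ) - qf P = 1 / (16 - Real.log (1 - bet P)) := by unfold qf; ring
  have hpos : 0 < 1 / (16 - Real.log (1 - bet P)) := by
    apply div_pos one_pos; linarith
  conv_lhs => unfold bet
  rw [e]
  unfold expNegInvGlue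
  rw [if_neg (not_le.2 hpos), ← Real.exp_add]
  have e2 : -(1 / (16 - Real.log (1 - bet P)))⁻¹ + 16 = Real.log (1 - bet P) := by
    rw [one_div, inv_inv]; ring
  rw [e2, Real.exp_log (by linarith)]
theorem qf_nonneg {P : ℝ} (hP : 0 < P) : 0 ≤ qf P := by
  have h2 := qf_aux2 hP
  unfold qf
  have : 1 / (16 - Real.log (1 - bet P)) ≤ 1 / 16 := by
    apply one_div_le_one_div_of_le (by norm_num) h2
  linarith
theorem qf_lt {P : ℝ} (hP : 0 < P) : qf P < 1 / 16 := by
  have h2 := qf_aux2 hP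
  unfold qf
  have : 0 < 1 / (16 - Real.log (1 - bet P)) := by
    apply div_pos one_pos; linarith
  linarith
theorem qf_eq_zero {P : ℝ} (hP : 1 / 16 ≤ P) : qf P = 0 := by
  unfold qf
  rw [bet_eq_zero hP]
  simp
theorem qf_pos {P : ℝ} (hP : 0 < P) (hP' : P < 1 / 16) : 0 < qf P := by
  have h1 := qf_aux hP
  have h2 := bet_pos hP'
  have h3 := Real.log_neg (show 0 < 1 - bet P by linarith) (by linarith)
  unfold qf
  have : 1 / (16 - Real.log (1 - bet P)) < 1 / 16 := by
    apply one_div_lt_one_div_of_lt (by norm_num)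
    linarith
  linarith
theorem qf_unique {P Q : ℝ} (hP : 0 < P) (hQ : 0 ≤ Q) (hQ' : Q ≤ 1 / 16) (h : bet P + bet Q = 1) : Q = qf P := by
  apply bet_strictAntiOn.injOn (show Q ∈ Iic (1 / 16 : ℝ) from hQ')
    (show qf P ∈ Iic (1 / 16 : ℝ) from (qf_lt hP).le)
  rw [bet_qf hP]
  linarith


end Pool.Agent.Helper874.Odd
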