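import Pool.Agent.Helper874.Odd.Base
import Pool.Agent.Helper874.Odd.Jbet1
import Pool.Agent.Helper874.Odd.Jbet2
import Pool.Agent.Helper874.Odd.Jqf1

set_option autoImplicit false
open Set Filter Topology
open scoped Manifold ContDiff

namespace Pool.Agent.Helper874.Odd

theorem qf_qf {P : ℝ} (hP : 0 < P) (hP' : P < 1 / 16) : qf (qf P) = P := by
  have h1 := qf_pos hP hP'
  have h2 := bet_qf hP
  exact (qf_unique h1 hP.le hP'.le (by rw [h2]; ring)).symm

theorem qf_deriv_neg {P : ℝ} (hP : 0 < P) (hP' : P < 1 / 16) : deriv qf P < 0 := by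
  have hq : DifferentiableAt ℝ qf P := (qf_contDiffAt hP).differentiableAt (by simp)
  have hb : ∀ x, DifferentiableAt ℝ bet x := fun x =>
    (bet_contDiff.differentiable (by simp)).differentiableAt
  have hev : (bet ∘ qf) =ᶠ[𝓝 P] fun x => 1 - bet x := by
    filter_upwards [lt_mem_nhds hP] with x hx
    exact bet_qf hx
  have h1 := hev.deriv_eq
  rw [deriv_comp P (hb (qf P)) hq, deriv_const_sub] at h1
  have h2 := bet_deriv_neg hP'
  have h3 := bet_deriv_neg (qf_lt hP)
  by_contra hcon
  push Not at hcon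
  nlinarith

theorem qf_deriv_mul {P : ℝ} (hP : 0 < P) (hP' : P < 1 / 16) : deriv qf (qf P) * deriv qf P = 1 := by
  have hq : DifferentiableAt ℝ qf P := (qf_contDiffAt hP).differentiableAt (by simp)
  have hq' : DifferentiableAt ℝ qf (qf P) :=
    (qf_contDiffAt (qf_pos hP hP')).differentiableAt (by simp)
  have hev : (qf ∘ qf) =ᶠ[𝓝 P] id := by
    filter_upwards [lt_mem_nhds hP, gt_mem_nhds hP'] with x hx hx'
    exact qf_qf hx hx'
  have h1 := hev.deriv_eq
  rw [deriv_comp P hq' hq, deriv_id] at h1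
  exact h1


end Pool.Agent.Helper874.Odd
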