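import Pool.Agent.Helper874.Odd.Base
import Pool.Agent.Helper874.Odd.Jbet1
import Pool.Agent.Helper874.Odd.Jbet2
import Pool.Agent.Helper874.Odd.Jqf1
import Pool.Agent.Helper874.Odd.Jqf2

set_option autoImplicit false
open Set Filter Topology
open scoped Manifold ContDiff

namespace Pool.Agent.Helper874.Odd

theorem dC_nk_n {f g : V → ℝ} {f' g' : V →L[ℝ] ℝ} {v : V} {P t : ℝ} (hf : HasFDerivAt f f' v)
    (hg : HasFDerivAt g g' v) (hP : 0 < P) (h1 : f v = P * Real.cos t) (h2 : g v = P * Real.sin t) :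
    Real.sqrt (f v ^ 2 + g v ^ 2) = P ∧
    HasFDerivAt (fun v => Real.sqrt (f v ^ 2 + g v ^ 2)) (Real.cos t • f' + Real.sin t • g') v := by
  have hsq : f v ^ 2 + g v ^ 2 = P ^ 2 := by
    rw [h1, h2]
    have := Real.cos_sq_add_sin_sq t
    linear_combination P ^ 2 * this
  have hsqrt : Real.sqrt (f v ^ 2 + g v ^ 2) = P := by rw [hsq, Real.sqrt_sq hP.le]
  refine ⟨hsqrt, ?_⟩
  have hne : f v ^ 2 + g v ^ 2 ≠ 0 := by rw [hsq]; positivity
  have h := ((hf.pow 2).add (hg.pow 2)).sqrt hne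
  refine h.congr_fderiv ?_
  refine ContinuousLinearMap.ext fun a => ?_
  simp only [ContinuousLinearMap.add_apply, ContinuousLinearMap.smul_apply, smul_eq_mul, Pi.add_apply,
    Pi.pow_apply]
  rw [hsqrt, h1, h2]
  field_simp
  norm_num
  ring

theorem dC_nk_q {f g : V → ℝ} {f' g' : V →L[ℝ] ℝ} {v : V} {P t : ℝ} (hf : HasFDerivAt f f' v)
    (hg : HasFDerivAt g g' v) (hP : 0 < P) (h1 : f v = P * Real.cos t) (h2 : g v = P * Real.sin t) :
    HasFDerivAt (fun v => qf (Real.sqrt (f v ^ 2 + g v ^ 2)) / Real.sqrt (f v ^ 2 + g v ^ 2))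
      ((deriv qf P / P - qf P / P ^ 2) • (Real.cos t • f' + Real.sin t • g')) v := by
  obtain ⟨hn, hd⟩ := dC_nk_n hf hg hP h1 h2
  have hq : HasDerivAt qf (deriv qf P) P :=
    ((qf_contDiffAt hP).differentiableAt (by simp)).hasDerivAt
  have hi : HasDerivAt (fun x : ℝ => qf x / x) ((deriv qf P * P - qf P * 1) / P ^ 2) P :=
    hq.div (hasDerivAt_id P) hP.ne'
  have hc := HasDerivAt.comp_hasFDerivAt_of_eq v hi hd hn.symm
  refine hc.congr_fderiv ?_
  congr 1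
  field_simp

theorem dC_nk_g {f g : V → ℝ} {f' g' : V →L[ℝ] ℝ} {v : V} {P t : ℝ} (hf : HasFDerivAt f f' v)
    (hg : HasFDerivAt g g' v) (hP : 0 < P) (h1 : f v = P * Real.cos t) (h2 : g v = P * Real.sin t)
    {k : V → ℝ} {k' : V →L[ℝ] ℝ} (hk : HasFDerivAt k k' v) :
    HasFDerivAt (fun v => qf (Real.sqrt (f v ^ 2 + g v ^ 2)) * k v / Real.sqrt (f v ^ 2 + g v ^ 2))
      ((k v * (deriv qf P / P - qf P / P ^ 2)) • (Real.cos t • f' + Real.sin t • g') + (qf P / P) • k') v := by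
  obtain ⟨hn, hd⟩ := dC_nk_n hf hg hP h1 h2
  have h := (dC_nk_q hf hg hP h1 h2).mul hk
  have he : (fun v => qf (Real.sqrt (f v ^ 2 + g v ^ 2)) * k v / Real.sqrt (f v ^ 2 + g v ^ 2)) =
      (fun v => qf (Real.sqrt (f v ^ 2 + g v ^ 2)) / Real.sqrt (f v ^ 2 + g v ^ 2)) * k := by
    funext w
    simp only [Pi.mul_apply]
    ring
  rw [he]
  refine h.congr_fderiv ?_
  refine ContinuousLinearMap.ext fun a => ?_
  simp only [ContinuousLinearMap.add_apply, ContinuousLinearMap.smul_apply, smul_eq_mul]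
  rw [hn]
  ring

/-- coordinates as continuous linear maps -/
noncomputable def dCcx : V →L[ℝ] ℝ := ContinuousLinearMap.fst ℝ ℝ (ℝ × ℝ × ℝ)
noncomputable def dCcy : V →L[ℝ] ℝ := (ContinuousLinearMap.fst ℝ ℝ (ℝ × ℝ)).comp (ContinuousLinearMap.snd ℝ ℝ (ℝ × ℝ × ℝ))
noncomputable def dCcp : V →L[ℝ] ℝ := (ContinuousLinearMap.fst ℝ ℝ ℝ).comp
  ((ContinuousLinearMap.snd ℝ ℝ (ℝ × ℝ)).comp (ContinuousLinearMap.snd ℝ ℝ (ℝ × ℝ × ℝ)))
noncomputable def dCcr : V →L[ℝ] ℝ := (ContinuousLinearMap.snd ℝ ℝ ℝ).comp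
  ((ContinuousLinearMap.snd ℝ ℝ (ℝ × ℝ)).comp (ContinuousLinearMap.snd ℝ ℝ (ℝ × ℝ × ℝ)))

theorem dC_hd_X1 (v : V) : HasFDerivAt X1 (dCcx + dCcy) v := by
  have h := ((dCcx + dCcy).hasFDerivAt (x := v)).sub_const (1 / 4 : ℝ)
  exact h
theorem dC_hd_X2 (v : V) : HasFDerivAt X2 (dCcy - dCcx) v := by
  have h := ((dCcy - dCcx).hasFDerivAt (x := v)).sub_const (1 / 4 : ℝ)
  exact h
theorem dC_hd_p (v : V) : HasFDerivAt (fun v : V => v.2.2.1) dCcp v := dCcp.hasFDerivAt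
theorem dC_hd_r (v : V) : HasFDerivAt (fun v : V => v.2.2.2) dCcr v := dCcr.hasFDerivAt

theorem dC_cd_X1 (v : V) : ContDiffAt ℝ ∞ X1 v := by
  unfold X1; fun_prop
theorem dC_cd_X2 (v : V) : ContDiffAt ℝ ∞ X2 v := by
  unfold X2; fun_prop
theorem dC_cd_p (v : V) : ContDiffAt ℝ ∞ (fun v : V => v.2.2.1) v := by fun_prop
theorem dC_cd_r (v : V) : ContDiffAt ℝ ∞ (fun v : V => v.2.2.2) v := by fun_prop

theorem dC_cd_nz {v : V} (h : 0 < nz v) : ContDiffAt ℝ ∞ nz v := by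
  have hne : X2 v ^ 2 + v.2.2.1 ^ 2 ≠ 0 := by
    intro h0
    unfold nz at h
    rw [h0, Real.sqrt_zero] at h
    exact lt_irrefl _ h
  exact (((dC_cd_X2 v).pow 2).add ((dC_cd_p v).pow 2)).sqrt hne

theorem dC_cd_nw {v : V} (h : 0 < nw v) : ContDiffAt ℝ ∞ nw v := by
  have hne : X1 v ^ 2 + v.2.2.2 ^ 2 ≠ 0 := by
    intro h0
    unfold nw at h
    rw [h0, Real.sqrt_zero] at h
    exact lt_irrefl _ h
  exact (((dC_cd_X1 v).pow 2).add ((dC_cd_r v).pow 2)).sqrt hne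

/-- smoothness of the neck models -/
theorem FC_contDiffAt {v : V} (h : 0 < nz v) : ContDiffAt ℝ ∞ (F1 .C) v ∧ ContDiffAt ℝ ∞ (F2 .C) v := by
  have hn := dC_cd_nz h
  have hq : ContDiffAt ℝ ∞ (fun v => qf (nz v)) v := (qf_contDiffAt h).comp v hn
  constructor
  · exact (dC_cd_r v).add ((hq.mul (dC_cd_p v)).div hn h.ne')
  · exact (dC_cd_X1 v).sub ((hq.mul (dC_cd_X2 v)).div hn h.ne')
theorem FD_contDiffAt {v : V} (h : 0 < nw v) : ContDiffAt ℝ ∞ (F1 .D) v ∧ ContDiffAt ℝ ∞ (F2 .D) v := by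
  have hn := dC_cd_nw h
  have hq : ContDiffAt ℝ ∞ (fun v => qf (nw v)) v := (qf_contDiffAt h).comp v hn
  constructor
  · exact (dC_cd_p v).add ((hq.mul (dC_cd_r v)).div hn h.ne')
  · exact (dC_cd_X2 v).sub ((hq.mul (dC_cd_X1 v)).div hn h.ne')
/-- derivatives of the neck models in polar coordinates -/
theorem fderiv_C {v : V} {P t : ℝ} (hP : 0 < P) (h2 : X2 v = P * Real.cos t) (hp : v.2.2.1 = P * Real.sin t)
    (a : V) :
    fderiv ℝ (F1 .C) v a = a.2.2.2 + deriv qf P * Real.sin t * (Real.cos t * (a.2.1 - a.1) + Real.sin t * a.2.2.1)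
      + qf P / P * Real.cos t * (Real.cos t * a.2.2.1 - Real.sin t * (a.2.1 - a.1)) ∧
    fderiv ℝ (F2 .C) v a = (a.1 + a.2.1) - deriv qf P * Real.cos t * (Real.cos t * (a.2.1 - a.1) + Real.sin t * a.2.2.1)
      + qf P / P * Real.sin t * (Real.cos t * a.2.2.1 - Real.sin t * (a.2.1 - a.1)) := by
  have hcs := Real.cos_sq_add_sin_sq t
  have hx : dCcx a = a.1 := rfl
  have hy : dCcy a = a.2.1 := rfl
  have hpp : dCcp a = a.2.2.1 := rfl
  have hrr : dCcr a = a.2.2.2 := rfl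
  constructor
  · have h := (dC_hd_r v).add (dC_nk_g (dC_hd_X2 v) (dC_hd_p v) hP h2 hp (dC_hd_p v))
    have h' : HasFDerivAt (F1 .C) _ v := h
    rw [h'.fderiv]
    simp only [ContinuousLinearMap.add_apply, ContinuousLinearMap.sub_apply,
      ContinuousLinearMap.smul_apply, smul_eq_mul]
    rw [hx, hy, hpp, hrr, hp]
    field_simp
    linear_combination (-(qf P * a.2.2.1)) * hcs
  · have h := (dC_hd_X1 v).sub (dC_nk_g (dC_hd_X2 v) (dC_hd_p v) hP h2 hp (dC_hd_X2 v))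
    have h' : HasFDerivAt (F2 .C) _ v := h
    rw [h'.fderiv]
    simp only [ContinuousLinearMap.add_apply, ContinuousLinearMap.sub_apply,
      ContinuousLinearMap.smul_apply, smul_eq_mul]
    rw [hx, hy, hpp, h2]
    field_simp
    linear_combination ((qf P * (a.2.1 - a.1))) * hcs
theorem fderiv_D {v : V} {Q t : ℝ} (hQ : 0 < Q) (h1 : X1 v = Q * Real.cos t) (hr : v.2.2.2 = -(Q * Real.sin t))
    (a : V) :
    fderiv ℝ (F1 .D) v a = a.2.2.1 - deriv qf Q * Real.sin t * (Real.cos t * (a.1 + a.2.1) - Real.sin t * a.2.2.2)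
      + qf Q / Q * Real.cos t * (Real.cos t * a.2.2.2 + Real.sin t * (a.1 + a.2.1)) ∧
    fderiv ℝ (F2 .D) v a = (a.2.1 - a.1) - deriv qf Q * Real.cos t * (Real.cos t * (a.1 + a.2.1) - Real.sin t * a.2.2.2)
      - qf Q / Q * Real.sin t * (Real.cos t * a.2.2.2 + Real.sin t * (a.1 + a.2.1)) := by
  have hcs := Real.cos_sq_add_sin_sq t
  have hx : dCcx a = a.1 := rfl
  have hy : dCcy a = a.2.1 := rfl
  have hpp : dCcp a = a.2.2.1 := rfl
  have hrr : dCcr a = a.2.2.2 := rfl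
  have h1' : X1 v = Q * Real.cos (-t) := by rw [Real.cos_neg]; exact h1
  have hr' : v.2.2.2 = Q * Real.sin (-t) := by rw [Real.sin_neg, hr]; ring
  constructor
  · have h := (dC_hd_p v).add (dC_nk_g (dC_hd_X1 v) (dC_hd_r v) hQ h1' hr' (dC_hd_r v))
    have h' : HasFDerivAt (F1 .D) _ v := h
    rw [h'.fderiv]
    simp only [ContinuousLinearMap.add_apply, ContinuousLinearMap.sub_apply,
      ContinuousLinearMap.smul_apply, smul_eq_mul, Real.cos_neg, Real.sin_neg]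
    rw [hx, hy, hpp, hrr, hr]
    field_simp
    linear_combination (-(qf Q * a.2.2.2)) * hcs
  · have h := (dC_hd_X2 v).sub (dC_nk_g (dC_hd_X1 v) (dC_hd_r v) hQ h1' hr' (dC_hd_X1 v))
    have h' : HasFDerivAt (F2 .D) _ v := h
    rw [h'.fderiv]
    simp only [ContinuousLinearMap.add_apply, ContinuousLinearMap.sub_apply,
      ContinuousLinearMap.smul_apply, smul_eq_mul, Real.cos_neg, Real.sin_neg]
    rw [hx, hy, hrr, h1]
    field_simp
    linear_combination ((qf Q * (a.1 + a.2.1))) * hcs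


end Pool.Agent.Helper874.Odd
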