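import Pool.Agent.Helper874.Odd.Base
import Pool.Agent.Helper874.Odd.Jbet1
import Pool.Agent.Helper874.Odd.Jbet2
import Pool.Agent.Helper874.Odd.Jiot1
import Pool.Agent.Helper874.Odd.Jiot2
import Pool.Agent.Helper874.Odd.Jup1
import Pool.Agent.Helper874.Odd.Jm0b

set_option autoImplicit false
open Set Filter Topology
open scoped Manifold ContDiff

namespace Pool.Agent.Helper874.Odd

noncomputable def h400_pt (P Q t : ℝ) : V :=
  ((Q * Real.cos t - P * Real.cos t) / 2, (Q * Real.cos t + P * Real.cos t) / 2 + 1 / 4,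
    P * Real.sin t, -(Q * Real.sin t))

theorem h400_X1 (P Q t : ℝ) : X1 (h400_pt P Q t) = Q * Real.cos t := by
  unfold X1 h400_pt
  ring

theorem h400_X2 (P Q t : ℝ) : X2 (h400_pt P Q t) = P * Real.cos t := by
  unfold X2 h400_pt
  ring

theorem h400_nz (P Q t : ℝ) (hP : 0 ≤ P) : nz (h400_pt P Q t) = P := by
  unfold nz
  rw [h400_X2]
  have h : (P * Real.cos t) ^ 2 + (h400_pt P Q t).2.2.1 ^ 2 = P ^ 2 := by
    show (P * Real.cos t) ^ 2 + (P * Real.sin t) ^ 2 = P ^ 2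
    linear_combination P ^ 2 * Real.sin_sq_add_cos_sq t
  rw [h, Real.sqrt_sq hP]

theorem h400_nw (P Q t : ℝ) (hQ : 0 ≤ Q) : nw (h400_pt P Q t) = Q := by
  unfold nw
  rw [h400_X1]
  have h : (Q * Real.cos t) ^ 2 + (h400_pt P Q t).2.2.2 ^ 2 = Q ^ 2 := by
    show (Q * Real.cos t) ^ 2 + (-(Q * Real.sin t)) ^ 2 = Q ^ 2
    linear_combination Q ^ 2 * Real.sin_sq_add_cos_sq t
  rw [h, Real.sqrt_sq hQ]

theorem h400_mem (P Q t : ℝ) (h1 : 0 ≤ P) (h2 : 0 ≤ Q) (h3 : P ≤ 1 / 16) (h4 : Q ≤ 1 / 16)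
    (h5 : bet P + bet Q = 1) : h400_pt P Q t ∈ SC :=
  ⟨P, Q, t, h1, h2, h3, h4, h5, h400_X2 P Q t, rfl, h400_X1 P Q t, rfl⟩

theorem h400_eq {v : V} {P Q t : ℝ} (h1 : X2 v = P * Real.cos t) (h2 : v.2.2.1 = P * Real.sin t)
    (h3 : X1 v = Q * Real.cos t) (h4 : v.2.2.2 = -(Q * Real.sin t)) : v = h400_pt P Q t := by
  obtain ⟨x, y, p, r⟩ := v
  unfold X2 at h1
  unfold X1 at h3
  simp only at h1 h2 h3 h4
  unfold h400_pt
  refine Prod.ext ?_ (Prod.ext ?_ (Prod.ext ?_ ?_))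
  · show x = _
    linarith
  · show y = _
    linarith
  · exact h2
  · exact h4

noncomputable def h400_A (l : V) (t : ℝ) : ℝ :=
  (l.2.1 - l.1) / 2 * Real.cos t + l.2.2.1 * Real.sin t

noncomputable def h400_B (l : V) (t : ℝ) : ℝ :=
  (l.2.1 + l.1) / 2 * Real.cos t - l.2.2.2 * Real.sin t

theorem h400_hh (l : V) (P Q t : ℝ) :
    hh l (h400_pt P Q t) = l.2.1 / 4 + (P * h400_A l t + Q * h400_B l t) := by
  unfold hh h400_pt h400_A h400_B
  ring

theorem h400_iot {u : ℝ} (hu : u ∈ Icc (0:ℝ) (1 / 16)) :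
    (1 - bet u) ∈ Icc (0:ℝ) 1 := by
  have h1 := bet_nonneg u
  have h2 := bet_antitone hu.1
  rw [bet_zero] at h2
  exact ⟨by linarith, by linarith⟩

theorem h400_convex (A B : ℝ) (hB : 0 ≤ B) :
    ConvexOn ℝ (Icc (0:ℝ) (1 / 16)) (fun u => u * A + B * iot (1 - bet u)) := by
  refine ⟨convex_Icc _ _, ?_⟩
  intro u hu v hv a b ha hb hab
  simp only [smul_eq_mul]
  have hw : a * u + b * v ∈ Icc (0:ℝ) (1 / 16) := by
    have := (convex_Icc (0:ℝ) (1 / 16)) hu hv ha hb hab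
    simpa only [smul_eq_mul] using this
  have h1 : bet (a * u + b * v) ≤ a * bet u + b * bet v := by
    have := bet_convexOn.2 (show u ∈ Ici (0:ℝ) from hu.1) (show v ∈ Ici (0:ℝ) from hv.1) ha hb hab
    simpa only [smul_eq_mul] using this
  have h2 : a * (1 - bet u) + b * (1 - bet v) ∈ Icc (0:ℝ) 1 := by
    have := (convex_Icc (0:ℝ) 1) (h400_iot hu) (h400_iot hv) ha hb hab
    simpa only [smul_eq_mul] using this
  have h3 : iot (1 - bet (a * u + b * v)) ≤ iot (a * (1 - bet u) + b * (1 - bet v)) := by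
    apply iot_antitoneOn h2 (h400_iot hw)
    have : a * (1 - bet u) + b * (1 - bet v) = (a + b) - (a * bet u + b * bet v) := by ring
    rw [this, hab]
    linarith
  have h4 : iot (a * (1 - bet u) + b * (1 - bet v)) ≤
      a * iot (1 - bet u) + b * iot (1 - bet v) := by
    have := iot_convexOn.2 (h400_iot hu) (h400_iot hv) ha hb hab
    simpa only [smul_eq_mul] using this
  have h5 := mul_le_mul_of_nonneg_left (h3.trans h4) hB
  have h6 : a * (u * A + B * iot (1 - bet u)) + b * (v * A + B * iot (1 - bet v)) =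
      (a * u + b * v) * A + B * (a * iot (1 - bet u) + b * iot (1 - bet v)) := by ring
  rw [h6]
  linarith

theorem h400_contOn : ContinuousOn (fun u => iot (1 - bet u)) (Icc (0:ℝ) (1 / 16)) :=
  iot_continuousOn.comp (continuous_const.sub bet_contDiff.continuous).continuousOn
    (fun _ hu => h400_iot hu)

theorem h400_pt_cont {I : Set ℝ} {p q r : ℝ → ℝ} (hp : ContinuousOn p I) (hq : ContinuousOn q I)
    (hr : ContinuousOn r I) : ContinuousOn (fun u => h400_pt (p u) (q u) (r u)) I := by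
  have hc : ContinuousOn (fun u => Real.cos (r u)) I := Real.continuous_cos.comp_continuousOn hr
  have hs : ContinuousOn (fun u => Real.sin (r u)) I := Real.continuous_sin.comp_continuousOn hr
  unfold h400_pt
  exact (((hq.mul hc).sub (hp.mul hc)).div_const 2).prodMk
    (((((hq.mul hc).add (hp.mul hc)).div_const 2).add continuousOn_const).prodMk
      ((hp.mul hs).prodMk ((hq.mul hs).neg)))

/-- rotation step -/
theorem h400_rot (l : V) (P Q t : ℝ) (h1 : 0 ≤ P) (h2 : 0 ≤ Q) (h3 : P ≤ 1 / 16) (h4 : Q ≤ 1 / 16)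
    (h5 : bet P + bet Q = 1) :
    ∃ t₁ : ℝ, 0 ≤ P * h400_A l t₁ + Q * h400_B l t₁ ∧
      Up SC l (h400_pt P Q t) (h400_pt P Q t₁) := by
  obtain ⟨z, hz⟩ : ∃ z : ℂ, z = ⟨P * ((l.2.1 - l.1) / 2) + Q * ((l.2.1 + l.1) / 2),
    P * l.2.2.1 - Q * l.2.2.2⟩ := ⟨_, rfl⟩
  have hre : ‖z‖ * Real.cos (Complex.arg z) =
      P * ((l.2.1 - l.1) / 2) + Q * ((l.2.1 + l.1) / 2) := by
    rw [Complex.norm_mul_cos_arg, hz]
  have him : ‖z‖ * Real.sin (Complex.arg z) = P * l.2.2.1 - Q * l.2.2.2 := by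
    rw [Complex.norm_mul_sin_arg, hz]
  obtain ⟨k, hk⟩ : ∃ k : ℤ, k = round ((t - Complex.arg z) / (2 * Real.pi)) := ⟨_, rfl⟩
  obtain ⟨t₁, ht₁⟩ : ∃ t₁ : ℝ, t₁ = Complex.arg z + k * (2 * Real.pi) := ⟨_, rfl⟩
  have hpi := Real.pi_pos
  have hdist : |t₁ - t| ≤ Real.pi := by
    have h6 := abs_sub_round ((t - Complex.arg z) / (2 * Real.pi))
    rw [← hk] at h6
    have h7 : (t - Complex.arg z) / (2 * Real.pi) - k = (t - t₁) / (2 * Real.pi) := by
      rw [ht₁]
      field_simp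
      ring
    rw [h7, abs_div, abs_of_pos (show (0:ℝ) < 2 * Real.pi by positivity),
      div_le_iff₀ (by positivity), abs_sub_comm] at h6
    linarith
  have hf : ∀ s : ℝ, P * h400_A l s + Q * h400_B l s = ‖z‖ * Real.cos (t₁ - s) := by
    intro s
    have h6 : Real.cos (t₁ - s) = Real.cos (Complex.arg z - s) := by
      rw [ht₁, show Complex.arg z + (k:ℝ) * (2 * Real.pi) - s =
        (Complex.arg z - s) + k * (2 * Real.pi) by ring, Real.cos_add_int_mul_two_pi]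
    rw [h6, Real.cos_sub]
    unfold h400_A h400_B
    linear_combination (-Real.cos s) * hre - Real.sin s * him
  refine ⟨t₁, ?_, ?_⟩
  · rw [hf, sub_self, Real.cos_zero, mul_one]
    exact norm_nonneg z
  · apply Up.of_path (uIcc t t₁) Set.ordConnected_uIcc (fun u => h400_pt P Q u)
      (h400_pt_cont continuousOn_const continuousOn_const continuousOn_id) Set.left_mem_uIcc
      Set.right_mem_uIcc
    intro u hu
    refine ⟨h400_mem P Q u h1 h2 h3 h4 h5, ?_⟩
    rw [h400_hh, h400_hh, hf, hf]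
    have h6 : |t₁ - u| ≤ |t₁ - t| := Set.abs_sub_right_of_mem_uIcc hu
    have h7 := Real.cos_le_cos_of_nonneg_of_le_pi (abs_nonneg (t₁ - u)) hdist h6
    rw [Real.cos_abs, Real.cos_abs] at h7
    have h8 := mul_le_mul_of_nonneg_left h7 (norm_nonneg z)
    linarith

theorem h400_end1 (t : ℝ) : (X1 (h400_pt (1 / 16) 0 t) = 0 ∧ (h400_pt (1 / 16) 0 t).2.2.2 = 0 ∧
    nz (h400_pt (1 / 16) 0 t) = 1 / 16) := by
  refine ⟨?_, ?_, h400_nz _ _ _ (by norm_num)⟩
  · rw [h400_X1, zero_mul]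
  · show -((0:ℝ) * Real.sin t) = 0
    rw [zero_mul, neg_zero]

theorem h400_end2 (t : ℝ) : (X2 (h400_pt 0 (1 / 16) t) = 0 ∧ (h400_pt 0 (1 / 16) t).2.2.1 = 0 ∧
    nw (h400_pt 0 (1 / 16) t) = 1 / 16) := by
  refine ⟨?_, ?_, h400_nw _ _ _ (by norm_num)⟩
  · rw [h400_X2, zero_mul]
  · show ((0:ℝ) * Real.sin t) = 0
    rw [zero_mul]

/-- every point of the neck can be moved up to one of its two boundary circles -/
theorem neck_up {l v : V} (hv : v ∈ SC) :
    ∃ w ∈ SC, ((X1 w = 0 ∧ w.2.2.2 = 0 ∧ nz w = 1 / 16) ∨ (X2 w = 0 ∧ w.2.2.1 = 0 ∧ nw w = 1 / 16)) ∧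
      Up SC l v w := by
  obtain ⟨P, Q, t, h1, h2, h3, h4, h5, e1, e2, e3, e4⟩ := hv
  rw [h400_eq e1 e2 e3 e4]
  obtain ⟨t₁, ht₁, hup⟩ := h400_rot l P Q t h1 h2 h3 h4 h5
  have hb16 : bet (1 / 16) = 0 := bet_eq_zero le_rfl
  have m1 : h400_pt (1 / 16) 0 t₁ ∈ SC := h400_mem _ _ _ (by norm_num) le_rfl le_rfl (by norm_num)
    (by rw [hb16, bet_zero, zero_add])
  have m2 : h400_pt 0 (1 / 16) t₁ ∈ SC := h400_mem _ _ _ le_rfl (by norm_num) (by norm_num) le_rfl
    (by rw [hb16, bet_zero, add_zero])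
  have hmemQ : ∀ u ∈ Icc (0:ℝ) (1 / 16), h400_pt u (iot (1 - bet u)) t₁ ∈ SC := by
    intro u hu
    have h6 := iot_mem (h400_iot hu)
    apply h400_mem _ _ _ hu.1 h6.1 hu.2 h6.2
    rw [bet_iot (h400_iot hu)]
    ring
  have hmemP : ∀ u ∈ Icc (0:ℝ) (1 / 16), h400_pt (iot (1 - bet u)) u t₁ ∈ SC := by
    intro u hu
    have h6 := iot_mem (h400_iot hu)
    apply h400_mem _ _ _ h6.1 hu.1 h6.2 hu.2
    rw [bet_iot (h400_iot hu)]
    ring
  have hPI : P ∈ Icc (0:ℝ) (1 / 16) := ⟨h1, h3⟩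
  have hQI : Q ∈ Icc (0:ℝ) (1 / 16) := ⟨h2, h4⟩
  have hiP : iot (1 - bet P) = Q := by
    rw [show 1 - bet P = bet Q by linarith, iot_bet hQI]
  have hiQ : iot (1 - bet Q) = P := by
    rw [show 1 - bet Q = bet P by linarith, iot_bet hPI]
  have hi0 : iot (1 - bet 0) = 1 / 16 := by
    rw [bet_zero, sub_self, iot_zero]
  have hi16 : iot (1 - bet (1 / 16)) = 0 := by
    rw [hb16, sub_zero, iot_one]
  by_cases hB : 0 ≤ h400_B l t₁
  · rcases convex_dir hPI (h400_convex (h400_A l t₁) (h400_B l t₁) hB) with hd | hd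
    · refine ⟨h400_pt (1 / 16) 0 t₁, m1, Or.inl (h400_end1 t₁), hup.trans ?_⟩
      have hp := Up.of_path (S := SC) (l := l) (Icc P (1 / 16)) Set.ordConnected_Icc
        (fun u => h400_pt u (iot (1 - bet u)) t₁)
        (h400_pt_cont continuousOn_id (h400_contOn.mono (Icc_subset_Icc h1 le_rfl))
          continuousOn_const) (s := P) (t := 1 / 16) ⟨le_rfl, h3⟩ ⟨h3, le_rfl⟩ (by
          intro u hu
          refine ⟨hmemQ u ⟨h1.trans hu.1, hu.2⟩, ?_⟩
          have h6 := hd u hu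
          rw [h400_hh, h400_hh]
          linarith)
      simp only [hiP, hi16] at hp
      exact hp
    · refine ⟨h400_pt 0 (1 / 16) t₁, m2, Or.inr (h400_end2 t₁), hup.trans ?_⟩
      have hp := Up.of_path (S := SC) (l := l) (Icc 0 P) Set.ordConnected_Icc
        (fun u => h400_pt u (iot (1 - bet u)) t₁)
        (h400_pt_cont continuousOn_id (h400_contOn.mono (Icc_subset_Icc le_rfl h3))
          continuousOn_const) (s := P) (t := 0) ⟨h1, le_rfl⟩ ⟨le_rfl, h1⟩ (by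
          intro u hu
          refine ⟨hmemQ u ⟨hu.1, hu.2.trans h3⟩, ?_⟩
          have h6 := hd u hu
          rw [h400_hh, h400_hh]
          linarith)
      simp only [hiP, hi0] at hp
      exact hp
  · have hB' : h400_B l t₁ < 0 := not_le.mp hB
    have hA : 0 ≤ h400_A l t₁ := by
      by_contra hA
      have hA' : h400_A l t₁ < 0 := not_le.mp hA
      have q1 : P * h400_A l t₁ ≤ 0 := mul_nonpos_of_nonneg_of_nonpos h1 hA'.le
      have q2 : Q * h400_B l t₁ ≤ 0 := mul_nonpos_of_nonneg_of_nonpos h2 hB'.le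
      have q3 : P * h400_A l t₁ = 0 := by linarith
      have q4 : Q * h400_B l t₁ = 0 := by linarith
      have q5 : P = 0 := (mul_eq_zero.mp q3).resolve_right hA'.ne
      have q6 : Q = 0 := (mul_eq_zero.mp q4).resolve_right hB'.ne
      rw [q5, q6, bet_zero] at h5
      norm_num at h5
    rcases convex_dir hQI (h400_convex (h400_B l t₁) (h400_A l t₁) hA) with hd | hd
    · refine ⟨h400_pt 0 (1 / 16) t₁, m2, Or.inr (h400_end2 t₁), hup.trans ?_⟩
      have hp := Up.of_path (S := SC) (l := l) (Icc Q (1 / 16)) Set.ordConnected_Icc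
        (fun u => h400_pt (iot (1 - bet u)) u t₁)
        (h400_pt_cont (h400_contOn.mono (Icc_subset_Icc h2 le_rfl)) continuousOn_id
          continuousOn_const) (s := Q) (t := 1 / 16) ⟨le_rfl, h4⟩ ⟨h4, le_rfl⟩ (by
          intro u hu
          refine ⟨hmemP u ⟨h2.trans hu.1, hu.2⟩, ?_⟩
          have h6 := hd u hu
          rw [h400_hh, h400_hh]
          linarith)
      simp only [hiQ, hi16] at hp
      exact hp
    · refine ⟨h400_pt (1 / 16) 0 t₁, m1, Or.inl (h400_end1 t₁), hup.trans ?_⟩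
      have hp := Up.of_path (S := SC) (l := l) (Icc 0 Q) Set.ordConnected_Icc
        (fun u => h400_pt (iot (1 - bet u)) u t₁)
        (h400_pt_cont (h400_contOn.mono (Icc_subset_Icc le_rfl h4)) continuousOn_id
          continuousOn_const) (s := Q) (t := 0) ⟨h2, le_rfl⟩ ⟨le_rfl, h2⟩ (by
          intro u hu
          refine ⟨hmemP u ⟨hu.1, hu.2.trans h4⟩, ?_⟩
          have h6 := hd u hu
          rw [h400_hh, h400_hh]
          linarith)
      simp only [hiQ, hi0] at hp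
      exact hp


end Pool.Agent.Helper874.Odd
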