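import Pool.Agent.Helper874.Odd.Base
import Pool.Agent.Helper874.Odd.Jbet1
import Pool.Agent.Helper874.Odd.Jmm1
import Pool.Agent.Helper874.Odd.Jmm2
import Pool.Agent.Helper874.Odd.Jalp1
import Pool.Agent.Helper874.Odd.Jup1
import Pool.Agent.Helper874.Odd.Jtube1
import Pool.Agent.Helper874.Odd.Jneck1
import Pool.Agent.Helper874.Odd.JdiscA
import Pool.Agent.Helper874.Odd.Jopn
import Pool.Agent.Helper874.Odd.Jmod1
import Pool.Agent.Helper874.Odd.Jasm1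

set_option autoImplicit false
open Set Filter Topology
open scoped Manifold ContDiff

namespace Pool.Agent.Helper874.Odd


theorem mmc_lab_cont : Continuous lab := by
  have h : Continuous expNegInvGlue := expNegInvGlue.contDiff (n := 0) |>.continuous
  unfold lab
  exact (h.comp (by fun_prop)).mul (h.comp (by fun_prop))

theorem mmc_kA_cont : Continuous kA := by
  have h : Continuous mm := mm_contDiff.continuous
  unfold kA
  exact (h.comp (by fun_prop)).add (h.comp (by fun_prop))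

theorem mmc_kB_cont : Continuous kB := by
  have h : Continuous mm := mm_contDiff.continuous
  unfold kB
  exact (h.comp (by fun_prop)).add (h.comp (by fun_prop))

theorem mmc_M0p_eq : M0 \ (DiA ∪ DiB) = M0 ∩ ({v : V | 9 / 16 ≤ kA v} ∪ {v : V | 1 / 2 ≤ |v.2.2.2|}) ∩
    ({v : V | 9 / 16 ≤ kB v} ∪ {v : V | 1 / 2 ≤ |v.2.2.1|}) := by
  ext v
  constructor
  · rintro ⟨h0, h1⟩
    refine ⟨⟨h0, ?_⟩, ?_⟩
    · by_contra hcon
      simp only [mem_union, mem_setOf_eq, not_or, not_le] at hcon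
      apply h1
      left
      obtain ⟨hx, hy⟩ := abs_lt_of_kA (v := v) (by linarith [hcon.1])
      have h2 := (M0_flat hx hy).1 h0
      obtain ⟨x, y, p, r⟩ := v
      simp only [mem_insert_iff, mem_singleton_iff, Prod.mk.injEq] at h2
      simp only at hcon
      rcases h2 with ⟨hp, hr⟩ | ⟨hp, hr⟩ | ⟨hp, hr⟩ | ⟨hp, hr⟩ | ⟨hp, hr⟩ | ⟨hp, hr⟩ <;>
        subst hp hr
      · exact ⟨rfl, by norm_num, hcon.1⟩
      · exfalso; have := hcon.2; norm_num at this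
      · exfalso; have := hcon.2; norm_num at this
      · exact ⟨rfl, by norm_num, hcon.1⟩
      · exfalso; have := hcon.2; norm_num at this
      · exfalso; have := hcon.2; norm_num at this
    · by_contra hcon
      simp only [mem_union, mem_setOf_eq, not_or, not_le] at hcon
      apply h1
      right
      obtain ⟨hx, hy⟩ := abs_lt_of_kB (v := v) (by linarith [hcon.1])
      have h2 := (M0_flat hx hy).1 h0
      obtain ⟨x, y, p, r⟩ := v
      simp only [mem_insert_iff, mem_singleton_iff, Prod.mk.injEq] at h2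
      simp only at hcon
      rcases h2 with ⟨hp, hr⟩ | ⟨hp, hr⟩ | ⟨hp, hr⟩ | ⟨hp, hr⟩ | ⟨hp, hr⟩ | ⟨hp, hr⟩ <;>
        subst hp hr
      · exfalso; have := hcon.2; norm_num at this
      · exact ⟨rfl, by norm_num, hcon.1⟩
      · exfalso; have := hcon.2; norm_num at this
      · exfalso; have := hcon.2; norm_num at this
      · exact ⟨rfl, by norm_num, hcon.1⟩
      · exfalso; have := hcon.2; norm_num at this
  · rintro ⟨⟨h0, h1⟩, h2⟩
    refine ⟨h0, ?_⟩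
    rintro (⟨hr, hp, hk⟩ | ⟨hp, hr, hk⟩)
    · rcases h1 with h1 | h1
      · simp only [mem_setOf_eq] at h1; linarith
      · simp only [mem_setOf_eq] at h1
        rw [hr] at h1
        norm_num at h1
    · rcases h2 with h2 | h2
      · simp only [mem_setOf_eq] at h2; linarith
      · simp only [mem_setOf_eq] at h2
        rw [hp] at h2
        norm_num at h2

theorem mmc_M0p_closed : IsClosed (M0 \ (DiA ∪ DiB)) := by
  rw [mmc_M0p_eq]
  refine (M0_compact.isClosed.inter ?_).inter ?_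
  · exact (isClosed_le continuous_const mmc_kA_cont).union
      (isClosed_le continuous_const (by fun_prop))
  · exact (isClosed_le continuous_const mmc_kB_cont).union
      (isClosed_le continuous_const (by fun_prop))

theorem mmc_lab_zero {v : V} (hA : v ∈ SA) (h0 : v ∈ M0) : lab v = 0 := by
  have h1 := ((SA_facts hA).2.2 h0).2
  unfold lab
  have h2 : v.2.2.1 ^ 2 = 1 := by rw [← sq_abs, h1]; norm_num
  rw [h2, expNegInvGlue.zero_of_nonpos (x := 1 / 2 - 1) (by norm_num), mul_zero]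

theorem mmc_DA_not_M0 {v : V} (h : v ∈ DA) : v ∉ M0 := by
  obtain ⟨h1, h2, h3⟩ := h
  have h4 : nw v < 1 / 8 := by unfold nw; rw [h1, h2]; norm_num
  exact (near_facts (by linarith) h4).2.2.2.2.2.2.2.2.2.2.2.2.1

theorem mmc_DB_not_M0 {v : V} (h : v ∈ DB) : v ∉ M0 := by
  obtain ⟨h1, h2, h3⟩ := h
  have h4 : nz v < 1 / 8 := by unfold nz; rw [h1, h2]; norm_num
  exact (near_facts h4 (by linarith)).2.2.2.2.2.2.2.2.2.2.2.2.1

theorem mmc_neckA {w : V} (h1 : X1 w = 0) (h2 : w.2.2.2 = 0) (h3 : nz w = 1 / 16) :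
    w ∈ SA ∧ w ∉ DA ∧ lab w = 0 := by
  have h4 : nw w < 1 / 8 := by unfold nw; rw [h1, h2]; norm_num
  obtain ⟨-, -, -, -, -, -, -, -, -, -, -, hl, -, hA, -⟩ := near_facts (v := w) (by linarith) h4
  refine ⟨hA.2 ⟨h1, h2⟩, fun h => ?_, hl⟩
  have := h.2.2
  linarith

theorem mmc_neckB {w : V} (h1 : X2 w = 0) (h2 : w.2.2.1 = 0) (h3 : nw w = 1 / 16) :
    w ∈ SB ∧ w ∉ DB := by
  have h4 : nz w < 1 / 8 := by unfold nz; rw [h1, h2]; norm_num
  obtain ⟨-, -, -, -, -, -, -, -, -, -, -, hl, -, -, hB⟩ := near_facts (v := w) h4 (by linarith)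
  refine ⟨hB.2 ⟨h1, h2⟩, fun h => ?_⟩
  have := h.2.2
  linarith

theorem mmc_up_base_A (l : V) {v : V} (h : v ∈ SA) : ∃ b ∈ M0 \ (DiA ∪ DiB), hh l v ≤ hh l b := by
  obtain ⟨w, hw, h1, h2, h3⟩ := tubeA_up (l := l) h
  exact ⟨w, bdA_mem hw h1 h2, h3.le⟩

theorem mmc_up_base_B (l : V) {v : V} (h : v ∈ SB) : ∃ b ∈ M0 \ (DiA ∪ DiB), hh l v ≤ hh l b := by
  obtain ⟨w, hw, h1, h2, h3⟩ := tubeB_up (l := l) h
  exact ⟨w, bdB_mem hw h1 h2, h3.le⟩

theorem mmc_up_base_C (l : V) {v : V} (h : v ∈ SC) : ∃ b ∈ M0 \ (DiA ∪ DiB), hh l v ≤ hh l b := by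
  obtain ⟨w, hw, h1, h2⟩ := neck_up (l := l) h
  rcases h1 with ⟨h1, h3, h4⟩ | ⟨h1, h3, h4⟩
  · obtain ⟨b, hb, hle⟩ := mmc_up_base_A l (mmc_neckA h1 h3 h4).1
    exact ⟨b, hb, h2.le.trans hle⟩
  · obtain ⟨b, hb, hle⟩ := mmc_up_base_B l (mmc_neckB h1 h3 h4).1
    exact ⟨b, hb, h2.le.trans hle⟩

/-- the surface is tight -/
theorem MM_conn (l : V) (c : ℝ) : IsPreconnected {m : V × ℝ | m ∈ MM ∧ c ≤ hh l m.1} := by
  classical
  set E : Set (V × ℝ) := {m : V × ℝ | m ∈ MM ∧ c ≤ hh l m.1} with hE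
  rcases E.eq_empty_or_nonempty with he | ⟨m0, hm0, hc0⟩
  · rw [he]; exact isPreconnected_empty
  -- base point
  have hbase : ∃ b ∈ M0 \ (DiA ∪ DiB), c ≤ hh l b := by
    rcases hm0 with ⟨-, h | h | h⟩ | ⟨-, h⟩
    · exact ⟨m0.1, h, hc0⟩
    · obtain ⟨b, hb, hle⟩ := mmc_up_base_B l h.1
      exact ⟨b, hb, hc0.trans hle⟩
    · obtain ⟨b, hb, hle⟩ := mmc_up_base_C l h
      exact ⟨b, hb, hc0.trans hle⟩
    · obtain ⟨b, hb, hle⟩ := mmc_up_base_A l h.1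
      exact ⟨b, hb, hc0.trans hle⟩
  obtain ⟨b, hb, hbc⟩ := hbase
  -- first part
  let g1 : V → V × ℝ := fun v => (v, if v ∈ SA then lab v else 0)
  let g2 : V → V × ℝ := fun v => (v, 0)
  have hg1 : ContinuousOn g1 ((M0 \ (DiA ∪ DiB)) ∪ SA) := by
    refine ContinuousOn.union_of_isClosed ?_ ?_ mmc_M0p_closed SA_compact.isClosed
    · have h1 : ContinuousOn g2 (M0 \ (DiA ∪ DiB)) :=
        (continuous_id.prodMk continuous_const).continuousOn
      refine h1.congr fun v hv => ?_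
      by_cases hA : v ∈ SA
      · simp only [g1, g2, if_pos hA, mmc_lab_zero hA hv.1]
      · simp only [g1, g2, if_neg hA]
    · have h1 : ContinuousOn (fun v : V => (v, lab v)) SA :=
        (continuous_id.prodMk mmc_lab_cont).continuousOn
      refine h1.congr fun v hv => ?_
      simp only [g1, if_pos hv]
  have hg2 : Continuous g2 := continuous_id.prodMk continuous_const
  set P1 : Set V := {v | v ∈ (M0 \ (DiA ∪ DiB) ∪ SA) \ DA ∧ c ≤ hh l v} with hP1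
  set P2 : Set V := {v | v ∈ (M0 \ (DiA ∪ DiB) ∪ SB) \ DB ∧ c ≤ hh l v} with hP2
  have hc1 : IsPreconnected (g1 '' P1) :=
    (conn_SA' l c).image g1 (hg1.mono fun v hv => hv.1.1)
  have hc2 : IsPreconnected (g2 '' P2) :=
    (conn_SB' l c).image g2 hg2.continuousOn
  have hs1 : g1 '' P1 ⊆ E := by
    rintro _ ⟨v, ⟨⟨hv, hD⟩, hvc⟩, rfl⟩
    refine ⟨?_, hvc⟩
    by_cases hA : v ∈ SA
    · right
      exact ⟨by simp only [g1, if_pos hA], hA, hD⟩
    · left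
      refine ⟨by simp only [g1, if_neg hA], Or.inl ?_⟩
      rcases hv with hv | hv
      · exact hv
      · exact absurd hv hA
  have hs2 : g2 '' P2 ⊆ E := by
    rintro _ ⟨v, ⟨⟨hv, hD⟩, hvc⟩, rfl⟩
    refine ⟨?_, hvc⟩
    left
    refine ⟨rfl, ?_⟩
    rcases hv with hv | hv
    · exact Or.inl hv
    · exact Or.inr (Or.inl ⟨hv, hD⟩)
  have hb1 : ((b, 0) : V × ℝ) ∈ g1 '' P1 := by
    refine ⟨b, ⟨⟨Or.inl hb, fun h => mmc_DA_not_M0 h hb.1⟩, hbc⟩, ?_⟩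
    by_cases hA : b ∈ SA
    · simp only [g1, if_pos hA, mmc_lab_zero hA hb.1]
    · simp only [g1, if_neg hA]
  have hb2 : ((b, 0) : V × ℝ) ∈ g2 '' P2 :=
    ⟨b, ⟨⟨Or.inl hb, fun h => mmc_DB_not_M0 h hb.1⟩, hbc⟩, rfl⟩
  refine isPreconnected_of_forall ((b, 0) : V × ℝ) fun m hm => ?_
  obtain ⟨hm, hmc⟩ := hm
  obtain ⟨v, s⟩ := m
  rcases hm with ⟨h0, h | h | h⟩ | ⟨h0, h⟩
  · refine ⟨g2 '' P2, hs2, hb2, ⟨v, ⟨⟨Or.inl h, fun h' => mmc_DB_not_M0 h' h.1⟩, hmc⟩, ?_⟩, hc2⟩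
    simp only at h0
    simp only [g2, h0]
  · refine ⟨g2 '' P2, hs2, hb2, ⟨v, ⟨⟨Or.inr h.1, h.2⟩, hmc⟩, ?_⟩, hc2⟩
    simp only at h0
    simp only [g2, h0]
  · simp only at h0 h hmc
    subst h0
    obtain ⟨w, hw, h1, T, hT, hTc, hvT, hwT, hTh⟩ := neck_up (l := l) h
    have hsT : g2 '' T ⊆ E := by
      rintro _ ⟨u, hu, rfl⟩
      exact ⟨Or.inl ⟨rfl, Or.inr (Or.inr (hT hu))⟩, hmc.trans (hTh u hu)⟩
    have hcT : IsPreconnected (g2 '' T) := hTc.image g2 hg2.continuousOn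
    have hwc : c ≤ hh l w := hmc.trans (hTh w hwT)
    rcases h1 with ⟨h1, h3, h4⟩ | ⟨h1, h3, h4⟩
    · obtain ⟨hA, hD, hl⟩ := mmc_neckA h1 h3 h4
      refine ⟨g2 '' T ∪ g1 '' P1, union_subset hsT hs1, Or.inr hb1, Or.inl ⟨v, hvT, rfl⟩, ?_⟩
      refine IsPreconnected.union (g2 w) ⟨w, hwT, rfl⟩ ?_ hcT hc1
      refine ⟨w, ⟨⟨Or.inr hA, hD⟩, hwc⟩, ?_⟩
      simp only [g1, g2, if_pos hA, hl]
    · obtain ⟨hB, hD⟩ := mmc_neckB h1 h3 h4
      refine ⟨g2 '' T ∪ g2 '' P2, union_subset hsT hs2, Or.inr hb2, Or.inl ⟨v, hvT, rfl⟩, ?_⟩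
      refine IsPreconnected.union (g2 w) ⟨w, hwT, rfl⟩ ?_ hcT hc2
      exact ⟨w, ⟨⟨Or.inr hB, hD⟩, hwc⟩, rfl⟩
  · refine ⟨g1 '' P1, hs1, hb1, ⟨v, ⟨⟨Or.inr h.1, h.2⟩, hmc⟩, ?_⟩, hc1⟩
    simp only at h0 h
    simp only [g1, if_pos h.1, h0]


end Pool.Agent.Helper874.Odd
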