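import Pool.Agent.Helper874.Odd.Base

set_option autoImplicit false
open Set Filter Topology
open scoped Manifold ContDiff

namespace Pool.Agent.Helper874.Odd

theorem Vol_congr {f g f' g' : V →L[ℝ] ℝ} {k : ℝ} (h : ∀ a c, Wedge f g a c = k * Wedge f' g' a c) (a c : V) :
    Vol f g a c = k * Vol f' g' a c := by
  unfold Vol
  rw [h, h, h, h, h, h]
  ring
theorem Vol_swap (f g : V →L[ℝ] ℝ) (a c : V) : Vol f g c a = - Vol f g a c := by
  unfold Vol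
  ring
theorem Vol_comb (f g : V →L[ℝ] ℝ) (a c : V) (s t u w : ℝ) :
    Vol f g (s • a + t • c) (u • a + w • c) = (s * w - t * u) * Vol f g a c := by
  unfold Vol
  simp only [Prod.fst_add, Prod.snd_add, Prod.smul_fst, Prod.smul_snd, smul_eq_mul]
  ring

theorem Vol_ne_zero_coord (f : V →L[ℝ] ℝ) (v : V) :
    f v = v.1 * f (1, 0, 0, 0) + v.2.1 * f (0, 1, 0, 0) + v.2.2.1 * f (0, 0, 1, 0) +
      v.2.2.2 * f (0, 0, 0, 1) := by
  have h : v = v.1 • ((1, 0, 0, 0) : V) + v.2.1 • ((0, 1, 0, 0) : V) +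
      v.2.2.1 • ((0, 0, 1, 0) : V) + v.2.2.2 • ((0, 0, 0, 1) : V) := by
    ext <;> simp
  conv_lhs => rw [h]
  simp only [map_add, map_smul, smul_eq_mul]

theorem Vol_ne_zero_lag (w1 w2 w3 w4 w5 w6 m1 m2 m3 m4 m5 m6 : ℝ)
    (h : w1 * m1 + w2 * m2 + w3 * m3 + w4 * m4 + w5 * m5 + w6 * m6 = 0)
    (h12 : w1 * m2 - w2 * m1 = 0) (h13 : w1 * m3 - w3 * m1 = 0) (h14 : w1 * m4 - w4 * m1 = 0)
    (h15 : w1 * m5 - w5 * m1 = 0) (h16 : w1 * m6 - w6 * m1 = 0) (h23 : w2 * m3 - w3 * m2 = 0)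
    (h24 : w2 * m4 - w4 * m2 = 0) (h25 : w2 * m5 - w5 * m2 = 0) (h26 : w2 * m6 - w6 * m2 = 0)
    (h34 : w3 * m4 - w4 * m3 = 0) (h35 : w3 * m5 - w5 * m3 = 0) (h36 : w3 * m6 - w6 * m3 = 0)
    (h45 : w4 * m5 - w5 * m4 = 0) (h46 : w4 * m6 - w6 * m4 = 0) (h56 : w5 * m6 - w6 * m5 = 0) :
    (w1 ^ 2 + w2 ^ 2 + w3 ^ 2 + w4 ^ 2 + w5 ^ 2 + w6 ^ 2) *
      (m1 ^ 2 + m2 ^ 2 + m3 ^ 2 + m4 ^ 2 + m5 ^ 2 + m6 ^ 2) = 0 := by
  linear_combination (w1 * m1 + w2 * m2 + w3 * m3 + w4 * m4 + w5 * m5 + w6 * m6) * h +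
    (w1 * m2 - w2 * m1) * h12 + (w1 * m3 - w3 * m1) * h13 + (w1 * m4 - w4 * m1) * h14 +
    (w1 * m5 - w5 * m1) * h15 + (w1 * m6 - w6 * m1) * h16 + (w2 * m3 - w3 * m2) * h23 +
    (w2 * m4 - w4 * m2) * h24 + (w2 * m5 - w5 * m2) * h25 + (w2 * m6 - w6 * m2) * h26 +
    (w3 * m4 - w4 * m3) * h34 + (w3 * m5 - w5 * m3) * h35 + (w3 * m6 - w6 * m3) * h36 +
    (w4 * m5 - w5 * m4) * h45 + (w4 * m6 - w6 * m4) * h46 + (w5 * m6 - w6 * m5) * h56

theorem Vol_ne_zero_six (x1 x2 x3 x4 x5 x6 : ℝ)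
    (h : x1 ^ 2 + x2 ^ 2 + x3 ^ 2 + x4 ^ 2 + x5 ^ 2 + x6 ^ 2 = 0) :
    x1 = 0 ∧ x2 = 0 ∧ x3 = 0 ∧ x4 = 0 ∧ x5 = 0 ∧ x6 = 0 := by
  have h1 := sq_nonneg x1
  have h2 := sq_nonneg x2
  have h3 := sq_nonneg x3
  have h4 := sq_nonneg x4
  have h5 := sq_nonneg x5
  have h6 := sq_nonneg x6
  refine ⟨?_, ?_, ?_, ?_, ?_, ?_⟩ <;>
  · apply (sq_eq_zero_iff).1
    linarith

theorem Vol_ne_zero {f g : V →L[ℝ] ℝ} {a c : V} (hreg : ∃ a c : V, Wedge f g a c ≠ 0)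
    (hfa : f a = 0) (hfc : f c = 0) (hga : g a = 0) (hgc : g c = 0)
    (hind : ∀ s t : ℝ, s • a + t • c = 0 → s = 0 ∧ t = 0) : Vol f g a c ≠ 0 := by
  intro hV
  unfold Vol Wedge at hV
  obtain ⟨a', c', hreg⟩ := hreg
  unfold Wedge at hreg
  rw [Vol_ne_zero_coord f a', Vol_ne_zero_coord g a', Vol_ne_zero_coord f c',
    Vol_ne_zero_coord g c'] at hreg
  rw [Vol_ne_zero_coord f a] at hfa
  rw [Vol_ne_zero_coord f c] at hfc
  rw [Vol_ne_zero_coord g a] at hga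
  rw [Vol_ne_zero_coord g c] at hgc
  obtain ⟨a1, a2, a3, a4⟩ := a
  obtain ⟨c1, c2, c3, c4⟩ := c
  simp only at hfa hfc hga hgc hV
  generalize f (1, 0, 0, 0) = F1 at *
  generalize f (0, 1, 0, 0) = F2 at *
  generalize f (0, 0, 1, 0) = F3 at *
  generalize f (0, 0, 0, 1) = F4 at *
  generalize g (1, 0, 0, 0) = G1 at *
  generalize g (0, 1, 0, 0) = G2 at *
  generalize g (0, 0, 1, 0) = G3 at *
  generalize g (0, 0, 0, 1) = G4 at *
  have D1 : (F1 * G2 - F2 * G1) * (a1 * c2 - a2 * c1) + (F1 * G3 - F3 * G1) * (a1 * c3 - a3 * c1)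
      + (F1 * G4 - F4 * G1) * (a1 * c4 - a4 * c1) = 0 := by
    linear_combination (G1 * c1) * hfa - (G1 * a1) * hfc - (F1 * c1) * hga + (F1 * a1) * hgc
  have D2 : (F1 * G2 - F2 * G1) * (a1 * c2 - a2 * c1) + (F2 * G3 - F3 * G2) * (a2 * c3 - a3 * c2)
      + (F2 * G4 - F4 * G2) * (a2 * c4 - a4 * c2) = 0 := by
    linear_combination (G2 * c2) * hfa - (G2 * a2) * hfc - (F2 * c2) * hga + (F2 * a2) * hgc
  have D3 : (F1 * G3 - F3 * G1) * (a1 * c3 - a3 * c1) + (F2 * G3 - F3 * G2) * (a2 * c3 - a3 * c2)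
      + (F3 * G4 - F4 * G3) * (a3 * c4 - a4 * c3) = 0 := by
    linear_combination (G3 * c3) * hfa - (G3 * a3) * hfc - (F3 * c3) * hga + (F3 * a3) * hgc
  have D4 : (F1 * G4 - F4 * G1) * (a1 * c4 - a4 * c1) + (F2 * G4 - F4 * G2) * (a2 * c4 - a4 * c2)
      + (F3 * G4 - F4 * G3) * (a3 * c4 - a4 * c3) = 0 := by
    linear_combination (G4 * c4) * hfa - (G4 * a4) * hfc - (F4 * c4) * hga + (F4 * a4) * hgc
  have key := Vol_ne_zero_lag (F3 * G4 - F4 * G3) (-(F2 * G4 - F4 * G2)) (F2 * G3 - F3 * G2)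
    (F1 * G4 - F4 * G1) (-(F1 * G3 - F3 * G1)) (F1 * G2 - F2 * G1)
    (a1 * c2 - a2 * c1) (a1 * c3 - a3 * c1) (a1 * c4 - a4 * c1)
    (a2 * c3 - a3 * c2) (a2 * c4 - a4 * c2) (a3 * c4 - a4 * c3)
    (by linear_combination hV)
    (by linear_combination 0 - (G4 * c1) * hfa + (G4 * a1) * hfc + (F4 * c1) * hga - (F4 * a1) * hgc)
    (by linear_combination (G3 * c1) * hfa - (G3 * a1) * hfc - (F3 * c1) * hga + (F3 * a1) * hgc)
    (by linear_combination 0 - (G4 * c2) * hfa + (G4 * a2) * hfc + (F4 * c2) * hga - (F4 * a2) * hgc)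
    (by linear_combination (G3 * c2) * hfa - (G3 * a2) * hfc - (F3 * c2) * hga + (F3 * a2) * hgc)
    (by linear_combination (1 / 2 : ℝ) * D3 + (1 / 2 : ℝ) * D4 - (1 / 2 : ℝ) * D1 - (1 / 2 : ℝ) * D2)
    (by linear_combination 0 - (G2 * c1) * hfa + (G2 * a1) * hfc + (F2 * c1) * hga - (F2 * a1) * hgc)
    (by linear_combination 0 - (G4 * c3) * hfa + (G4 * a3) * hfc + (F4 * c3) * hga - (F4 * a3) * hgc)
    (by linear_combination (1 / 2 : ℝ) * D1 + (1 / 2 : ℝ) * D3 - (1 / 2 : ℝ) * D2 - (1 / 2 : ℝ) * D4)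
    (by linear_combination 0 - (G2 * c3) * hfa + (G2 * a3) * hfc + (F2 * c3) * hga - (F2 * a3) * hgc)
    (by linear_combination (1 / 2 : ℝ) * D2 + (1 / 2 : ℝ) * D3 - (1 / 2 : ℝ) * D1 - (1 / 2 : ℝ) * D4)
    (by linear_combination (G3 * c4) * hfa - (G3 * a4) * hfc - (F3 * c4) * hga + (F3 * a4) * hgc)
    (by linear_combination 0 - (G2 * c4) * hfa + (G2 * a4) * hfc + (F2 * c4) * hga - (F2 * a4) * hgc)
    (by linear_combination (G1 * c2) * hfa - (G1 * a2) * hfc - (F1 * c2) * hga + (F1 * a2) * hgc)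
    (by linear_combination (G1 * c3) * hfa - (G1 * a3) * hfc - (F1 * c3) * hga + (F1 * a3) * hgc)
    (by linear_combination (G1 * c4) * hfa - (G1 * a4) * hfc - (F1 * c4) * hga + (F1 * a4) * hgc)
  rcases mul_eq_zero.1 key with h | h
  · obtain ⟨w1, w2, w3, w4, w5, w6⟩ := Vol_ne_zero_six _ _ _ _ _ _ h
    apply hreg
    linear_combination (a'.2.2.1 * c'.2.2.2 - a'.2.2.2 * c'.2.2.1) * w1 -
      (a'.2.1 * c'.2.2.2 - a'.2.2.2 * c'.2.1) * w2 + (a'.2.1 * c'.2.2.1 - a'.2.2.1 * c'.2.1) * w3 +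
      (a'.1 * c'.2.2.2 - a'.2.2.2 * c'.1) * w4 - (a'.1 * c'.2.2.1 - a'.2.2.1 * c'.1) * w5 +
      (a'.1 * c'.2.1 - a'.2.1 * c'.1) * w6
  · obtain ⟨m1, m2, m3, m4, m5, m6⟩ := Vol_ne_zero_six _ _ _ _ _ _ h
    have k1 := hind c1 (-a1) (by
      simp only [Prod.smul_mk, smul_eq_mul, Prod.mk_add_mk, Prod.mk_eq_zero]
      refine ⟨by ring, by linear_combination -m1, by linear_combination -m2,
        by linear_combination -m3⟩)
    have k2 := hind c2 (-a2) (by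
      simp only [Prod.smul_mk, smul_eq_mul, Prod.mk_add_mk, Prod.mk_eq_zero]
      refine ⟨by linear_combination m1, by ring, by linear_combination -m4,
        by linear_combination -m5⟩)
    have k3 := hind c3 (-a3) (by
      simp only [Prod.smul_mk, smul_eq_mul, Prod.mk_add_mk, Prod.mk_eq_zero]
      refine ⟨by linear_combination m2, by linear_combination m4, by ring,
        by linear_combination -m6⟩)
    have k4 := hind c4 (-a4) (by
      simp only [Prod.smul_mk, smul_eq_mul, Prod.mk_add_mk, Prod.mk_eq_zero]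
      refine ⟨by linear_combination m3, by linear_combination m5, by linear_combination m6,
        by ring⟩)
    have k5 := hind 1 0 (by
      simp only [Prod.smul_mk, smul_eq_mul, Prod.mk_add_mk, Prod.mk_eq_zero]
      refine ⟨by linarith [k1.2], by linarith [k2.2], by linarith [k3.2], by linarith [k4.2]⟩)
    exact one_ne_zero k5.1
theorem toE_apply (v : V) : toE v = !₂[v.1, v.2.1, v.2.2.1, v.2.2.2] := by
  ext i
  fin_cases i <;> simp [toE]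
theorem toE_injective : Function.Injective toE := by
  intro v w h
  rw [toE_apply, toE_apply] at h
  have h0 := congrArg (fun u : EuclideanSpace ℝ (Fin 4) => u 0) h
  have h1 := congrArg (fun u : EuclideanSpace ℝ (Fin 4) => u 1) h
  have h2 := congrArg (fun u : EuclideanSpace ℝ (Fin 4) => u 2) h
  have h3 := congrArg (fun u : EuclideanSpace ℝ (Fin 4) => u 3) h
  simp at h0 h1 h2 h3
  ext
  · exact h0
  · exact h1
  · exact h2
  · exact h3


end Pool.Agent.Helper874.Odd
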