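import Pool.Agent.Helper874.Odd.Base
import Pool.Agent.Helper874.Odd.Jvol1

set_option autoImplicit false
open Set Filter Topology
open scoped Manifold ContDiff

namespace Pool.Agent.Helper874.Odd

theorem exists_pi_compl (L : V →L[ℝ] ℝ × ℝ) (hL : Function.Surjective L) :
    ∃ (π : V →L[ℝ] EuclideanSpace ℝ (Fin 2)) (E : V ≃L[ℝ] (ℝ × ℝ) × EuclideanSpace ℝ (Fin 2)),
      (E : V →L[ℝ] (ℝ × ℝ) × EuclideanSpace ℝ (Fin 2)) = L.prod π := by
  have hr : LinearMap.range (L : V →ₗ[ℝ] ℝ × ℝ) = ⊤ := LinearMap.range_eq_top.2 hL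
  have hk : Module.finrank ℝ (LinearMap.ker (L : V →ₗ[ℝ] ℝ × ℝ)) = 2 := by
    have := LinearMap.finrank_range_add_finrank_ker (L : V →ₗ[ℝ] ℝ × ℝ)
    rw [hr, finrank_top] at this
    simp only [Module.finrank_prod, Module.finrank_self] at this
    omega
  obtain ⟨Q, hQ⟩ := Submodule.exists_isCompl (LinearMap.ker (L : V →ₗ[ℝ] ℝ × ℝ))
  let ι : LinearMap.ker (L : V →ₗ[ℝ] ℝ × ℝ) ≃ₗ[ℝ] EuclideanSpace ℝ (Fin 2) :=
    LinearEquiv.ofFinrankEq _ _ (by rw [hk]; simp)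
  let π : V →L[ℝ] EuclideanSpace ℝ (Fin 2) :=
    LinearMap.toContinuousLinearMap (ι.toLinearMap ∘ₗ Submodule.projectionOnto _ Q hQ)
  have hπr : LinearMap.range (π : V →ₗ[ℝ] EuclideanSpace ℝ (Fin 2)) = ⊤ := by
    rw [LinearMap.range_eq_top]
    exact ι.surjective.comp (Submodule.projectionOnto_surjective hQ)
  have hπk : LinearMap.ker (π : V →ₗ[ℝ] EuclideanSpace ℝ (Fin 2)) = Q := by
    ext x
    rw [LinearMap.mem_ker]
    show ι (Submodule.projectionOnto _ Q hQ x) = 0 ↔ _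
    rw [LinearEquiv.map_eq_zero_iff, Submodule.projectionOnto_apply_eq_zero_iff]
  have hc : IsCompl (LinearMap.ker (L : V →ₗ[ℝ] ℝ × ℝ))
      (LinearMap.ker (π : V →ₗ[ℝ] EuclideanSpace ℝ (Fin 2))) := by rw [hπk]; exact hQ
  exact ⟨π, ContinuousLinearMap.equivProdOfSurjectiveOfIsCompl L π hr hπr hc, by
    ext x <;> rfl⟩

theorem wedge_surj {f g : V →L[ℝ] ℝ} {a c : V} (h : Wedge f g a c ≠ 0) :
    Function.Surjective (f.prod g) := by
  rintro ⟨s, t⟩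
  obtain ⟨D, hD⟩ : ∃ D : ℝ, D = f a * g c - f c * g a := ⟨_, rfl⟩
  have h' : D ≠ 0 := by rw [hD]; exact h
  refine ⟨((s * g c - t * f c) / D) • a + ((t * f a - s * g a) / D) • c, ?_⟩
  rw [ContinuousLinearMap.prod_apply]
  apply Prod.ext
  · simp only [map_add, map_smul, smul_eq_mul]
    field_simp
    linear_combination (-s) * hD
  · simp only [map_add, map_smul, smul_eq_mul]
    field_simp
    linear_combination (-t) * hD

/-- chart of a level set -/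
theorem exists_chart_model0 {M W : Set (V × ℝ)} {f g b : V → ℝ} (hW : IsOpen W)
    (hsm : ∀ m ∈ W, ContDiffAt ℝ ∞ f m.1 ∧ ContDiffAt ℝ ∞ g m.1 ∧ ContDiffAt ℝ ∞ b m.1)
    (hM : ∀ m ∈ W, m ∈ M ↔ f m.1 = 0 ∧ g m.1 = 0 ∧ m.2 = b m.1)
    (hreg : ∀ m ∈ M, m ∈ W → ∃ a c : V, Wedge (fderiv ℝ f m.1) (fderiv ℝ g m.1) a c ≠ 0)
    (m0 : M) (hm0 : m0.1 ∈ W) :
    ∃ (e : OpenPartialHomeomorph M (EuclideanSpace ℝ (Fin 2))) (π : V →L[ℝ] EuclideanSpace ℝ (Fin 2)),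
      m0 ∈ e.source ∧ (∀ m ∈ e.source, m.1 ∈ W) ∧ (∀ m : M, e m = π m.1.1) ∧
      ContDiffOn ℝ ∞ (fun z => ((e.symm z : M) : V × ℝ)) e.target := by
  classical
  obtain ⟨a, c, hac⟩ := hreg m0.1 m0.2 hm0
  obtain ⟨hf0, hg0, hb0⟩ := hsm m0.1 hm0
  obtain ⟨hfz, hgz, hbz⟩ := (hM m0.1 hm0).1 m0.2
  obtain ⟨π, E, hE⟩ := exists_pi_compl _ (wedge_surj hac)
  obtain ⟨v0, hv0⟩ : ∃ v0, v0 = m0.1.1 := ⟨_, rfl⟩
  rw [← hv0] at hf0 hg0 hb0 hE hfz hgz hbz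
  obtain ⟨Ψ, hΨ⟩ : ∃ Ψ : V → (ℝ × ℝ) × EuclideanSpace ℝ (Fin 2), ∀ v, Ψ v = ((f v, g v), π v) :=
    ⟨_, fun _ => rfl⟩
  have hΨ' : Ψ = fun v => ((f v, g v), π v) := funext hΨ
  have hcd : ∀ v, ContDiffAt ℝ ∞ f v → ContDiffAt ℝ ∞ g v → ContDiffAt ℝ ∞ Ψ v := by
    intro v h1 h2
    rw [hΨ']
    exact (h1.prodMk h2).prodMk π.contDiff.contDiffAt
  have hn : (∞ : WithTop ℕ∞) ≠ 0 := by simp
  have hΨ0 := hcd v0 hf0 hg0
  have hder0 : HasFDerivAt Ψ (E : V →L[ℝ] (ℝ × ℝ) × EuclideanSpace ℝ (Fin 2)) v0 := by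
    rw [hE, hΨ']
    exact ((hf0.differentiableAt hn).hasFDerivAt.prodMk
      (hg0.differentiableAt hn).hasFDerivAt).prodMk π.hasFDerivAt
  obtain ⟨φ, hφ0, hφ⟩ : ∃ φ : OpenPartialHomeomorph V ((ℝ × ℝ) × EuclideanSpace ℝ (Fin 2)),
      v0 ∈ φ.source ∧ ∀ v, φ v = Ψ v :=
    ⟨hΨ0.toOpenPartialHomeomorph Ψ hder0 hn,
      hΨ0.mem_toOpenPartialHomeomorph_source hder0 hn, fun v => rfl⟩
  -- good neighbourhood
  have hWev : ∀ᶠ v in 𝓝 v0, (v, b v) ∈ W := by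
    have h1 : ContinuousAt (fun v => (v, b v)) v0 := continuousAt_id.prodMk hb0.continuousAt
    refine h1.eventually (hW.mem_nhds ?_)
    show (v0, b v0) ∈ W
    rw [← hbz, hv0]
    exact hm0
  have hinv : ∀ᶠ v in 𝓝 v0, ∃ E' : V ≃L[ℝ] (ℝ × ℝ) × EuclideanSpace ℝ (Fin 2),
      (E' : V →L[ℝ] (ℝ × ℝ) × EuclideanSpace ℝ (Fin 2)) = fderiv ℝ Ψ v := by
    have h1 : ContinuousAt (fderiv ℝ Ψ) v0 := hΨ0.continuousAt_fderiv hn
    have h2 := h1.eventually (show _ ∈ 𝓝 (fderiv ℝ Ψ v0) by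
      rw [hder0.fderiv]; exact ContinuousLinearEquiv.nhds E)
    filter_upwards [h2] with v hv
    exact hv
  obtain ⟨N, hNsub, hNo, hN0⟩ := eventually_nhds_iff.1 (hWev.and hinv)
  obtain ⟨ψ, hψs, hψ⟩ : ∃ ψ : OpenPartialHomeomorph V ((ℝ × ℝ) × EuclideanSpace ℝ (Fin 2)),
      ψ.source = φ.source ∩ N ∧ ∀ v, ψ v = Ψ v :=
    ⟨φ.restrOpen N hNo, rfl, hφ⟩
  have hsub : ∀ v ∈ ψ.source, (v, b v) ∈ W ∧ ∃ E' : V ≃L[ℝ] (ℝ × ℝ) × EuclideanSpace ℝ (Fin 2),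
      (E' : V →L[ℝ] (ℝ × ℝ) × EuclideanSpace ℝ (Fin 2)) = fderiv ℝ Ψ v := by
    intro v hv
    rw [hψs] at hv
    exact hNsub v hv.2
  have hψ0 : v0 ∈ ψ.source := by rw [hψs]; exact ⟨hφ0, hN0⟩
  obtain ⟨ξ, hξ⟩ : ∃ ξ : EuclideanSpace ℝ (Fin 2) → V, ∀ z, ξ z = ψ.symm ((0, 0), z) :=
    ⟨_, fun _ => rfl⟩
  have hξt : ∀ z, ((0, 0), z) ∈ ψ.target → ξ z ∈ ψ.source ∧ f (ξ z) = 0 ∧ g (ξ z) = 0 ∧
      π (ξ z) = z := by
    intro z hz
    have h1 : ξ z ∈ ψ.source := by rw [hξ]; exact ψ.map_target hz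
    have h2 : Ψ (ξ z) = ((0, 0), z) := by rw [← hψ, hξ]; exact ψ.right_inv hz
    rw [hΨ] at h2
    have h3 := congrArg (fun q => q.1.1) h2
    have h4 := congrArg (fun q => q.1.2) h2
    have h5 := congrArg (fun q => q.2) h2
    exact ⟨h1, h3, h4, h5⟩
  have hξM : ∀ z, ((0, 0), z) ∈ ψ.target → (ξ z, b (ξ z)) ∈ M := by
    intro z hz
    obtain ⟨h1, h2, h3, h4⟩ := hξt z hz
    exact (hM _ (hsub _ h1).1).2 ⟨h2, h3, rfl⟩
  obtain ⟨inv, hinvf⟩ : ∃ inv : EuclideanSpace ℝ (Fin 2) → M, ∀ z, ((0, 0), z) ∈ ψ.target →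
      (inv z : V × ℝ) = (ξ z, b (ξ z)) :=
    ⟨fun z => if h : (ξ z, b (ξ z)) ∈ M then ⟨(ξ z, b (ξ z)), h⟩ else m0, fun z hz => by
      simp only [dif_pos (hξM z hz)]⟩
  have hξc : ∀ z, ((0, 0), z) ∈ ψ.target → ContDiffAt ℝ ∞ ξ z := by
    intro z hz
    obtain ⟨h1, h2, h3, h4⟩ := hξt z hz
    obtain ⟨h5, E', hE'⟩ := hsub _ h1
    obtain ⟨h6, h7, h8⟩ := hsm _ h5
    have h9 : ContDiffAt ℝ ∞ Ψ (ξ z) := hcd _ h6 h7
    have h10 : HasFDerivAt Ψ (E' : V →L[ℝ] (ℝ × ℝ) × EuclideanSpace ℝ (Fin 2)) (ξ z) := by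
      rw [hE']; exact (h9.differentiableAt hn).hasFDerivAt
    have h11 : ContDiffAt ℝ ∞ ψ.symm ((0, 0), z) := by
      refine ψ.contDiffAt_symm (f₀' := E') hz ?_ ?_
      · rw [← hξ, show (ψ : V → (ℝ × ℝ) × EuclideanSpace ℝ (Fin 2)) = Ψ from funext hψ]
        exact h10
      · rw [← hξ, show (ψ : V → (ℝ × ℝ) × EuclideanSpace ℝ (Fin 2)) = Ψ from funext hψ]
        exact h9
    rw [show ξ = fun z => ψ.symm ((0, 0), z) from funext hξ]
    exact ContDiffAt.comp z (f := fun z : EuclideanSpace ℝ (Fin 2) => (((0 : ℝ), (0 : ℝ)), z))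
      h11 (contDiffAt_const.prodMk contDiffAt_id)
  have htot : ∀ z, ((0, 0), z) ∈ ψ.target → ContDiffAt ℝ ∞ (fun z => (ξ z, b (ξ z))) z := by
    intro z hz
    obtain ⟨h1, h2, h3, h4⟩ := hξt z hz
    obtain ⟨h6, h7, h8⟩ := hsm _ (hsub _ h1).1
    exact (hξc z hz).prodMk (ContDiffAt.comp z h8 (hξc z hz))
  have hopt : IsOpen {z : EuclideanSpace ℝ (Fin 2) | (((0 : ℝ), (0 : ℝ)), z) ∈ ψ.target} :=
    ψ.open_target.preimage (continuous_const.prodMk continuous_id)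
  have hcdo : ContDiffOn ℝ ∞ (fun z => ((inv z : M) : V × ℝ))
      {z : EuclideanSpace ℝ (Fin 2) | (((0 : ℝ), (0 : ℝ)), z) ∈ ψ.target} := by
    refine ContDiffOn.congr (f := fun z => (ξ z, b (ξ z))) ?_ (fun z hz => hinvf z hz)
    exact fun z hz => (htot z hz).contDiffWithinAt
  let e : OpenPartialHomeomorph M (EuclideanSpace ℝ (Fin 2)) :=
    { toFun := fun m => π m.1.1
      invFun := inv
      source := {m : M | m.1 ∈ W ∧ m.1.1 ∈ ψ.source}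
      target := {z | (((0 : ℝ), (0 : ℝ)), z) ∈ ψ.target}
      map_source' := by
        rintro m ⟨h1, h2⟩
        obtain ⟨h3, h4, h5⟩ := (hM m.1 h1).1 m.2
        show (((0 : ℝ), (0 : ℝ)), π m.1.1) ∈ ψ.target
        have h6 := ψ.map_source h2
        rw [hψ, hΨ, h3, h4] at h6
        exact h6
      map_target' := by
        intro z hz
        obtain ⟨h1, h2, h3, h4⟩ := hξt z hz
        show (inv z : V × ℝ) ∈ W ∧ (inv z : V × ℝ).1 ∈ ψ.source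
        rw [hinvf z hz]
        exact ⟨(hsub _ h1).1, h1⟩
      left_inv' := by
        rintro m ⟨h1, h2⟩
        obtain ⟨h3, h4, h5⟩ := (hM m.1 h1).1 m.2
        have h6 := ψ.map_source h2
        rw [hψ, hΨ, h3, h4] at h6
        have h7 : ξ (π m.1.1) = m.1.1 := by
          rw [hξ]
          have h8 := ψ.left_inv h2
          rw [hψ, hΨ, h3, h4] at h8
          exact h8
        apply Subtype.ext
        show (inv (π m.1.1) : V × ℝ) = m.1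
        rw [hinvf _ h6, h7, ← h5]
      right_inv' := by
        intro z hz
        obtain ⟨h1, h2, h3, h4⟩ := hξt z hz
        show π (inv z : V × ℝ).1 = z
        rw [hinvf z hz]
        exact h4
      open_source := by
        have h1 : IsOpen {m : M | m.1 ∈ W} := hW.preimage continuous_subtype_val
        have h2 : IsOpen {m : M | m.1.1 ∈ ψ.source} :=
          ψ.open_source.preimage (continuous_fst.comp continuous_subtype_val)
        exact h1.inter h2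
      open_target := hopt
      continuousOn_toFun :=
        (π.continuous.comp (continuous_fst.comp continuous_subtype_val)).continuousOn
      continuousOn_invFun := by
        rw [Topology.IsInducing.subtypeVal.continuousOn_iff]
        exact hcdo.continuousOn }
  refine ⟨e, π, ?_, ?_, ?_, ?_⟩
  · exact ⟨hm0, by rw [← hv0]; exact hψ0⟩
  · exact fun m hm => hm.1
  · exact fun m => rfl
  · exact hcdo


end Pool.Agent.Helper874.Odd
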