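import Pool.Agent.Helper874.Odd.Base
import Pool.Agent.Helper874.Odd.Jvol1
import Pool.Agent.Helper874.Odd.Jgt1

set_option autoImplicit false
open Set Filter Topology
open scoped Manifold ContDiff

namespace Pool.Agent.Helper874.Odd


noncomputable def gt2_b (i : Fin 2) : EuclideanSpace ℝ (Fin 2) := EuclideanSpace.single i 1

/-- the map to four-space -/
noncomputable def gt2_phi {M : Set (V × ℝ)} (e : OpenPartialHomeomorph M (EuclideanSpace ℝ (Fin 2)))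
    (z : EuclideanSpace ℝ (Fin 2)) : V := ((e.symm z : M) : V × ℝ).1

noncomputable def gt2_vz {M : Set (V × ℝ)} (f g : V → ℝ)
    (e : OpenPartialHomeomorph M (EuclideanSpace ℝ (Fin 2))) (z : EuclideanSpace ℝ (Fin 2)) : ℝ :=
  Vol (fderiv ℝ f (gt2_phi e z)) (fderiv ℝ g (gt2_phi e z))
    (fderiv ℝ (gt2_phi e) z (gt2_b 0)) (fderiv ℝ (gt2_phi e) z (gt2_b 1))

structure gt2_C {M : Set (V × ℝ)} (W : Set (V × ℝ)) (m0 : M)
    (e : OpenPartialHomeomorph M (EuclideanSpace ℝ (Fin 2)))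
    (π : V →L[ℝ] EuclideanSpace ℝ (Fin 2)) : Prop where
  h0 : m0 ∈ e.source
  hW : ∀ m ∈ e.source, m.1 ∈ W
  hπ : ∀ m : M, e m = π m.1.1
  hs : ContDiffOn ℝ ∞ (fun z => ((e.symm z : M) : V × ℝ)) e.target

theorem gt2_phi_smooth {M W : Set (V × ℝ)} {m0 : M}
    {e : OpenPartialHomeomorph M (EuclideanSpace ℝ (Fin 2))}
    {π : V →L[ℝ] EuclideanSpace ℝ (Fin 2)} (h : gt2_C W m0 e π) :
    ContDiffOn ℝ ∞ (gt2_phi e) e.target := h.hs.fst

theorem gt2_phi_diff {M W : Set (V × ℝ)} {m0 : M}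
    {e : OpenPartialHomeomorph M (EuclideanSpace ℝ (Fin 2))}
    {π : V →L[ℝ] EuclideanSpace ℝ (Fin 2)} (h : gt2_C W m0 e π)
    {z : EuclideanSpace ℝ (Fin 2)} (hz : z ∈ e.target) : DifferentiableAt ℝ (gt2_phi e) z :=
  ((gt2_phi_smooth h).contDiffAt (e.open_target.mem_nhds hz)).differentiableAt (by simp)

theorem gt2_der {M W : Set (V × ℝ)} {m0 : M}
    {e : OpenPartialHomeomorph M (EuclideanSpace ℝ (Fin 2))}
    {π : V →L[ℝ] EuclideanSpace ℝ (Fin 2)} (h : gt2_C W m0 e π) {f : V → ℝ}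
    (hf : ∀ m ∈ W, ContDiffAt ℝ ∞ f m.1) (hf0 : ∀ m ∈ M, m ∈ W → f m.1 = 0)
    {z : EuclideanSpace ℝ (Fin 2)} (hz : z ∈ e.target) (v : EuclideanSpace ℝ (Fin 2)) :
    fderiv ℝ f (gt2_phi e z) (fderiv ℝ (gt2_phi e) z v) = 0 := by
  have hfz : DifferentiableAt ℝ f (gt2_phi e z) :=
    (hf _ (h.hW _ (e.map_target hz))).differentiableAt (by simp)
  have h1 : fderiv ℝ (f ∘ gt2_phi e) z = 0 := by
    have h2 : (f ∘ gt2_phi e) =ᶠ[𝓝 z] fun _ => (0 : ℝ) := by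
      filter_upwards [e.open_target.mem_nhds hz] with w hw
      exact hf0 _ (e.symm w).2 (h.hW _ (e.map_target hw))
    rw [h2.fderiv_eq]
    exact fderiv_const_apply 0
  rw [fderiv_comp z hfz (gt2_phi_diff h hz)] at h1
  have h3 := congrArg (fun L => L v) h1
  exact h3

theorem gt2_pi {M W : Set (V × ℝ)} {m0 : M}
    {e : OpenPartialHomeomorph M (EuclideanSpace ℝ (Fin 2))}
    {π : V →L[ℝ] EuclideanSpace ℝ (Fin 2)} (h : gt2_C W m0 e π)
    {z : EuclideanSpace ℝ (Fin 2)} (hz : z ∈ e.target) (v : EuclideanSpace ℝ (Fin 2)) :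
    π (fderiv ℝ (gt2_phi e) z v) = v := by
  have h1 : fderiv ℝ (π ∘ gt2_phi e) z = ContinuousLinearMap.id ℝ _ := by
    have h2 : (π ∘ gt2_phi e) =ᶠ[𝓝 z] fun w => w := by
      filter_upwards [e.open_target.mem_nhds hz] with w hw
      show π ((e.symm w : M) : V × ℝ).1 = w
      rw [← h.hπ, e.right_inv hw]
    rw [h2.fderiv_eq]
    exact fderiv_fun_id
  rw [fderiv_comp z π.differentiableAt (gt2_phi_diff h hz), ContinuousLinearMap.fderiv] at h1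
  have h3 := congrArg (fun L => L v) h1
  exact h3

theorem gt2_vz_ne {M W : Set (V × ℝ)} {f g : V → ℝ}
    (hf : ∀ m ∈ W, ContDiffAt ℝ ∞ f m.1) (hg : ∀ m ∈ W, ContDiffAt ℝ ∞ g m.1)
    (hf0 : ∀ m ∈ M, m ∈ W → f m.1 = 0) (hg0 : ∀ m ∈ M, m ∈ W → g m.1 = 0)
    (hreg : ∀ m ∈ M, m ∈ W → ∃ a c : V, Wedge (fderiv ℝ f m.1) (fderiv ℝ g m.1) a c ≠ 0)
    {m0 : M} {e : OpenPartialHomeomorph M (EuclideanSpace ℝ (Fin 2))}
    {π : V →L[ℝ] EuclideanSpace ℝ (Fin 2)} (h : gt2_C W m0 e π)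
    {z : EuclideanSpace ℝ (Fin 2)} (hz : z ∈ e.target) : gt2_vz f g e z ≠ 0 := by
  apply Vol_ne_zero (hreg _ (e.symm z).2 (h.hW _ (e.map_target hz)))
    (gt2_der h hf hf0 hz _) (gt2_der h hf hf0 hz _) (gt2_der h hg hg0 hz _)
    (gt2_der h hg hg0 hz _)
  intro s t hst
  have h1 := congrArg π hst
  rw [map_add, map_smul, map_smul, gt2_pi h hz, gt2_pi h hz, map_zero] at h1
  have h2 := congrFun (congrArg (fun v : EuclideanSpace ℝ (Fin 2) => v.ofLp) h1) 0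
  have h3 := congrFun (congrArg (fun v : EuclideanSpace ℝ (Fin 2) => v.ofLp) h1) 1
  simp [gt2_b] at h2 h3
  exact ⟨h2, h3⟩

theorem gt2_contF {T : Set (EuclideanSpace ℝ (Fin 2))} (F G : EuclideanSpace ℝ (Fin 2) → V →L[ℝ] ℝ)
    (A C : EuclideanSpace ℝ (Fin 2) → V) (hF : ContinuousOn F T) (hG : ContinuousOn G T)
    (hA : ContinuousOn A T) (hC : ContinuousOn C T) :
    ContinuousOn (fun z => Vol (F z) (G z) (A z) (C z)) T := by
  unfold Vol Wedge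
  fun_prop

theorem gt2_vz_cont {M W : Set (V × ℝ)} {f g : V → ℝ}
    (hf : ∀ m ∈ W, ContDiffAt ℝ ∞ f m.1) (hg : ∀ m ∈ W, ContDiffAt ℝ ∞ g m.1)
    {m0 : M} {e : OpenPartialHomeomorph M (EuclideanSpace ℝ (Fin 2))}
    {π : V →L[ℝ] EuclideanSpace ℝ (Fin 2)} (h : gt2_C W m0 e π) :
    ContinuousOn (gt2_vz f g e) e.target := by
  have hcφ : ContinuousOn (gt2_phi e) e.target := (gt2_phi_smooth h).continuousOn
  have key : ∀ f : V → ℝ, (∀ m ∈ W, ContDiffAt ℝ ∞ f m.1) →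
      ContinuousOn (fun z => fderiv ℝ f (gt2_phi e z)) e.target := by
    intro f hf z hz
    have h1 : ContinuousAt (fderiv ℝ f) (gt2_phi e z) :=
      ((hf _ (h.hW _ (e.map_target hz))).fderiv_right (m := 0) (by simp)).continuousAt
    exact h1.comp_continuousWithinAt (hcφ z hz)
  have hD : ContinuousOn (fderiv ℝ (gt2_phi e)) e.target :=
    (gt2_phi_smooth h).continuousOn_fderiv_of_isOpen e.open_target (by simp)
  exact gt2_contF _ _ _ _ (key f hf) (key g hg) (hD.clm_apply continuousOn_const)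
    (hD.clm_apply continuousOn_const)

theorem gt2_main {M W : Set (V × ℝ)} {f g : V → ℝ}
    (hf : ∀ m ∈ W, ContDiffAt ℝ ∞ f m.1) (hg : ∀ m ∈ W, ContDiffAt ℝ ∞ g m.1)
    {m0 : M} {e : OpenPartialHomeomorph M (EuclideanSpace ℝ (Fin 2))}
    {π : V →L[ℝ] EuclideanSpace ℝ (Fin 2)} (h : gt2_C W m0 e π) (hp : 0 < gt2_vz f g e (e m0)) :
    ∃ (e : OpenPartialHomeomorph M (EuclideanSpace ℝ (Fin 2))) (π : V →L[ℝ] EuclideanSpace ℝ (Fin 2)),
      m0 ∈ e.source ∧ (∀ m ∈ e.source, m.1 ∈ W) ∧ (∀ m : M, e m = π m.1.1) ∧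
      ContDiffOn ℝ ∞ (fun z => ((e.symm z : M) : V × ℝ)) e.target ∧
      ∀ z ∈ e.target, ∀ a c : EuclideanSpace ℝ (Fin 2), 0 < a 0 * c 1 - a 1 * c 0 →
        0 < Vol (fderiv ℝ f (e.symm z : M).1.1) (fderiv ℝ g (e.symm z : M).1.1)
          (fderiv ℝ (fun z => ((e.symm z : M) : V × ℝ).1) z a)
          (fderiv ℝ (fun z => ((e.symm z : M) : V × ℝ).1) z c) := by
  have hopen : IsOpen (e.target ∩ gt2_vz f g e ⁻¹' Set.Ioi 0) :=
    (gt2_vz_cont hf hg h).isOpen_inter_preimage e.open_target isOpen_Ioi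
  have hopen2 : IsOpen (e.source ∩ e ⁻¹' (e.target ∩ gt2_vz f g e ⁻¹' Set.Ioi 0)) :=
    e.isOpen_inter_preimage hopen
  refine ⟨e.restrOpen _ hopen2, π, ?_, ?_, ?_, ?_, ?_⟩
  · rw [OpenPartialHomeomorph.restrOpen_source]
    exact ⟨h.h0, h.h0, e.map_source h.h0, hp⟩
  · intro m hm
    rw [OpenPartialHomeomorph.restrOpen_source] at hm
    exact h.hW m hm.1
  · intro m
    exact h.hπ m
  · apply h.hs.mono
    intro z hz
    exact hz.1
  · intro z hz a c hac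
    have hz1 : z ∈ e.target := hz.1
    have hz2 : e.symm z ∈ e.source ∩ e ⁻¹' (e.target ∩ gt2_vz f g e ⁻¹' Set.Ioi 0) := hz.2
    have hz3 : 0 < gt2_vz f g e z := by
      have h1 := hz2.2.2
      rw [e.right_inv hz1] at h1
      exact h1
    have ha : ∀ a : EuclideanSpace ℝ (Fin 2), a = a 0 • gt2_b 0 + a 1 • gt2_b 1 := by
      intro a
      ext i
      fin_cases i <;> simp [gt2_b]
    have h2 : ∀ a : EuclideanSpace ℝ (Fin 2), fderiv ℝ (gt2_phi e) z a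
        = a 0 • fderiv ℝ (gt2_phi e) z (gt2_b 0) + a 1 • fderiv ℝ (gt2_phi e) z (gt2_b 1) := by
      intro a
      conv_lhs => rw [ha a]
      rw [map_add, map_smul, map_smul]
    show 0 < Vol (fderiv ℝ f (gt2_phi e z)) (fderiv ℝ g (gt2_phi e z))
      (fderiv ℝ (gt2_phi e) z a) (fderiv ℝ (gt2_phi e) z c)
    rw [h2 a, h2 c, Vol_comb]
    exact mul_pos hac hz3

/-- chart of a level set, oriented by the coorientation `df ∧ dg` -/
theorem exists_chart_model {M W : Set (V × ℝ)} {f g b : V → ℝ} (hW : IsOpen W)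
    (hsm : ∀ m ∈ W, ContDiffAt ℝ ∞ f m.1 ∧ ContDiffAt ℝ ∞ g m.1 ∧ ContDiffAt ℝ ∞ b m.1)
    (hM : ∀ m ∈ W, m ∈ M ↔ f m.1 = 0 ∧ g m.1 = 0 ∧ m.2 = b m.1)
    (hreg : ∀ m ∈ M, m ∈ W → ∃ a c : V, Wedge (fderiv ℝ f m.1) (fderiv ℝ g m.1) a c ≠ 0)
    (m0 : M) (hm0 : m0.1 ∈ W) :
    ∃ (e : OpenPartialHomeomorph M (EuclideanSpace ℝ (Fin 2))) (π : V →L[ℝ] EuclideanSpace ℝ (Fin 2)),
      m0 ∈ e.source ∧ (∀ m ∈ e.source, m.1 ∈ W) ∧ (∀ m : M, e m = π m.1.1) ∧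
      ContDiffOn ℝ ∞ (fun z => ((e.symm z : M) : V × ℝ)) e.target ∧
      ∀ z ∈ e.target, ∀ a c : EuclideanSpace ℝ (Fin 2), 0 < a 0 * c 1 - a 1 * c 0 →
        0 < Vol (fderiv ℝ f (e.symm z : M).1.1) (fderiv ℝ g (e.symm z : M).1.1)
          (fderiv ℝ (fun z => ((e.symm z : M) : V × ℝ).1) z a)
          (fderiv ℝ (fun z => ((e.symm z : M) : V × ℝ).1) z c) := by
  obtain ⟨e, π, h1, h2, h3, h4⟩ := exists_chart_model0 hW hsm hM hreg m0 hm0
  have h : gt2_C W m0 e π := ⟨h1, h2, h3, h4⟩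
  have hf : ∀ m ∈ W, ContDiffAt ℝ ∞ f m.1 := fun m hm => (hsm m hm).1
  have hg : ∀ m ∈ W, ContDiffAt ℝ ∞ g m.1 := fun m hm => (hsm m hm).2.1
  have hf0 : ∀ m ∈ M, m ∈ W → f m.1 = 0 := fun m hm hmW => ((hM m hmW).1 hm).1
  have hg0 : ∀ m ∈ M, m ∈ W → g m.1 = 0 := fun m hm hmW => ((hM m hmW).1 hm).2.1
  have hz0 : e m0 ∈ e.target := e.map_source h1
  have hne := gt2_vz_ne hf hg hf0 hg0 hreg h hz0
  rcases lt_or_gt_of_ne hne with hneg | hpos
  · obtain ⟨σ, hσ0, hσ1⟩ : ∃ σ : EuclideanSpace ℝ (Fin 2) ≃L[ℝ] EuclideanSpace ℝ (Fin 2),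
        σ.symm (gt2_b 0) = gt2_b 1 ∧ σ.symm (gt2_b 1) = gt2_b 0 := by
      refine ⟨(LinearIsometryEquiv.piLpCongrLeft 2 ℝ ℝ
        (Equiv.swap (0 : Fin 2) 1)).toContinuousLinearEquiv, ?_, ?_⟩
      · ext i
        fin_cases i <;> simp [gt2_b, LinearIsometryEquiv.piLpCongrLeft_symm]
      · ext i
        fin_cases i <;> simp [gt2_b, LinearIsometryEquiv.piLpCongrLeft_symm]
    have hd : ∀ z, gt2_phi (e.transHomeomorph σ.toHomeomorph) z = gt2_phi e (σ.symm z) :=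
      fun z => rfl
    have h' : gt2_C W m0 (e.transHomeomorph σ.toHomeomorph)
        ((σ : EuclideanSpace ℝ (Fin 2) →L[ℝ] EuclideanSpace ℝ (Fin 2)).comp π) := by
      refine ⟨h1, h2, ?_, ?_⟩
      · intro m
        show σ (e m) = σ (π m.1.1)
        rw [h3]
      · have h5 : ContDiffOn ℝ ∞ (fun z => σ.symm z)
            (e.transHomeomorph σ.toHomeomorph).target := σ.symm.contDiff.contDiffOn
        exact h4.comp h5 (fun z hz => hz)
    refine gt2_main hf hg h' ?_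
    have hz1 : σ.symm (σ (e m0)) = e m0 := σ.symm_apply_apply _
    show 0 < gt2_vz f g (e.transHomeomorph σ.toHomeomorph) (σ (e m0))
    have hder : ∀ v, fderiv ℝ (gt2_phi (e.transHomeomorph σ.toHomeomorph)) (σ (e m0)) v
        = fderiv ℝ (gt2_phi e) (e m0) (σ.symm v) := by
      intro v
      have h6 : gt2_phi (e.transHomeomorph σ.toHomeomorph) = gt2_phi e ∘ σ.symm := rfl
      rw [h6, fderiv_comp _ (by rw [hz1]; exact gt2_phi_diff h hz0) σ.symm.differentiableAt, hz1,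
        ContinuousLinearEquiv.fderiv]
      rfl
    unfold gt2_vz
    rw [hder, hder, hσ0, hσ1, hd, hz1, Vol_swap]
    have h7 : gt2_vz f g e (e m0) < 0 := hneg
    unfold gt2_vz at h7
    linarith
  · exact gt2_main hf hg h hpos



end Pool.Agent.Helper874.Odd
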