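import Pool.Agent.Helper874.Odd.Base
import Pool.Agent.Helper874.Odd.Jvol1
import Pool.Agent.Helper874.Odd.Jgt1
import Pool.Agent.Helper874.Odd.Jgt2

set_option autoImplicit false
open Set Filter Topology
open scoped Manifold ContDiff

namespace Pool.Agent.Helper874.Odd

theorem es_det2 (A : EuclideanSpace ℝ (Fin 2) →L[ℝ] EuclideanSpace ℝ (Fin 2)) :
    A.det = (A (EuclideanSpace.single 0 1)) 0 * (A (EuclideanSpace.single 1 1)) 1 -
      (A (EuclideanSpace.single 0 1)) 1 * (A (EuclideanSpace.single 1 1)) 0 := by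
  rw [ContinuousLinearMap.det,
    ← LinearMap.det_toMatrix (EuclideanSpace.basisFun (Fin 2) ℝ).toBasis, Matrix.det_fin_two]
  simp [LinearMap.toMatrix_apply]
  ring

theorem es_decomp (x : EuclideanSpace ℝ (Fin 2)) :
    x = x 0 • EuclideanSpace.single 0 1 + x 1 • EuclideanSpace.single 1 1 := by
  ext i
  fin_cases i <;> simp

theorem es_ker (f g : V →L[ℝ] ℝ) (h : ∃ a c, Wedge f g a c ≠ 0)
    (D : EuclideanSpace ℝ (Fin 2) →L[ℝ] V) (hD : Function.Injective D)
    (hf : ∀ w, f (D w) = 0) (hg : ∀ w, g (D w) = 0) (a : V) (ha : f a = 0) (hb : g a = 0) :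
    ∃ w, D w = a := by
  set T : V →ₗ[ℝ] ℝ × ℝ := (f : V →ₗ[ℝ] ℝ).prod (g : V →ₗ[ℝ] ℝ) with hT
  have hTs : LinearMap.range T = ⊤ := by
    rw [LinearMap.range_eq_top]
    rintro ⟨x, y⟩
    obtain ⟨p, q, hpq⟩ := h
    unfold Wedge at hpq
    refine ⟨((x * g q - y * f q) / (f p * g q - f q * g p)) • p +
      ((f p * y - g p * x) / (f p * g q - f q * g p)) • q, ?_⟩
    have h1 : T (((x * g q - y * f q) / (f p * g q - f q * g p)) • p +
      ((f p * y - g p * x) / (f p * g q - f q * g p)) • q) =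
      (f (((x * g q - y * f q) / (f p * g q - f q * g p)) • p +
      ((f p * y - g p * x) / (f p * g q - f q * g p)) • q),
      g (((x * g q - y * f q) / (f p * g q - f q * g p)) • p +
      ((f p * y - g p * x) / (f p * g q - f q * g p)) • q)) := rfl
    rw [h1, map_add, map_add, map_smul, map_smul, map_smul, map_smul]
    simp only [smul_eq_mul]
    refine Prod.ext ?_ ?_
    · show (x * g q - y * f q) / (f p * g q - f q * g p) * f p +
        (f p * y - g p * x) / (f p * g q - f q * g p) * f q = x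
      rw [div_mul_eq_mul_div, div_mul_eq_mul_div, ← add_div, div_eq_iff hpq]
      ring
    · show (x * g q - y * f q) / (f p * g q - f q * g p) * g p +
        (f p * y - g p * x) / (f p * g q - f q * g p) * g q = y
      rw [div_mul_eq_mul_div, div_mul_eq_mul_div, ← add_div, div_eq_iff hpq]
      ring
  have hrk := LinearMap.finrank_range_add_finrank_ker T
  rw [hTs, finrank_top] at hrk
  have h2 : Module.finrank ℝ (ℝ × ℝ) = 2 := by simp
  have h4 : Module.finrank ℝ V = 4 := by simp [V]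
  rw [h2, h4] at hrk
  have hDr : Module.finrank ℝ (LinearMap.range (D : EuclideanSpace ℝ (Fin 2) →ₗ[ℝ] V)) = 2 := by
    rw [LinearMap.finrank_range_of_inj hD]
    simp
  have hle : LinearMap.range (D : EuclideanSpace ℝ (Fin 2) →ₗ[ℝ] V) ≤ LinearMap.ker T := by
    rintro _ ⟨w, rfl⟩
    rw [LinearMap.mem_ker]
    exact Prod.ext (hf w) (hg w)
  have heq := Submodule.eq_of_le_of_finrank_eq hle (by omega)
  have ha' : a ∈ LinearMap.ker T := by
    rw [LinearMap.mem_ker]
    exact Prod.ext ha hb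
  rw [← heq] at ha'
  obtain ⟨w, hw⟩ := ha'
  exact ⟨w, hw⟩

/-- an oriented atlas and the projection immersion -/
theorem exists_surface {I : Type} {M : Set (V × ℝ)} (W : I → Set (V × ℝ)) (f g b : I → V → ℝ)
    (hW : ∀ i, IsOpen (W i)) (hcov : ∀ m ∈ M, ∃ i, m ∈ W i)
    (hsm : ∀ i, ∀ m ∈ W i, ContDiffAt ℝ ∞ (f i) m.1 ∧ ContDiffAt ℝ ∞ (g i) m.1 ∧ ContDiffAt ℝ ∞ (b i) m.1)
    (hM : ∀ i, ∀ m ∈ W i, m ∈ M ↔ f i m.1 = 0 ∧ g i m.1 = 0 ∧ m.2 = b i m.1)
    (hreg : ∀ i, ∀ m ∈ M, m ∈ W i → ∃ a c : V, Wedge (fderiv ℝ (f i) m.1) (fderiv ℝ (g i) m.1) a c ≠ 0)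
    (hor : ∀ i j, ∀ m ∈ M, m ∈ W i → m ∈ W j → ∃ k > 0, ∀ a c : V,
      Wedge (fderiv ℝ (f i) m.1) (fderiv ℝ (g i) m.1) a c = k * Wedge (fderiv ℝ (f j) m.1) (fderiv ℝ (g j) m.1) a c) :
    ∃ (_ : ChartedSpace (EuclideanSpace ℝ (Fin 2)) M) (_ : IsManifold (𝓡 2) ∞ M),
      ContMDiff (𝓡 2) 𝓘(ℝ, EuclideanSpace ℝ (Fin 4)) ∞ (fun m : M => toE m.1.1) ∧
      (∀ m : M, Function.Injective
        (mfderiv (𝓡 2) 𝓘(ℝ, EuclideanSpace ℝ (Fin 4)) (fun m : M => toE m.1.1) m)) ∧
      (∀ e ∈ atlas (EuclideanSpace ℝ (Fin 2)) M, ∀ e' ∈ atlas (EuclideanSpace ℝ (Fin 2)) M,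
        ∀ z ∈ (e.symm ≫ₕ e').source, 0 < (fderiv ℝ (e.symm ≫ₕ e') z).det) ∧
      (∀ i, ∀ m : M, m.1 ∈ W i → ∀ a : V, fderiv ℝ (f i) m.1.1 a = 0 → fderiv ℝ (g i) m.1.1 a = 0 →
        ∃ w, mfderiv (𝓡 2) 𝓘(ℝ, EuclideanSpace ℝ (Fin 4)) (fun m : M => toE m.1.1) m w = toE a) := by
  choose idx hidx using (fun m : M => hcov m.1 m.2)
  have H := fun m : M => exists_chart_model (hW (idx m)) (hsm (idx m)) (hM (idx m))
    (fun m' hm' h => hreg (idx m) m' hm' h) m (hidx m)
  choose e π he heW hπ hs hvol using H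
  let C : ChartedSpace (EuclideanSpace ℝ (Fin 2)) M :=
    { atlas := range e
      chartAt := e
      mem_chart_source := he
      chart_mem_atlas := fun x => ⟨x, rfl⟩ }
  have hφ : ∀ y, ContDiffOn ℝ ∞ (fun z => (((e y).symm z : M) : V × ℝ).1) (e y).target := fun y =>
    contDiff_fst.comp_contDiffOn (hs y)
  have hs' : ∀ y, ContDiffOn ℝ ∞ (fun z => toE (((e y).symm z : M) : V × ℝ).1) (e y).target :=
    fun y => toE.contDiff.comp_contDiffOn (hφ y)
  have hman : IsManifold (𝓡 2) ∞ M := by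
    apply isManifold_of_contDiffOn
    rintro _ _ ⟨a, rfl⟩ ⟨b, rfl⟩
    have h1 : ContDiffOn ℝ ∞ (fun z => π b ((((e a).symm z : M) : V × ℝ).1)) (e a).target :=
      (π b).contDiff.comp_contDiffOn (hφ a)
    have h2 : ContDiffOn ℝ ∞ (⇑((e a).symm ≫ₕ e b)) ((e a).symm ≫ₕ e b).source := by
      refine (h1.mono ?_).congr ?_
      · intro z hz
        exact hz.1
      · intro z hz
        exact hπ b _
    simpa using h2
  have hφat : ∀ y, ∀ z ∈ (e y).target, ContDiffAt ℝ ∞ (fun z => (((e y).symm z : M) : V × ℝ).1) z :=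
    fun y z hz => (hφ y z hz).contDiffAt ((e y).open_target.mem_nhds hz)
  have hφd : ∀ y, ∀ z ∈ (e y).target, HasFDerivAt (fun z => (((e y).symm z : M) : V × ℝ).1)
      (fderiv ℝ (fun z => (((e y).symm z : M) : V × ℝ).1) z) z :=
    fun y z hz => ((hφat y z hz).differentiableAt (by simp)).hasFDerivAt
  -- left inverse
  have hleft : ∀ x : M, ∀ v, π x (fderiv ℝ (fun z => (((e x).symm z : M) : V × ℝ).1) (e x x) v) = v := by
    intro x
    have hx : e x x ∈ (e x).target := (e x).map_source (he x)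
    have h6 := (π x).hasFDerivAt.comp (e x x) (hφd x _ hx)
    have h7 : HasFDerivAt (fun z => z)
        ((π x).comp (fderiv ℝ (fun z => (((e x).symm z : M) : V × ℝ).1) (e x x))) (e x x) := by
      apply h6.congr_of_eventuallyEq
      filter_upwards [(e x).open_target.mem_nhds hx] with z hz
      change z = π x ((((e x).symm z : M) : V × ℝ).1)
      rw [← hπ x, (e x).right_inv hz]
    have h8 : (π x).comp (fderiv ℝ (fun z => (((e x).symm z : M) : V × ℝ).1) (e x x))
        = ContinuousLinearMap.id ℝ _ := h7.unique (hasFDerivAt_id _)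
    intro v
    exact congrArg (fun f => f v) h8
  have hmf : ∀ x : M, mfderiv (𝓡 2) 𝓘(ℝ, EuclideanSpace ℝ (Fin 4)) (fun m : M => toE m.1.1) x =
      toE.comp (fderiv ℝ (fun z => (((e x).symm z : M) : V × ℝ).1) (e x x)) := by
    intro x
    have hx : e x x ∈ (e x).target := (e x).map_source (he x)
    have h3 : ContDiffAt ℝ ∞ (fun z => toE (((e x).symm z : M) : V × ℝ).1) (e x x) :=
      ((hs' x) _ hx).contDiffAt ((e x).open_target.mem_nhds hx)
    have hmd : MDifferentiableAt (𝓡 2) 𝓘(ℝ, EuclideanSpace ℝ (Fin 4)) (fun m : M => toE m.1.1) x := by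
      rw [mdifferentiableAt_iff]
      refine ⟨(toE.continuous.comp (continuous_fst.comp continuous_subtype_val)).continuousAt, ?_⟩
      exact (h3.differentiableAt (by simp)).differentiableWithinAt
    rw [hmd.mfderiv]
    have h5 : fderivWithin ℝ (writtenInExtChartAt (𝓡 2) 𝓘(ℝ, EuclideanSpace ℝ (Fin 4)) x
          (fun m : M => toE m.1.1))
        (range (𝓡 2)) ((extChartAt (𝓡 2) x) x)
        = fderiv ℝ (fun z => toE (((e x).symm z : M) : V × ℝ).1) (e x x) := by
      have : range (𝓡 2) = univ := by simp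
      rw [this, fderivWithin_univ]
      rfl
    rw [h5]
    exact (toE.hasFDerivAt.comp (e x x) (hφd x _ hx)).fderiv
  refine ⟨C, hman, ?_, ?_, ?_, ?_⟩
  · intro x
    rw [contMDiffAt_iff]
    refine ⟨(toE.continuous.comp (continuous_fst.comp continuous_subtype_val)).continuousAt, ?_⟩
    have hx : e x x ∈ (e x).target := (e x).map_source (he x)
    have h3 : ContDiffAt ℝ ∞ (fun z => toE (((e x).symm z : M) : V × ℝ).1) (e x x) :=
      ((hs' x) _ hx).contDiffAt ((e x).open_target.mem_nhds hx)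
    have h4 : ContDiffWithinAt ℝ ∞ (fun z => toE (((e x).symm z : M) : V × ℝ).1)
        (range (𝓡 2)) (e x x) := h3.contDiffWithinAt
    exact h4
  · intro x
    rw [hmf x]
    intro v w hvw
    have h1 := toE_injective hvw
    have h2 := congrArg (π x) h1
    exact (hleft x v).symm.trans (h2.trans (hleft x w))
  · rintro _ ⟨a, rfl⟩ _ ⟨b, rfl⟩ z hz
    have hza : z ∈ (e a).target := hz.1
    have hzb : (e a).symm z ∈ (e b).source := hz.2
    set m : M := (e a).symm z with hm
    set z' := e b m with hz'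
    have hz't : z' ∈ (e b).target := (e b).map_source hzb
    have hback : (e b).symm z' = m := (e b).left_inv hzb
    set Da := fderiv ℝ (fun z => (((e a).symm z : M) : V × ℝ).1) z with hDa
    set Db := fderiv ℝ (fun z => (((e b).symm z : M) : V × ℝ).1) z' with hDb
    have hψd : HasFDerivAt (⇑((e a).symm ≫ₕ e b)) ((π b).comp Da) z := by
      have h6 := (π b).hasFDerivAt.comp z (hφd a _ hza)
      apply h6.congr_of_eventuallyEq
      filter_upwards [(e a).open_target.mem_nhds hza] with y hy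
      exact hπ b _
    rw [hψd.fderiv]
    have hcomp : Da = Db.comp ((π b).comp Da) := by
      have h1 : HasFDerivAt (fun z => (((e b).symm z : M) : V × ℝ).1) Db (((e a).symm ≫ₕ e b) z) :=
        hφd b z' hz't
      have h2 := h1.comp z hψd
      have h3 : HasFDerivAt (fun z => (((e a).symm z : M) : V × ℝ).1)
          (Db.comp ((π b).comp Da)) z := by
        apply h2.congr_of_eventuallyEq
        filter_upwards [((e a).symm ≫ₕ e b).open_source.mem_nhds hz] with y hy
        change (((e a).symm y : M) : V × ℝ).1 =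
          (((e b).symm (e b ((e a).symm y)) : M) : V × ℝ).1
        have h9 : (e b).symm (e b ((e a).symm y)) = (e a).symm y := (e b).left_inv hy.2
        rw [h9]
      exact (hφd a z hza).unique h3
    set A := (π b).comp Da with hA
    have hva := hvol a z hza (EuclideanSpace.single 0 1) (EuclideanSpace.single 1 1) (by simp)
    have hvb := hvol b z' hz't (EuclideanSpace.single 0 1) (EuclideanSpace.single 1 1) (by simp)
    rw [hback] at hvb
    obtain ⟨k, hk, hkk⟩ := hor (idx a) (idx b) m.1 m.2 (by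
      have := heW a m (by rw [hm]; exact (e a).map_target hza)
      exact this) (heW b m hzb)
    rw [Vol_congr hkk] at hva
    have hc0 : Da (EuclideanSpace.single 0 1) =
        (A (EuclideanSpace.single 0 1)) 0 • Db (EuclideanSpace.single 0 1) +
        (A (EuclideanSpace.single 0 1)) 1 • Db (EuclideanSpace.single 1 1) := by
      rw [← map_smul, ← map_smul, ← map_add, ← es_decomp]
      exact congrArg (fun f => f (EuclideanSpace.single 0 1)) hcomp
    have hc1 : Da (EuclideanSpace.single 1 1) =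
        (A (EuclideanSpace.single 1 1)) 0 • Db (EuclideanSpace.single 0 1) +
        (A (EuclideanSpace.single 1 1)) 1 • Db (EuclideanSpace.single 1 1) := by
      rw [← map_smul, ← map_smul, ← map_add, ← es_decomp]
      exact congrArg (fun f => f (EuclideanSpace.single 1 1)) hcomp
    rw [← hDa, hc0, hc1, Vol_comb] at hva
    rw [es_det2]
    rw [← mul_assoc] at hva
    have hva2 := (pos_iff_pos_of_mul_pos hva).2 hvb
    exact (pos_iff_pos_of_mul_pos hva2).1 hk
  · intro i m hmi a hfa hga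
    have hx : e m m ∈ (e m).target := (e m).map_source (he m)
    set D := fderiv ℝ (fun z => (((e m).symm z : M) : V × ℝ).1) (e m m) with hD
    have hDinj : Function.Injective D := by
      intro v w hvw
      have h2 := congrArg (π m) hvw
      exact (hleft m v).symm.trans (h2.trans (hleft m w))
    have hWi : ∀ᶠ z in 𝓝 (e m m), (((e m).symm z : M) : V × ℝ) ∈ W i := by
      have h1 : ContinuousAt (fun z => (((e m).symm z : M) : V × ℝ)) (e m m) :=
        (((hs m) _ hx).contDiffAt ((e m).open_target.mem_nhds hx)).continuousAt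
      have h2 : (((e m).symm (e m m) : M) : V × ℝ) ∈ W i := by
        rw [(e m).left_inv (he m)]; exact hmi
      exact h1 ((hW i).mem_nhds h2)
    have hpt : (((e m).symm (e m m) : M) : V × ℝ).1 = m.1.1 := by
      rw [(e m).left_inv (he m)]
    have hfD : ∀ w, fderiv ℝ (f i) m.1.1 (D w) = 0 := by
      intro w
      have h1 : HasFDerivAt (f i) (fderiv ℝ (f i) m.1.1) (((e m).symm (e m m) : M) : V × ℝ).1 := by
        rw [hpt]
        exact ((hsm i m.1 hmi).1.differentiableAt (by simp)).hasFDerivAt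
      have h2 := h1.comp (e m m) (hφd m _ hx)
      have h3 : HasFDerivAt (fun _ : EuclideanSpace ℝ (Fin 2) => (0 : ℝ))
          ((fderiv ℝ (f i) m.1.1).comp D) (e m m) := by
        apply h2.congr_of_eventuallyEq
        filter_upwards [hWi] with z hz
        exact (((hM i _ hz).1 ((e m).symm z).2).1).symm
      have h4 := h3.unique (hasFDerivAt_const (0 : ℝ) (e m m))
      exact congrArg (fun f => f w) h4
    have hgD : ∀ w, fderiv ℝ (g i) m.1.1 (D w) = 0 := by
      intro w
      have h1 : HasFDerivAt (g i) (fderiv ℝ (g i) m.1.1) (((e m).symm (e m m) : M) : V × ℝ).1 := by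
        rw [hpt]
        exact ((hsm i m.1 hmi).2.1.differentiableAt (by simp)).hasFDerivAt
      have h2 := h1.comp (e m m) (hφd m _ hx)
      have h3 : HasFDerivAt (fun _ : EuclideanSpace ℝ (Fin 2) => (0 : ℝ))
          ((fderiv ℝ (g i) m.1.1).comp D) (e m m) := by
        apply h2.congr_of_eventuallyEq
        filter_upwards [hWi] with z hz
        exact (((hM i _ hz).1 ((e m).symm z).2).2.1).symm
      have h4 := h3.unique (hasFDerivAt_const (0 : ℝ) (e m m))
      exact congrArg (fun f => f w) h4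
    obtain ⟨w, hw⟩ := es_ker _ _ (hreg i m.1 m.2 hmi) D hDinj hfD hgD a hfa hga
    refine ⟨w, ?_⟩
    rw [hmf m]
    exact congrArg toE hw



end Pool.Agent.Helper874.Odd
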