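import Pool.Agent.Helper874.Odd.Base
import Pool.Agent.Helper874.Odd.Jbet1
import Pool.Agent.Helper874.Odd.Jbet2
import Pool.Agent.Helper874.Odd.Jmm1
import Pool.Agent.Helper874.Odd.Jmm2
import Pool.Agent.Helper874.Odd.Jalp1
import Pool.Agent.Helper874.Odd.Jder1

set_option autoImplicit false
open Set Filter Topology
open scoped Manifold ContDiff

namespace Pool.Agent.Helper874.Odd

/-- tangent vectors of the two sheets at the double point -/
theorem ker_A1 (s t : ℝ) : fderiv ℝ (F1 .A) (0, -(1 / 4), 0, 0) (s, s, t, 0) = 0 ∧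
    fderiv ℝ (F2 .A) (0, -(1 / 4), 0, 0) (s, s, t, 0) = 0 := by
  have h1 : deriv alp (0:ℝ) = 0 := alp_deriv_zero (by norm_num)
  have h2 : gg (1 / 4) = 1 := gg_one (by norm_num)
  have h3 : gg (-(1 / 4)) = -1 := by rw [gg_neg, h2]
  constructor
  · show fderiv ℝ PsA (0, -(1 / 4), 0, 0) (s, s, t, 0) = 0
    rw [fderiv_PsA]
    simp only [mm_deriv, h1, zero_add, h2, h3]
    ring
  · show fderiv ℝ (fun v : V => v.2.2.2) (0, -(1 / 4), 0, 0) (s, s, t, 0) = 0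
    rw [fderiv_r]
theorem ker_B1 (s t : ℝ) : fderiv ℝ (F1 .B) (0, -(1 / 4), 0, 0) (s, -s, 0, t) = 0 ∧
    fderiv ℝ (F2 .B) (0, -(1 / 4), 0, 0) (s, -s, 0, t) = 0 := by
  have h1 : deriv alp (0:ℝ) = 0 := alp_deriv_zero (by norm_num)
  have h2 : gg (1 / 4) = 1 := gg_one (by norm_num)
  have h3 : gg (-(1 / 4)) = -1 := by rw [gg_neg, h2]
  have h4 : (0:ℝ) - 1 / 4 = -(1 / 4) := by norm_num
  constructor
  · show fderiv ℝ PsB (0, -(1 / 4), 0, 0) (s, -s, 0, t) = 0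
    rw [fderiv_PsB]
    simp only [mm_deriv, h1, h4, h3]
    ring
  · show fderiv ℝ (fun v : V => v.2.2.1) (0, -(1 / 4), 0, 0) (s, -s, 0, t) = 0
    rw [fderiv_p]


end Pool.Agent.Helper874.Odd
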