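import Pool.Agent.Helper874.Odd.Base
import Pool.Agent.Helper874.Odd.Jbet1
import Pool.Agent.Helper874.Odd.Jbet2
import Pool.Agent.Helper874.Odd.Jmm1
import Pool.Agent.Helper874.Odd.Jmm2
import Pool.Agent.Helper874.Odd.Jalp1
import Pool.Agent.Helper874.Odd.JdiscA
import Pool.Agent.Helper874.Odd.Jmod1
import Pool.Agent.Helper874.Odd.Jopn

set_option autoImplicit false
open Set Filter Topology
open scoped Manifold ContDiff

namespace Pool.Agent.Helper874.Odd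

theorem lab_zero_of_abs {v : V} (h : |v.2.2.1| = 1) : lab v = 0 := by
  unfold lab
  have h1 : v.2.2.1 ^ 2 = 1 := by rw [← sq_abs, h]; norm_num
  rw [expNegInvGlue.zero_of_nonpos (show 1 / 2 - v.2.2.1 ^ 2 ≤ 0 by rw [h1]; norm_num), mul_zero]

theorem nz_pt : nz ((0, 1 / 4, 0, 0) : V) = 0 := by
  simp [nz, X2]

theorem nw_pt : nw ((0, 1 / 4, 0, 0) : V) = 0 := by
  simp [nw, X1]

theorem nz_nonneg (v : V) : 0 ≤ nz v := Real.sqrt_nonneg _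

theorem nw_nonneg (v : V) : 0 ≤ nw v := Real.sqrt_nonneg _

/-- vertices with small second coordinate -/
theorem vert_A {q : ℝ × ℝ}
    (h : q ∈ ({(1, 0), (0, 1), (-1, 1), (-1, 0), (0, -1), (1, -1)} : Set (ℝ × ℝ)))
    (hr : |q.2| < 1 / 2) : |q.1| = 1 ∧ q.2 = 0 := by
  simp only [mem_insert_iff, mem_singleton_iff] at h
  rcases h with h | h | h | h | h | h <;> subst h
  · simp
  · exfalso; norm_num at hr
  · exfalso; norm_num at hr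
  · simp
  · exfalso; norm_num at hr
  · exfalso; norm_num at hr

theorem vert_B {q : ℝ × ℝ}
    (h : q ∈ ({(1, 0), (0, 1), (-1, 1), (-1, 0), (0, -1), (1, -1)} : Set (ℝ × ℝ)))
    (hp : |q.1| < 1 / 2) : |q.2| = 1 ∧ q.1 = 0 := by
  simp only [mem_insert_iff, mem_singleton_iff] at h
  rcases h with h | h | h | h | h | h <;> subst h
  · exfalso; norm_num at hp
  · simp
  · exfalso; norm_num at hp
  · exfalso; norm_num at hp
  · simp
  · exfalso; norm_num at hp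

theorem mem_M0_A {v : V} (hk : kA v < 5 / 8) (hr : v.2.2.2 = 0) (hp : |v.2.2.1| = 1) :
    v ∈ M0 := by
  obtain ⟨hx, hy⟩ := abs_lt_of_kA hk
  rw [M0_flat hx hy]
  rcases (abs_eq (by norm_num : (0 : ℝ) ≤ 1)).1 hp with h | h
  · have : v.2.2 = (1, 0) := Prod.ext h hr
    rw [this]; simp
  · have : v.2.2 = (-1, 0) := Prod.ext h hr
    rw [this]; simp

theorem mem_M0_B {v : V} (hk : kB v < 5 / 8) (hp : v.2.2.1 = 0) (hr : |v.2.2.2| = 1) :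
    v ∈ M0 := by
  obtain ⟨hx, hy⟩ := abs_lt_of_kB hk
  rw [M0_flat hx hy]
  rcases (abs_eq (by norm_num : (0 : ℝ) ≤ 1)).1 hr with h | h
  · have : v.2.2 = (0, 1) := Prod.ext hp h
    rw [this]; simp
  · have : v.2.2 = (0, -1) := Prod.ext hp h
    rw [this]; simp

theorem M0_A {v : V} (hv : v ∈ M0) (hk : kA v < 5 / 8) (hr : |v.2.2.2| < 1 / 2) :
    |v.2.2.1| = 1 ∧ v.2.2.2 = 0 := by
  obtain ⟨hx, hy⟩ := abs_lt_of_kA hk
  exact vert_A ((M0_flat hx hy).1 hv) hr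

theorem M0_B {v : V} (hv : v ∈ M0) (hk : kB v < 5 / 8) (hp : |v.2.2.1| < 1 / 2) :
    |v.2.2.2| = 1 ∧ v.2.2.1 = 0 := by
  obtain ⟨hx, hy⟩ := abs_lt_of_kB hk
  exact vert_B ((M0_flat hx hy).1 hv) hp

/-- the local models cover the surface -/
theorem Wk_cover {m : V × ℝ} (hm : m ∈ MM) : ∃ k, m ∈ Wk k := by
  obtain ⟨v, s⟩ := m
  have hm' : (s = 0 ∧ (v ∈ M0 \ (DiA ∪ DiB) ∨ v ∈ SB \ DB ∨ v ∈ SC)) ∨
    (s = lab v ∧ v ∈ SA \ DA) := hm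
  clear hm
  by_cases hnear : nz v < 1 / 8 ∧ nw v < 1 / 8
  · obtain ⟨hz, hw⟩ := hnear
    obtain ⟨-, -, -, -, -, -, -, -, -, -, -, -, hM0, hSA, hSB⟩ := near_facts hz hw
    rcases (nz_nonneg v).lt_or_eq with h1 | h1
    · exact ⟨.C, h1, hz, hw⟩
    rcases (nw_nonneg v).lt_or_eq with h2 | h2
    · exact ⟨.D, h2, hz, hw⟩
    exfalso
    rcases hm' with ⟨-, h | h | h⟩ | ⟨-, h⟩
    · exact hM0 h.1
    · obtain ⟨ha, hb⟩ := hSB.1 h.1
      exact h.2 ⟨ha, hb, by rw [← h2]; norm_num⟩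
    · exact (SC_facts h).2 ⟨h1.symm, h2.symm⟩
    · obtain ⟨ha, hb⟩ := hSA.1 h.1
      exact h.2 ⟨ha, hb, by rw [← h1]; norm_num⟩
  · have hCb : v ∉ Cb := by
      rintro ⟨h1, h2⟩
      exact hnear ⟨by linarith, by linarith⟩
    have hpt : v ≠ (0, 1 / 4, 0, 0) := by
      rintro rfl
      exact hnear ⟨by rw [nz_pt]; norm_num, by rw [nw_pt]; norm_num⟩
    rcases hm' with ⟨hs, h | h | h⟩ | ⟨hs, h⟩
    · by_cases hA : v ∈ Abig
      · obtain ⟨hr, hp, hk⟩ := hA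
        have hk' : kA v < 5 / 8 := by linarith
        have hr2 : |v.2.2.2| < 1 / 2 := by rw [hr]; norm_num
        have hp1 := (M0_A h.1 hk' hr2).1
        refine ⟨.A, hk', hr2, hCb, ?_⟩
        rintro ⟨-, hSB⟩
        have hp0 : v.2.2.1 = 0 := hSB.1
        rw [hp0] at hp1
        norm_num at hp1
      · by_cases hB : v ∈ Bbig
        · obtain ⟨hp, hr, hk⟩ := hB
          have hk' : kB v < 5 / 8 := by linarith
          have hp2 : |v.2.2.1| < 1 / 2 := by rw [hp]; norm_num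
          have hr1 := (M0_B h.1 hk' hp2).1
          refine ⟨.B, hk', hp2, hCb, ?_⟩
          rintro ⟨-, hSA⟩
          have hr0 : v.2.2.2 = 0 := hSA.1
          rw [hr0] at hr1
          norm_num at hr1
        · exact ⟨.Z, hCb, hA, hB⟩
    · have hp0 : v.2.2.1 = 0 := h.1.1
      have hk : kB v ≤ 9 / 16 := h.1.2.1
      refine ⟨.B, show kB v < 5 / 8 by linarith, show |v.2.2.1| < 1 / 2 by rw [hp0]; norm_num,
        hCb, ?_⟩
      rintro ⟨hl, hSA⟩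
      have hl' : s = lab v := hl
      rcases SA_SB hSA h.1 with h' | h'
      · exact hpt h'
      · have h' : v = (0, -(1 / 4), 0, 0) := h'
        subst h'
        exact lab_pt (by rw [← hl', hs])
    · exact absurd (SC_facts h).1 hCb
    · have hr0 : v.2.2.2 = 0 := h.1.1
      have hk : kA v ≤ 9 / 16 := h.1.2.1
      refine ⟨.A, show kA v < 5 / 8 by linarith, show |v.2.2.2| < 1 / 2 by rw [hr0]; norm_num,
        hCb, ?_⟩
      rintro ⟨hl, hSB⟩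
      have hl' : s = 0 := hl
      rcases SA_SB h.1 hSB with h' | h'
      · exact hpt h'
      · subst h'
        exact lab_pt (by rw [← hs, hl'])

theorem MM_Z {m : V × ℝ} (hk : m ∈ Wk .Z) : m ∈ MM ↔ F1 .Z m.1 = 0 ∧ F2 .Z m.1 = 0 ∧ m.2 = bk .Z m.1 := by
  obtain ⟨v, s⟩ := m
  obtain ⟨hCb, hA, hB⟩ : v ∉ Cb ∧ v ∉ Abig ∧ v ∉ Bbig := hk
  show ((s = 0 ∧ (v ∈ M0 \ (DiA ∪ DiB) ∨ v ∈ SB \ DB ∨ v ∈ SC)) ∨
    (s = lab v ∧ v ∈ SA \ DA)) ↔ G1 v = 0 ∧ G2 v = 0 ∧ s = 0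
  constructor
  · rintro (⟨hs, h | h | h⟩ | ⟨hs, h⟩)
    · exact ⟨h.1.1, h.1.2, hs⟩
    · exact absurd ⟨h.1.1, (SB_facts h.1).1, h.1.2.1⟩ hB
    · exact absurd (SC_facts h).1 hCb
    · exact absurd ⟨h.1.1, (SA_facts h.1).1, h.1.2.1⟩ hA
  · rintro ⟨h1, h2, hs⟩
    refine Or.inl ⟨hs, Or.inl ⟨⟨h1, h2⟩, ?_⟩⟩
    rintro (h | h)
    · exact hA ⟨h.1, h.2.1.le, h.2.2.le⟩
    · exact hB ⟨h.1, h.2.1.le, h.2.2.le⟩

theorem MM_A {m : V × ℝ} (hk : m ∈ Wk .A) : m ∈ MM ↔ F1 .A m.1 = 0 ∧ F2 .A m.1 = 0 ∧ m.2 = bk .A m.1 := by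
  obtain ⟨v, s⟩ := m
  obtain ⟨hkA, hr, hCb, hSB⟩ : kA v < 5 / 8 ∧ |v.2.2.2| < 1 / 2 ∧ v ∉ Cb ∧ ¬ (s = 0 ∧ v ∈ SB) := hk
  show ((s = 0 ∧ (v ∈ M0 \ (DiA ∪ DiB) ∨ v ∈ SB \ DB ∨ v ∈ SC)) ∨
    (s = lab v ∧ v ∈ SA \ DA)) ↔ PsA v = 0 ∧ v.2.2.2 = 0 ∧ s = lab v
  constructor
  · rintro (⟨hs, h | h | h⟩ | ⟨hs, h⟩)
    · obtain ⟨hp1, hr0⟩ := M0_A h.1 hkA hr
      have hkge : 9 / 16 ≤ kA v := by
        by_contra hlt
        push Not at hlt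
        exact h.2 (Or.inl ⟨hr0, hp1, hlt⟩)
      refine ⟨?_, hr0, ?_⟩
      · unfold PsA
        rw [alp_eq_one_iff.2 hp1, bet_eq_zero (by linarith)]
        norm_num
      · rw [hs, lab_zero_of_abs hp1]
    · exact absurd ⟨hs, h.1⟩ hSB
    · exact absurd (SC_facts h).1 hCb
    · exact ⟨h.1.2.2, h.1.1, hs⟩
  · rintro ⟨h1, h2, hs⟩
    by_cases hle : kA v ≤ 9 / 16
    · exact Or.inr ⟨hs, ⟨h2, hle, h1⟩, fun h => hCb (DA_facts h).2.1⟩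
    · push Not at hle
      have hb : bet (kA v - 1 / 2) = 0 := bet_eq_zero (by linarith)
      unfold PsA at h1
      rw [hb] at h1
      have hp1 : |v.2.2.1| = 1 := alp_eq_one_iff.1 (by linarith)
      refine Or.inl ⟨by rw [hs, lab_zero_of_abs hp1], Or.inl ⟨mem_M0_A hkA h2 hp1, ?_⟩⟩
      rintro (h | h)
      · have : kA v < 9 / 16 := h.2.2
        linarith
      · have : v.2.2.1 = 0 := h.1
        rw [this] at hp1
        norm_num at hp1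

theorem MM_B {m : V × ℝ} (hk : m ∈ Wk .B) : m ∈ MM ↔ F1 .B m.1 = 0 ∧ F2 .B m.1 = 0 ∧ m.2 = bk .B m.1 := by
  obtain ⟨v, s⟩ := m
  obtain ⟨hkB, hp, hCb, hSA⟩ :
    kB v < 5 / 8 ∧ |v.2.2.1| < 1 / 2 ∧ v ∉ Cb ∧ ¬ (s = lab v ∧ v ∈ SA) := hk
  show ((s = 0 ∧ (v ∈ M0 \ (DiA ∪ DiB) ∨ v ∈ SB \ DB ∨ v ∈ SC)) ∨
    (s = lab v ∧ v ∈ SA \ DA)) ↔ PsB v = 0 ∧ v.2.2.1 = 0 ∧ s = 0
  constructor
  · rintro (⟨hs, h | h | h⟩ | ⟨hs, h⟩)
    · obtain ⟨hr1, hp0⟩ := M0_B h.1 hkB hp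
      have hkge : 9 / 16 ≤ kB v := by
        by_contra hlt
        push Not at hlt
        exact h.2 (Or.inr ⟨hp0, hr1, hlt⟩)
      refine ⟨?_, hp0, hs⟩
      unfold PsB
      rw [alp_eq_one_iff.2 hr1, bet_eq_zero (by linarith)]
      norm_num
    · exact ⟨h.1.2.2, h.1.1, hs⟩
    · exact absurd (SC_facts h).1 hCb
    · exact absurd ⟨hs, h.1⟩ hSA
  · rintro ⟨h1, h2, hs⟩
    by_cases hle : kB v ≤ 9 / 16
    · exact Or.inl ⟨hs, Or.inr (Or.inl ⟨⟨h2, hle, h1⟩, fun h => hCb (DB_facts h).2.1⟩)⟩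
    · push Not at hle
      have hb : bet (kB v - 1 / 2) = 0 := bet_eq_zero (by linarith)
      unfold PsB at h1
      rw [hb] at h1
      have hr1 : |v.2.2.2| = 1 := alp_eq_one_iff.1 (by linarith)
      refine Or.inl ⟨hs, Or.inl ⟨mem_M0_B hkB h2 hr1, ?_⟩⟩
      rintro (h | h)
      · have : v.2.2.2 = 0 := h.1
        rw [this] at hr1
        norm_num at hr1
      · have : kB v < 9 / 16 := h.2.2
        linarith


end Pool.Agent.Helper874.Odd
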