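import Pool.Agent.Helper874.Odd.Base
import Pool.Agent.Helper874.Odd.Jbet1
import Pool.Agent.Helper874.Odd.Jbet2
import Pool.Agent.Helper874.Odd.Jqf1
import Pool.Agent.Helper874.Odd.Jqf2
import Pool.Agent.Helper874.Odd.Jmm1
import Pool.Agent.Helper874.Odd.Jmm2
import Pool.Agent.Helper874.Odd.Jalp1
import Pool.Agent.Helper874.Odd.Jmod1

set_option autoImplicit false
open Set Filter Topology
open scoped Manifold ContDiff

namespace Pool.Agent.Helper874.Odd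

theorem polar_aux (a b : ℝ) : ∃ t : ℝ, a = Real.sqrt (a ^ 2 + b ^ 2) * Real.cos t ∧
    b = Real.sqrt (a ^ 2 + b ^ 2) * Real.sin t := by
  have hn : ‖(⟨a, b⟩ : ℂ)‖ = Real.sqrt (a ^ 2 + b ^ 2) := by
    rw [Complex.norm_def, Complex.normSq_mk, sq, sq]
  refine ⟨Complex.arg ⟨a, b⟩, ?_, ?_⟩
  · rw [← hn, Complex.norm_mul_cos_arg]
  · rw [← hn, Complex.norm_mul_sin_arg]

theorem sqrt_polar_aux (P t : ℝ) (hP : 0 ≤ P) :
    Real.sqrt ((P * Real.cos t) ^ 2 + (P * Real.sin t) ^ 2) = P := by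
  have h : (P * Real.cos t) ^ 2 + (P * Real.sin t) ^ 2 = P ^ 2 := by
    have := Real.sin_sq_add_cos_sq t
    linear_combination P ^ 2 * this
  rw [h, Real.sqrt_sq hP]

theorem core_C {v : V} (h0 : 0 < nz v) (hz : nz v < 1 / 8) (hw : nw v < 1 / 8) :
    (v ∈ SC ∨ v ∈ SA \ DA) ↔ (v.2.2.2 + qf (nz v) * v.2.2.1 / nz v = 0 ∧
      X1 v - qf (nz v) * X2 v / nz v = 0) := by
  obtain ⟨_, _, _, _, _, _, _, _, _, _, _, _, _, hSA, hSB⟩ := near_facts hz hw
  constructor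
  · rintro (⟨P, Q, t, hP, hQ, hP1, hQ1, hb, e1, e2, e3, e4⟩ | ⟨hA, hD⟩)
    · have hnz : nz v = P := by
        unfold nz
        rw [e1, e2]
        exact sqrt_polar_aux P t hP
      rw [hnz] at h0 ⊢
      have hQq : Q = qf P := qf_unique h0 hQ hQ1 hb
      rw [e1, e2, e3, e4, ← hQq]
      have hP0 : P ≠ 0 := h0.ne'
      constructor
      · field_simp
        ring
      · field_simp
        ring
    · obtain ⟨ha, hb⟩ := hSA.mp hA
      have hnz : 1 / 16 ≤ nz v := by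
        by_contra hcon
        exact hD ⟨ha, hb, not_le.mp hcon⟩
      rw [qf_eq_zero hnz, ha, hb]
      simp
  · rintro ⟨e1, e2⟩
    by_cases hnz : 1 / 16 ≤ nz v
    · right
      rw [qf_eq_zero hnz] at e1 e2
      have ha : X1 v = 0 := by simpa using e2
      have hb : v.2.2.2 = 0 := by simpa using e1
      exact ⟨hSA.mpr ⟨ha, hb⟩, fun hD => absurd hD.2.2 (not_lt.mpr hnz)⟩
    · left
      push Not at hnz
      obtain ⟨t, ht1, ht2⟩ := polar_aux (X2 v) v.2.2.1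
      have hnzd : Real.sqrt (X2 v ^ 2 + v.2.2.1 ^ 2) = nz v := rfl
      rw [hnzd] at ht1 ht2
      have hne : nz v ≠ 0 := h0.ne'
      refine ⟨nz v, qf (nz v), t, h0.le, qf_nonneg h0, hnz.le, (qf_lt h0).le, ?_, ht1, ht2, ?_, ?_⟩
      · rw [bet_qf h0]
        ring
      · have h3 : X1 v = qf (nz v) * X2 v / nz v := by linarith
        have h4 : X2 v / nz v = Real.cos t := by
          rw [div_eq_iff hne, mul_comm]
          exact ht1
        rw [h3, mul_div_assoc, h4]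
      · have h3 : v.2.2.2 = -(qf (nz v) * v.2.2.1 / nz v) := by linarith
        have h4 : v.2.2.1 / nz v = Real.sin t := by
          rw [div_eq_iff hne, mul_comm]
          exact ht2
        rw [h3, mul_div_assoc, h4]

theorem core_D {v : V} (h0 : 0 < nw v) (hz : nz v < 1 / 8) (hw : nw v < 1 / 8) :
    (v ∈ SC ∨ v ∈ SB \ DB) ↔ (v.2.2.1 + qf (nw v) * v.2.2.2 / nw v = 0 ∧
      X2 v - qf (nw v) * X1 v / nw v = 0) := by
  obtain ⟨_, _, _, _, _, _, _, _, _, _, _, _, _, hSA, hSB⟩ := near_facts hz hw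
  constructor
  · rintro (⟨P, Q, t, hP, hQ, hP1, hQ1, hb, e1, e2, e3, e4⟩ | ⟨hA, hD⟩)
    · have hnw : nw v = Q := by
        unfold nw
        rw [e3, e4, neg_sq]
        exact sqrt_polar_aux Q t hQ
      rw [hnw] at h0 ⊢
      have hPq : P = qf Q := qf_unique h0 hP hP1 (by rw [add_comm]; exact hb)
      rw [e1, e2, e3, e4, ← hPq]
      have hQ0 : Q ≠ 0 := h0.ne'
      constructor
      · field_simp
        ring
      · field_simp
        ring
    · obtain ⟨ha, hb⟩ := hSB.mp hA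
      have hnw : 1 / 16 ≤ nw v := by
        by_contra hcon
        exact hD ⟨ha, hb, not_le.mp hcon⟩
      rw [qf_eq_zero hnw, ha, hb]
      simp
  · rintro ⟨e1, e2⟩
    by_cases hnw : 1 / 16 ≤ nw v
    · right
      rw [qf_eq_zero hnw] at e1 e2
      have ha : X2 v = 0 := by simpa using e2
      have hb : v.2.2.1 = 0 := by simpa using e1
      exact ⟨hSB.mpr ⟨ha, hb⟩, fun hD => absurd hD.2.2 (not_lt.mpr hnw)⟩
    · left
      push Not at hnw
      obtain ⟨t, ht1, ht2⟩ := polar_aux (X1 v) (-v.2.2.2)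
      have hnwd : Real.sqrt (X1 v ^ 2 + (-v.2.2.2) ^ 2) = nw v := by
        rw [neg_sq]
        rfl
      rw [hnwd] at ht1 ht2
      have hne : nw v ≠ 0 := h0.ne'
      refine ⟨qf (nw v), nw v, t, qf_nonneg h0, h0.le, (qf_lt h0).le, hnw.le, ?_, ?_, ?_, ht1, ?_⟩
      · rw [bet_qf h0]
        ring
      · have h3 : X2 v = qf (nw v) * X1 v / nw v := by linarith
        have h4 : X1 v / nw v = Real.cos t := by
          rw [div_eq_iff hne, mul_comm]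
          exact ht1
        rw [h3, mul_div_assoc, h4]
      · have h3 : v.2.2.1 = qf (nw v) * (-v.2.2.2) / nw v := by
          have : qf (nw v) * (-v.2.2.2) / nw v = -(qf (nw v) * v.2.2.2 / nw v) := by ring
          rw [this]
          linarith
        have h4 : (-v.2.2.2) / nw v = Real.sin t := by
          rw [div_eq_iff hne, mul_comm]
          exact ht2
        rw [h3, mul_div_assoc, h4]
      · linarith

theorem nzpos_notSB {v : V} (h0 : 0 < nz v) (hz : nz v < 1 / 8) (hw : nw v < 1 / 8) :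
    v ∉ SB := by
  obtain ⟨_, _, _, _, _, _, _, _, _, _, _, _, _, hSA, hSB⟩ := near_facts hz hw
  intro h
  obtain ⟨ha, hb⟩ := hSB.mp h
  have : nz v = 0 := by
    unfold nz
    rw [ha, hb]
    simp
  linarith

theorem nwpos_notSA {v : V} (h0 : 0 < nw v) (hz : nz v < 1 / 8) (hw : nw v < 1 / 8) :
    v ∉ SA := by
  obtain ⟨_, _, _, _, _, _, _, _, _, _, _, _, _, hSA, hSB⟩ := near_facts hz hw
  intro h
  obtain ⟨ha, hb⟩ := hSA.mp h
  have : nw v = 0 := by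
    unfold nw
    rw [ha, hb]
    simp
  linarith

theorem MM_C {m : V × ℝ} (hk : m ∈ Wk .C) : m ∈ MM ↔ F1 .C m.1 = 0 ∧ F2 .C m.1 = 0 ∧ m.2 = bk .C m.1 := by 
  obtain ⟨h0, hz, hw⟩ := hk
  have hc := core_C h0 hz hw
  have hnSB := nzpos_notSB h0 hz hw
  obtain ⟨_, _, _, _, _, _, _, _, _, _, _, hlab, hM0, _, _⟩ := near_facts hz hw
  show ((m.2 = 0 ∧ (m.1 ∈ M0 \ (DiA ∪ DiB) ∨ m.1 ∈ SB \ DB ∨ m.1 ∈ SC)) ∨
    (m.2 = lab m.1 ∧ m.1 ∈ SA \ DA)) ↔
    (m.1.2.2.2 + qf (nz m.1) * m.1.2.2.1 / nz m.1 = 0 ∧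
      X1 m.1 - qf (nz m.1) * X2 m.1 / nz m.1 = 0 ∧ m.2 = 0)
  rw [hlab]
  constructor
  · rintro (⟨h1, (h2 | h2 | h2)⟩ | ⟨h1, h2⟩)
    · exact absurd h2.1 hM0
    · exact absurd h2.1 hnSB
    · have := hc.mp (Or.inl h2)
      exact ⟨this.1, this.2, h1⟩
    · have := hc.mp (Or.inr h2)
      exact ⟨this.1, this.2, h1⟩
  · rintro ⟨h1, h2, h3⟩
    rcases hc.mpr ⟨h1, h2⟩ with h | h
    · exact Or.inl ⟨h3, Or.inr (Or.inr h)⟩
    · exact Or.inr ⟨h3, h⟩
theorem MM_D {m : V × ℝ} (hk : m ∈ Wk .D) : m ∈ MM ↔ F1 .D m.1 = 0 ∧ F2 .D m.1 = 0 ∧ m.2 = bk .D m.1 := by 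
  obtain ⟨h0, hz, hw⟩ := hk
  have hc := core_D h0 hz hw
  have hnSA := nwpos_notSA h0 hz hw
  obtain ⟨_, _, _, _, _, _, _, _, _, _, _, hlab, hM0, _, _⟩ := near_facts hz hw
  show ((m.2 = 0 ∧ (m.1 ∈ M0 \ (DiA ∪ DiB) ∨ m.1 ∈ SB \ DB ∨ m.1 ∈ SC)) ∨
    (m.2 = lab m.1 ∧ m.1 ∈ SA \ DA)) ↔
    (m.1.2.2.1 + qf (nw m.1) * m.1.2.2.2 / nw m.1 = 0 ∧
      X2 m.1 - qf (nw m.1) * X1 m.1 / nw m.1 = 0 ∧ m.2 = 0)
  rw [hlab]
  constructor
  · rintro (⟨h1, (h2 | h2 | h2)⟩ | ⟨h1, h2⟩)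
    · exact absurd h2.1 hM0
    · have := hc.mp (Or.inr h2)
      exact ⟨this.1, this.2, h1⟩
    · have := hc.mp (Or.inl h2)
      exact ⟨this.1, this.2, h1⟩
    · exact absurd h2.1 hnSA
  · rintro ⟨h1, h2, h3⟩
    rcases hc.mpr ⟨h1, h2⟩ with h | h
    · exact Or.inl ⟨h3, Or.inr (Or.inr h)⟩
    · exact Or.inl ⟨h3, Or.inr (Or.inl h)⟩


end Pool.Agent.Helper874.Odd
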