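import Pool.Agent.Helper874.Odd.Base
import Pool.Agent.Helper874.Odd.Jbet1
import Pool.Agent.Helper874.Odd.Jbet2
import Pool.Agent.Helper874.Odd.Jmm1
import Pool.Agent.Helper874.Odd.Jmm2
import Pool.Agent.Helper874.Odd.Jalp1
import Pool.Agent.Helper874.Odd.JdiscA
import Pool.Agent.Helper874.Odd.Jder1
import Pool.Agent.Helper874.Odd.JderC
import Pool.Agent.Helper874.Odd.Jmod1
import Pool.Agent.Helper874.Odd.Jqf1
import Pool.Agent.Helper874.Odd.Jqf2

set_option autoImplicit false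
open Set Filter Topology
open scoped Manifold ContDiff

namespace Pool.Agent.Helper874.Odd

theorem orAC_bet_one {x : ℝ} (h : bet x = 1) : x = 0 := by
  have hx : x ≤ 1 / 16 := by
    by_contra hcon
    push Not at hcon
    rw [bet_eq_zero hcon.le] at h
    norm_num at h
  apply bet_strictAntiOn.injOn (mem_Iic.2 hx) (mem_Iic.2 (by norm_num))
  rw [h, bet_zero]

theorem orAC_qf_deriv {P : ℝ} (hP : 1 / 16 < P) : deriv qf P = 0 := by
  have h : qf =ᶠ[𝓝 P] fun _ => (0 : ℝ) := by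
    filter_upwards [Ioi_mem_nhds hP] with x hx
    exact qf_eq_zero (le_of_lt hx)
  rw [h.deriv_eq, deriv_const]

theorem orAC_polar (x y : ℝ) : ∃ t : ℝ, x = Real.sqrt (x ^ 2 + y ^ 2) * Real.cos t ∧
    y = Real.sqrt (x ^ 2 + y ^ 2) * Real.sin t := by
  have h : Real.sqrt (x ^ 2 + y ^ 2) = ‖(⟨x, y⟩ : ℂ)‖ := by
    rw [Complex.norm_eq_sqrt_sq_add_sq]
  refine ⟨Complex.arg ⟨x, y⟩, ?_, ?_⟩
  · rw [h, Complex.norm_mul_cos_arg]
  · rw [h, Complex.norm_mul_sin_arg]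

/-- the coorientations of the models agree where they overlap: A and C, B and D -/
theorem or_AC {m : V × ℝ} (hm : m ∈ MM) (h1 : m ∈ Wk .A) (h2 : m ∈ Wk .C)
    (hF : F1 .A m.1 = 0 ∧ F2 .A m.1 = 0) : ∃ k > 0, ∀ a c : V,
    Wedge (fderiv ℝ (F1 .A) m.1) (fderiv ℝ (F2 .A) m.1) a c = k * Wedge (fderiv ℝ (F1 .C) m.1) (fderiv ℝ (F2 .C) m.1) a c := by
  obtain ⟨h1a, h1b, h1c, h1d⟩ := h1
  obtain ⟨h2a, h2b, h2c⟩ := h2
  obtain ⟨hF1, hF2⟩ := hF
  obtain ⟨n1, n2, n3, n4, n5, n6, n7, n8, n9, n10, n11, -⟩ := near_facts h2b h2c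
  generalize m.1 = v at *
  have hF1' : alp v.2.2.1 + bet (kA v - 1 / 2) - 1 = 0 := hF1
  have hF2' : v.2.2.2 = 0 := hF2
  have hX : X1 v = 0 := by
    apply orAC_bet_one
    rw [n10, n8] at hF1'
    have e : X1 v + 1 / 2 - 1 / 2 = X1 v := by ring
    rw [e] at hF1'
    linarith
  have hnw : nw v = 0 := by
    unfold nw
    rw [hX, hF2']
    simp
  have hnz : 1 / 16 < nz v := by
    by_contra hcon
    push Not at hcon
    exact h1c ⟨hcon, by rw [hnw]; norm_num⟩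
  obtain ⟨t, ht1, ht2⟩ := orAC_polar (X2 v) v.2.2.1
  have hC := fun a => fderiv_C (v := v) (P := nz v) (t := t) h2a ht1 ht2 a
  have hq0 := qf_eq_zero hnz.le
  have hq1 := orAC_qf_deriv hnz
  rw [hq0, hq1] at hC
  have hd := bet_deriv_neg (d := 0) (by norm_num)
  have hA : ∀ a : V, fderiv ℝ (F1 .A) v a = deriv bet 0 * (a.1 + a.2.1) := by
    intro a
    show fderiv ℝ PsA v a = _
    have e : kA v - 1 / 2 = 0 := by rw [n8, hX]; ring
    have e5 := abs_lt.1 n5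
    rw [fderiv_PsA, e, alp_deriv_zero (by linarith), mm_deriv, mm_deriv,
      gg_one (by linarith), gg_one (by linarith)]
    ring
  have hA2 : ∀ a : V, fderiv ℝ (F2 .A) v a = a.2.2.2 := fun a => fderiv_r v a
  refine ⟨-deriv bet 0, by linarith, fun a c => ?_⟩
  unfold Wedge
  rw [hA, hA, hA2, hA2, (hC a).1, (hC a).2, (hC c).1, (hC c).2]
  ring
theorem or_BD {m : V × ℝ} (hm : m ∈ MM) (h1 : m ∈ Wk .B) (h2 : m ∈ Wk .D)
    (hF : F1 .B m.1 = 0 ∧ F2 .B m.1 = 0) : ∃ k > 0, ∀ a c : V,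
    Wedge (fderiv ℝ (F1 .B) m.1) (fderiv ℝ (F2 .B) m.1) a c = k * Wedge (fderiv ℝ (F1 .D) m.1) (fderiv ℝ (F2 .D) m.1) a c := by
  obtain ⟨h1a, h1b, h1c, h1d⟩ := h1
  obtain ⟨h2a, h2b, h2c⟩ := h2
  obtain ⟨hF1, hF2⟩ := hF
  obtain ⟨n1, n2, n3, n4, n5, n6, n7, n8, n9, n10, n11, -⟩ := near_facts h2b h2c
  generalize m.1 = v at *
  have hF1' : alp v.2.2.2 + bet (kB v - 1 / 2) - 1 = 0 := hF1
  have hF2' : v.2.2.1 = 0 := hF2
  have hX : X2 v = 0 := by
    apply orAC_bet_one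
    rw [n11, n9] at hF1'
    have e : X2 v + 1 / 2 - 1 / 2 = X2 v := by ring
    rw [e] at hF1'
    linarith
  have hnz : nz v = 0 := by
    unfold nz
    rw [hX, hF2']
    simp
  have hnw : 1 / 16 < nw v := by
    by_contra hcon
    push Not at hcon
    exact h1c ⟨by rw [hnz]; norm_num, hcon⟩
  obtain ⟨t, ht1, ht2⟩ := orAC_polar (X1 v) (-v.2.2.2)
  rw [neg_sq] at ht1 ht2
  have ht2' : v.2.2.2 = -(nw v * Real.sin t) := by
    have : -v.2.2.2 = nw v * Real.sin t := ht2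
    linarith
  have hC := fun a => fderiv_D (v := v) (Q := nw v) (t := t) h2a ht1 ht2' a
  have hq0 := qf_eq_zero hnw.le
  have hq1 := orAC_qf_deriv hnw
  rw [hq0, hq1] at hC
  have hd := bet_deriv_neg (d := 0) (by norm_num)
  have hA : ∀ a : V, fderiv ℝ (F1 .B) v a = deriv bet 0 * (a.2.1 - a.1) := by
    intro a
    show fderiv ℝ PsB v a = _
    have e : kB v - 1 / 2 = 0 := by rw [n9, hX]; ring
    have e5 := abs_lt.1 n5
    have e6 : gg (v.1 - 1 / 4) = -1 := by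
      have : v.1 - 1 / 4 = -(1 / 4 - v.1) := by ring
      rw [this, gg_neg, gg_one (by linarith)]
    rw [fderiv_PsB, e, alp_deriv_zero (by linarith), mm_deriv, mm_deriv,
      e6, gg_one (by linarith)]
    ring
  have hA2 : ∀ a : V, fderiv ℝ (F2 .B) v a = a.2.2.1 := fun a => fderiv_p v a
  refine ⟨-deriv bet 0, by linarith, fun a c => ?_⟩
  unfold Wedge
  rw [hA, hA, hA2, hA2, (hC a).1, (hC a).2, (hC c).1, (hC c).2]
  ring


end Pool.Agent.Helper874.Odd
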