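import Pool.Agent.Helper874.Odd.Base
import Pool.Agent.Helper874.Odd.Jbet1
import Pool.Agent.Helper874.Odd.Jbet2
import Pool.Agent.Helper874.Odd.Jmm1
import Pool.Agent.Helper874.Odd.Jmm2
import Pool.Agent.Helper874.Odd.Jalp1
import Pool.Agent.Helper874.Odd.JdiscA
import Pool.Agent.Helper874.Odd.Jder1
import Pool.Agent.Helper874.Odd.Jmod1

set_option autoImplicit false
open Set Filter Topology
open scoped Manifold ContDiff

namespace Pool.Agent.Helper874.Odd

theorem bet0_neg' : deriv bet 0 < 0 := bet_deriv_neg (by norm_num)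

theorem pow_pos_of_neg' {x : ℝ} (h : x < 0) : 0 < x ^ 2 := by nlinarith


/-- the coorientations of the models agree where they overlap: Z and A, Z and B -/
theorem or_ZA {v : V} (hv : v ∈ M0) (hk : kA v < 5 / 8) (hr : |v.2.2.2| < 1 / 2)
    (hF : F1 .A v = 0 ∧ F2 .A v = 0) : ∃ k > 0, ∀ a c : V,
    Wedge (fderiv ℝ (F1 .Z) v) (fderiv ℝ (F2 .Z) v) a c = k * Wedge (fderiv ℝ (F1 .A) v) (fderiv ℝ (F2 .A) v) a c := by
  obtain ⟨x, y, p, r⟩ := v
  have hxy := abs_lt_of_kA hk
  have hm := (M0_flat hxy.1 hxy.2).1 hv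
  have hdx := alp_deriv_zero hxy.1.le
  have hdy := alp_deriv_zero hxy.2.le
  have hPs : PsA (x, y, p, r) = 0 := hF.1
  have hb := bet0_neg'
  have hb1 : deriv bet 1 = 0 := bet_deriv_zero (by norm_num)
  have hb2 : deriv bet 2 = 0 := bet_deriv_zero (by norm_num)
  simp only [Set.mem_insert_iff, Set.mem_singleton_iff, Prod.mk.injEq] at hm
  have key : alp p = 1 → deriv bet (kA (x, y, p, r) - 1 / 2) = 0 := by
    intro h1
    unfold PsA at hPs
    simp only at hPs
    apply bet_deriv_zero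
    by_contra hlt
    push Not at hlt
    have := bet_pos hlt
    linarith
  simp only at hr hdx hdy
  rcases hm with h | h | h | h | h | h <;> obtain ⟨rfl, rfl⟩ := h
  · -- (1,0)
    have hk0 := key (alp_eq_one_iff.2 (by norm_num))
    have ha : 0 < deriv alp 1 := alp_deriv_pos (by norm_num)
    refine ⟨(deriv bet 0) ^ 2 / deriv alp 1, div_pos (pow_pos_of_neg' hb) ha, fun a c => ?_⟩
    simp only [Wedge, F1, F2, fderiv_G1, fderiv_G2, fderiv_PsA, fderiv_r, hdx, hdy, hk0]
    norm_num [hb1, hb2]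
    field_simp
    ring
  · norm_num at hr
  · norm_num at hr
  · -- (-1,0)
    have hk0 := key (alp_eq_one_iff.2 (by norm_num))
    have ha : deriv alp (-1) < 0 := alp_deriv_neg (by norm_num)
    have ha0 : deriv alp (-1) ≠ 0 := ha.ne
    refine ⟨-((deriv bet 0) ^ 2 / deriv alp (-1)), ?_, fun a c => ?_⟩
    · have : (deriv bet 0) ^ 2 / deriv alp (-1) < 0 := div_neg_of_pos_of_neg (pow_pos_of_neg' hb) ha
      linarith
    simp only [Wedge, F1, F2, fderiv_G1, fderiv_G2, fderiv_PsA, fderiv_r, hdx, hdy, hk0]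
    norm_num [hb1, hb2]
    field_simp
    ring
  · norm_num at hr
  · norm_num at hr

theorem or_ZB {v : V} (hv : v ∈ M0) (hk : kB v < 5 / 8) (hr : |v.2.2.1| < 1 / 2)
    (hF : F1 .B v = 0 ∧ F2 .B v = 0) : ∃ k > 0, ∀ a c : V,
    Wedge (fderiv ℝ (F1 .Z) v) (fderiv ℝ (F2 .Z) v) a c = k * Wedge (fderiv ℝ (F1 .B) v) (fderiv ℝ (F2 .B) v) a c := by
  obtain ⟨x, y, p, r⟩ := v
  have hxy := abs_lt_of_kB hk
  have hm := (M0_flat hxy.1 hxy.2).1 hv
  have hdx := alp_deriv_zero hxy.1.le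
  have hdy := alp_deriv_zero hxy.2.le
  have hPs : PsB (x, y, p, r) = 0 := hF.1
  have hb := bet0_neg'
  have hb1 : deriv bet 1 = 0 := bet_deriv_zero (by norm_num)
  have hb2 : deriv bet 2 = 0 := bet_deriv_zero (by norm_num)
  simp only [Set.mem_insert_iff, Set.mem_singleton_iff, Prod.mk.injEq] at hm
  have key : alp r = 1 → deriv bet (kB (x, y, p, r) - 1 / 2) = 0 := by
    intro h1
    unfold PsB at hPs
    simp only at hPs
    apply bet_deriv_zero
    by_contra hlt
    push Not at hlt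
    have := bet_pos hlt
    linarith
  simp only at hr hdx hdy
  rcases hm with h | h | h | h | h | h <;> obtain ⟨rfl, rfl⟩ := h
  · norm_num at hr
  · -- (0,1)
    have hk0 := key (alp_eq_one_iff.2 (by norm_num))
    have ha : 0 < deriv alp 1 := alp_deriv_pos (by norm_num)
    refine ⟨(deriv bet 0) ^ 2 / deriv alp 1, div_pos (pow_pos_of_neg' hb) ha, fun a c => ?_⟩
    simp only [Wedge, F1, F2, fderiv_G1, fderiv_G2, fderiv_PsB, fderiv_p, hdx, hdy, hk0]
    norm_num [hb1, hb2]
    field_simp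
    ring
  · norm_num at hr
  · norm_num at hr
  · -- (0,-1)
    have hk0 := key (alp_eq_one_iff.2 (by norm_num))
    have ha : deriv alp (-1) < 0 := alp_deriv_neg (by norm_num)
    have ha0 : deriv alp (-1) ≠ 0 := ha.ne
    refine ⟨-((deriv bet 0) ^ 2 / deriv alp (-1)), ?_, fun a c => ?_⟩
    · have : (deriv bet 0) ^ 2 / deriv alp (-1) < 0 := div_neg_of_pos_of_neg (pow_pos_of_neg' hb) ha
      linarith
    simp only [Wedge, F1, F2, fderiv_G1, fderiv_G2, fderiv_PsB, fderiv_p, hdx, hdy, hk0]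
    norm_num [hb1, hb2]
    field_simp
    ring
  · norm_num at hr


end Pool.Agent.Helper874.Odd
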