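import Pool.Agent.Helper874.Odd.Base
import Pool.Agent.Helper874.Odd.Jbet1
import Pool.Agent.Helper874.Odd.Jbet2
import Pool.Agent.Helper874.Odd.Jqf1
import Pool.Agent.Helper874.Odd.Jqf2
import Pool.Agent.Helper874.Odd.JderC
import Pool.Agent.Helper874.Odd.Jmod1

set_option autoImplicit false
open Set Filter Topology
open scoped Manifold ContDiff

namespace Pool.Agent.Helper874.Odd

theorem or_CD_alg (s c A B u w x1 x2 p r x1' x2' p' r' C1 C2 D1 D2 C1' C2' D1' D2' : ℝ)
    (h : s ^ 2 + c ^ 2 = 1) (hAB : B * A = 1) (huw : u * w = 1)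
    (hC1 : C1 = r + A * s * (c * x2 + s * p) + u * c * (c * p - s * x2))
    (hC2 : C2 = x1 - A * c * (c * x2 + s * p) + u * s * (c * p - s * x2))
    (hD1 : D1 = p - B * s * (c * x1 - s * r) + w * c * (c * r + s * x1))
    (hD2 : D2 = x2 - B * c * (c * x1 - s * r) - w * s * (c * r + s * x1))
    (hC1' : C1' = r' + A * s * (c * x2' + s * p') + u * c * (c * p' - s * x2'))
    (hC2' : C2' = x1' - A * c * (c * x2' + s * p') + u * s * (c * p' - s * x2'))
    (hD1' : D1' = p' - B * s * (c * x1' - s * r') + w * c * (c * r' + s * x1'))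
    (hD2' : D2' = x2' - B * c * (c * x1' - s * r') - w * s * (c * r' + s * x1')) :
    C1 * C2' - C1' * C2 = (-(u * A)) * (D1 * D2' - D1' * D2) := by
  have hα : c * C1 + s * C2 = (c * r + s * x1) + u * (c * p - s * x2) := by
    rw [hC1, hC2]; linear_combination (u * (c * p - s * x2)) * h
  have hβ : c * C2 - s * C1 = (c * x1 - s * r) - A * (c * x2 + s * p) := by
    rw [hC1, hC2]; linear_combination (-A * (c * x2 + s * p)) * h
  have hγ : c * D1 - s * D2 = (c * p - s * x2) + w * (c * r + s * x1) := by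
    rw [hD1, hD2]; linear_combination (w * (c * r + s * x1)) * h
  have hδ : c * D2 + s * D1 = (c * x2 + s * p) - B * (c * x1 - s * r) := by
    rw [hD1, hD2]; linear_combination (-B * (c * x1 - s * r)) * h
  have hα' : c * C1' + s * C2' = (c * r' + s * x1') + u * (c * p' - s * x2') := by
    rw [hC1', hC2']; linear_combination (u * (c * p' - s * x2')) * h
  have hβ' : c * C2' - s * C1' = (c * x1' - s * r') - A * (c * x2' + s * p') := by
    rw [hC1', hC2']; linear_combination (-A * (c * x2' + s * p')) * h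
  have hγ' : c * D1' - s * D2' = (c * p' - s * x2') + w * (c * r' + s * x1') := by
    rw [hD1', hD2']; linear_combination (w * (c * r' + s * x1')) * h
  have hδ' : c * D2' + s * D1' = (c * x2' + s * p') - B * (c * x1' - s * r') := by
    rw [hD1', hD2']; linear_combination (-B * (c * x1' - s * r')) * h
  have e1 : c * C1 + s * C2 = u * (c * D1 - s * D2) := by
    rw [hα, hγ]; linear_combination (-(c * r + s * x1)) * huw
  have e1' : c * C1' + s * C2' = u * (c * D1' - s * D2') := by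
    rw [hα', hγ']; linear_combination (-(c * r' + s * x1')) * huw
  have e2 : c * C2 - s * C1 = -A * (c * D2 + s * D1) := by
    rw [hβ, hδ]; linear_combination (-(c * x1 - s * r)) * hAB
  have e2' : c * C2' - s * C1' = -A * (c * D2' + s * D1') := by
    rw [hβ', hδ']; linear_combination (-(c * x1' - s * r')) * hAB
  have w1 : C1 * C2' - C1' * C2 = (c * C1 + s * C2) * (c * C2' - s * C1')
      - (c * C1' + s * C2') * (c * C2 - s * C1) := by
    linear_combination (-(C1 * C2' - C1' * C2)) * h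
  have w2 : D1 * D2' - D1' * D2 = (c * D1 - s * D2) * (c * D2' + s * D1')
      - (c * D1' - s * D2') * (c * D2 + s * D1) := by
    linear_combination (-(D1 * D2' - D1' * D2)) * h
  rw [w1, w2, e1, e1', e2, e2']
  ring

/-- the coorientations of the two neck models agree on the neck -/
theorem or_CD {v : V} (hz : 0 < nz v) (hw : 0 < nw v) (hz' : nz v < 1 / 8) (hw' : nw v < 1 / 8)
    (hF : F1 .C v = 0 ∧ F2 .C v = 0) : ∃ k > 0, ∀ a c : V,
    Wedge (fderiv ℝ (F1 .C) v) (fderiv ℝ (F2 .C) v) a c = k * Wedge (fderiv ℝ (F1 .D) v) (fderiv ℝ (F2 .D) v) a c := by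
  obtain ⟨P, hP⟩ : ∃ P : ℝ, P = nz v := ⟨_, rfl⟩
  have hP0 : 0 < P := by rw [hP]; exact hz
  obtain ⟨t, ht1, ht2⟩ : ∃ t : ℝ, X2 v = P * Real.cos t ∧ v.2.2.1 = P * Real.sin t := by
    have hn : ‖(⟨X2 v, v.2.2.1⟩ : ℂ)‖ = P := by
      rw [hP, nz, Complex.norm_def, Complex.normSq_mk]
      congr 1
      ring
    refine ⟨Complex.arg ⟨X2 v, v.2.2.1⟩, ?_, ?_⟩
    · have := Complex.norm_mul_cos_arg (⟨X2 v, v.2.2.1⟩ : ℂ)
      rw [hn] at this
      exact this.symm
    · have := Complex.norm_mul_sin_arg (⟨X2 v, v.2.2.1⟩ : ℂ)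
      rw [hn] at this
      exact this.symm
  obtain ⟨hF1, hF2⟩ := hF
  simp only [F1, F2] at hF1 hF2
  rw [← hP] at hF1 hF2
  have hr : v.2.2.2 = -(qf P * Real.sin t) := by
    rw [ht2] at hF1
    have e : qf P * (P * Real.sin t) / P = qf P * Real.sin t := by field_simp
    rw [e] at hF1
    linarith
  have hx : X1 v = qf P * Real.cos t := by
    rw [ht1] at hF2
    have e : qf P * (P * Real.cos t) / P = qf P * Real.cos t := by field_simp
    rw [e] at hF2
    linarith
  have hsc := Real.sin_sq_add_cos_sq t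
  have hnw : nw v = qf P := by
    rw [nw, hx, hr]
    have e : (qf P * Real.cos t) ^ 2 + (-(qf P * Real.sin t)) ^ 2 = qf P ^ 2 := by
      linear_combination (qf P ^ 2) * hsc
    rw [e, Real.sqrt_sq (qf_nonneg hP0)]
  have hQ0 : 0 < qf P := by rw [← hnw]; exact hw
  have hP16 : P < 1 / 16 := by
    by_contra hge
    rw [qf_eq_zero (not_lt.mp hge)] at hQ0
    exact lt_irrefl _ hQ0
  have hqq := qf_qf hP0 hP16
  have hAB := qf_deriv_mul hP0 hP16
  have hA := qf_deriv_neg hP0 hP16
  have huw : qf P / P * (P / qf P) = 1 := by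
    field_simp
  refine ⟨-(qf P / P * deriv qf P), ?_, ?_⟩
  · have h1 : 0 < qf P / P := div_pos hQ0 hP0
    have h2 := mul_pos h1 (neg_pos.mpr hA)
    have h3 : -(qf P / P * deriv qf P) = qf P / P * -deriv qf P := by ring
    rw [h3]
    exact h2
  · intro a c
    obtain ⟨a1, a2⟩ := fderiv_C hP0 ht1 ht2 a
    obtain ⟨c1, c2⟩ := fderiv_C hP0 ht1 ht2 c
    obtain ⟨a3, a4⟩ := fderiv_D hQ0 hx hr a
    obtain ⟨c3, c4⟩ := fderiv_D hQ0 hx hr c
    rw [hqq] at a3 a4 c3 c4
    unfold Wedge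
    exact or_CD_alg (Real.sin t) (Real.cos t) (deriv qf P) (deriv qf (qf P)) (qf P / P)
      (P / qf P) (a.1 + a.2.1) (a.2.1 - a.1) a.2.2.1 a.2.2.2
      (c.1 + c.2.1) (c.2.1 - c.1) c.2.2.1 c.2.2.2 _ _ _ _ _ _ _ _ hsc hAB huw
      a1 a2 a3 a4 c1 c2 c3 c4


end Pool.Agent.Helper874.Odd
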