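import Pool.Agent.Helper874.Odd.Base
import Pool.Agent.Helper874.Odd.Jbet1
import Pool.Agent.Helper874.Odd.Jbet2
import Pool.Agent.Helper874.Odd.Jmm1
import Pool.Agent.Helper874.Odd.Jmm2
import Pool.Agent.Helper874.Odd.Jalp1
import Pool.Agent.Helper874.Odd.JdiscA
import Pool.Agent.Helper874.Odd.Jder1
import Pool.Agent.Helper874.Odd.Jmod1

set_option autoImplicit false
open Set Filter Topology
open scoped Manifold ContDiff

namespace Pool.Agent.Helper874.Odd

private theorem bet_gt {d : ℝ} (h : d < 0) : 1 < bet d := by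
  have := bet_strictAntiOn (a := d) (b := 0) (by simp only [mem_Iic]; linarith) (by simp) h
  rwa [bet_zero] at this
private theorem arg_nonneg {d : ℝ} (h : bet d ≤ 1) : 0 ≤ d := by
  by_contra hc
  push Not at hc
  exact absurd (bet_gt hc) (not_lt.2 h)
private theorem bet_one {d : ℝ} (h : bet d = 1) : d = 0 := by
  have h0 := arg_nonneg h.le
  rcases lt_or_ge d (1/16) with h1 | h1
  · by_contra hne
    have h2 : 0 < d := lt_of_le_of_ne h0 (Ne.symm hne)
    have := bet_strictAntiOn (a := 0) (b := d) (by simp) (by simp only [mem_Iic]; linarith) h2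
    rw [bet_zero, h] at this
    exact lt_irrefl _ this
  · rw [bet_eq_zero h1] at h; norm_num at h
private theorem db {d : ℝ} (h : 1/16 ≤ d) : deriv bet d = 0 := bet_deriv_zero h

private theorem da_ne {x : ℝ} (h : 15/16 < |x|) : deriv alp x ≠ 0 := by
  rcases lt_abs.1 h with h1 | h1
  · exact (alp_deriv_pos h1).ne'
  · exact (alp_deriv_neg (by linarith)).ne

theorem reg_A {v : V} (hk : kA v < 5 / 8) (h1 : F1 .A v = 0) (h2 : F2 .A v = 0) :
    ∃ a c : V, Wedge (fderiv ℝ (F1 .A) v) (fderiv ℝ (F2 .A) v) a c ≠ 0 := by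
  have h1' : PsA v = 0 := h1
  unfold PsA at h1'
  rcases lt_or_ge (kA v) (9/16) with hlt | hge
  · have hb : deriv bet (kA v - 1/2) < 0 := bet_deriv_neg (by linarith)
    have hk2 : 0 ≤ kA v - 1/2 := arg_nonneg (by linarith [alp_nonneg v.2.2.1])
    by_cases hx : v.1 + 1/4 = 0
    · by_cases hy : v.2.1 = 0
      · exfalso
        have e : kA v = mm 0 + mm 0 := by unfold kA; rw [hx, hy]
        have := mm_le (t := 0) (by norm_num)
        rw [e] at hk2
        linarith
      · refine ⟨(0, 1, 0, 0), (0, 0, 0, 1), ?_⟩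
        unfold Wedge
        change fderiv ℝ PsA v _ * fderiv ℝ (fun v : V => v.2.2.2) v _ - fderiv ℝ PsA v _ * fderiv ℝ (fun v : V => v.2.2.2) v _ ≠ 0
        rw [fderiv_PsA, fderiv_PsA, fderiv_r, fderiv_r]
        simp only [mul_zero, mul_one, add_zero, zero_add, sub_zero]
        refine mul_ne_zero hb.ne ?_
        rw [mm_deriv]
        rcases lt_or_gt_of_ne hy with h | h
        · have := gg_pos (t := -v.2.1) (by linarith)
          rw [gg_neg] at this
          linarith
        · exact (gg_pos h).ne'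
    · refine ⟨(1, 0, 0, 0), (0, 0, 0, 1), ?_⟩
      unfold Wedge
      change fderiv ℝ PsA v _ * fderiv ℝ (fun v : V => v.2.2.2) v _ - fderiv ℝ PsA v _ * fderiv ℝ (fun v : V => v.2.2.2) v _ ≠ 0
      rw [fderiv_PsA, fderiv_PsA, fderiv_r, fderiv_r]
      simp only [mul_zero, mul_one, add_zero, zero_add, sub_zero]
      refine mul_ne_zero hb.ne ?_
      rw [mm_deriv]
      rcases lt_or_gt_of_ne hx with h | h
      · have := gg_pos (t := -(v.1 + 1/4)) (by linarith)
        rw [gg_neg] at this
        linarith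
      · exact (gg_pos h).ne'
  · have hb : bet (kA v - 1/2) = 0 := bet_eq_zero (by linarith)
    have hp : |v.2.2.1| = 1 := alp_eq_one_iff.1 (by linarith)
    refine ⟨(0, 0, 1, 0), (0, 0, 0, 1), ?_⟩
    unfold Wedge
    change fderiv ℝ PsA v _ * fderiv ℝ (fun v : V => v.2.2.2) v _ - fderiv ℝ PsA v _ * fderiv ℝ (fun v : V => v.2.2.2) v _ ≠ 0
    rw [fderiv_PsA, fderiv_PsA, fderiv_r, fderiv_r]
    simp only [mul_zero, mul_one, add_zero, zero_add, sub_zero]
    exact da_ne (by rw [hp]; norm_num)

theorem reg_B {v : V} (hk : kB v < 5 / 8) (h1 : F1 .B v = 0) (h2 : F2 .B v = 0) :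
    ∃ a c : V, Wedge (fderiv ℝ (F1 .B) v) (fderiv ℝ (F2 .B) v) a c ≠ 0 := by
  have h1' : PsB v = 0 := h1
  unfold PsB at h1'
  rcases lt_or_ge (kB v) (9/16) with hlt | hge
  · have hb : deriv bet (kB v - 1/2) < 0 := bet_deriv_neg (by linarith)
    have hk2 : 0 ≤ kB v - 1/2 := arg_nonneg (by linarith [alp_nonneg v.2.2.2])
    by_cases hx : v.1 - 1/4 = 0
    · by_cases hy : v.2.1 = 0
      · exfalso
        have e : kB v = mm 0 + mm 0 := by unfold kB; rw [hx, hy]
        have := mm_le (t := 0) (by norm_num)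
        rw [e] at hk2
        linarith
      · refine ⟨(0, 1, 0, 0), (0, 0, 1, 0), ?_⟩
        unfold Wedge
        change fderiv ℝ PsB v _ * fderiv ℝ (fun v : V => v.2.2.1) v _ - fderiv ℝ PsB v _ * fderiv ℝ (fun v : V => v.2.2.1) v _ ≠ 0
        rw [fderiv_PsB, fderiv_PsB, fderiv_p, fderiv_p]
        simp only [mul_zero, mul_one, add_zero, zero_add, sub_zero]
        refine mul_ne_zero hb.ne ?_
        rw [mm_deriv]
        rcases lt_or_gt_of_ne hy with h | h
        · have := gg_pos (t := -v.2.1) (by linarith)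
          rw [gg_neg] at this
          linarith
        · exact (gg_pos h).ne'
    · refine ⟨(1, 0, 0, 0), (0, 0, 1, 0), ?_⟩
      unfold Wedge
      change fderiv ℝ PsB v _ * fderiv ℝ (fun v : V => v.2.2.1) v _ - fderiv ℝ PsB v _ * fderiv ℝ (fun v : V => v.2.2.1) v _ ≠ 0
      rw [fderiv_PsB, fderiv_PsB, fderiv_p, fderiv_p]
      simp only [mul_zero, mul_one, add_zero, zero_add, sub_zero]
      refine mul_ne_zero hb.ne ?_
      rw [mm_deriv]
      rcases lt_or_gt_of_ne hx with h | h
      · have := gg_pos (t := -(v.1 - 1/4)) (by linarith)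
        rw [gg_neg] at this
        linarith
      · exact (gg_pos h).ne'
  · have hb : bet (kB v - 1/2) = 0 := bet_eq_zero (by linarith)
    have hp : |v.2.2.2| = 1 := alp_eq_one_iff.1 (by linarith)
    refine ⟨(0, 0, 0, 1), (0, 0, 1, 0), ?_⟩
    unfold Wedge
    change fderiv ℝ PsB v _ * fderiv ℝ (fun v : V => v.2.2.1) v _ - fderiv ℝ PsB v _ * fderiv ℝ (fun v : V => v.2.2.1) v _ ≠ 0
    rw [fderiv_PsB, fderiv_PsB, fderiv_p, fderiv_p]
    simp only [mul_zero, mul_one, add_zero, zero_add, sub_zero]
    exact da_ne (by rw [hp]; norm_num)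

theorem reg_Z {v : V} (hv : v ∈ M0) : ∃ a c : V, Wedge (fderiv ℝ (F1 .Z) v) (fderiv ℝ (F2 .Z) v) a c ≠ 0 := by
  obtain ⟨h1, h2⟩ := hv
  obtain ⟨x, y, p, r⟩ := v
  unfold G1 Bf at h1
  unfold G2 Rf at h2
  dsimp only at h1 h2
  have e1 := bet_nonneg (1 - p)
  have e2 := bet_nonneg (1 - r)
  have e3 := bet_nonneg (1 + p + r)
  have e4 := bet_nonneg (1 + p)
  have e5 := bet_nonneg (1 + r)
  have e6 := bet_nonneg (1 - p - r)
  have e7 := alp_nonneg x
  have e8 := alp_nonneg y
  have k1 : 0 ≤ 1 - p := arg_nonneg (by linarith)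
  have k2 : 0 ≤ 1 - r := arg_nonneg (by linarith)
  have k3 : 0 ≤ 1 + p + r := arg_nonneg (by linarith)
  have k4 : 0 ≤ 1 + p := arg_nonneg (by linarith)
  have k5 : 0 ≤ 1 + r := arg_nonneg (by linarith)
  have k6 : 0 ≤ 1 - p - r := arg_nonneg (by linarith)
  have hb0 : deriv bet 0 < 0 := bet_deriv_neg (by norm_num)
  have key : ∀ a c : V, Wedge (fderiv ℝ (F1 .Z) (x, y, p, r)) (fderiv ℝ (F2 .Z) (x, y, p, r)) a c =
      (deriv alp x * a.1 + (- deriv bet (1 - p) + deriv bet (1 + p + r)) * a.2.2.1 +
        (- deriv bet (1 - r) + deriv bet (1 + p + r)) * a.2.2.2) *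
      (deriv alp y * c.2.1 + (deriv bet (1 + p) - deriv bet (1 - p - r)) * c.2.2.1 +
        (deriv bet (1 + r) - deriv bet (1 - p - r)) * c.2.2.2) -
      (deriv alp x * c.1 + (- deriv bet (1 - p) + deriv bet (1 + p + r)) * c.2.2.1 +
        (- deriv bet (1 - r) + deriv bet (1 + p + r)) * c.2.2.2) *
      (deriv alp y * a.2.1 + (deriv bet (1 + p) - deriv bet (1 - p - r)) * a.2.2.1 +
        (deriv bet (1 + r) - deriv bet (1 - p - r)) * a.2.2.2) := by
    intro a c
    unfold Wedge
    change fderiv ℝ G1 _ _ * fderiv ℝ G2 _ _ - fderiv ℝ G1 _ _ * fderiv ℝ G2 _ _ = _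
    rw [fderiv_G1, fderiv_G1, fderiv_G2, fderiv_G2]
  -- blue equation
  have blue : |x| ≤ 15/16 → (p = 1 ∨ r = 1 ∨ p + r = -1) := by
    intro hx
    rw [alp_eq_zero_iff.2 hx] at h1
    rcases lt_or_ge (1 - p) (1/16) with h | h
    · have a1 : bet (1 - r) = 0 := bet_eq_zero (by linarith)
      have a2 : bet (1 + p + r) = 0 := bet_eq_zero (by linarith)
      left
      have := bet_one (d := 1 - p) (by linarith)
      linarith
    · rcases lt_or_ge (1 - r) (1/16) with h' | h'
      · have a1 : bet (1 - p) = 0 := bet_eq_zero h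
        have a2 : bet (1 + p + r) = 0 := bet_eq_zero (by linarith)
        right; left
        have := bet_one (d := 1 - r) (by linarith)
        linarith
      · have a1 : bet (1 - p) = 0 := bet_eq_zero h
        have a2 : bet (1 - r) = 0 := bet_eq_zero h'
        right; right
        have := bet_one (d := 1 + p + r) (by linarith)
        linarith
  have red : |y| ≤ 15/16 → (p = -1 ∨ r = -1 ∨ p + r = 1) := by
    intro hx
    rw [alp_eq_zero_iff.2 hx] at h2
    rcases lt_or_ge (1 + p) (1/16) with h | h
    · have a1 : bet (1 + r) = 0 := bet_eq_zero (by linarith)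
      have a2 : bet (1 - p - r) = 0 := bet_eq_zero (by linarith)
      left
      have := bet_one (d := 1 + p) (by linarith)
      linarith
    · rcases lt_or_ge (1 + r) (1/16) with h' | h'
      · have a1 : bet (1 + p) = 0 := bet_eq_zero h
        have a2 : bet (1 - p - r) = 0 := bet_eq_zero (by linarith)
        right; left
        have := bet_one (d := 1 + r) (by linarith)
        linarith
      · have a1 : bet (1 + p) = 0 := bet_eq_zero h
        have a2 : bet (1 + r) = 0 := bet_eq_zero h'
        right; right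
        have := bet_one (d := 1 - p - r) (by linarith)
        linarith
  rcases lt_or_ge (15/16) |x| with hx | hx
  · have hax := da_ne hx
    rcases lt_or_ge (15/16) |y| with hy | hy
    · have hay := da_ne hy
      refine ⟨(1, 0, 0, 0), (0, 1, 0, 0), ?_⟩
      rw [key]
      simp only [mul_zero, mul_one, add_zero, zero_add, sub_zero]
      exact mul_ne_zero hax hay
    · rcases red hy with h | h | h
      · refine ⟨(1, 0, 0, 0), (0, 0, 1, 0), ?_⟩
        rw [key]
        subst h
        rw [db (d := 1 - -1 - r) (by linarith)]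
        simp only [mul_zero, mul_one, add_zero, zero_add, sub_zero, add_neg_cancel]
        exact mul_ne_zero hax hb0.ne
      · refine ⟨(1, 0, 0, 0), (0, 0, 0, 1), ?_⟩
        rw [key]
        subst h
        rw [db (d := 1 - p - -1) (by linarith)]
        simp only [mul_zero, mul_one, add_zero, zero_add, sub_zero, add_neg_cancel]
        exact mul_ne_zero hax hb0.ne
      · have hz : 1 - p - r = 0 := by linarith
        rcases lt_or_ge (1 + p) (1/16) with h' | h'
        · refine ⟨(1, 0, 0, 0), (0, 0, 0, 1), ?_⟩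
          rw [key, hz, db (d := 1 + r) (by linarith)]
          simp only [mul_zero, mul_one, add_zero, zero_add, sub_zero, zero_sub]
          exact mul_ne_zero hax (neg_ne_zero.2 hb0.ne)
        · refine ⟨(1, 0, 0, 0), (0, 0, 1, 0), ?_⟩
          rw [key, hz, db (d := 1 + p) h']
          simp only [mul_zero, mul_one, add_zero, zero_add, sub_zero, zero_sub]
          exact mul_ne_zero hax (neg_ne_zero.2 hb0.ne)
  · have hax : deriv alp x = 0 := alp_deriv_zero hx
    rcases lt_or_ge (15/16) |y| with hy | hy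
    · have hay := da_ne hy
      rcases blue hx with h | h | h
      · refine ⟨(0, 0, 1, 0), (0, 1, 0, 0), ?_⟩
        rw [key]
        subst h
        rw [db (d := 1 + 1 + r) (by linarith)]
        simp only [mul_zero, mul_one, add_zero, zero_add, sub_zero, sub_self, zero_mul]
        exact mul_ne_zero (neg_ne_zero.2 hb0.ne) hay
      · refine ⟨(0, 0, 0, 1), (0, 1, 0, 0), ?_⟩
        rw [key]
        subst h
        rw [db (d := 1 + p + 1) (by linarith)]
        simp only [mul_zero, mul_one, add_zero, zero_add, sub_zero, sub_self, zero_mul]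
        exact mul_ne_zero (neg_ne_zero.2 hb0.ne) hay
      · have hz : 1 + p + r = 0 := by linarith
        rcases lt_or_ge (1 - p) (1/16) with h' | h'
        · refine ⟨(0, 0, 0, 1), (0, 1, 0, 0), ?_⟩
          rw [key, hz, db (d := 1 - r) (by linarith)]
          simp only [mul_zero, mul_one, add_zero, zero_add, sub_zero, neg_zero, zero_mul]
          exact mul_ne_zero hb0.ne hay
        · refine ⟨(0, 0, 1, 0), (0, 1, 0, 0), ?_⟩
          rw [key, hz, db (d := 1 - p) h']
          simp only [mul_zero, mul_one, add_zero, zero_add, sub_zero, neg_zero, zero_mul]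
          exact mul_ne_zero hb0.ne hay
    · refine ⟨(0, 0, 1, 0), (0, 0, 0, 1), ?_⟩
      have d1 : deriv bet 1 = 0 := db (by norm_num)
      have d2 : deriv bet 2 = 0 := db (by norm_num)
      have hbn := hb0.ne
      rw [key]
      simp only [mul_zero, mul_one, add_zero, zero_add, sub_zero]
      rcases blue hx with h | h | h <;> rcases red hy with h' | h' | h'
      · exfalso; linarith
      · subst h; subst h'
        norm_num [d1, d2, hbn]
      · have hr : r = 0 := by linarith
        subst h; subst hr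
        norm_num [d1, d2, hbn]
      · subst h; subst h'
        norm_num [d1, d2, hbn]
      · exfalso; linarith
      · have hr : p = 0 := by linarith
        subst h; subst hr
        norm_num [d1, d2, hbn]
      · have hr : r = 0 := by linarith
        subst h'; subst hr
        norm_num [d1, d2, hbn]
      · have hr : p = 0 := by linarith
        subst h'; subst hr
        norm_num [d1, d2, hbn]
      · exfalso; linarith

end Pool.Agent.Helper874.Odd
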