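import Pool.Agent.Helper874.Odd.Base
import Pool.Agent.Helper874.Odd.Jbet1
import Pool.Agent.Helper874.Odd.Jbet2
import Pool.Agent.Helper874.Odd.Jqf1
import Pool.Agent.Helper874.Odd.Jqf2
import Pool.Agent.Helper874.Odd.JderC

set_option autoImplicit false
open Set Filter Topology
open scoped Manifold ContDiff

namespace Pool.Agent.Helper874.Odd

theorem polar' (x y : ℝ) : ∃ t : ℝ, x = Real.sqrt (x ^ 2 + y ^ 2) * Real.cos t ∧
    y = Real.sqrt (x ^ 2 + y ^ 2) * Real.sin t := by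
  have h : ‖(⟨x, y⟩ : ℂ)‖ = Real.sqrt (x ^ 2 + y ^ 2) := Complex.norm_eq_sqrt_sq_add_sq _
  refine ⟨Complex.arg ⟨x, y⟩, ?_, ?_⟩
  · have := Complex.norm_mul_cos_arg (⟨x, y⟩ : ℂ)
    rw [h] at this
    exact this.symm
  · have := Complex.norm_mul_sin_arg (⟨x, y⟩ : ℂ)
    rw [h] at this
    exact this.symm

/-- regularity of the neck models -/
theorem reg_C {v : V} (h : 0 < nz v) : ∃ a c : V, Wedge (fderiv ℝ (F1 .C) v) (fderiv ℝ (F2 .C) v) a c ≠ 0 := by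
  obtain ⟨t, h1, h2⟩ := polar' (X2 v) v.2.2.1
  refine ⟨(0, 0, 0, 1), (1/2, 1/2, 0, 0), ?_⟩
  unfold Wedge
  rw [(fderiv_C h h1 h2 _).1, (fderiv_C h h1 h2 _).2, (fderiv_C h h1 h2 _).1,
    (fderiv_C h h1 h2 _).2]
  norm_num
theorem reg_D {v : V} (h : 0 < nw v) : ∃ a c : V, Wedge (fderiv ℝ (F1 .D) v) (fderiv ℝ (F2 .D) v) a c ≠ 0 := by
  obtain ⟨t, h1, h2⟩ := polar' (X1 v) (-v.2.2.2)
  have e : Real.sqrt (X1 v ^ 2 + (-v.2.2.2) ^ 2) = nw v := by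
    unfold nw; rw [neg_sq]
  rw [e] at h1 h2
  have h3 : v.2.2.2 = -(nw v * Real.sin t) := by linarith
  refine ⟨(0, 0, 1, 0), (-1/2, 1/2, 0, 0), ?_⟩
  unfold Wedge
  rw [(fderiv_D h h1 h3 _).1, (fderiv_D h h1 h3 _).2, (fderiv_D h h1 h3 _).1,
    (fderiv_D h h1 h3 _).2]
  norm_num


end Pool.Agent.Helper874.Odd
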