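import Pool.Agent.Helper874.Odd.Base
import Pool.Agent.Helper874.Odd.Jbet1
import Pool.Agent.Helper874.Odd.Jbet2
import Pool.Agent.Helper874.Odd.Jmm1
import Pool.Agent.Helper874.Odd.Jmm2
import Pool.Agent.Helper874.Odd.Jalp1
import Pool.Agent.Helper874.Odd.Jqf1
import Pool.Agent.Helper874.Odd.Jqf2
import Pool.Agent.Helper874.Odd.Jup1
import Pool.Agent.Helper874.Odd.JdiscA
import Pool.Agent.Helper874.Odd.Jder1
import Pool.Agent.Helper874.Odd.JderC
import Pool.Agent.Helper874.Odd.Jopn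
import Pool.Agent.Helper874.Odd.Jmod1
import Pool.Agent.Helper874.Odd.Jmod2
import Pool.Agent.Helper874.Odd.Jmod3
import Pool.Agent.Helper874.Odd.Jreg1
import Pool.Agent.Helper874.Odd.Jreg2
import Pool.Agent.Helper874.Odd.Jor1
import Pool.Agent.Helper874.Odd.Jor2
import Pool.Agent.Helper874.Odd.Jor3
import Pool.Agent.Helper874.Odd.Jvol1
import Pool.Agent.Helper874.Odd.Jgt3
import Pool.Agent.Helper874.Odd.Jfin1
import Pool.Agent.Helper874.Odd.Jcpt
import Pool.Agent.Helper874.Odd.Jdbl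
import Pool.Agent.Helper874.Odd.Jker1

set_option autoImplicit false
open Set Filter Topology
open scoped Manifold ContDiff

namespace Pool.Agent.Helper874.Odd

/-- The statement of the final theorem as a structure-free existence statement. -/
theorem main : ∃ (_ : ChartedSpace (EuclideanSpace ℝ (Fin 2)) MM) (_ : IsManifold (𝓡 2) ∞ MM),
      ContMDiff (𝓡 2) 𝓘(ℝ, EuclideanSpace ℝ (Fin 4)) ∞ (fun m : MM => toE m.1.1) ∧
      (∀ m : MM, Function.Injective
        (mfderiv (𝓡 2) 𝓘(ℝ, EuclideanSpace ℝ (Fin 4)) (fun m : MM => toE m.1.1) m)) ∧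
      (∀ e ∈ atlas (EuclideanSpace ℝ (Fin 2)) MM, ∀ e' ∈ atlas (EuclideanSpace ℝ (Fin 2)) MM,
        ∀ z ∈ (e.symm ≫ₕ e').source, 0 < (fderiv ℝ (e.symm ≫ₕ e') z).det) ∧
      (∀ i, ∀ m : MM, m.1 ∈ Wk i → ∀ a : V, fderiv ℝ (F1 i) m.1.1 a = 0 → fderiv ℝ (F2 i) m.1.1 a = 0 →
        ∃ w, mfderiv (𝓡 2) 𝓘(ℝ, EuclideanSpace ℝ (Fin 4)) (fun m : MM => toE m.1.1) m w = toE a) := by
  have hM : ∀ i, ∀ m ∈ Wk i, m ∈ MM ↔ F1 i m.1 = 0 ∧ F2 i m.1 = 0 ∧ m.2 = bk i m.1 := by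
    intro i m hm
    cases i with
    | Z => exact MM_Z hm
    | A => exact MM_A hm
    | B => exact MM_B hm
    | C => exact MM_C hm
    | D => exact MM_D hm
  -- nontrivial overlaps
  have hsymm : ∀ {i j : Kd} {m : V × ℝ}, (∃ k > 0, ∀ a c : V,
      Wedge (fderiv ℝ (F1 i) m.1) (fderiv ℝ (F2 i) m.1) a c =
        k * Wedge (fderiv ℝ (F1 j) m.1) (fderiv ℝ (F2 j) m.1) a c) →
      (∃ k > 0, ∀ a c : V, Wedge (fderiv ℝ (F1 j) m.1) (fderiv ℝ (F2 j) m.1) a c =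
        k * Wedge (fderiv ℝ (F1 i) m.1) (fderiv ℝ (F2 i) m.1) a c) := by
    rintro i j m ⟨k, hk, h⟩
    refine ⟨k⁻¹, inv_pos.2 hk, fun a c => ?_⟩
    rw [h a c, ← mul_assoc, inv_mul_cancel₀ hk.ne', one_mul]
  have hrefl : ∀ (i : Kd) (m : V × ℝ), (∃ k > 0, ∀ a c : V,
      Wedge (fderiv ℝ (F1 i) m.1) (fderiv ℝ (F2 i) m.1) a c =
        k * Wedge (fderiv ℝ (F1 i) m.1) (fderiv ℝ (F2 i) m.1) a c) :=
    fun i m => ⟨1, one_pos, fun a c => (one_mul _).symm⟩
  have hZA : ∀ m ∈ MM, m ∈ Wk .Z → m ∈ Wk .A → (∃ k > 0, ∀ a c : V,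
      Wedge (fderiv ℝ (F1 .Z) m.1) (fderiv ℝ (F2 .Z) m.1) a c =
        k * Wedge (fderiv ℝ (F1 .A) m.1) (fderiv ℝ (F2 .A) m.1) a c) := by
    intro m hm h1 h2
    have e1 := (hM _ _ h1).1 hm
    have e2 := (hM _ _ h2).1 hm
    exact or_ZA ⟨e1.1, e1.2.1⟩ h2.1 h2.2.1 ⟨e2.1, e2.2.1⟩
  have hZB : ∀ m ∈ MM, m ∈ Wk .Z → m ∈ Wk .B → (∃ k > 0, ∀ a c : V,
      Wedge (fderiv ℝ (F1 .Z) m.1) (fderiv ℝ (F2 .Z) m.1) a c =
        k * Wedge (fderiv ℝ (F1 .B) m.1) (fderiv ℝ (F2 .B) m.1) a c) := by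
    intro m hm h1 h2
    have e1 := (hM _ _ h1).1 hm
    have e2 := (hM _ _ h2).1 hm
    exact or_ZB ⟨e1.1, e1.2.1⟩ h2.1 h2.2.1 ⟨e2.1, e2.2.1⟩
  have hAC : ∀ m ∈ MM, m ∈ Wk .A → m ∈ Wk .C → (∃ k > 0, ∀ a c : V,
      Wedge (fderiv ℝ (F1 .A) m.1) (fderiv ℝ (F2 .A) m.1) a c =
        k * Wedge (fderiv ℝ (F1 .C) m.1) (fderiv ℝ (F2 .C) m.1) a c) := by
    intro m hm h1 h2
    have e1 := (hM _ _ h1).1 hm
    exact or_AC hm h1 h2 ⟨e1.1, e1.2.1⟩
  have hBD : ∀ m ∈ MM, m ∈ Wk .B → m ∈ Wk .D → (∃ k > 0, ∀ a c : V,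
      Wedge (fderiv ℝ (F1 .B) m.1) (fderiv ℝ (F2 .B) m.1) a c =
        k * Wedge (fderiv ℝ (F1 .D) m.1) (fderiv ℝ (F2 .D) m.1) a c) := by
    intro m hm h1 h2
    have e1 := (hM _ _ h1).1 hm
    exact or_BD hm h1 h2 ⟨e1.1, e1.2.1⟩
  have hCD : ∀ m ∈ MM, m ∈ Wk .C → m ∈ Wk .D → (∃ k > 0, ∀ a c : V,
      Wedge (fderiv ℝ (F1 .C) m.1) (fderiv ℝ (F2 .C) m.1) a c =
        k * Wedge (fderiv ℝ (F1 .D) m.1) (fderiv ℝ (F2 .D) m.1) a c) := by
    intro m hm h1 h2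
    have e1 := (hM _ _ h1).1 hm
    exact or_CD h1.1 h2.1 h1.2.1 h1.2.2 ⟨e1.1, e1.2.1⟩
  -- empty overlaps
  have hnZN : ∀ m ∈ MM, m ∈ Wk .Z → nz m.1 < 1 / 8 → nw m.1 < 1 / 8 → False := by
    intro m hm h1 h2 h3
    have e1 := (hM _ _ h1).1 hm
    obtain ⟨-, -, -, -, -, -, -, -, -, -, -, -, h, -⟩ := near_facts h2 h3
    exact h ⟨e1.1, e1.2.1⟩
  have hnAB : ∀ m ∈ MM, m ∈ Wk .A → m ∈ Wk .B → False := by
    intro m hm h1 h2
    have e1 := (hM _ _ h1).1 hm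
    have e2 := (hM _ _ h2).1 hm
    have hs : m.2 = 0 := e2.2.2
    have hl : m.2 = lab m.1 := e1.2.2
    have hp : m.1.2.2.1 = 0 := e2.2.1
    have hr : m.1.2.2.2 = 0 := e1.2.1
    -- `p = r = 0`, so both equations give points of the tubes
    have h0 : alp (0 : ℝ) = 0 := alp_eq_zero_iff.2 (by norm_num)
    have hB : PsB m.1 = 0 := e2.1
    apply h1.2.2.2
    refine ⟨hs, hp, ?_, hB⟩
    unfold PsB at hB
    rw [hr, h0] at hB
    have : bet (kB m.1 - 1 / 2) = 1 := by linarith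
    by_contra hcon
    push Not at hcon
    have h3 : bet (kB m.1 - 1 / 2) = 0 := bet_eq_zero (by linarith)
    rw [h3] at this
    norm_num at this
  have hnAD : ∀ m ∈ MM, m ∈ Wk .A → m ∈ Wk .D → False := by
    intro m hm h1 h2
    have e1 := (hM _ _ h1).1 hm
    obtain ⟨hx1, -, -, -, -, -, -, hkA, -, hal, -, -, -, hSA, -⟩ := near_facts h2.2.1 h2.2.2
    have hr : m.1.2.2.2 = 0 := e1.2.1
    have hA : m.1 ∈ SA := by
      refine ⟨hr, ?_, e1.1⟩
      have hA : PsA m.1 = 0 := e1.1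
      unfold PsA at hA
      rw [hal] at hA
      by_contra hcon
      push Not at hcon
      have h3 : bet (kA m.1 - 1 / 2) = 0 := bet_eq_zero (by linarith)
      rw [h3] at hA
      norm_num at hA
    have hX := (hSA.1 hA).1
    have : nw m.1 = 0 := by
      unfold nw
      rw [hX, hr]
      simp
    have h4 := h2.1
    rw [this] at h4
    exact lt_irrefl _ h4
  have hnBC : ∀ m ∈ MM, m ∈ Wk .B → m ∈ Wk .C → False := by
    intro m hm h1 h2
    have e1 := (hM _ _ h1).1 hm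
    obtain ⟨-, hx1, -, -, -, -, -, -, hkB, -, hal, -, -, -, hSB⟩ := near_facts h2.2.1 h2.2.2
    have hr : m.1.2.2.1 = 0 := e1.2.1
    have hB : m.1 ∈ SB := by
      refine ⟨hr, ?_, e1.1⟩
      have hB : PsB m.1 = 0 := e1.1
      unfold PsB at hB
      rw [hal] at hB
      by_contra hcon
      push Not at hcon
      have h3 : bet (kB m.1 - 1 / 2) = 0 := bet_eq_zero (by linarith)
      rw [h3] at hB
      norm_num at hB
    have hX := (hSB.1 hB).1
    have : nz m.1 = 0 := by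
      unfold nz
      rw [hX, hr]
      simp
    have h4 := h2.1
    rw [this] at h4
    exact lt_irrefl _ h4
  refine exists_surface Wk F1 F2 bk Wk_open (fun m hm => Wk_cover hm) ?_ hM ?_ ?_
  · intro i m hm
    cases i with
    | Z => exact ⟨G1_contDiff.contDiffAt, G2_contDiff.contDiffAt, contDiffAt_const⟩
    | A => exact ⟨PsA_contDiff.contDiffAt, (by
        show ContDiffAt ℝ ∞ (fun v : V => v.2.2.2) m.1
        fun_prop), lab_contDiff.contDiffAt⟩
    | B => exact ⟨PsB_contDiff.contDiffAt, (by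
        show ContDiffAt ℝ ∞ (fun v : V => v.2.2.1) m.1
        fun_prop), contDiffAt_const⟩
    | C => exact ⟨(FC_contDiffAt hm.1).1, (FC_contDiffAt hm.1).2, contDiffAt_const⟩
    | D => exact ⟨(FD_contDiffAt hm.1).1, (FD_contDiffAt hm.1).2, contDiffAt_const⟩
  · intro i m hm hk
    have e := (hM _ _ hk).1 hm
    cases i with
    | Z => exact reg_Z ⟨e.1, e.2.1⟩
    | A => exact reg_A hk.1 e.1 e.2.1
    | B => exact reg_B hk.1 e.1 e.2.1
    | C => exact reg_C hk.1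
    | D => exact reg_D hk.1
  · intro i j m hm hi hj
    cases i with
    | Z =>
      cases j with
      | Z => exact hrefl _ _
      | A => exact hZA m hm hi hj
      | B => exact hZB m hm hi hj
      | C => exact (hnZN m hm hi hj.2.1 hj.2.2).elim
      | D => exact (hnZN m hm hi hj.2.1 hj.2.2).elim
    | A =>
      cases j with
      | Z => exact hsymm (hZA m hm hj hi)
      | A => exact hrefl _ _
      | B => exact (hnAB m hm hi hj).elim
      | C => exact hAC m hm hi hj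
      | D => exact (hnAD m hm hi hj).elim
    | B =>
      cases j with
      | Z => exact hsymm (hZB m hm hj hi)
      | A => exact (hnAB m hm hj hi).elim
      | B => exact hrefl _ _
      | C => exact (hnBC m hm hi hj).elim
      | D => exact hBD m hm hi hj
    | C =>
      cases j with
      | Z => exact (hnZN m hm hj hi.2.1 hi.2.2).elim
      | A => exact hsymm (hAC m hm hj hi)
      | B => exact (hnBC m hm hj hi).elim
      | C => exact hrefl _ _
      | D => exact hCD m hm hi hj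
    | D =>
      cases j with
      | Z => exact (hnZN m hm hj hi.2.1 hi.2.2).elim
      | A => exact (hnAD m hm hj hi).elim
      | B => exact hsymm (hBD m hm hj hi)
      | C => exact hsymm (hCD m hm hj hi)
      | D => exact hrefl _ _

end Pool.Agent.Helper874.Odd
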